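import Pool.Agent.W2helper87.FR.Cs

/-!
# Random subgraphs: the binomial distribution
-/

set_option autoImplicit false

namespace Pool.Agent.W2helper87.FR

open Finset Pool.Agent.H162R2.Sparse Pool.Agent.H162R2.AG Pool.Agent.W2helper87.SR

/-- the probability of exactly `k` edges in `S` -/
noncomputable def PS {n : ℕ} (q : Sym2 (Fin n) → ℝ) (S : Finset (Pr n)) (k : ℕ) : ℝ :=
  pb q (fun G => cS S G = k)

/-- the probability of at least `k` edges in `S` -/
noncomputable def TS {n : ℕ} (q : Sym2 (Fin n) → ℝ) (S : Finset (Pr n)) (k : ℕ) : ℝ :=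
  pb q (fun G => k ≤ cS S G)

theorem pb_ex {n : ℕ} (q : Sym2 (Fin n) → ℝ) (P : SimpleGraph (Fin n) → Prop)
    [DecidablePred P] : pb q P = ex q (fun G => if P G then 1 else 0) := by
  rw [pb_eq]
  congr 1
  funext G
  by_cases h : P G
  · rw [if_pos h, if_pos h]
  · rw [if_neg h, if_neg h]

theorem pb_nonneg {n : ℕ} (q : Sym2 (Fin n) → ℝ) (hq : ∀ e, 0 ≤ q e ∧ q e ≤ 1)
    (P : SimpleGraph (Fin n) → Prop) : 0 ≤ pb q P := by
  classical
  rw [pb_ex]
  unfold ex
  apply sum_nonneg
  intro G _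
  apply mul_nonneg
  · simp only
    split_ifs <;> norm_num
  · exact wt_nonneg q hq G

theorem cS_le {n : ℕ} (S : Finset (Pr n)) (G : SimpleGraph (Fin n)) : cS S G ≤ S.card := by
  classical
  exact card_filter_le _ _

theorem PS_zero {n : ℕ} (q : Sym2 (Fin n) → ℝ) (S : Finset (Pr n)) (k : ℕ) (hk : S.card < k) :
    PS q S k = 0 := by
  classical
  unfold PS
  rw [pb_ex]
  unfold ex
  apply sum_eq_zero
  intro G _
  have := cS_le S G
  simp only
  rw [if_neg (by omega), zero_mul]

/-- the generating function -/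
theorem gf_PS {n : ℕ} (q : Sym2 (Fin n) → ℝ) (S : Finset (Pr n)) (lam : ℝ) :
    ∑ k ∈ range (S.card + 1), PS q S k * (Real.exp lam) ^ k =
      ex q (fun G => Real.exp (lam * cS S G)) := by
  classical
  have h1 : (fun G : SimpleGraph (Fin n) => Real.exp (lam * cS S G)) =
      (fun G => ∑ k ∈ range (S.card + 1), (Real.exp lam) ^ k * (if cS S G = k then 1 else 0)) := by
    funext G
    have h2 := cS_le S G
    rw [sum_eq_single (cS S G)]
    · rw [if_pos rfl, mul_one, ← Real.exp_nat_mul, mul_comm]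
    · intro k _ hk
      rw [if_neg (Ne.symm hk), mul_zero]
    · intro h
      exact absurd (mem_range.2 (by omega)) h
  rw [h1, ex_sum]
  apply sum_congr rfl
  intro k _
  rw [ex_mul]
  unfold PS
  rw [pb_ex, mul_comm]

open Polynomial in
/-- the recursion for the binomial probabilities -/
theorem PS_rec {n : ℕ} (B : SimpleGraph (Fin n)) (p : ℝ) (S : Finset (Pr n)) (k : ℕ) :
    ((k : ℝ) + 1) * (1 - p) * PS (qB B p) S (k + 1) =
      p * ((cS S B : ℝ) - k) * PS (qB B p) S k := by
  classical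
  obtain ⟨N, hN⟩ : ∃ N, N = cS S B := ⟨_, rfl⟩
  set Φ : ℝ[X] := ∑ k ∈ range (S.card + 1), C (PS (qB B p) S k) * X ^ k with hΦ
  set Ψ : ℝ[X] := (C (1 - p) + C p * X) ^ N with hΨ
  have hcoef : ∀ k, Φ.coeff k = PS (qB B p) S k := by
    intro k
    rw [hΦ, finsetSum_coeff]
    simp only [coeff_C_mul, coeff_X_pow]
    rcases Nat.lt_or_ge S.card k with h | h
    · rw [PS_zero _ _ _ h]
      apply sum_eq_zero
      intro j hj
      rw [mem_range] at hj
      rw [if_neg (by omega), mul_zero]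
    · rw [sum_eq_single k]
      · simp
      · intro j _ hj
        rw [if_neg (Ne.symm hj), mul_zero]
      · intro h'
        exact absurd (mem_range.2 (by omega)) h'
  have hEq : Φ = Ψ := by
    apply Polynomial.eq_of_infinite_eval_eq
    apply Set.Infinite.mono (s := Set.Ioi (0 : ℝ))
    · intro x hx
      rw [Set.mem_Ioi] at hx
      rw [Set.mem_ofPred_eq, hΦ, hΨ, eval_finsetSum]
      simp only [eval_mul, eval_C, eval_pow, eval_X, eval_add]
      have h1 := gf_PS (qB B p) S (Real.log x)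
      rw [gf_cS, Real.exp_log hx, ← hN] at h1
      rw [h1]
      congr 1
      ring
    · exact Set.Ioi_infinite 0
  have hder : (C (1 - p) + C p * X) * derivative Ψ = C ((N : ℝ) * p) * Ψ := by
    rw [hΨ, derivative_pow]
    have h1 : derivative (C (1 - p) + C p * X : ℝ[X]) = C p := by
      simp
    rw [h1]
    rcases Nat.eq_zero_or_pos N with h0 | h0
    · subst h0
      simp
    · obtain ⟨M, rfl⟩ : ∃ M, N = M + 1 := ⟨N - 1, by omega⟩
      rw [Nat.add_sub_cancel, pow_succ]
      rw [C_mul]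
      ring
  have h2 : ((C (1 - p) + C p * X) * derivative Ψ).coeff k = (C ((N : ℝ) * p) * Ψ).coeff k := by
    rw [hder]
  rw [add_mul, coeff_add, coeff_C_mul, coeff_C_mul, mul_assoc, coeff_C_mul, ← hEq] at h2
  have h3 : (X * derivative Φ).coeff k = Φ.coeff k * k := by
    rcases Nat.eq_zero_or_pos k with h0 | h0
    · subst h0
      simp
    · obtain ⟨j, rfl⟩ : ∃ j, k = j + 1 := ⟨k - 1, by omega⟩
      rw [coeff_X_mul, coeff_derivative]
      push_cast
      ring
  rw [h3, coeff_derivative, hcoef, hcoef] at h2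
  rw [← hN]
  linarith

theorem PS_nonneg {n : ℕ} (q : Sym2 (Fin n) → ℝ) (hq : ∀ e, 0 ≤ q e ∧ q e ≤ 1)
    (S : Finset (Pr n)) (k : ℕ) : 0 ≤ PS q S k := pb_nonneg q hq _

theorem TS_nonneg {n : ℕ} (q : Sym2 (Fin n) → ℝ) (hq : ∀ e, 0 ≤ q e ∧ q e ≤ 1)
    (S : Finset (Pr n)) (k : ℕ) : 0 ≤ TS q S k := pb_nonneg q hq _

section

variable {n : ℕ} (B : SimpleGraph (Fin n)) (p : ℝ) (hp0 : 0 < p) (hp1 : p < 1)
  (S : Finset (Pr n))

include hp0 hp1 in
theorem PS_ratio (y x : ℝ) (hy : 0 ≤ y) (hx0 : 0 ≤ x)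
    (hx : y + 1 ≤ x * ((cS S B : ℝ) * p * (1 - p))) (k : ℕ) (hk : (k : ℝ) ≤ cS S B * p + y) :
    (1 - x) * PS (qB B p) S k ≤ PS (qB B p) S (k + 1) := by
  have hP := PS_nonneg (qB B p) (qB_01 B p hp0.le hp1.le) S k
  have hrec := PS_rec B p S k
  have h1 : (1 - x) * (((k : ℝ) + 1) * (1 - p)) ≤ p * ((cS S B : ℝ) - k) := by
    have hN : (0 : ℝ) ≤ cS S B := Nat.cast_nonneg _
    have hk0 : (0 : ℝ) ≤ k := Nat.cast_nonneg _
    have h1p : 0 < 1 - p := by linarith
    by_cases hx1 : x ≤ 1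
    · have e1 : (1 - x) * (((k : ℝ) + 1) * (1 - p)) ≤
          (1 - x) * (((cS S B : ℝ) * p + y + 1) * (1 - p)) := by
        apply mul_le_mul_of_nonneg_left _ (by linarith)
        apply mul_le_mul_of_nonneg_right _ h1p.le
        linarith
      have e2 : p * (k : ℝ) ≤ p * (cS S B * p + y) := mul_le_mul_of_nonneg_left hk hp0.le
      have e3 : 0 ≤ x * ((y + 1) * (1 - p)) := by positivity
      nlinarith
    · push Not at hx1
      have e1 : (1 - x) * (((k : ℝ) + 1) * (1 - p)) ≤ 0 := by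
        apply mul_nonpos_of_nonpos_of_nonneg
        · linarith
        · positivity
      -- here the probability may vanish; use the bound on `k` if possible
      by_cases hkN : (k : ℝ) ≤ cS S B
      · have : 0 ≤ p * ((cS S B : ℝ) - k) := mul_nonneg hp0.le (by linarith)
        linarith
      · push Not at hkN
        -- `k > N`, so `N p (1 - p) < y`, but also `y + 1 ≤ x N p (1 - p)`
        have e2 : p * (k : ℝ) ≤ p * (cS S B * p + y) := mul_le_mul_of_nonneg_left hk hp0.le
        have e3 : (x - 1) * (1 - p) * ((cS S B : ℝ) * p + 1) ≤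
            (x - 1) * (1 - p) * ((k : ℝ) + 1) := by
          apply mul_le_mul_of_nonneg_left _ (by
            apply mul_nonneg
            · linarith
            · exact h1p.le)
          have : (cS S B : ℝ) * p ≤ cS S B * 1 := mul_le_mul_of_nonneg_left hp1.le hN
          linarith
        have e4 : (x - 1) * (1 - p) * ((cS S B : ℝ) * p) =
            x * ((cS S B : ℝ) * p * (1 - p)) - (cS S B : ℝ) * p * (1 - p) := by ring
        have e5 : 0 ≤ (x - 1) * (1 - p) := by
          apply mul_nonneg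
          · linarith
          · exact h1p.le
        nlinarith
  have h2 : 0 < ((k : ℝ) + 1) * (1 - p) := by
    apply mul_pos
    · positivity
    · linarith
  have h3 : (1 - x) * (((k : ℝ) + 1) * (1 - p)) * PS (qB B p) S k ≤
      p * ((cS S B : ℝ) - k) * PS (qB B p) S k := mul_le_mul_of_nonneg_right h1 hP
  rw [← hrec] at h3
  have h4 : ((k : ℝ) + 1) * (1 - p) * ((1 - x) * PS (qB B p) S k) ≤
      ((k : ℝ) + 1) * (1 - p) * PS (qB B p) S (k + 1) := by linarith
  exact le_of_mul_le_mul_left h4 h2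

include hp0 hp1 in
theorem PS_pow (y x : ℝ) (hy : 0 ≤ y) (hx0 : 0 ≤ x) (hx1 : x ≤ 1)
    (hx : y + 1 ≤ x * ((cS S B : ℝ) * p * (1 - p))) (k m : ℕ)
    (hk : ((k + m : ℕ) : ℝ) ≤ cS S B * p + y) (i : ℕ) (hi : i ≤ m) :
    (1 - x) ^ i * PS (qB B p) S k ≤ PS (qB B p) S (k + i) := by
  induction i with
  | zero => simp
  | succ i ih =>
    have h1 := ih (by omega)
    have h2 := PS_ratio B p hp0 hp1 S y x hy hx0 hx (k + i) (by
      refine le_trans ?_ hk
      exact_mod_cast (by omega : k + i ≤ k + m))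
    calc (1 - x) ^ (i + 1) * PS (qB B p) S k = (1 - x) * ((1 - x) ^ i * PS (qB B p) S k) := by ring
      _ ≤ (1 - x) * PS (qB B p) S (k + i) := by
          apply mul_le_mul_of_nonneg_left h1
          linarith
      _ ≤ PS (qB B p) S (k + (i + 1)) := h2

include hp0 hp1 in
theorem PS_le_TS (y x : ℝ) (hy : 0 ≤ y) (hx0 : 0 ≤ x) (m : ℕ) (hm : 1 ≤ m) (hmx : m * x ≤ 1 / 2)
    (hx : y + 1 ≤ x * ((cS S B : ℝ) * p * (1 - p))) (k : ℕ)
    (hk : ((k + m : ℕ) : ℝ) ≤ cS S B * p + y) :
    PS (qB B p) S k ≤ 2 / m * TS (qB B p) S (k + 1) := by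
  classical
  have hq := qB_01 B p hp0.le hp1.le
  have hmr : (1 : ℝ) ≤ m := by exact_mod_cast hm
  have hx1 : x ≤ 1 := by nlinarith
  have hP := PS_nonneg (qB B p) hq S k
  have h1 : ∑ i ∈ range m, PS (qB B p) S (k + (i + 1)) ≤ TS (qB B p) S (k + 1) := by
    unfold PS TS
    simp_rw [pb_ex]
    rw [← ex_sum]
    apply ex_mono _ hq
    intro G
    by_cases h : k + 1 ≤ cS S G
    · rw [if_pos h]
      rw [sum_boole]
      have : (filter (fun i => cS S G = k + (i + 1)) (range m)).card ≤ 1 := by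
        rw [card_le_one]
        intro a ha b hb
        rw [mem_filter] at ha hb
        omega
      exact_mod_cast this
    · rw [if_neg h]
      apply le_of_eq
      apply sum_eq_zero
      intro i _
      rw [if_neg (by omega)]
  have h2 : ∑ i ∈ range m, (1 / 2 : ℝ) * PS (qB B p) S k ≤
      ∑ i ∈ range m, PS (qB B p) S (k + (i + 1)) := by
    apply sum_le_sum
    intro i hi
    rw [mem_range] at hi
    have h3 := PS_pow B p hp0 hp1 S y x hy hx0 hx1 hx k m hk (i + 1) (by omega)
    refine le_trans ?_ h3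
    apply mul_le_mul_of_nonneg_right _ hP
    have h4 := one_add_mul_le_pow (a := -x) (by linarith) (i + 1)
    have h5 : ((i + 1 : ℕ) : ℝ) ≤ m := by exact_mod_cast (by omega : i + 1 ≤ m)
    have h6 : ((i + 1 : ℕ) : ℝ) * x ≤ m * x := by gcongr
    have h7 : (1 - x) ^ (i + 1) = (1 + -x) ^ (i + 1) := by ring
    rw [h7]
    linarith
  rw [sum_const, card_range, nsmul_eq_mul] at h2
  rw [div_mul_eq_mul_div, le_div_iff₀ (by linarith)]
  linarith

theorem TS_succ (q : Sym2 (Fin n) → ℝ) (k : ℕ) : TS q S k = PS q S k + TS q S (k + 1) := by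
  classical
  unfold PS TS
  simp_rw [pb_ex]
  rw [← ex_add]
  congr 1
  funext G
  by_cases h1 : cS S G = k
  · rw [if_pos h1.ge, if_pos h1, if_neg (by omega)]
    norm_num
  · by_cases h2 : k ≤ cS S G
    · rw [if_pos h2, if_neg h1, if_pos (by omega)]
      norm_num
    · rw [if_neg h2, if_neg h1, if_neg (by omega)]
      norm_num

include hp0 hp1 in
/-- comparison of the tails -/
theorem TS_cmp (y x : ℝ) (hy : 0 ≤ y) (hx0 : 0 ≤ x) (m : ℕ) (hm : 1 ≤ m) (hmx : m * x ≤ 1 / 2)
    (hx : y + 1 ≤ x * ((cS S B : ℝ) * p * (1 - p))) (k s : ℕ)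
    (hk : ((k + s + m : ℕ) : ℝ) ≤ cS S B * p + y) :
    TS (qB B p) S k ≤ Real.exp (2 / m * s) * TS (qB B p) S (k + s) := by
  have hq := qB_01 B p hp0.le hp1.le
  have hmr : (1 : ℝ) ≤ m := by exact_mod_cast hm
  induction s with
  | zero => simp
  | succ s ih =>
    have h1 := ih (by
      refine le_trans ?_ hk
      exact_mod_cast (by omega : k + s + m ≤ k + (s + 1) + m))
    have h2 := PS_le_TS B p hp0 hp1 S y x hy hx0 m hm hmx hx (k + s) (by
      refine le_trans ?_ hk
      exact_mod_cast (by omega : k + s + m ≤ k + (s + 1) + m))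
    have h3 := TS_succ S (qB B p) (k + s)
    have h4 := TS_nonneg (qB B p) hq S (k + s + 1)
    have h5 : TS (qB B p) S (k + s) ≤ (1 + 2 / m) * TS (qB B p) S (k + s + 1) := by
      rw [h3]
      linarith
    have h6 := Real.add_one_le_exp (2 / (m : ℝ))
    calc TS (qB B p) S k ≤ Real.exp (2 / m * s) * TS (qB B p) S (k + s) := h1
      _ ≤ Real.exp (2 / m * s) * ((1 + 2 / m) * TS (qB B p) S (k + s + 1)) := by
          apply mul_le_mul_of_nonneg_left h5 (Real.exp_pos _).le
      _ ≤ Real.exp (2 / m * s) * (Real.exp (2 / m) * TS (qB B p) S (k + s + 1)) := by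
          apply mul_le_mul_of_nonneg_left _ (Real.exp_pos _).le
          apply mul_le_mul_of_nonneg_right _ h4
          linarith
      _ = Real.exp (2 / m * (s + 1 : ℕ)) * TS (qB B p) S (k + (s + 1)) := by
          rw [← mul_assoc, ← Real.exp_add]
          congr 2
          push_cast
          ring

end

end Pool.Agent.W2helper87.FR
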