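import Pool.Agent.W2helper87.FR.Lab

/-!
# Bipartite graphs with caps
-/

set_option autoImplicit false

namespace Pool.Agent.W2helper87.FR

open Finset Pool.Agent.H162R2.Sparse Pool.Agent.H162R2.AG

/-- from the oriented edges to the graph -/
theorem lc_of_oriented {n : ℕ} (G : SimpleGraph (Fin n)) (σ : Fin n → Bool)
    (hσ : ∀ a b, G.Adj a b → σ a ≠ σ b) (L : Fin n → Fin n → Finset ℕ) (hLs : ∀ a b, L a b = L b a)
    (E : Finset (Fin n × Fin n)) (hE : ∀ e, e ∈ E ↔ G.Adj e.1 e.2 ∧ σ e.1 = true)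
    (col : Fin n × Fin n → ℕ) (hcol1 : ∀ e ∈ E, col e ∈ L e.1 e.2)
    (hcol2 : ∀ e ∈ E, ∀ e' ∈ E, e ≠ e' → (e.1 = e'.1 ∨ e.2 = e'.2) → col e ≠ col e') :
    LC G L := by
  refine ⟨fun a b => if σ a = true then col (a, b) else col (b, a), ?_, ?_, ?_⟩
  · intro a b hab
    have := hσ a b hab
    simp only
    by_cases ha : σ a = true
    · rw [if_pos ha, if_neg (fun hb => this (ha.trans hb.symm))]
    · have hb : σ b = true := by
        rw [Bool.not_eq_true] at ha
        rw [ha] at this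
        cases hsb : σ b
        · exact absurd hsb.symm this
        · rfl
      rw [if_neg ha, if_pos hb]
  · intro a b hab
    have := hσ a b hab
    simp only
    by_cases ha : σ a = true
    · rw [if_pos ha]
      exact hcol1 (a, b) ((hE (a, b)).2 ⟨hab, ha⟩)
    · have hb : σ b = true := by
        rw [Bool.not_eq_true] at ha
        rw [ha] at this
        cases hsb : σ b
        · exact absurd hsb.symm this
        · rfl
      rw [if_neg ha, hLs a b]
      exact hcol1 (b, a) ((hE (b, a)).2 ⟨hab.symm, hb⟩)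
  · intro a b d hab had hbd
    simp only
    by_cases ha : σ a = true
    · rw [if_pos ha, if_pos ha]
      refine hcol2 (a, b) ((hE (a, b)).2 ⟨hab, ha⟩) (a, d) ((hE (a, d)).2 ⟨had, ha⟩)
        (fun h => hbd (Prod.ext_iff.1 h).2) (Or.inl rfl)
    · have hb : ∀ x, G.Adj a x → σ x = true := by
        intro x hx
        have := hσ a x hx
        rw [Bool.not_eq_true] at ha
        rw [ha] at this
        cases hsb : σ x
        · exact absurd hsb.symm this
        · rfl
      rw [if_neg ha, if_neg ha]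
      refine hcol2 (b, a) ((hE (b, a)).2 ⟨hab.symm, hb b hab⟩) (d, a)
        ((hE (d, a)).2 ⟨had.symm, hb d had⟩) (fun h => hbd (Prod.ext_iff.1 h).1) (Or.inr rfl)

theorem fin6 (p : Fin 6 → Prop) (h0 : p 0) (h1 : p 1) (h2 : p 2) (h3 : p 3) (h4 : p 4)
    (h5 : p 5) (i : Fin 6) : p i := by
  fin_cases i <;> assumption

theorem fam {α : Type} {n : ℕ} (B0 B1 B2 B3 B4 B5 : Fin n → α) :
    ∃ A : Fin n × Fin 6 → α, (∀ u, A (u, 0) = B0 u) ∧ (∀ u, A (u, 1) = B1 u) ∧
      (∀ u, A (u, 2) = B2 u) ∧ (∀ u, A (u, 3) = B3 u) ∧ (∀ u, A (u, 4) = B4 u) ∧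
      (∀ u, A (u, 5) = B5 u) :=
  ⟨fun i => (![B0 i.1, B1 i.1, B2 i.1, B3 i.1, B4 i.1, B5 i.1] : Fin 6 → α) i.2,
    fun _ => rfl, fun _ => rfl, fun _ => rfl, fun _ => rfl, fun _ => rfl, fun _ => rfl⟩

set_option maxHeartbeats 4000000 in
open Classical in
theorem capG : ∃ C : ℝ, 1 ≤ C ∧ ∀ n : ℕ, 2 ≤ n → ∀ D r : ℕ, 4 * r ≤ D → D ≤ n →
    ∀ (G : SimpleGraph (Fin n)) (σ : Fin n → Bool), (∀ a b, G.Adj a b → σ a ≠ σ b) →
    ∀ P : Finset (Fin n), (∀ v, dg G v ≤ D) → (∀ v ∈ P, dg G v + r ≤ D) →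
    ∀ L : Fin n → Fin n → Finset ℕ, (∀ a b, L a b = L b a) →
    ∀ F : Fin n → Fin n → Prop, (∀ a b, F a b → F b a) → ∀ f g y err φ : ℝ,
    0 ≤ y → y ≤ r → g ≤ D / 4 →
    (∀ v, cnt (fun w => G.Adj v w ∧ F v w) ≤ f) →
    (∀ v, (((nb G v).filter (fun w => w ∈ P)).card : ℝ) ≤ g) →
    C * Real.sqrt (r * Real.log n) + C * Real.log n ≤ err → 8 * err ≤ r →
    C * ((f / D + err / r) * (y + Real.log n) + Real.log n + err + g * r / D + (r : ℝ) ^ 2 / D) ≤
      φ →
    (∀ a b, G.Adj a b → (D : ℝ) + φ ≤ (L a b).card + (if a ∈ P then (r : ℝ) else 0) +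
      (if b ∈ P then (r : ℝ) else 0) + (if F a b then y else 0)) → LC G L := by
  obtain ⟨C₀, hC₀, hsub⟩ := rsub
  obtain ⟨C₁, hC₁, hlab⟩ := lab
  refine ⟨24 * C₁ + C₀ + 10, by linarith, ?_⟩
  set C := 24 * C₁ + C₀ + 10 with hC
  intro n hn D r hrD hDn G σ hσ P hdeg hdegP L hLs F hFs f g y err φ hy hyr hfD hF hPf herr h8 hφ hL
  have hnr : (2 : ℝ) ≤ n := by exact_mod_cast hn
  set l := Real.log n with hl
  have hl2 : (0.69 : ℝ) ≤ l := by
    have h1 : Real.log 2 ≤ Real.log n := Real.log_le_log (by norm_num) hnr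
    have := Real.log_two_gt_d9
    linarith
  have hl0 : 0 < l := by linarith
  have hs0 : 0 ≤ Real.sqrt (r * l) := Real.sqrt_nonneg _
  have herr1 : 10 * l ≤ err := by nlinarith
  have herr0 : 0 ≤ err := by linarith
  have hr0 : (0 : ℝ) < r := by linarith
  have hrDr : 4 * (r : ℝ) ≤ D := by exact_mod_cast hrD
  have hD0 : (0 : ℝ) < D := by linarith
  have hf0 : 0 ≤ f := le_trans (cnt_nonneg _) (hF ⟨0, by omega⟩)
  have hg0 : 0 ≤ g := le_trans (Nat.cast_nonneg _) (hPf ⟨0, by omega⟩)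
  set ρ : ℝ := r / D with hρ
  have hρ0 : 0 ≤ ρ := by positivity
  have hρ1 : ρ ≤ 1 / 4 := by
    rw [hρ, div_le_iff₀ hD0]
    linarith
  have hρD : ρ * D = r := by rw [hρ]; field_simp
  have herrC : ∀ a : ℝ, 0 ≤ a → a ≤ D → C₀ * Real.sqrt (ρ * a * l) + C₀ * l ≤ err := by
    intro a ha0 ha
    have h1 : Real.sqrt (ρ * a * l) ≤ Real.sqrt (r * l) := by
      apply Real.sqrt_le_sqrt
      have : ρ * a ≤ ρ * D := by gcongr
      rw [hρD] at this
      gcongr
    have h2 : C₀ ≤ C := by rw [hC]; linarith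
    have h3 : C₀ * Real.sqrt (ρ * a * l) ≤ C * Real.sqrt (r * l) :=
      mul_le_mul h2 h1 (Real.sqrt_nonneg _) (by linarith)
    have h4 : C₀ * l ≤ C * l := by gcongr
    linarith
  -- the oriented edges
  obtain ⟨E, hE⟩ : ∃ E : Finset (Fin n × Fin n), ∀ e, e ∈ E ↔ G.Adj e.1 e.2 ∧ σ e.1 = true :=
    ⟨univ.filter (fun e => G.Adj e.1 e.2 ∧ σ e.1 = true), fun e => by simp⟩
  have hnb : ∀ v w, w ∈ nb G v ↔ G.Adj v w := by
    intro v w
    simp [nb]
  have inj1 : ∀ (u : Fin n) (S : Finset (Fin n × Fin n)), (∀ e ∈ S, e.1 = u) →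
      Set.InjOn (fun e : Fin n × Fin n => e.2) S := by
    intro u S hS e he e' he' hee
    exact Prod.ext ((hS e he).trans (hS e' he').symm) hee
  have inj2 : ∀ (u : Fin n) (S : Finset (Fin n × Fin n)), (∀ e ∈ S, e.2 = u) →
      Set.InjOn (fun e : Fin n × Fin n => e.1) S := by
    intro u S hS e he e' he' hee
    exact Prod.ext hee ((hS e he).trans (hS e' he').symm)
  have hd1 : ∀ u, (E.filter (fun e => e.1 = u)).card ≤ dg G u := by
    intro u
    refine Finset.card_le_card_of_injOn (fun e => e.2) (fun e he => ?_)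
      (inj1 u _ fun e he => (mem_filter.1 he).2)
    rw [Finset.mem_coe, Finset.mem_filter, hE] at he
    rw [Finset.mem_coe, hnb, ← he.2]
    exact he.1.1
  have hd2 : ∀ u, (E.filter (fun e => e.2 = u)).card ≤ dg G u := by
    intro u
    refine Finset.card_le_card_of_injOn (fun e => e.1) (fun e he => ?_)
      (inj2 u _ fun e he => (mem_filter.1 he).2)
    rw [Finset.mem_coe, Finset.mem_filter, hE] at he
    rw [Finset.mem_coe, hnb, ← he.2]
    exact he.1.1.symm
  have hP1 : ∀ u, (((E.filter (fun e => e.1 = u)).card : ℝ)) - g ≤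
      (E.filter (fun e => e.1 = u ∧ e.2 ∉ P)).card := by
    intro u
    have h1 : (E.filter (fun e => e.1 = u ∧ e.2 ∈ P)).card ≤
        ((nb G u).filter (fun w => w ∈ P)).card := by
      refine Finset.card_le_card_of_injOn (fun e => e.2) (fun e he => ?_)
        (inj1 u _ fun e he => (mem_filter.1 he).2.1)
      rw [Finset.mem_coe, Finset.mem_filter, hE] at he
      rw [Finset.mem_coe, Finset.mem_filter, hnb, ← he.2.1]
      exact ⟨he.1.1, he.2.2⟩
    have h2 := card_filter_add_card_filter_not (s := E.filter (fun e => e.1 = u))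
      (fun e => e.2 ∈ P)
    rw [filter_filter, filter_filter] at h2
    have h3 := hPf u
    have h4 : (((E.filter (fun e => e.1 = u ∧ e.2 ∈ P)).card : ℝ)) ≤
      ((nb G u).filter (fun w => w ∈ P)).card := by exact_mod_cast h1
    have h5 : ((E.filter (fun e => e.1 = u ∧ e.2 ∈ P)).card : ℝ) +
      (E.filter (fun e => e.1 = u ∧ e.2 ∉ P)).card = (E.filter (fun e => e.1 = u)).card := by
      exact_mod_cast h2
    linarith
  have hP2 : ∀ u, (((E.filter (fun e => e.2 = u)).card : ℝ)) - g ≤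
      (E.filter (fun e => e.2 = u ∧ e.1 ∉ P)).card := by
    intro u
    have h1 : (E.filter (fun e => e.2 = u ∧ e.1 ∈ P)).card ≤
        ((nb G u).filter (fun w => w ∈ P)).card := by
      refine Finset.card_le_card_of_injOn (fun e => e.1) (fun e he => ?_)
        (inj2 u _ fun e he => (mem_filter.1 he).2.1)
      rw [Finset.mem_coe, Finset.mem_filter, hE] at he
      rw [Finset.mem_coe, Finset.mem_filter, hnb, ← he.2.1]
      exact ⟨he.1.1.symm, he.2.2⟩
    have h2 := card_filter_add_card_filter_not (s := E.filter (fun e => e.2 = u))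
      (fun e => e.1 ∈ P)
    rw [filter_filter, filter_filter] at h2
    have h3 := hPf u
    have h4 : (((E.filter (fun e => e.2 = u ∧ e.1 ∈ P)).card : ℝ)) ≤
      ((nb G u).filter (fun w => w ∈ P)).card := by exact_mod_cast h1
    have h5 : ((E.filter (fun e => e.2 = u ∧ e.1 ∈ P)).card : ℝ) +
      (E.filter (fun e => e.2 = u ∧ e.1 ∉ P)).card = (E.filter (fun e => e.2 = u)).card := by
      exact_mod_cast h2
    linarith
  have hF1 : ∀ u, ((E.filter (fun e => e.1 = u ∧ F e.1 e.2)).card : ℝ) ≤ f := by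
    intro u
    refine le_trans ?_ (hF u)
    rw [cnt_eq_card]
    norm_cast
    refine Finset.card_le_card_of_injOn (fun e => e.2) (fun e he => ?_)
      (inj1 u _ fun e he => (mem_filter.1 he).2.1)
    rw [Finset.mem_coe, Finset.mem_filter, hE] at he
    obtain ⟨⟨ha, hb⟩, hc, hd⟩ := he
    rw [Finset.mem_coe, Finset.mem_filter]
    subst hc
    exact ⟨Finset.mem_univ _, ha, hd⟩
  have hF2 : ∀ u, ((E.filter (fun e => e.2 = u ∧ F e.1 e.2)).card : ℝ) ≤ f := by
    intro u
    refine le_trans ?_ (hF u)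
    rw [cnt_eq_card]
    norm_cast
    refine Finset.card_le_card_of_injOn (fun e => e.1) (fun e he => ?_)
      (inj2 u _ fun e he => (mem_filter.1 he).2.1)
    rw [Finset.mem_coe, Finset.mem_filter, hE] at he
    obtain ⟨⟨ha, hb⟩, hc, hd⟩ := he
    rw [Finset.mem_coe, Finset.mem_filter]
    subst hc
    exact ⟨Finset.mem_univ _, ha.symm, hFs _ _ hd⟩
  have hDu1 : ∀ u, ((E.filter (fun e => e.1 = u)).card : ℝ) ≤ D := fun u => by
    exact_mod_cast (hd1 u).trans (hdeg u)
  have hDu2 : ∀ u, ((E.filter (fun e => e.2 = u)).card : ℝ) ≤ D := fun u => by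
    exact_mod_cast (hd2 u).trans (hdeg u)
  have hDP1 : ∀ u ∈ P, ((E.filter (fun e => e.1 = u)).card : ℝ) ≤ D - r := fun u hu => by
    have h1 : ((E.filter (fun e => e.1 = u)).card + r : ℕ) ≤ D :=
      (Nat.add_le_add_right (hd1 u) r).trans (hdegP u hu)
    have h2 : ((E.filter (fun e => e.1 = u)).card : ℝ) + r ≤ D := by exact_mod_cast h1
    linarith
  have hDP2 : ∀ u ∈ P, ((E.filter (fun e => e.2 = u)).card : ℝ) ≤ D - r := fun u hu => by
    have h1 : ((E.filter (fun e => e.2 = u)).card + r : ℕ) ≤ D :=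
      (Nat.add_le_add_right (hd2 u) r).trans (hdegP u hu)
    have h2 : ((E.filter (fun e => e.2 = u)).card : ℝ) + r ≤ D := by exact_mod_cast h1
    linarith
  -- the two random sets
  obtain ⟨A, hA0, hA1, hA2, hA3, hA4, hA5⟩ := fam (fun u => E.filter (fun e => e.1 = u))
    (fun u => E.filter (fun e => e.2 = u)) (fun u => E.filter (fun e => e.2 = u ∧ e.1 ∉ P))
    (fun u => E.filter (fun e => e.1 = u ∧ F e.1 e.2))
    (fun u => E.filter (fun e => e.2 = u ∧ F e.1 e.2))
    (fun u => E.filter (fun e => e.1 = u ∧ e.2 ∉ P))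
  have hAD : ∀ i, ((A i).card : ℝ) ≤ D := by
    rintro ⟨u, i⟩
    have g1 : ∀ (Q : Fin n × Fin n → Prop) [DecidablePred Q],
        ((E.filter (fun e => e.1 = u ∧ Q e)).card : ℝ) ≤ D := by
      intro Q _
      have h1 : E.filter (fun e => e.1 = u ∧ Q e) ⊆ E.filter (fun e => e.1 = u) := by
        intro e he
        rw [mem_filter] at he ⊢
        exact ⟨he.1, he.2.1⟩
      exact le_trans (by exact_mod_cast card_le_card h1) (hDu1 u)
    have g2 : ∀ (Q : Fin n × Fin n → Prop) [DecidablePred Q],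
        ((E.filter (fun e => e.2 = u ∧ Q e)).card : ℝ) ≤ D := by
      intro Q _
      have h1 : E.filter (fun e => e.2 = u ∧ Q e) ⊆ E.filter (fun e => e.2 = u) := by
        intro e he
        rw [mem_filter] at he ⊢
        exact ⟨he.1, he.2.1⟩
      exact le_trans (by exact_mod_cast card_le_card h1) (hDu2 u)
    refine fin6 (fun i => ((A (u, i)).card : ℝ) ≤ D) ?_ ?_ ?_ ?_ ?_ ?_ i
    · rw [hA0]
      exact hDu1 u
    · rw [hA1]
      exact hDu2 u
    · rw [hA2]
      exact g2 (fun e => e.1 ∉ P)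
    · rw [hA3]
      exact g1 (fun e => F e.1 e.2)
    · rw [hA4]
      exact g2 (fun e => F e.1 e.2)
    · rw [hA5]
      exact g1 (fun e => e.2 ∉ P)
  have hcardI : Fintype.card (Fin n × Fin 6) ≤ n ^ 4 := by
    rw [Fintype.card_prod, Fintype.card_fin, Fintype.card_fin]
    have : 8 ≤ n ^ 3 := by
      calc 8 = 2 ^ 3 := by norm_num
        _ ≤ n ^ 3 := Nat.pow_le_pow_left hn 3
    calc n * 6 ≤ n * n ^ 3 := Nat.mul_le_mul_left _ (by omega)
      _ = n ^ 4 := by ring
  obtain ⟨Rb, hRb⟩ := hsub n hn ρ hρ0 (by linarith) (Fin n × Fin n) (Fin n × Fin 6) hcardI A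
  obtain ⟨Rt, hRt⟩ := hsub n hn ρ hρ0 (by linarith) (Fin n × Fin n) (Fin n × Fin 6) hcardI
    (fun i => A i \ Rb)
  have hb : ∀ i, ρ * (A i).card - err ≤ ((A i ∩ Rb).card : ℝ) ∧
      ((A i ∩ Rb).card : ℝ) ≤ ρ * (A i).card + err := by
    intro i
    have h1 := (hRb i).trans (herrC _ (Nat.cast_nonneg _) (hAD i))
    rw [abs_le] at h1
    constructor <;> linarith [h1.1, h1.2]
  have hAR : ∀ i, ((A i \ Rb).card : ℝ) ≤ (A i).card := fun i => by
    exact_mod_cast card_le_card sdiff_subset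
  have ht : ∀ i, ρ * (A i \ Rb).card - err ≤ (((A i \ Rb) ∩ Rt).card : ℝ) ∧
      (((A i \ Rb) ∩ Rt).card : ℝ) ≤ ρ * (A i \ Rb).card + err := by
    intro i
    have h1 := (hRt i).trans (herrC _ (Nat.cast_nonneg _) ((hAR i).trans (hAD i)))
    rw [abs_le] at h1
    constructor <;> linarith [h1.1, h1.2]
  have hsd : ∀ i, ((A i).card : ℝ) - ρ * (A i).card - err ≤ ((A i \ Rb).card : ℝ) := by
    intro i
    have h1 := card_sdiff_add_card_inter (A i) Rb
    have h2 : ((A i \ Rb).card : ℝ) + (A i ∩ Rb).card = (A i).card := by exact_mod_cast h1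
    linarith [(hb i).2]
  -- the three groups
  let Eb : Finset (Fin n × Fin n) := E.filter (fun e => e ∈ Rb ∧ e.1 ∉ P)
  let Et : Finset (Fin n × Fin n) := E.filter (fun e => e ∈ Rt ∧ e ∉ Rb ∧ e.2 ∉ P)
  let Em : Finset (Fin n × Fin n) := E.filter (fun e => ¬ (e ∈ Rb ∧ e.1 ∉ P) ∧
    ¬ (e ∈ Rt ∧ e ∉ Rb ∧ e.2 ∉ P))
  have hbm : Disjoint Eb Em := by
    rw [disjoint_left]
    intro e h1 h2
    simp only [Eb, Em, mem_filter] at h1 h2
    exact h2.2.1 h1.2
  have hmt : Disjoint Em Et := by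
    rw [disjoint_left]
    intro e h1 h2
    simp only [Et, Em, mem_filter] at h1 h2
    exact h1.2.2 h2.2
  have hbt : Disjoint Eb Et := by
    rw [disjoint_left]
    intro e h1 h2
    simp only [Et, Eb, mem_filter] at h1 h2
    exact h2.2.2.1 h1.2.1
  have hun : Eb ∪ Em ∪ Et = E := by
    ext e
    simp only [Eb, Em, Et, mem_union, mem_filter]
    constructor
    · rintro ((h | h) | h) <;> exact h.1
    · intro h
      by_cases h1 : e ∈ Rb ∧ e.1 ∉ P
      · exact Or.inl (Or.inl ⟨h, h1⟩)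
      · by_cases h2 : e ∈ Rt ∧ e ∉ Rb ∧ e.2 ∉ P
        · exact Or.inr ⟨h, h2⟩
        · exact Or.inl (Or.inr ⟨h, h1, h2⟩)
  have hsum : ∀ (Q : Fin n × Fin n → Prop) [DecidablePred Q], ((Em.filter Q).card : ℝ) =
      (E.filter Q).card - (Eb.filter Q).card - (Et.filter Q).card := by
    intro Q _
    have h1 : ((Eb ∪ Em ∪ Et).filter Q).card =
        (Eb.filter Q).card + (Em.filter Q).card + (Et.filter Q).card := by
      rw [filter_union, filter_union, card_union_of_disjoint, card_union_of_disjoint]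
      · exact disjoint_filter_filter hbm
      · rw [← filter_union]
        exact disjoint_filter_filter (disjoint_union_left.2 ⟨hbt, hmt⟩)
    rw [hun] at h1
    have h2 : ((E.filter Q).card : ℝ) =
        (Eb.filter Q).card + (Em.filter Q).card + (Et.filter Q).card := by exact_mod_cast h1
    linarith
  set Db : ℕ := ⌈(r : ℝ) + err⌉₊ with hDb
  set Dm : ℕ := ⌈(D : ℝ) - 2 * r + 4 * err + g * r / D + 2 * r ^ 2 / D⌉₊ with hDm
  have hDb1 : (r : ℝ) + err ≤ Db := Nat.le_ceil _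
  have hDb2 : (Db : ℝ) < r + err + 1 := Nat.ceil_lt_add_one (by positivity)
  have hfr : 0 ≤ g * r / D := by positivity
  have hrr : 0 ≤ (r : ℝ) ^ 2 / D := by positivity
  have hrr' : 2 * (r : ℝ) ^ 2 / D = 2 * (r ^ 2 / D) := by ring
  have hDm1 : (D : ℝ) - 2 * r + 4 * err + g * r / D + 2 * r ^ 2 / D ≤ Dm := Nat.le_ceil _
  have hDm2 : (Dm : ℝ) < D - 2 * r + 4 * err + g * r / D + 2 * r ^ 2 / D + 1 :=
    Nat.ceil_lt_add_one (by
      rw [hrr']
      linarith)
  rw [hrr'] at hDm1 hDm2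
  have hfρ : g * r / D = ρ * g := by rw [hρ]; ring
  have hrρ : (r : ℝ) ^ 2 / D = ρ * r := by rw [hρ]; ring
  have hrρ2 : ρ * ρ * D = ρ * r := by rw [mul_assoc, hρD]
  have hfr4 : g * r / D ≤ r / 4 := by
    rw [div_le_iff₀ hD0]
    nlinarith
  have hrr4 : (r : ℝ) ^ 2 / D ≤ r / 4 := by
    rw [hrρ]
    nlinarith
  -- degrees of the first group
  have hEb1 : ∀ u, (Eb.filter (fun e => e.1 = u)).card ≤ Db := by
    intro u
    have h1 : Eb.filter (fun e => e.1 = u) ⊆ A (u, 0) ∩ Rb := by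
      intro e he
      simp only [Eb, mem_filter] at he
      rw [hA0, mem_inter, mem_filter]
      exact ⟨⟨he.1.1, he.2⟩, he.1.2.1⟩
    have h2 : ((Eb.filter (fun e => e.1 = u)).card : ℝ) ≤ (A (u, 0) ∩ Rb).card := by
      exact_mod_cast card_le_card h1
    have h3 := (hb (u, 0)).2
    have h4 := hAD (u, 0)
    have h5 : ρ * ((A (u, 0)).card : ℝ) ≤ ρ * D := by gcongr
    rw [hρD] at h5
    have h6 : ((Eb.filter (fun e => e.1 = u)).card : ℝ) ≤ Db := by linarith
    exact_mod_cast h6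
  have hEb2 : ∀ u, (Eb.filter (fun e => e.2 = u)).card ≤ Db := by
    intro u
    have h1 : Eb.filter (fun e => e.2 = u) ⊆ A (u, 1) ∩ Rb := by
      intro e he
      simp only [Eb, mem_filter] at he
      rw [hA1, mem_inter, mem_filter]
      exact ⟨⟨he.1.1, he.2⟩, he.1.2.1⟩
    have h2 : ((Eb.filter (fun e => e.2 = u)).card : ℝ) ≤ (A (u, 1) ∩ Rb).card := by
      exact_mod_cast card_le_card h1
    have h3 := (hb (u, 1)).2
    have h4 := hAD (u, 1)
    have h5 : ρ * ((A (u, 1)).card : ℝ) ≤ ρ * D := by gcongr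
    rw [hρD] at h5
    have h6 : ((Eb.filter (fun e => e.2 = u)).card : ℝ) ≤ Db := by linarith
    exact_mod_cast h6
  have hEt1 : ∀ u, (Et.filter (fun e => e.1 = u)).card ≤ Db := by
    intro u
    have h1 : Et.filter (fun e => e.1 = u) ⊆ (A (u, 0) \ Rb) ∩ Rt := by
      intro e he
      simp only [Et, mem_filter] at he
      rw [hA0, mem_inter, mem_sdiff, mem_filter]
      exact ⟨⟨⟨he.1.1, he.2⟩, he.1.2.2.1⟩, he.1.2.1⟩
    have h2 : ((Et.filter (fun e => e.1 = u)).card : ℝ) ≤ ((A (u, 0) \ Rb) ∩ Rt).card := by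
      exact_mod_cast card_le_card h1
    have h3 := (ht (u, 0)).2
    have h4 := (hAR (u, 0)).trans (hAD (u, 0))
    have h5 : ρ * ((A (u, 0) \ Rb).card : ℝ) ≤ ρ * D := by gcongr
    rw [hρD] at h5
    have h6 : ((Et.filter (fun e => e.1 = u)).card : ℝ) ≤ Db := by linarith
    exact_mod_cast h6
  have hEt2 : ∀ u, (Et.filter (fun e => e.2 = u)).card ≤ Db := by
    intro u
    have h1 : Et.filter (fun e => e.2 = u) ⊆ (A (u, 1) \ Rb) ∩ Rt := by
      intro e he
      simp only [Et, mem_filter] at he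
      rw [hA1, mem_inter, mem_sdiff, mem_filter]
      exact ⟨⟨⟨he.1.1, he.2⟩, he.1.2.2.1⟩, he.1.2.1⟩
    have h2 : ((Et.filter (fun e => e.2 = u)).card : ℝ) ≤ ((A (u, 1) \ Rb) ∩ Rt).card := by
      exact_mod_cast card_le_card h1
    have h3 := (ht (u, 1)).2
    have h4 := (hAR (u, 1)).trans (hAD (u, 1))
    have h5 : ρ * ((A (u, 1) \ Rb).card : ℝ) ≤ ρ * D := by gcongr
    rw [hρD] at h5
    have h6 : ((Et.filter (fun e => e.2 = u)).card : ℝ) ≤ Db := by linarith
    exact_mod_cast h6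
  -- degrees of the middle group
  have hEm1 : ∀ u, (Em.filter (fun e => e.1 = u)).card ≤ Dm := by
    intro u
    have hs := hsum (fun e => e.1 = u)
    have h1 : (A (u, 5) \ Rb) ∩ Rt ⊆ Et.filter (fun e => e.1 = u) := by
      intro e he
      rw [hA5, mem_inter, mem_sdiff, mem_filter] at he
      simp only [Et, mem_filter]
      obtain ⟨⟨h4, h2⟩, h3⟩ := he
      exact ⟨⟨h4.1, h3, h2, h4.2.2⟩, h4.2.1⟩
    have h2 : (((A (u, 5) \ Rb) ∩ Rt).card : ℝ) ≤ (Et.filter (fun e => e.1 = u)).card := by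
      exact_mod_cast card_le_card h1
    have h3 := (ht (u, 5)).1
    have h4 := hP1 u
    have h5 : ((A (u, 5)).card : ℝ) - (A (u, 0) ∩ Rb).card ≤ (A (u, 5) \ Rb).card := by
      have g1 := card_sdiff_add_card_inter (A (u, 5)) Rb
      have g2 : ((A (u, 5) \ Rb).card : ℝ) + (A (u, 5) ∩ Rb).card = (A (u, 5)).card := by
        exact_mod_cast g1
      have g3 : ((A (u, 5) ∩ Rb).card : ℝ) ≤ (A (u, 0) ∩ Rb).card := by
        have : A (u, 5) ⊆ A (u, 0) := by
          rw [hA5, hA0]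
          intro e he
          rw [mem_filter] at he ⊢
          exact ⟨he.1, he.2.1⟩
        exact_mod_cast card_le_card (inter_subset_inter_right this)
      linarith
    have h6 := (hb (u, 0)).2
    rw [hA5] at h2 h3 h5
    rw [hA0] at h5 h6
    set a : ℝ := ((E.filter (fun e => e.1 = u)).card : ℝ) with ha
    have ha0 : 0 ≤ a := Nat.cast_nonneg _
    have h7 : ρ * (a - g - (ρ * a + err)) ≤ ρ * ((E.filter (fun e => e.1 = u ∧ e.2 ∉ P) \ Rb).card) := by
      gcongr
      linarith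
    have h8' : ρ * err ≤ err / 4 := by nlinarith
    have hfin : ((Em.filter (fun e => e.1 = u)).card : ℝ) ≤ Dm := by
      by_cases hu : u ∈ P
      · have h9 := hDP1 u hu
        rw [← ha] at h9
        have h10 : 0 ≤ ((Eb.filter (fun e => e.1 = u)).card : ℝ) := Nat.cast_nonneg _
        have h11 : a * (1 - ρ + ρ * ρ) ≤ (D - r) * (1 - ρ + ρ * ρ) := by
          apply mul_le_mul_of_nonneg_right h9
          nlinarith
        have h12 : ((D : ℝ) - r) * (1 - ρ + ρ * ρ) = D - r - ρ * D + ρ * ρ * D + ρ * r - ρ * ρ * r := by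
          ring
        have h13 : 0 ≤ ρ * ρ * r := by positivity
        rw [hρD, hrρ2] at h12
        rw [hfρ, hrρ] at hDm1
        linarith
      · have g1 : A (u, 0) ∩ Rb ⊆ Eb.filter (fun e => e.1 = u) := by
          intro e he
          rw [hA0, mem_inter, mem_filter] at he
          simp only [Eb, mem_filter]
          exact ⟨⟨he.1.1, he.2, by rw [he.1.2]; exact hu⟩, he.1.2⟩
        have g2 : ((A (u, 0) ∩ Rb).card : ℝ) ≤ (Eb.filter (fun e => e.1 = u)).card := by
          exact_mod_cast card_le_card g1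
        have g3 := (hb (u, 0)).1
        rw [hA0] at g2 g3
        have h9 := hDu1 u
        rw [← ha] at h9 g3
        have h11 : a * (1 - 2 * ρ + ρ * ρ) ≤ D * (1 - 2 * ρ + ρ * ρ) := by
          apply mul_le_mul_of_nonneg_right h9
          nlinarith
        have h12 : (D : ℝ) * (1 - 2 * ρ + ρ * ρ) = D - 2 * (ρ * D) + ρ * ρ * D := by
          ring
        rw [hρD, hrρ2] at h12
        rw [hfρ, hrρ] at hDm1
        have h13 : 0 ≤ ρ * r := by positivity
        linarith
    exact_mod_cast hfin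
  have hEm2 : ∀ u, (Em.filter (fun e => e.2 = u)).card ≤ Dm := by
    intro u
    have hs := hsum (fun e => e.2 = u)
    have h1 : A (u, 2) ∩ Rb ⊆ Eb.filter (fun e => e.2 = u) := by
      intro e he
      rw [hA2, mem_inter, mem_filter] at he
      simp only [Eb, mem_filter]
      exact ⟨⟨he.1.1, he.2, he.1.2.2⟩, he.1.2.1⟩
    have h2 : ((A (u, 2) ∩ Rb).card : ℝ) ≤ (Eb.filter (fun e => e.2 = u)).card := by
      exact_mod_cast card_le_card h1
    have h3 := (hb (u, 2)).1
    have h4 := hP2 u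
    rw [hA2] at h2 h3
    set a : ℝ := ((E.filter (fun e => e.2 = u)).card : ℝ) with ha
    have ha0 : 0 ≤ a := Nat.cast_nonneg _
    have h7 : ρ * (a - g) ≤ ρ * (E.filter (fun e => e.2 = u ∧ e.1 ∉ P)).card := by
      gcongr
    have hfin : ((Em.filter (fun e => e.2 = u)).card : ℝ) ≤ Dm := by
      by_cases hu : u ∈ P
      · have h9 := hDP2 u hu
        rw [← ha] at h9
        have h10 : 0 ≤ ((Et.filter (fun e => e.2 = u)).card : ℝ) := Nat.cast_nonneg _
        have h11 : a * (1 - ρ) ≤ (D - r) * (1 - ρ) := by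
          apply mul_le_mul_of_nonneg_right h9
          linarith
        have h12 : ((D : ℝ) - r) * (1 - ρ) = D - r - ρ * D + ρ * r := by
          ring
        rw [hρD] at h12
        rw [hfρ, hrρ] at hDm1
        have h13 : 0 ≤ ρ * r := by positivity
        linarith
      · have g1 : (A (u, 1) \ Rb) ∩ Rt ⊆ Et.filter (fun e => e.2 = u) := by
          intro e he
          rw [hA1, mem_inter, mem_sdiff, mem_filter] at he
          simp only [Et, mem_filter]
          exact ⟨⟨he.1.1.1, he.2, he.1.2, by rw [he.1.1.2]; exact hu⟩, he.1.1.2⟩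
        have g2 : (((A (u, 1) \ Rb) ∩ Rt).card : ℝ) ≤ (Et.filter (fun e => e.2 = u)).card := by
          exact_mod_cast card_le_card g1
        have g3 := (ht (u, 1)).1
        have g4 := hsd (u, 1)
        rw [hA1] at g2 g3 g4
        have h9 := hDu2 u
        rw [← ha] at h9 g4
        have g5 : ρ * (a - ρ * a - err) ≤ ρ * ((E.filter (fun e => e.2 = u) \ Rb).card : ℝ) := by
          gcongr
        have h8' : ρ * err ≤ err / 4 := by nlinarith
        have h11 : a * (1 - 2 * ρ + ρ * ρ) ≤ D * (1 - 2 * ρ + ρ * ρ) := by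
          apply mul_le_mul_of_nonneg_right h9
          nlinarith
        have h12 : (D : ℝ) * (1 - 2 * ρ + ρ * ρ) = D - 2 * (ρ * D) + ρ * ρ * D := by
          ring
        rw [hρD, hrρ2] at h12
        rw [hfρ, hrρ] at hDm1
        have h13 : 0 ≤ ρ * r := by positivity
        linarith
    exact_mod_cast hfin
  -- deficient edges
  set fb : ℝ := ρ * f + err with hfb
  have hFb1 : ∀ u, ((Eb.filter (fun e => e.1 = u ∧ F e.1 e.2)).card : ℝ) ≤ fb := by
    intro u
    have h1 : Eb.filter (fun e => e.1 = u ∧ F e.1 e.2) ⊆ A (u, 3) ∩ Rb := by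
      intro e he
      simp only [Eb, mem_filter] at he
      rw [hA3, mem_inter, mem_filter]
      exact ⟨⟨he.1.1, he.2⟩, he.1.2.1⟩
    have h2 : ((Eb.filter (fun e => e.1 = u ∧ F e.1 e.2)).card : ℝ) ≤ (A (u, 3) ∩ Rb).card := by
      exact_mod_cast card_le_card h1
    have h3 := (hb (u, 3)).2
    have h4 := hF1 u
    rw [hA3] at h2 h3
    have h5 : ρ * ((E.filter (fun e => e.1 = u ∧ F e.1 e.2)).card : ℝ) ≤ ρ * f := by gcongr
    linarith
  have hFb2 : ∀ u, ((Eb.filter (fun e => e.2 = u ∧ F e.1 e.2)).card : ℝ) ≤ fb := by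
    intro u
    have h1 : Eb.filter (fun e => e.2 = u ∧ F e.1 e.2) ⊆ A (u, 4) ∩ Rb := by
      intro e he
      simp only [Eb, mem_filter] at he
      rw [hA4, mem_inter, mem_filter]
      exact ⟨⟨he.1.1, he.2⟩, he.1.2.1⟩
    have h2 : ((Eb.filter (fun e => e.2 = u ∧ F e.1 e.2)).card : ℝ) ≤ (A (u, 4) ∩ Rb).card := by
      exact_mod_cast card_le_card h1
    have h3 := (hb (u, 4)).2
    have h4 := hF2 u
    rw [hA4] at h2 h3
    have h5 : ρ * ((E.filter (fun e => e.2 = u ∧ F e.1 e.2)).card : ℝ) ≤ ρ * f := by gcongr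
    linarith
  have hFt1 : ∀ u, ((Et.filter (fun e => e.1 = u ∧ F e.1 e.2)).card : ℝ) ≤ fb := by
    intro u
    have h1 : Et.filter (fun e => e.1 = u ∧ F e.1 e.2) ⊆ (A (u, 3) \ Rb) ∩ Rt := by
      intro e he
      simp only [Et, mem_filter] at he
      rw [hA3, mem_inter, mem_sdiff, mem_filter]
      exact ⟨⟨⟨he.1.1, he.2⟩, he.1.2.2.1⟩, he.1.2.1⟩
    have h2 : ((Et.filter (fun e => e.1 = u ∧ F e.1 e.2)).card : ℝ) ≤
        ((A (u, 3) \ Rb) ∩ Rt).card := by
      exact_mod_cast card_le_card h1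
    have h3 := (ht (u, 3)).2
    have h4 := (hAR (u, 3))
    rw [hA3] at h2 h3 h4
    have h5 : ρ * ((E.filter (fun e => e.1 = u ∧ F e.1 e.2) \ Rb).card : ℝ) ≤ ρ * f := by
      gcongr
      exact h4.trans (hF1 u)
    linarith
  have hFt2 : ∀ u, ((Et.filter (fun e => e.2 = u ∧ F e.1 e.2)).card : ℝ) ≤ fb := by
    intro u
    have h1 : Et.filter (fun e => e.2 = u ∧ F e.1 e.2) ⊆ (A (u, 4) \ Rb) ∩ Rt := by
      intro e he
      simp only [Et, mem_filter] at he
      rw [hA4, mem_inter, mem_sdiff, mem_filter]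
      exact ⟨⟨⟨he.1.1, he.2⟩, he.1.2.2.1⟩, he.1.2.1⟩
    have h2 : ((Et.filter (fun e => e.2 = u ∧ F e.1 e.2)).card : ℝ) ≤
        ((A (u, 4) \ Rb) ∩ Rt).card := by
      exact_mod_cast card_le_card h1
    have h3 := (ht (u, 4)).2
    have h4 := (hAR (u, 4))
    rw [hA4] at h2 h3 h4
    have h5 : ρ * ((E.filter (fun e => e.2 = u ∧ F e.1 e.2) \ Rb).card : ℝ) ≤ ρ * f := by
      gcongr
      exact h4.trans (hF2 u)
    linarith
  have hFm : ∀ (Q : Fin n × Fin n → Prop) [DecidablePred Q], ((E.filter Q).card : ℝ) ≤ f →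
      ((Em.filter Q).card : ℝ) ≤ f := by
    intro Q _ hQ
    refine le_trans ?_ hQ
    exact_mod_cast card_le_card (filter_subset_filter _ (filter_subset _ _))
  -- the labels
  set φ₁ : ℝ := C₁ * (2 * ((f / D + err / r) * (y + l)) + l) with hφ₁
  have hx0 : 0 ≤ (f / D + err / r) * (y + l) := by positivity
  have hDbn : Db ≤ n := by
    have : (Db : ℝ) ≤ D := by linarith
    exact (by exact_mod_cast this : Db ≤ D).trans hDn
  have hDmn : Dm ≤ n := by
    have : (Dm : ℝ) ≤ D := by linarith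
    exact (by exact_mod_cast this : Dm ≤ D).trans hDn
  have hDb0 : 1 ≤ Db := by
    have : (0 : ℝ) < Db := by linarith
    exact_mod_cast this
  have hDm0' : (D : ℝ) / 2 ≤ Dm := by linarith
  have hDm0 : 1 ≤ Dm := by
    have : (0 : ℝ) < Dm := by linarith
    exact_mod_cast this
  have hφb : C₁ * (fb * (y + l) / Db + l) ≤ φ₁ := by
    have h1 : fb * (y + l) / Db ≤ (f / D + err / r) * (y + l) := by
      have h2 : fb / Db ≤ f / D + err / r := by
        have h3 : fb / Db ≤ fb / r := by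
          apply div_le_div_of_nonneg_left (by positivity) hr0
          linarith
        have h4 : fb / r = f / D + err / r := by
          rw [hfb, add_div, hρ]
          field_simp
        linarith
      calc fb * (y + l) / Db = fb / Db * (y + l) := by ring
        _ ≤ (f / D + err / r) * (y + l) := by gcongr
    rw [hφ₁]
    gcongr
    linarith
  have hφm : C₁ * (f * (y + l) / Dm + l) ≤ φ₁ := by
    have h1 : f * (y + l) / Dm ≤ 2 * ((f / D + err / r) * (y + l)) := by
      have h2 : f / Dm ≤ 2 * (f / D) := by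
        have h3 : f / Dm ≤ f / (D / 2) := by
          apply div_le_div_of_nonneg_left hf0 (by linarith) hDm0'
        have h4 : f / ((D : ℝ) / 2) = 2 * (f / D) := by
          field_simp
        linarith
      calc f * (y + l) / Dm = f / Dm * (y + l) := by ring
        _ ≤ (2 * (f / D)) * (y + l) := by gcongr
        _ ≤ 2 * ((f / D + err / r) * (y + l)) := by
          have : 0 ≤ err / r * (y + l) := by positivity
          nlinarith
    rw [hφ₁]
    gcongr
  obtain ⟨cb, hb', lb⟩ := hlab n hn Db hDb0 hDbn Eb (fun u => hEb1 u)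
    (fun u => hEb2 u) (fun e => F e.1 e.2) fb y φ₁ hy (by linarith) hFb1 hFb2 hφb
  obtain ⟨ct, ht', lt⟩ := hlab n hn Db hDb0 hDbn Et (fun u => hEt1 u)
    (fun u => hEt2 u) (fun e => F e.1 e.2) fb y φ₁ hy (by linarith) hFt1 hFt2 hφb
  obtain ⟨cm, hm', lm⟩ := hlab n hn Dm hDm0 hDmn Em (fun u => hEm1 u)
    (fun u => hEm2 u) (fun e => F e.1 e.2) f y φ₁ hy (by linarith)
    (fun u => hFm (fun e => e.1 = u ∧ F e.1 e.2) (hF1 u))
    (fun u => hFm (fun e => e.2 = u ∧ F e.1 e.2) (hF2 u)) hφm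
  have hφ₁0 : 0 ≤ φ₁ := by positivity
  obtain ⟨col, hc1, hc2⟩ := three Eb Em Et (fun e => F e.1 e.2) Db Dm Db ⌊y⌋₊ ⌊φ₁⌋₊ r cb cm ct
    hb' hm' ht' lb lm lt hbm hbt hmt (fun v => v ∈ P)
    (by
      intro e he
      simp only [Eb, mem_filter] at he
      exact he.2.2)
    (by
      intro e he
      simp only [Et, mem_filter] at he
      exact he.2.2.2)
    (by
      have : (r : ℝ) ≤ Db := by linarith
      exact_mod_cast this)
    (by
      have : (r : ℝ) ≤ Db := by linarith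
      exact_mod_cast this)
    (fun e => L e.1 e.2)
    (by
      intro e he
      rw [hun, hE] at he
      have h1 := hL e.1 e.2 he.1
      have h2 : (⌊φ₁⌋₊ : ℝ) ≤ φ₁ := Nat.floor_le hφ₁0
      have h3 : y < ⌊y⌋₊ + 1 := Nat.lt_floor_add_one y
      have h4 : (if F e.1 e.2 then y else 0) ≤ (if F e.1 e.2 then (⌊y⌋₊ : ℝ) else 0) + 1 := by
        split_ifs <;> linarith
      have h5 : ((Db + Dm + Db + 12 * ⌊φ₁⌋₊ : ℕ) : ℝ) ≤
          (((L e.1 e.2).card + (if e.1 ∈ P then r else 0) + (if e.2 ∈ P then r else 0) +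
            (if F e.1 e.2 then ⌊y⌋₊ else 0) : ℕ) : ℝ) := by
        push_cast
        have h6 : 12 * φ₁ + 6 * err + g * r / D + 2 * ((r : ℝ) ^ 2 / D) + 4 ≤ φ := by
          refine le_trans ?_ hφ
          rw [hφ₁, hC]
          have g1 : 0 ≤ (C₀ + 10) * ((f / D + err / r) * (y + l)) := by positivity
          have g2 : 0 ≤ (12 * C₁ + C₀) * l := by positivity
          have g3 : 0 ≤ (24 * C₁ + C₀ + 4) * err := by positivity
          have g4 : 0 ≤ (24 * C₁ + C₀ + 9) * (g * r / D) := by positivity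
          have g5 : 0 ≤ (24 * C₁ + C₀ + 8) * ((r : ℝ) ^ 2 / D) := by positivity
          nlinarith
        linarith
      have h7 : Db + Dm + Db + 12 * ⌊φ₁⌋₊ ≤ (L e.1 e.2).card + (if e.1 ∈ P then r else 0) +
          (if e.2 ∈ P then r else 0) + (if F e.1 e.2 then ⌊y⌋₊ else 0) := by exact_mod_cast h5
      convert h7)
  rw [hun] at hc1 hc2
  exact lc_of_oriented G σ hσ L hLs E hE col hc1 hc2

end Pool.Agent.W2helper87.FR
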