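import Pool.Agent.W2helper87.FR.Spl

/-!
# Splitting the colours of the lists of the edges of a graph
-/

set_option autoImplicit false

namespace Pool.Agent.W2helper87.FR

open Finset Pool.Agent.H162R2.Sparse Pool.Agent.H162R2.AG Pool.Agent.W2helper87.SR

open Classical in
theorem cls2 {n : ℕ} (G : SimpleGraph (Fin n)) (D : ℕ) (hD : 0 < D)
    (hdeg : ∀ v, dg G v ≤ D) (J : ℕ) (mj : ℕ → ℕ) (hM : ∑ j ∈ range J, mj j < D)
    (L : Fin n → Fin n → Finset ℕ) (hL : ∀ v w, G.Adj v w → (L v w).card = D)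
    (x t1 t2 tJ η δ b : ℝ) (hmj : ∀ j < J, mj j ≤ D)
    (h1 : 0 ≤ t1 ∧ t1 ≤ 2 * D) (h1' : 4 * D * x ≤ t1 ^ 2)
    (hδ : 0 < δ) (h2 : 0 ≤ t2 ∧ t2 ≤ 2 * (δ * D)) (h2' : 4 * (δ * D) * x ≤ t2 ^ 2)
    (hJ : 0 ≤ tJ ∧ tJ ≤ 2 * (D - (∑ j ∈ range J, mj j : ℕ)))
    (hJ' : 4 * ((D : ℝ) - (∑ j ∈ range J, mj j : ℕ)) * x ≤ tJ ^ 2)
    (hη : 0 ≤ η ∧ η ≤ 2 * D)
    (hx : 4 * ((n : ℝ) ^ 2 * (J + 1) + 2 * (n ^ 3 * J)) * Real.exp (-x) < 1) :
    ∃ cls : ℕ → ℕ, ∃ T : Finset (Fin n),
      (∀ c, cls c ≤ J) ∧
      b * T.card ≤ 4 * Real.exp (-(η ^ 2) / (4 * D)) * (n * D * J) ∧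
      (∀ v w, G.Adj v w → ∀ j < J,
        |(((L v w).filter (fun c => cls c = j)).card : ℝ) - mj j| ≤ t1) ∧
      (∀ v w, G.Adj v w → |(((L v w).filter (fun c => cls c = J)).card : ℝ) -
        (D - (∑ j ∈ range J, mj j : ℕ))| ≤ tJ) ∧
      (∀ u v w, G.Adj u v → G.Adj u w → ∀ j < J,
        |(((L u w \ L u v).filter (fun c => cls c = j)).card : ℝ) -
          (L u w \ L u v).card * (mj j / D)| ≤ t1) ∧
      (∀ u v w, G.Adj u v → G.Adj u w → ((L u w \ L u v).card : ℝ) ≤ δ * D → ∀ j < J,
        |(((L u w \ L u v).filter (fun c => cls c = j)).card : ℝ) -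
          (L u w \ L u v).card * (mj j / D)| ≤ t2) ∧
      (∀ v ∉ T, (((nb G v).filter (fun w => ∃ j < J,
        (((L v w).filter (fun c => cls c = j)).card : ℝ) < mj j - η)).card : ℝ) ≤ b) := by
  set MJ : ℕ := ∑ j ∈ range J, mj j with hMJ
  have hDr : (0 : ℝ) < D := by exact_mod_cast hD
  have hMr : (MJ : ℝ) < D := by exact_mod_cast hM
  have hDM : (0 : ℝ) < D - MJ := by linarith
  have hszj : ∀ j, j < J → sz D J mj j = mj j := fun j hj => by unfold sz; rw [if_pos hj]
  have hszJ : (sz D J mj J : ℝ) = D - MJ := by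
    unfold sz
    rw [if_neg (lt_irrefl _), Nat.cast_sub hM.le]
  have hLD : ∀ v w, G.Adj v w → ((L v w).card : ℝ) = D := fun v w h => by exact_mod_cast hL v w h
  have hmr : ∀ j, j < J → (mj j : ℝ) / D ≤ 1 := fun j hj => by
    rw [div_le_one hDr]
    exact_mod_cast hmj j hj
  let I := ((Fin n × Fin n) × Fin (J + 1)) ⊕ (((Fin n × Fin n × Fin n) × Fin J) ⊕
    ((Fin n × Fin n × Fin n) × Fin J))
  let A : I → Finset ℕ := Sum.elim (fun i => if G.Adj i.1.1 i.1.2 then L i.1.1 i.1.2 else ∅)
    (Sum.elim (fun i => if G.Adj i.1.1 i.1.2.1 ∧ G.Adj i.1.1 i.1.2.2 then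
      L i.1.1 i.1.2.2 \ L i.1.1 i.1.2.1 else ∅)
      (fun i => if G.Adj i.1.1 i.1.2.1 ∧ G.Adj i.1.1 i.1.2.2 ∧
        ((L i.1.1 i.1.2.2 \ L i.1.1 i.1.2.1).card : ℝ) ≤ δ * D then
      L i.1.1 i.1.2.2 \ L i.1.1 i.1.2.1 else ∅))
  let jj : I → ℕ := Sum.elim (fun i => i.2) (Sum.elim (fun i => i.2) (fun i => i.2))
  let vv : I → ℝ := Sum.elim (fun i => if (i.2 : ℕ) < J then (D : ℝ) else D - MJ)
    (Sum.elim (fun _ => (D : ℝ)) (fun _ => δ * D))
  let tt : I → ℝ := Sum.elim (fun i => if (i.2 : ℕ) < J then t1 else tJ)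
    (Sum.elim (fun _ => t1) (fun _ => t2))
  have hsd : ∀ u v w, G.Adj u w → ((L u w \ L u v).card : ℝ) ≤ D := by
    intro u v w h
    rw [← hLD u w h]
    exact_mod_cast card_le_card sdiff_subset
  let K := {e : Fin n × Fin n // e ∈ pr G} × Fin J
  obtain ⟨cls, hc0, hc1, hc2⟩ := cfun D hD J mj hM.le (I := I) (K := K) A jj
    (by
      rintro (i | i | i)
      · have := i.2.isLt
        simp only [jj, Sum.elim_inl]
        omega
      · exact i.2.isLt.le
      · exact i.2.isLt.le) vv tt x
    (by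
      rintro (i | i | i)
      · simp only [vv, Sum.elim_inl]
        split_ifs
        · exact hDr
        · exact hDM
      · exact hDr
      · simp only [vv, Sum.elim_inr]
        positivity)
    (by
      rintro (i | i | i)
      · simp only [A, jj, vv, Sum.elim_inl]
        by_cases hj : (i.2 : ℕ) < J
        · rw [hszj _ hj, if_pos hj]
          split_ifs with h
          · rw [hLD _ _ h]
            have := hmr _ hj
            nlinarith
          · simp [hDr.le]
        · have hj' : (i.2 : ℕ) = J := by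
            have := i.2.isLt
            omega
          rw [if_neg hj, hj', hszJ]
          split_ifs with h
          · rw [hLD _ _ h]
            field_simp
            exact le_rfl
          · simp only [card_empty, Nat.cast_zero, zero_mul]
            exact hDM.le
      · simp only [A, jj, vv, Sum.elim_inl, Sum.elim_inr]
        rw [hszj _ i.2.isLt]
        split_ifs with h
        · have e1 := hsd i.1.1 i.1.2.1 i.1.2.2 h.2
          have e2 := hmr _ i.2.isLt
          calc ((L i.1.1 i.1.2.2 \ L i.1.1 i.1.2.1).card : ℝ) * (mj i.2 / D) ≤ D * 1 := by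
                gcongr
            _ = D := mul_one _
        · simp [hDr.le]
      · simp only [A, jj, vv, Sum.elim_inr]
        rw [hszj _ i.2.isLt]
        split_ifs with h
        · have e1 := h.2.2
          have e2 := hmr _ i.2.isLt
          calc ((L i.1.1 i.1.2.2 \ L i.1.1 i.1.2.1).card : ℝ) * (mj i.2 / D) ≤ (δ * D) * 1 := by
                gcongr
            _ = δ * D := mul_one _
        · simp only [card_empty, Nat.cast_zero, zero_mul]
          positivity)
    (by
      rintro (i | i | i)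
      · simp only [tt, vv, Sum.elim_inl]
        split_ifs
        · exact h1
        · exact hJ
      · exact h1
      · exact h2)
    (by
      rintro (i | i | i)
      · simp only [tt, vv, Sum.elim_inl]
        split_ifs
        · exact h1'
        · exact hJ'
      · exact h1'
      · exact h2')
    (by
      have : (Fintype.card I : ℝ) = (n : ℝ) ^ 2 * (J + 1) + 2 * (n ^ 3 * J) := by
        simp only [I, Fintype.card_sum, Fintype.card_prod, Fintype.card_fin]
        push_cast
        ring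
      rw [this]
      exact hx)
    (fun i => L i.1.1.1 i.1.1.2) (fun i => i.2) (fun i => i.2.isLt.le) D η hDr
    (by
      intro i
      have h := i.1.2
      rw [mem_pr] at h
      rw [hszj _ i.2.isLt, hLD _ _ h]
      have := hmr _ i.2.isLt
      nlinarith) hη
  refine ⟨cls, univ.filter (fun v => b < (((nb G v).filter (fun w => ∃ j < J,
        (((L v w).filter (fun c => cls c = j)).card : ℝ) < mj j - η)).card : ℝ)),
    hc0, ?_, ?_, ?_, ?_, ?_, ?_⟩
  · set Z := (univ.filter (fun i : K => η < |(((L i.1.1.1 i.1.1.2).filter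
      (fun c => cls c = i.2)).card : ℝ) -
        (L i.1.1.1 i.1.1.2).card * (sz D J mj i.2 / D)|)) with hZ
    set T := univ.filter (fun v => b < (((nb G v).filter (fun w => ∃ j < J,
        (((L v w).filter (fun c => cls c = j)).card : ℝ) < mj j - η)).card : ℝ)) with hT
    -- the bad pairs
    let Bad : Finset (Fin n × Fin n) := (pr G).filter (fun e => ∃ j < J,
        (((L e.1 e.2).filter (fun c => cls c = j)).card : ℝ) < mj j - η)
    have e1 : Bad ⊆ Z.image (fun i => i.1.1) := by
      intro e he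
      rw [mem_filter] at he
      obtain ⟨he, j, hj, hlt⟩ := he
      rw [mem_image]
      refine ⟨(⟨e, he⟩, ⟨j, hj⟩), ?_, rfl⟩
      rw [hZ, mem_filter]
      refine ⟨mem_univ _, ?_⟩
      simp only
      rw [hszj _ hj, hLD _ _ ((mem_pr G e).1 he), mul_div_cancel₀ _ hDr.ne', lt_abs]
      right
      linarith
    have e2 : (Bad.card : ℝ) ≤ Z.card := by
      exact_mod_cast (card_le_card e1).trans card_image_le
    have e3 : b * T.card ≤ Bad.card := by
      have g1 : ∑ v ∈ T, (((nb G v).filter (fun w => ∃ j < J,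
        (((L v w).filter (fun c => cls c = j)).card : ℝ) < mj j - η)).card) ≤ Bad.card := by
        rw [← card_sigma]
        refine card_le_card_of_injOn (fun s => (s.1, s.2)) ?_ ?_
        · rintro ⟨v, w⟩ hs
          have hs2 := mem_filter.1 (mem_sigma.1 (mem_coe.1 hs)).2
          rw [mem_coe, mem_filter, mem_pr]
          exact ⟨(mem_nb G v w).1 hs2.1, hs2.2⟩
        · rintro ⟨v, w⟩ _ ⟨v', w'⟩ _ h
          simp only [Prod.mk.injEq] at h
          obtain ⟨rfl, rfl⟩ := h
          rfl
      have g2 : ∑ v ∈ T, b ≤ ∑ v ∈ T, ((((nb G v).filter (fun w => ∃ j < J,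
        (((L v w).filter (fun c => cls c = j)).card : ℝ) < mj j - η)).card : ℕ) : ℝ) := by
        apply sum_le_sum
        intro v hv
        exact (mem_filter.1 hv).2.le
      rw [sum_const, nsmul_eq_mul, ← Nat.cast_sum] at g2
      have g3 : ((∑ v ∈ T, (((nb G v).filter (fun w => ∃ j < J,
        (((L v w).filter (fun c => cls c = j)).card : ℝ) < mj j - η)).card) : ℕ) : ℝ) ≤ Bad.card := by
        exact_mod_cast g1
      linarith
    refine e3.trans (e2.trans (hc2.trans ?_))
    have e4 : (Fintype.card K : ℝ) = (pr G).card * J := by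
      simp only [K, Fintype.card_prod, Fintype.card_fin, Fintype.card_coe]
      push_cast
      rfl
    rw [e4]
    have e5 : ((pr G).card : ℝ) ≤ n * D := by exact_mod_cast card_pr_le G D hdeg
    gcongr
  · intro v w hvw j hj
    have := hc1 (Sum.inl ((v, w), ⟨j, by omega⟩))
    simp only [A, jj, tt, Sum.elim_inl, if_pos hvw, if_pos hj] at this
    rw [hszj _ hj, hLD _ _ hvw, mul_div_cancel₀ _ hDr.ne'] at this
    exact this
  · intro v w hvw
    have := hc1 (Sum.inl ((v, w), ⟨J, by omega⟩))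
    simp only [A, jj, tt, Sum.elim_inl, if_pos hvw, lt_irrefl, if_false] at this
    rw [hszJ, hLD _ _ hvw, mul_div_cancel₀ _ hDr.ne'] at this
    exact this
  · intro u v w huv huw j hj
    have := hc1 (Sum.inr (Sum.inl ((u, v, w), ⟨j, hj⟩)))
    simp only [A, jj, tt, Sum.elim_inl, Sum.elim_inr, huv, huw, and_self, if_true] at this
    rw [hszj _ hj] at this
    exact this
  · intro u v w huv huw hX j hj
    have := hc1 (Sum.inr (Sum.inr ((u, v, w), ⟨j, hj⟩)))
    simp only [A, jj, tt, Sum.elim_inr, huv, huw, hX, and_self, if_true] at this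
    rw [hszj _ hj] at this
    exact this
  · intro v hv
    by_contra hcon
    push Not at hcon
    exact hv (mem_filter.2 ⟨mem_univ _, hcon⟩)

end Pool.Agent.W2helper87.FR
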