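import Pool.Agent.W2helper87.FR.LocS
import Pool.Agent.W2helper87.FR.Cap

/-!
# The colouring, given the splittings
-/

set_option autoImplicit false

namespace Pool.Agent.W2helper87.FR

open Finset Pool.Agent.H162R2.Sparse Pool.Agent.H162R2.AG Pool.Agent.W2helper87.SR

/-- the edges coloured first -/
def g1 {n : ℕ} (P : Finset (Fin n)) (E : Fin n → Finset (Fin n)) (hE : ∀ u, u ∉ E u) :
    SimpleGraph (Fin n) where
  Adj a b := (a ∈ P ∧ b ∈ E a) ∨ (b ∈ P ∧ a ∈ E b)
  symm := ⟨fun _ _ h => h.symm⟩
  loopless := ⟨fun a h => h.elim (fun h => hE a h.2) (fun h => hE a h.2)⟩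

/-- the other edges -/
def g2 {n : ℕ} (H G : SimpleGraph (Fin n)) : SimpleGraph (Fin n) where
  Adj a b := H.Adj a b ∧ ¬ G.Adj a b
  symm := ⟨fun _ _ h => ⟨h.1.symm, fun h' => h.2 h'.symm⟩⟩
  loopless := ⟨fun _ h => h.1.ne rfl⟩

open Classical in
/-- the random subset of the pairs -/
theorem exQ (C₀ : ℝ) (hsub : ∀ n : ℕ, 2 ≤ n → ∀ p : ℝ, 0 ≤ p → p ≤ 1 →
    ∀ (α : Type) [Fintype α] [DecidableEq α] (I : Type) [Fintype I], Fintype.card I ≤ n ^ 4 →
    ∀ A : I → Finset α, ∃ R : Finset α, ∀ i,
      |((A i ∩ R).card : ℝ) - p * (A i).card| ≤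
        C₀ * Real.sqrt (p * (A i).card * Real.log n) + C₀ * Real.log n)
    {p : Par} {C : ℝ} {n : ℕ} {H : SimpleGraph (Fin n)} {σ : Fin n → (Fin p.J → Bool)}
    {cls : ℕ → ℕ} {L0 L1 : Fin n → Fin n → Finset ℕ} {P : Finset (Fin n)}
    (hC₀ : 0 ≤ C₀) (hC : C₀ ≤ C) (ok : Ok p C n) (cfg : Cfg p H σ cls L0 L1 P) :
    ∃ Q : Fin n → Finset (Fin n),
      (∀ u, ∀ j < p.J, p.ρ * (((Nl H σ P u).filter (fun v => lvl σ u v = j)).card : ℝ) - p.err ≤
        ((((Nl H σ P u).filter (fun v => v ∈ Q u)).filter (fun v => lvl σ u v = j)).card : ℝ)) ∧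
      (∀ u, (((Nl H σ P u).filter (fun v => v ∈ Q u)).card : ℝ) ≤
        p.ρ * (Nl H σ P u).card + p.err) ∧
      (∀ u w, p.ρ * (((Nl H σ P u).filter
          (fun v => p.δ * p.D < (L0 u w \ L0 u v).card)).card : ℝ) -
        p.err ≤ ((((Nl H σ P u).filter (fun v => v ∈ Q u)).filter
          (fun v => p.δ * p.D < (L0 u w \ L0 u v).card)).card : ℝ)) ∧
      (∀ v, ((((nb H v).filter (fun x => x ∈ P)).filter (fun x => v ∈ Q x)).card : ℝ) ≤
        p.ρ * p.g + p.err) := by
  let I := (Fin n × Fin p.J) ⊕ (Fin n ⊕ (Fin n ⊕ (Fin n × Fin n)))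
  let A : I → Finset (Fin n × Fin n) := Sum.elim
    (fun i => ((Nl H σ P i.1).filter (fun v => lvl σ i.1 v = i.2)).image (Prod.mk i.1))
    (Sum.elim (fun u => (Nl H σ P u).image (Prod.mk u))
      (Sum.elim (fun v => ((nb H v).filter (fun x => x ∈ P)).image (fun x => (x, v)))
        (fun i => ((Nl H σ P i.1).filter
          (fun v => p.δ * p.D < (L0 i.1 i.2 \ L0 i.1 v).card)).image (Prod.mk i.1))))
  have hinj1 : ∀ u : Fin n, Function.Injective (Prod.mk (β := Fin n) u) :=
    fun u a b h => (Prod.ext_iff.1 h).2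
  have hinj2 : ∀ v : Fin n, Function.Injective (fun x : Fin n => (x, v)) :=
    fun u a b h => (Prod.ext_iff.1 h).1
  have hdeg : ∀ v, (nb H v).card ≤ p.D := fun v => (cfg.deg v).trans ok.hDD
  have hAD : ∀ i, (A i).card ≤ p.D := by
    rintro (i | u | v | i)
    · exact card_image_le.trans (((card_le_card (filter_subset _ _)).trans
        (card_le_card (filter_subset _ _))).trans (hdeg i.1))
    · exact card_image_le.trans ((card_le_card (filter_subset _ _)).trans (hdeg u))
    · exact card_image_le.trans ((card_le_card (filter_subset _ _)).trans (hdeg v))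
    · exact card_image_le.trans (((card_le_card (filter_subset _ _)).trans
        (card_le_card (filter_subset _ _))).trans (hdeg i.1))
  have hcardI : Fintype.card I ≤ n ^ 4 := by
    have h1 : Fintype.card I = n * p.J + (n + (n + n * n)) := by
      simp only [I, Fintype.card_sum, Fintype.card_prod, Fintype.card_fin]
    rw [h1]
    have h2 := ok.hn
    have h3 := ok.hJn
    have h4 : 4 * (n * n) ≤ n ^ 4 := by
      calc 4 * (n * n) ≤ (n * n) * (n * n) := Nat.mul_le_mul_right _ (by nlinarith)
        _ = n ^ 4 := by ring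
    have h5 : n * p.J ≤ n * n := Nat.mul_le_mul_left _ (by omega)
    nlinarith
  obtain ⟨R, hR⟩ := hsub n ok.hn p.ρ ok.ρ ok.ρ1 (Fin n × Fin n) I hcardI A
  have hlog : 0 ≤ Real.log n := Real.log_natCast_nonneg n
  have hb : ∀ i, p.ρ * (A i).card - p.err ≤ ((A i ∩ R).card : ℝ) ∧
      ((A i ∩ R).card : ℝ) ≤ p.ρ * (A i).card + p.err := by
    intro i
    have h1 : C₀ * Real.sqrt (p.ρ * (A i).card * Real.log n) + C₀ * Real.log n ≤ p.err := by
      refine le_trans ?_ ok.A15
      have h2 : ((A i).card : ℝ) ≤ p.D := by exact_mod_cast hAD i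
      have h3 := ok.ρ
      have h4 : Real.sqrt (p.ρ * (A i).card * Real.log n) ≤
          Real.sqrt (p.ρ * p.D * Real.log n) := by
        apply Real.sqrt_le_sqrt
        gcongr
      have h5 : C₀ * Real.sqrt (p.ρ * (A i).card * Real.log n) ≤
          C * Real.sqrt (p.ρ * p.D * Real.log n) :=
        mul_le_mul hC h4 (Real.sqrt_nonneg _) (hC₀.trans hC)
      have h6 : C₀ * Real.log n ≤ C * Real.log n := by gcongr
      linarith
    have h2 := abs_le.1 ((hR i).trans h1)
    constructor <;> linarith [h2.1, h2.2]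
  have hc1 : ∀ (u : Fin n) (S : Finset (Fin n)), ((S.image (Prod.mk u)) ∩ R).card =
      (S.filter (fun v => (u, v) ∈ R)).card := by
    intro u S
    rw [← card_image_of_injective (S.filter (fun v => (u, v) ∈ R)) (hinj1 u)]
    congr 1
    ext e
    simp only [mem_inter, mem_image, mem_filter]
    constructor
    · rintro ⟨⟨v, hv, rfl⟩, he⟩
      exact ⟨v, ⟨hv, he⟩, rfl⟩
    · rintro ⟨v, ⟨hv, he⟩, rfl⟩
      exact ⟨⟨v, hv, rfl⟩, he⟩
  have hc2 : ∀ (v : Fin n) (S : Finset (Fin n)), ((S.image (fun x => (x, v))) ∩ R).card =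
      (S.filter (fun x => (x, v) ∈ R)).card := by
    intro v S
    rw [← card_image_of_injective (S.filter (fun x => (x, v) ∈ R)) (hinj2 v)]
    congr 1
    ext e
    simp only [mem_inter, mem_image, mem_filter]
    constructor
    · rintro ⟨⟨v, hv, rfl⟩, he⟩
      exact ⟨v, ⟨hv, he⟩, rfl⟩
    · rintro ⟨v, ⟨hv, he⟩, rfl⟩
      exact ⟨⟨v, hv, rfl⟩, he⟩
  refine ⟨fun u => univ.filter (fun v => (u, v) ∈ R), ?_, ?_, ?_, ?_⟩
  · intro u j hj
    have h := (hb (Sum.inl (u, ⟨j, hj⟩))).1
    simp only [A, Sum.elim_inl] at h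
    rw [hc1, card_image_of_injective _ (hinj1 u), filter_filter] at h
    refine h.trans (le_of_eq ?_)
    congr 2
    ext v
    simp only [mem_filter, mem_univ, true_and]
    tauto
  · intro u
    have h := (hb (Sum.inr (Sum.inl u))).2
    simp only [A, Sum.elim_inl, Sum.elim_inr] at h
    rw [hc1, card_image_of_injective _ (hinj1 u)] at h
    refine le_trans (le_of_eq ?_) h
    congr 2
    ext v
    simp only [mem_filter, mem_univ, true_and]
  · intro u w
    have h := (hb (Sum.inr (Sum.inr (Sum.inr (u, w))))).1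
    simp only [A, Sum.elim_inr] at h
    rw [hc1, card_image_of_injective _ (hinj1 u)] at h
    refine h.trans (le_of_eq ?_)
    congr 2
    ext v
    simp only [mem_filter, mem_univ, true_and]
    tauto
  · intro v
    have h := (hb (Sum.inr (Sum.inr (Sum.inl v)))).2
    simp only [A, Sum.elim_inl, Sum.elim_inr] at h
    rw [hc2, card_image_of_injective _ (hinj2 v)] at h
    have h2 : p.ρ * (((nb H v).filter (fun x => x ∈ P)).card : ℝ) ≤ p.ρ * p.g :=
      mul_le_mul_of_nonneg_left (cfg.pn v) ok.ρ
    have h3 : ((((nb H v).filter (fun x => x ∈ P)).filter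
        (fun x => v ∈ univ.filter (fun y => (x, y) ∈ R))).card : ℝ) =
        (((nb H v).filter (fun x => x ∈ P)).filter (fun x => (x, v) ∈ R)).card := by
      congr 2
      ext x
      simp only [mem_filter, mem_univ, true_and]
    rw [h3]
    linarith

set_option maxHeartbeats 1000000 in
open Classical in
theorem core : ∃ C : ℝ, 1 ≤ C ∧ ∀ (p : Par) (n : ℕ), Ok p C n →
    ∀ (H : SimpleGraph (Fin n)) (σ : Fin n → (Fin p.J → Bool)) (cls : ℕ → ℕ)
      (L0 L1 : Fin n → Fin n → Finset ℕ) (P : Finset (Fin n)),
    Cfg p H σ cls L0 L1 P → LC H L1 := by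
  obtain ⟨C₀, hC₀, hsub⟩ := rsub
  obtain ⟨C₁, hC₁, hcap⟩ := capG
  obtain ⟨K₁, hK₁, hS⟩ := tS
  refine ⟨max C₀ (max C₁ K₁), le_trans hC₀ (le_max_left _ _), ?_⟩
  set C := max C₀ (max C₁ K₁) with hC
  have hCC₀ : C₀ ≤ C := le_max_left _ _
  have hCC₁ : C₁ ≤ C := (le_max_left _ _).trans (le_max_right _ _)
  have hCK₁ : K₁ ≤ C := (le_max_right _ _).trans (le_max_right _ _)
  intro p n ok H σ cls L0 L1 P cfg
  have hlog : 0 ≤ Real.log n := Real.log_natCast_nonneg n
  obtain ⟨Q, q1, q2, q3, q4⟩ := exQ C₀ (by
    intro n hn p hp0 hp1 α _ _ I _ hI A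
    exact hsub n hn p hp0 hp1 α I hI A) (by linarith) hCC₀ ok cfg
  have hloc := fun u => loc ok cfg u (Q u) (q1 u) (q2 u) (q3 u)
  choose E hEsub hEdeg exc hexc hE using hloc
  have hEm : ∀ u v, v ∈ E u → H.Adj u v ∧ v ∉ P ∧ lvl σ u v < p.J ∧ v ∈ Q u := by
    intro u v hv
    have h1 := mem_filter.1 (hEsub u hv)
    have h2 := (mem_Nl σ u v).1 h1.1
    exact ⟨h2.1, h2.2.1, h2.2.2, h1.2⟩
  have hhv : ∀ v, (P.filter (fun u => v ∈ E u)).card ≤ p.h := by
    intro v
    have h1 : P.filter (fun u => v ∈ E u) ⊆
        ((nb H v).filter (fun x => x ∈ P)).filter (fun x => v ∈ Q x) := by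
      intro u hu
      rw [mem_filter] at hu
      have h2 := hEm u v hu.2
      rw [mem_filter, mem_filter, mem_nb]
      exact ⟨⟨h2.1.symm, hu.1⟩, h2.2.2.2⟩
    have h3 : ((P.filter (fun u => v ∈ E u)).card : ℝ) ≤ p.h :=
      le_trans (by exact_mod_cast card_le_card h1) ((q4 v).trans ok.A12)
    exact_mod_cast h3
  obtain ⟨g, hg⟩ := pre P E (fun u v => L1 u v) p.h
    (fun u z => Good p H σ cls L0 P u (E u) (exc u) z) hhv (fun u _ => hE u)
  -- the colours used at a vertex
  let U : Fin n → Finset ℕ := fun a => if a ∈ P then (E a).image (g a) else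
    (P.filter (fun u => a ∈ E u)).image (fun u => g u a)
  have hUP : ∀ a ∈ P, U a = (E a).image (g a) := fun a ha => by simp only [U, if_pos ha]
  have hUN : ∀ a ∉ P, U a = (P.filter (fun u => a ∈ E u)).image (fun u => g u a) :=
    fun a ha => by simp only [U, if_neg ha]
  have hUNc : ∀ a ∉ P, (U a).card ≤ p.h := by
    intro a ha
    rw [hUN a ha]
    exact card_image_le.trans (hhv a)
  have hUJ : ∀ a, ∀ c ∈ U a, cls c < p.J := by
    intro a c hc
    by_cases ha : a ∈ P
    · rw [hUP a ha, mem_image] at hc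
      obtain ⟨v, hv, rfl⟩ := hc
      exact (hg a ha).2.2.1.lt v hv
    · rw [hUN a ha, mem_image] at hc
      obtain ⟨u, hu, rfl⟩ := hc
      rw [mem_filter] at hu
      exact (hg u hu.1).2.2.1.lt a hu.2
  let G1 := g1 P E (fun u hu => (hEm u u hu).1.ne rfl)
  let G2 := g2 H G1
  refine lc_ext H G1 G2 L1 (fun a b => if a ∈ P then g a b else g b a) U ?_ ?_ ?_ ?_ ?_ ?_
  · intro a b hab
    by_cases h : G1.Adj a b
    · exact Or.inl h
    · exact Or.inr ⟨hab, h⟩
  · rintro a b (⟨ha, hb⟩ | ⟨hb, ha⟩)
    · have hbP := (hEm a b hb).2.1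
      simp only [if_pos ha, if_neg hbP]
    · have haP := (hEm b a ha).2.1
      simp only [if_pos hb, if_neg haP]
  · rintro a b (⟨ha, hb⟩ | ⟨hb, ha⟩)
    · simp only [if_pos ha]
      exact (hg a ha).1 b hb
    · have haP := (hEm b a ha).2.1
      simp only [if_neg haP]
      rw [cfg.symm1 a b]
      exact (hg b hb).1 a ha
  · intro a b c hab hac hbc
    by_cases ha : a ∈ P
    · have hb : b ∈ E a := by
        rcases hab with h | h
        · exact h.2
        · exact absurd ha (hEm b a h.2).2.1
      have hc : c ∈ E a := by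
        rcases hac with h | h
        · exact h.2
        · exact absurd ha (hEm c a h.2).2.1
      simp only [if_pos ha]
      intro heq
      exact hbc ((hg a ha).2.1 (mem_coe.2 hb) (mem_coe.2 hc) heq)
    · have hb : b ∈ P ∧ a ∈ E b := by
        rcases hab with h | h
        · exact absurd h.1 ha
        · exact h
      have hc : c ∈ P ∧ a ∈ E c := by
        rcases hac with h | h
        · exact absurd h.1 ha
        · exact h
      simp only [if_neg ha]
      exact (hg b hb.1).2.2.2 c hc.1 hbc.symm a hb.2 hc.2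
  · rintro a b hab
    by_cases ha : a ∈ P
    · have hb : b ∈ E a := by
        rcases hab with h | h
        · exact h.2
        · exact absurd ha (hEm b a h.2).2.1
      rw [hUP a ha]
      simp only [if_pos ha]
      exact mem_image_of_mem _ hb
    · have hb : b ∈ P ∧ a ∈ E b := by
        rcases hab with h | h
        · exact absurd h.1 ha
        · exact h
      rw [hUN a ha]
      simp only [if_neg ha]
      exact mem_image_of_mem (fun u => g u a) (mem_filter.2 hb)
  -- the levels
  set L2 : Fin n → Fin n → Finset ℕ := fun a b => L1 a b \ (U a ∪ U b) with hL2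
  have hsym2 : ∀ a b, L2 a b = L2 b a := by
    intro a b
    simp only [hL2]
    rw [cfg.symm1 a b, union_comm]
  have hG2H : ∀ a b, G2.Adj a b → H.Adj a b := fun a b h => h.1
  have hdlmono : ∀ v j, dl σ G2 v j ≤ dl σ H v j := by
    intro v j
    unfold dl
    apply card_le_card
    apply filter_subset_filter
    intro w hw
    rw [mem_nb] at hw ⊢
    exact hw.1
  have hdlP : ∀ v ∈ P, ∀ j < p.J, dl σ G2 v j + p.rj j ≤ p.dj j := by
    intro v hv j hj
    have h1 : (nb G2 v).filter (fun w => lvl σ v w = j) ⊆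
        ((nb H v).filter (fun w => lvl σ v w = j)) \ ((E v).filter (fun w => lvl σ v w = j)) := by
      intro w hw
      rw [mem_filter, mem_nb] at hw
      rw [mem_sdiff, mem_filter, mem_nb, mem_filter]
      refine ⟨⟨hw.1.1, hw.2⟩, fun h => hw.1.2 (Or.inl ⟨hv, h.1⟩)⟩
    have h2 : (E v).filter (fun w => lvl σ v w = j) ⊆
        (nb H v).filter (fun w => lvl σ v w = j) := by
      intro w hw
      rw [mem_filter] at hw
      rw [mem_filter, mem_nb]
      exact ⟨(hEm v w hw.1).1, hw.2⟩
    have h3 := card_le_card h1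
    have h4 := card_sdiff_add_card_eq_card h2
    have h5 := hEdeg v j hj
    unfold dl at h5 ⊢
    omega
  have hlow : ∀ a b, H.Adj a b → ∀ j, (((L0 a b).filter (fun c => cls c = j)).card : ℝ) - p.a -
      (((U a ∩ L0 a b).filter (fun c => cls c = j)).card : ℝ) -
      (((U b ∩ L0 a b).filter (fun c => cls c = j)).card : ℝ) ≤
      (((L2 a b).filter (fun c => cls c = j)).card : ℝ) := by
    intro a b hab j
    have h1 := lossf cfg hab (fun c => cls c = j)
    have h2 : (L1 a b).filter (fun c => cls c = j) ⊆ (L2 a b).filter (fun c => cls c = j) ∪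
        (((U a ∩ L0 a b).filter (fun c => cls c = j)) ∪
          ((U b ∩ L0 a b).filter (fun c => cls c = j))) := by
      intro c hc
      rw [mem_filter] at hc
      have hc0 := cfg.sub a b hc.1
      simp only [hL2, mem_union, mem_filter, mem_inter, mem_sdiff]
      by_cases h3 : c ∈ U a <;> by_cases h4 : c ∈ U b <;> tauto
    have h3 := ((card_le_card h2).trans (card_union_le _ _)).trans
      (Nat.add_le_add_left (card_union_le _ _) _)
    have h4 : (((L1 a b).filter (fun c => cls c = j)).card : ℝ) ≤
        ((L2 a b).filter (fun c => cls c = j)).card +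
        (((U a ∩ L0 a b).filter (fun c => cls c = j)).card +
          ((U b ∩ L0 a b).filter (fun c => cls c = j)).card) := by exact_mod_cast h3
    linarith
  have hUbN : ∀ a ∉ P, ∀ (S : Finset ℕ) (j : ℕ),
      ((((U a ∩ S).filter (fun c => cls c = j)).card : ℕ) : ℝ) ≤ p.h := by
    intro a ha S j
    have h1 : ((U a ∩ S).filter (fun c => cls c = j)).card ≤ p.h :=
      ((card_le_card (filter_subset _ _)).trans (card_le_card inter_subset_left)).trans (hUNc a ha)
    exact_mod_cast h1
  have hUbP : ∀ a ∈ P, ∀ (S : Finset ℕ) (j : ℕ), j < p.J →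
      ((((U a ∩ S).filter (fun c => cls c = j)).card : ℕ) : ℝ) ≤ p.zm j := by
    intro a ha S j hj
    refine le_trans ?_ ((hg a ha).2.2.1.cap j hj)
    rw [hUP a ha]
    exact_mod_cast card_le_card (filter_subset_filter _ inter_subset_left)
  have hlev := levels G2 σ cls (fun j => j) L2 (fun j => Nat.le_succ j) ?_ ?_
  · refine LC_mono (fun a b _ => filter_subset (fun c => 0 ≤ cls c) _) ?_
    exact LC_sub (G := lev G2 σ 0)
      (fun a b hab => ⟨hab, fun i hi => absurd hi (Nat.not_lt_zero _)⟩) hlev
  · -- the last level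
    refine hS n ok.hn (p.dj p.J) (lev G2 σ p.J) ?_ _ ?_ (fun _ _ => False) (fun _ _ h => h) ?_ ?_ ?_
    · intro v
      rw [dg_lev]
      have h1 := (abs_le.1 (cfg.sJ v)).2
      have h2 : (dg H v : ℝ) / 2 ^ p.J ≤ p.D' / 2 ^ p.J := by
        have : (dg H v : ℝ) ≤ p.D' := by exact_mod_cast cfg.deg v
        gcongr
      have h3 := ok.A13
      have h4 : (dl σ G2 v p.J : ℝ) ≤ dl σ H v p.J := by exact_mod_cast hdlmono v p.J
      have h5 : (dl σ G2 v p.J : ℝ) ≤ p.dj p.J := by linarith
      exact_mod_cast h5
    · intro a b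
      rw [hsym2 a b]
    · intro v
      simp [cnt]
    · intro a b hab _
      have hab' : H.Adj a b := hab.1.1
      have h1 := lossf cfg hab' (fun c => cls c = p.J)
      have h2 := (abs_le.1 (cfg.cJ a b hab')).1
      have h3 : (L1 a b).filter (fun c => cls c = p.J) ⊆
          (L2 a b).filter (fun c => (fun j => j) p.J ≤ cls c) := by
        intro c hc
        rw [mem_filter] at hc
        simp only [hL2, mem_filter, mem_sdiff, mem_union]
        refine ⟨⟨hc.1, ?_⟩, hc.2.ge⟩
        rintro (h | h)
        · have := hUJ a c h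
          omega
        · have := hUJ b c h
          omega
      have h4 : (((L1 a b).filter (fun c => cls c = p.J)).card : ℝ) ≤
          ((L2 a b).filter (fun c => (fun j => j) p.J ≤ cls c)).card := by
        exact_mod_cast card_le_card h3
      have h5 : K₁ * Real.sqrt (p.dj p.J * Real.log n) + K₁ * Real.log n ≤
          C * Real.sqrt (p.dj p.J * Real.log n) + C * Real.log n := by
        gcongr
      have h6 := ok.A13'
      linarith
    · intro a b _ hF
      exact absurd hF id
  · -- the bipartite graphs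
    intro j
    have hj := j.isLt
    have hfil : (fun a b => (L2 a b).filter
        (fun c => (fun i => i) (j : ℕ) ≤ cls c ∧ cls c < (fun i => i) ((j : ℕ) + 1))) =
        (fun a b => (L2 a b).filter (fun c => cls c = (j : ℕ))) := by
      funext a b
      apply filter_congr
      intro c _
      simp only
      omega
    rw [hfil]
    let bad : Fin n → Fin n → Prop := fun a b => ∃ i < p.J,
      (((L0 a b).filter (fun c => cls c = i)).card : ℝ) < p.mj i - p.η
    let F : Fin n → Fin n → Prop := fun a b => (a ∈ P ∧ b ∈ P) ∨ (a ∈ P ∧ b ∉ P ∧ b ∈ exc a) ∨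
      (b ∈ P ∧ a ∉ P ∧ a ∈ exc b) ∨ (a ∉ P ∧ b ∉ P ∧ bad a b)
    have h14a := ok.A14a j hj
    have h14b := ok.A14b j hj
    have h14c := ok.A14c j hj
    have h14d := ok.A14d j hj
    have herr0 : 0 ≤ p.err := by
      have h1 : 0 ≤ C * Real.sqrt (p.ρ * p.D * Real.log n) + C * Real.log n := by
        have : 0 ≤ C := by linarith
        positivity
      linarith [ok.A15]
    refine hcap n ok.hn (p.dj j) (p.rj j) h14a.1 h14a.2 (crs G2 σ j) (fun v => σ v j)
      (fun a b h => h.2.2) P ?_ ?_ (fun a b => (L2 a b).filter (fun c => cls c = (j : ℕ))) ?_ F ?_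
      (p.g + p.b + p.b') p.g p.y p.err p.φ ok.y h14b.1 h14b.2.1 ?_ ?_ ?_ h14b.2.2 ?_ ?_
    · intro v
      rw [dg_crs]
      by_cases hv : v ∈ P
      · have := hdlP v hv j hj
        omega
      · have h1 := cfg.s0 v hv j hj
        have h2 : (dg H v : ℝ) / 2 ^ ((j : ℕ) + 1) ≤ p.D' / 2 ^ ((j : ℕ) + 1) := by
          have : (dg H v : ℝ) ≤ p.D' := by exact_mod_cast cfg.deg v
          gcongr
        have h3 := ok.A1 j hj
        have h4 : (dl σ G2 v j : ℝ) ≤ dl σ H v j := by exact_mod_cast hdlmono v j
        have h5 : (dl σ G2 v j : ℝ) ≤ p.dj j := by linarith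
        exact_mod_cast h5
    · intro v hv
      rw [dg_crs]
      exact hdlP v hv j hj
    · intro a b
      rw [hsym2 a b]
    · rintro a b (h | h | h | h)
      · exact Or.inl ⟨h.2, h.1⟩
      · exact Or.inr (Or.inr (Or.inl h))
      · exact Or.inr (Or.inl h)
      · refine Or.inr (Or.inr (Or.inr ⟨h.2.1, h.1, ?_⟩))
        simp only [bad] at h ⊢
        rw [cfg.symm0 b a]
        exact h.2.2
    · intro v
      rw [cnt_eq_card]
      have hb0 := ok.b
      have hb0' := ok.b'
      by_cases hv : v ∈ P
      · have h1 : univ.filter (fun w => (crs G2 σ j).Adj v w ∧ F v w) ⊆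
            (nb H v).filter (fun w => w ∈ P) ∪ exc v := by
          intro w hw
          rw [mem_filter] at hw
          obtain ⟨_, hadj, hF⟩ := hw
          rcases hF with h | h | h | h
          · exact mem_union_left _ (mem_filter.2 ⟨(mem_nb H v w).2 (hG2H _ _ hadj.1), h.2⟩)
          · exact mem_union_right _ h.2.2
          · exact absurd hv h.2.1
          · exact absurd hv h.1
        have h2 := (card_le_card h1).trans (card_union_le _ _)
        have h3 : ((univ.filter (fun w => (crs G2 σ j).Adj v w ∧ F v w)).card : ℝ) ≤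
            ((nb H v).filter (fun w => w ∈ P)).card + (exc v).card := by exact_mod_cast h2
        have h4 := cfg.pn v
        have h5 := hexc v
        linarith
      · have h1 : univ.filter (fun w => (crs G2 σ j).Adj v w ∧ F v w) ⊆
            (nb H v).filter (fun w => w ∈ P) ∪ (nb H v).filter (fun w => bad v w) := by
          intro w hw
          rw [mem_filter] at hw
          obtain ⟨_, hadj, hF⟩ := hw
          rcases hF with h | h | h | h
          · exact absurd h.1 hv
          · exact absurd h.1 hv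
          · exact mem_union_left _ (mem_filter.2 ⟨(mem_nb H v w).2 (hG2H _ _ hadj.1), h.1⟩)
          · exact mem_union_right _ (mem_filter.2 ⟨(mem_nb H v w).2 (hG2H _ _ hadj.1), h.2.2⟩)
        have h2 := (card_le_card h1).trans (card_union_le _ _)
        have h3 : ((univ.filter (fun w => (crs G2 σ j).Adj v w ∧ F v w)).card : ℝ) ≤
            ((nb H v).filter (fun w => w ∈ P)).card + ((nb H v).filter (fun w => bad v w)).card := by
          exact_mod_cast h2
        have h4 := cfg.pn v
        have h5 := cfg.bad v hv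
        linarith
    · intro v
      refine le_trans ?_ (cfg.pn v)
      have : (nb (crs G2 σ j) v).filter (fun w => w ∈ P) ⊆ (nb H v).filter (fun w => w ∈ P) := by
        apply filter_subset_filter
        intro w hw
        rw [mem_nb] at hw ⊢
        exact hG2H _ _ hw.1
      exact_mod_cast card_le_card this
    · refine le_trans ?_ h14c
      gcongr
    · refine le_trans ?_ h14d
      apply mul_le_mul_of_nonneg_right hCC₁
      have := ok.g
      have := ok.b
      have := ok.b'
      have := ok.y
      positivity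
    · intro a b hab
      have hab' : H.Adj a b := hG2H _ _ hab.1
      have hl : lvl σ a b = j := ((crs_adj σ G2 j a b).1 hab).2
      have hlo := hlow a b hab' j
      have hc1 := (abs_le.1 (cfg.c1 a b hab' j hj)).1
      have hB1 := ok.B1 j hj
      have hB2 := ok.B2 j hj
      have hB3 := ok.B3 j hj
      have hB4 := ok.B4 j hj
      by_cases ha : a ∈ P <;> by_cases hb : b ∈ P
      · have hF : F a b := Or.inl ⟨ha, hb⟩
        have h1 := hUbP a ha (L0 a b) j hj
        have h2 := hUbP b hb (L0 a b) j hj
        simp only [ha, hb, hF, if_true]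
        linarith
      · have h2 := hUbN b hb (L0 a b) j
        by_cases he : b ∈ exc a
        · have hF : F a b := Or.inr (Or.inl ⟨ha, hb, he⟩)
          have h1 := hUbP a ha (L0 a b) j hj
          simp only [ha, hb, hF, if_true, if_false]
          linarith
        · have hF : ¬ F a b := by
            rintro (h | h | h | h)
            · exact hb h.2
            · exact he h.2.2
            · exact hb h.1
            · exact h.1 ha
          have h1 := (hg a ha).2.2.1.ok b hab' hb he j hj hl
          rw [← hUP a ha] at h1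
          simp only [ha, hb, hF, if_true, if_false]
          linarith
      · have h2 := hUbN a ha (L0 a b) j
        by_cases he : a ∈ exc b
        · have hF : F a b := Or.inr (Or.inr (Or.inl ⟨hb, ha, he⟩))
          have h1 := hUbP b hb (L0 a b) j hj
          simp only [ha, hb, hF, if_true, if_false]
          linarith
        · have hF : ¬ F a b := by
            rintro (h | h | h | h)
            · exact ha h.1
            · exact ha h.1
            · exact he h.2.2
            · exact h.2.1 hb
          have h1 := (hg b hb).2.2.1.ok a hab'.symm ha he j hj (by rw [lvl_symm]; exact hl)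
          rw [← hUP b hb, cfg.symm0 b a] at h1
          simp only [ha, hb, hF, if_true, if_false]
          linarith
      · have h1 := hUbN a ha (L0 a b) j
        have h2 := hUbN b hb (L0 a b) j
        by_cases he : bad a b
        · have hF : F a b := Or.inr (Or.inr (Or.inr ⟨ha, hb, he⟩))
          simp only [ha, hb, hF, if_true, if_false]
          linarith
        · have hF : ¬ F a b := by
            rintro (h | h | h | h)
            · exact ha h.1
            · exact ha h.1
            · exact hb h.1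
            · exact he h.2.2
          have h3 : (p.mj j : ℝ) - p.η ≤ (((L0 a b).filter (fun c => cls c = j)).card : ℝ) := by
            by_contra hcon
            push Not at hcon
            exact he ⟨j, hj, hcon⟩
          simp only [ha, hb, hF, if_false]
          linarith

end Pool.Agent.W2helper87.FR
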