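import Pool.Agent.W2helper87.SR.Rg2

/-!
# Random graphs: the number of edges in a set of pairs
-/

set_option autoImplicit false

namespace Pool.Agent.W2helper87.FR

open Finset Pool.Agent.H162R2.Sparse Pool.Agent.H162R2.AG Pool.Agent.W2helper87.SR

open Classical in
/-- the number of edges in `S` -/
noncomputable def cS {n : ℕ} (S : Finset (Pr n)) (G : SimpleGraph (Fin n)) : ℕ :=
  (S.filter (fun e => e.1 ∈ G.edgeSet)).card

/-- the expected number of edges in `S` -/
noncomputable def qs {n : ℕ} (q : Sym2 (Fin n) → ℝ) (S : Finset (Pr n)) : ℝ := ∑ e ∈ S, q e.1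

open Classical in
theorem cS_eq {n : ℕ} (S : Finset (Pr n)) (G : SimpleGraph (Fin n)) :
    (cS S G : ℝ) = ∑ e : Pr n, (if e.1 ∈ G.edgeSet then (if e ∈ S then 1 else 0) else 0) := by
  unfold cS
  rw [← Finset.sum_boole, ← Finset.sum_filter_add_sum_filter_not univ (fun e => e ∈ S)]
  have h1 : ∑ e ∈ univ.filter (fun e : Pr n => ¬ e ∈ S),
      (if e.1 ∈ G.edgeSet then (if e ∈ S then (1 : ℝ) else 0) else 0) = 0 := by
    apply sum_eq_zero
    intro e he
    rw [mem_filter] at he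
    simp [he.2]
  rw [h1, add_zero]
  have h2 : univ.filter (fun e : Pr n => e ∈ S) = S := by
    ext e
    simp
  rw [h2]
  apply sum_congr rfl
  intro e he
  simp [he]

theorem mgf_cS {n : ℕ} (q : Sym2 (Fin n) → ℝ) (S : Finset (Pr n)) (lam : ℝ) :
    ex q (fun G => Real.exp (lam * cS S G)) = ∏ e ∈ S, (1 + q e.1 * (Real.exp lam - 1)) := by
  classical
  have h1 : (fun G : SimpleGraph (Fin n) => Real.exp (lam * cS S G)) =
      (fun G => Real.exp (∑ e : Pr n, if e.1 ∈ G.edgeSet then (if e ∈ S then lam else 0)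
        else 0)) := by
    funext G
    congr 1
    rw [cS_eq, mul_sum]
    apply sum_congr rfl
    intro e _
    split_ifs <;> simp
  rw [h1, mgf q (fun e => if e ∈ S then lam else 0), ← Finset.prod_filter_mul_prod_filter_not univ
    (fun e => e ∈ S)]
  have h2 : ∏ e ∈ univ.filter (fun e : Pr n => ¬ e ∈ S),
      (1 + q e.1 * (Real.exp (if e ∈ S then lam else 0) - 1)) = 1 := by
    apply prod_eq_one
    intro e he
    rw [mem_filter] at he
    simp [he.2]
  rw [h2, mul_one]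
  have h3 : univ.filter (fun e : Pr n => e ∈ S) = S := by
    ext e
    simp
  rw [h3]
  apply prod_congr rfl
  intro e he
  simp [he]

theorem mgf_cS_le {n : ℕ} (q : Sym2 (Fin n) → ℝ) (hq : ∀ e, 0 ≤ q e ∧ q e ≤ 1)
    (S : Finset (Pr n)) (lam : ℝ) :
    ex q (fun G => Real.exp (lam * cS S G)) ≤ Real.exp (qs q S * (Real.exp lam - 1)) := by
  rw [mgf_cS, qs, sum_mul, Real.exp_sum]
  apply prod_le_prod
  · intro e _
    have h1 := hq e.1
    have h2 := Real.exp_pos lam
    nlinarith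
  · intro e _
    have := Real.add_one_le_exp (q e.1 * (Real.exp lam - 1))
    linarith

theorem qs_nonneg {n : ℕ} (q : Sym2 (Fin n) → ℝ) (hq : ∀ e, 0 ≤ q e ∧ q e ≤ 1)
    (S : Finset (Pr n)) : 0 ≤ qs q S := sum_nonneg fun e _ => (hq e.1).1

theorem cS_upper {n : ℕ} (q : Sym2 (Fin n) → ℝ) (hq : ∀ e, 0 ≤ q e ∧ q e ≤ 1) (S : Finset (Pr n))
    (μ t : ℝ) (hμ : 0 < μ) (hv : qs q S ≤ μ) (ht : 0 ≤ t) (ht2 : t ≤ 2 * μ) :
    pb q (fun G => qs q S + t ≤ cS S G) ≤ Real.exp (-(t ^ 2) / (4 * μ)) := by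
  have hmu0 := qs_nonneg q hq S
  set lam : ℝ := t / (2 * μ) with hlam
  have hl0 : 0 ≤ lam := by positivity
  have hl1 : lam ≤ 1 := by
    rw [hlam, div_le_one (by positivity)]
    exact ht2
  have h1 : pb q (fun G => qs q S + t ≤ cS S G) ≤
      pb q (fun G => Real.exp (lam * (qs q S + t)) ≤ Real.exp (lam * cS S G)) := by
    apply pb_mono q hq
    intro G hG
    apply Real.exp_le_exp.2
    exact mul_le_mul_of_nonneg_left hG hl0
  have h2 := markov q hq (fun G => Real.exp (lam * cS S G)) (fun G => (Real.exp_pos _).le)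
    (Real.exp (lam * (qs q S + t))) (Real.exp_pos _)
  have h3 := mgf_cS_le q hq S lam
  have h4 : Real.exp lam - 1 ≤ lam + lam ^ 2 := by
    have := exp_le_quad (x := lam) (by rw [abs_of_nonneg hl0]; exact hl1)
    linarith
  calc pb q (fun G => qs q S + t ≤ cS S G)
      ≤ ex q (fun G => Real.exp (lam * cS S G)) / Real.exp (lam * (qs q S + t)) := h1.trans h2
    _ ≤ Real.exp (qs q S * (Real.exp lam - 1)) / Real.exp (lam * (qs q S + t)) := by gcongr
    _ = Real.exp (qs q S * (Real.exp lam - 1) - lam * (qs q S + t)) := by rw [Real.exp_sub]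
    _ ≤ Real.exp (-(t ^ 2) / (4 * μ)) := by
        apply Real.exp_le_exp.2
        have h5 : qs q S * (Real.exp lam - 1) ≤ qs q S * (lam + lam ^ 2) := by gcongr
        have h6 : qs q S * lam ^ 2 ≤ μ * lam ^ 2 := by gcongr
        have h7 : μ * lam ^ 2 - lam * t = -(t ^ 2) / (4 * μ) := by
          rw [hlam]
          field_simp
          ring
        linarith

theorem cS_lower {n : ℕ} (q : Sym2 (Fin n) → ℝ) (hq : ∀ e, 0 ≤ q e ∧ q e ≤ 1) (S : Finset (Pr n))
    (μ t : ℝ) (hμ : 0 < μ) (hv : qs q S ≤ μ) (ht : 0 ≤ t) (ht2 : t ≤ 2 * μ) :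
    pb q (fun G => (cS S G : ℝ) ≤ qs q S - t) ≤ Real.exp (-(t ^ 2) / (4 * μ)) := by
  have hmu0 := qs_nonneg q hq S
  set lam : ℝ := t / (2 * μ) with hlam
  have hl0 : 0 ≤ lam := by positivity
  have hl1 : lam ≤ 1 := by
    rw [hlam, div_le_one (by positivity)]
    exact ht2
  have h1 : pb q (fun G => (cS S G : ℝ) ≤ qs q S - t) ≤
      pb q (fun G => Real.exp (-lam * (qs q S - t)) ≤ Real.exp (-lam * cS S G)) := by
    apply pb_mono q hq
    intro G hG
    apply Real.exp_le_exp.2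
    nlinarith
  have h2 := markov q hq (fun G => Real.exp (-lam * cS S G)) (fun G => (Real.exp_pos _).le)
    (Real.exp (-lam * (qs q S - t))) (Real.exp_pos _)
  have h3 := mgf_cS_le q hq S (-lam)
  have h4 : Real.exp (-lam) - 1 ≤ -lam + lam ^ 2 := by
    have := exp_le_quad (x := -lam) (by rw [abs_neg, abs_of_nonneg hl0]; exact hl1)
    rw [neg_sq] at this
    linarith
  calc pb q (fun G => (cS S G : ℝ) ≤ qs q S - t)
      ≤ ex q (fun G => Real.exp (-lam * cS S G)) / Real.exp (-lam * (qs q S - t)) := h1.trans h2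
    _ ≤ Real.exp (qs q S * (Real.exp (-lam) - 1)) / Real.exp (-lam * (qs q S - t)) := by gcongr
    _ = Real.exp (qs q S * (Real.exp (-lam) - 1) - -lam * (qs q S - t)) := by rw [Real.exp_sub]
    _ ≤ Real.exp (-(t ^ 2) / (4 * μ)) := by
        apply Real.exp_le_exp.2
        have h5 : qs q S * (Real.exp (-lam) - 1) ≤ qs q S * (-lam + lam ^ 2) := by gcongr
        have h6 : qs q S * lam ^ 2 ≤ μ * lam ^ 2 := by gcongr
        have h7 : μ * lam ^ 2 - lam * t = -(t ^ 2) / (4 * μ) := by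
          rw [hlam]
          field_simp
          ring
        linarith

open Classical in
/-- the pairs of `v` and a member of `U` -/
noncomputable def sU {n : ℕ} (v : Fin n) (U : Finset (Fin n)) : Finset (Pr n) :=
  univ.filter (fun e => ∃ w ∈ U, e.1 = s(v, w))

theorem mem_sU {n : ℕ} (v : Fin n) (U : Finset (Fin n)) (e : Pr n) :
    e ∈ sU v U ↔ ∃ w ∈ U, e.1 = s(v, w) := by
  classical
  unfold sU
  rw [mem_filter]
  exact ⟨fun h => h.2, fun h => ⟨mem_univ _, h⟩⟩

open Classical in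
theorem cS_sU {n : ℕ} (v : Fin n) (U : Finset (Fin n)) (G : SimpleGraph (Fin n)) :
    cS (sU v U) G = ((nb G v).filter (fun w => w ∈ U)).card := by
  unfold cS
  symm
  refine Finset.card_bij (fun w hw => ⟨s(v, w), by
    rw [mem_filter, mem_nb] at hw
    simpa using hw.1.ne⟩) ?_ ?_ ?_
  · intro w hw
    rw [mem_filter, mem_nb] at hw
    rw [mem_filter, mem_sU]
    exact ⟨⟨w, hw.2, rfl⟩, hw.1⟩
  · intro w _ w' _ h
    exact Sym2.congr_right.1 (congrArg Subtype.val h)
  · rintro ⟨e, he⟩ hve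
    rw [mem_filter, mem_sU] at hve
    obtain ⟨⟨w, hw, rfl⟩, h⟩ := hve
    refine ⟨w, ?_, rfl⟩
    rw [mem_filter, mem_nb]
    exact ⟨h, hw⟩

theorem cS_univ {n : ℕ} (v : Fin n) (G : SimpleGraph (Fin n)) :
    cS (sU v univ) G = dg G v := by
  classical
  rw [cS_sU]
  unfold dg
  congr 1
  apply filter_true_of_mem
  intro w _
  exact mem_univ _

open Classical in
/-- the probabilities of the random subgraph -/
noncomputable def qB {n : ℕ} (B : SimpleGraph (Fin n)) (p : ℝ) (e : Sym2 (Fin n)) : ℝ :=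
  if e ∈ B.edgeSet then p else 0

theorem qB_01 {n : ℕ} (B : SimpleGraph (Fin n)) (p : ℝ) (hp0 : 0 ≤ p) (hp1 : p ≤ 1) :
    ∀ e, 0 ≤ qB B p e ∧ qB B p e ≤ 1 := by
  intro e
  unfold qB
  split_ifs
  · exact ⟨hp0, hp1⟩
  · exact ⟨le_rfl, zero_le_one⟩

theorem qB_le {n : ℕ} (B : SimpleGraph (Fin n)) (p : ℝ) (hp0 : 0 ≤ p) (e : Sym2 (Fin n)) :
    qB B p e ≤ p := by
  unfold qB
  split_ifs
  · exact le_rfl
  · exact hp0

theorem qs_qB {n : ℕ} (B : SimpleGraph (Fin n)) (p : ℝ) (S : Finset (Pr n)) :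
    qs (qB B p) S = p * cS S B := by
  classical
  unfold qs qB cS
  rw [← Finset.sum_boole, mul_sum]
  apply sum_congr rfl
  intro e _
  split_ifs <;> simp

/-- the generating function in the homogeneous case -/
theorem gf_cS {n : ℕ} (B : SimpleGraph (Fin n)) (p : ℝ) (S : Finset (Pr n)) (lam : ℝ) :
    ex (qB B p) (fun G => Real.exp (lam * cS S G)) =
      (1 + p * (Real.exp lam - 1)) ^ cS S B := by
  classical
  rw [mgf_cS]
  unfold cS
  rw [← Finset.prod_const, Finset.prod_filter]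
  apply prod_congr rfl
  intro e _
  unfold qB
  split_ifs <;> simp

end Pool.Agent.W2helper87.FR
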