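import Pool.Agent.W2helper87.FR.Rnd

/-!
# The list edge-colouring conjecture for random subgraphs of almost dense graphs
-/

set_option autoImplicit false

namespace Pool.Agent.W2helper87.FR

open Finset Pool.Agent.H162R2.Sparse Pool.Agent.H162R2.AG Pool.Agent.W2helper87.SR

theorem ev_log3 (K a : ℝ) (hK : 0 < K) (ha : 0 < a) :
    ∀ᶠ n : ℕ in Filter.atTop, K * (Real.log n) ^ 3 ≤ (n : ℝ) ^ a := by
  have h1 := isLittleO_log_rpow_rpow_atTop (s := a) 3 ha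
  have h2 := h1.bound (c := 1 / K) (by positivity)
  have h3 : ∀ᶠ x : ℝ in Filter.atTop, K * (Real.log x) ^ 3 ≤ x ^ a := by
    filter_upwards [h2, Filter.eventually_ge_atTop 1] with x hx hx1
    have e1 : 0 ≤ Real.log x := Real.log_nonneg hx1
    have e2 : Real.log x ^ (3 : ℝ) = Real.log x ^ 3 := by
      rw [← Real.rpow_natCast]
      norm_num
    rw [e2, Real.norm_of_nonneg (by positivity), Real.norm_of_nonneg (by positivity)] at hx
    calc K * (Real.log x) ^ 3 ≤ K * (1 / K * x ^ a) := by gcongr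
      _ = x ^ a := by field_simp
  exact tendsto_natCast_atTop_atTop.eventually h3

theorem ev_const (K a : ℝ) (ha : 0 < a) : ∀ᶠ n : ℕ in Filter.atTop, K ≤ (n : ℝ) ^ a :=
  ((tendsto_rpow_atTop ha).comp tendsto_natCast_atTop_atTop).eventually_ge_atTop _

theorem ev_log (K : ℝ) : ∀ᶠ n : ℕ in Filter.atTop, K ≤ Real.log n :=
  (Real.tendsto_log_atTop.comp tendsto_natCast_atTop_atTop).eventually_ge_atTop _

set_option maxHeartbeats 4000000 in
open Classical in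
theorem dense_random (c₀ η : ℝ) (hc0 : 0 < c₀) (hη : 0 < η) (hη1 : η ≤ 1) :
    ∃ c₁ : ℝ, 0 < c₁ ∧ c₁ ≤ 1 / 40 ∧ ∃ N : ℕ, ∀ n : ℕ, N ≤ n →
      ∀ (B : SimpleGraph (Fin n)) (p : ℝ), (n : ℝ) ^ (c₀ - 1) ≤ p → p ≤ 1 - η →
      (∃ v, (n : ℝ) ^ (1 - c₁) ≤ dg B v) →
      1 - (n : ℝ) ^ (-(1 / 40) : ℝ) ≤ pb (qB B p) Gd := by
  obtain ⟨ε, hε⟩ : ∃ ε : ℝ, ε = η / 68000 := ⟨_, rfl⟩
  have hε0 : 0 < ε := by rw [hε]; positivity
  have hε1 : 4 * ε ≤ 1 := by rw [hε]; linarith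
  obtain ⟨κ, γ, ζ, X, hκ0, hκ1, hγ0, hγ1, hζ, hX, hfull⟩ := full ε hε0 (by linarith)
  obtain ⟨c₁, hc₁⟩ : ∃ c₁ : ℝ, c₁ = min (1 / 40) (min (κ / 8) (c₀ / 2)) := ⟨_, rfl⟩
  have hc₁0 : 0 < c₁ := by
    rw [hc₁]
    apply lt_min
    · norm_num
    · apply lt_min <;> linarith
  have hc₁1 : c₁ ≤ 1 / 40 := by rw [hc₁]; exact min_le_left _ _
  have hc₁2 : c₁ ≤ κ / 8 := by rw [hc₁]; exact (min_le_right _ _).trans (min_le_left _ _)
  have hc₁3 : c₁ ≤ c₀ / 2 := by rw [hc₁]; exact (min_le_right _ _).trans (min_le_right _ _)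
  obtain ⟨κ', hκ'⟩ : ∃ κ' : ℝ, κ' = min (κ / 2) (1 / 20) := ⟨_, rfl⟩
  have hκ'0 : 0 < κ' := by
    rw [hκ']
    apply lt_min <;> [linarith; norm_num]
  have hκγ : 0 < κ * γ := by positivity
  obtain ⟨K, hK⟩ : ∃ K : ℝ, K = 16 + 4624 / η ^ 2 + 64 / ε ^ 2 + 2 * X ^ 2 + 32 / (κ * γ) +
    2 * (12 / (κ' * ζ)) ^ 2 := ⟨_, rfl⟩
  have k1 : 0 ≤ 4624 / η ^ 2 := by positivity
  have k2 : 0 ≤ 64 / ε ^ 2 := by positivity
  have k3 : 0 ≤ 2 * X ^ 2 := by positivity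
  have k4 : 0 ≤ 32 / (κ * γ) := by positivity
  have k5 : 0 ≤ 2 * (12 / (κ' * ζ)) ^ 2 := by positivity
  have hK0 : 0 < K := by linarith
  -- large `n`
  obtain ⟨N, hN⟩ := Filter.eventually_atTop.1
    ((ev_log3 K (c₀ / 2) hK0 (by positivity)).and
      ((ev_const (16 / ε ^ 2) (1 / 40) (by norm_num)).and
      ((ev_log3 4 (1 / 20) (by norm_num) (by norm_num)).and
      ((ev_const (16 / (κ * γ)) (3 * κ / 8) (by positivity)).and
      ((ev_const ((288 / (κ * γ) + 9) / 2) (κ' / 2) (by positivity)).and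
      ((ev_const (96 / (κ * γ)) (κ / 2) (by positivity)).and
      ((ev_const (288 / ζ ^ 2) (3 / 40) (by norm_num)).and
      ((ev_log X).and ((ev_rpow 9 (1 / 20) (1 / 40) (by norm_num)).and
      (Filter.eventually_ge_atTop 6))))))))))
  refine ⟨c₁, hc₁0, hc₁1, N, fun n hn B p hp hpη hB => ?_⟩
  obtain ⟨v1, v2, v3, v4, v5, v6, v7, v8, v9, hn6⟩ := hN n hn
  have hnr : (6 : ℝ) ≤ n := by exact_mod_cast hn6
  have hn0 : (0 : ℝ) < n := by linarith
  have hn1 : (1 : ℝ) ≤ n := by linarith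
  have hp0 : 0 < p := lt_of_lt_of_le (by positivity) hp
  have hp1 : p ≤ 1 := by linarith
  have hq := qB_01 B p hp0.le hp1
  obtain ⟨l, hl⟩ : ∃ l : ℝ, l = Real.log n := ⟨_, rfl⟩
  rw [← hl] at v1 v3 v8
  have hl1 : 1 ≤ l := by linarith
  -- the largest expected degree
  have hne : Nonempty (Fin n) := ⟨⟨0, by omega⟩⟩
  obtain ⟨u₀, hu₀⟩ := Finite.exists_max (fun v : Fin n => dg B v)
  obtain ⟨Nm, hNm⟩ : ∃ Nm : ℝ, Nm = dg B u₀ := ⟨_, rfl⟩
  have hNm1 : (n : ℝ) ^ (1 - c₁) ≤ Nm := by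
    obtain ⟨v, hv⟩ := hB
    rw [hNm]
    refine hv.trans ?_
    exact_mod_cast hu₀ v
  have hNm0 : 0 < Nm := lt_of_lt_of_le (by positivity) hNm1
  obtain ⟨μ, hμ⟩ : ∃ μ : ℝ, μ = p * Nm := ⟨_, rfl⟩
  have hμ0 : 0 < μ := by rw [hμ]; positivity
  have hμv : ∀ v, p * (cS (sU v univ) B : ℝ) ≤ μ := by
    intro v
    rw [cS_univ, hμ, hNm]
    apply mul_le_mul_of_nonneg_left _ hp0.le
    exact_mod_cast hu₀ v
  have hμu : p * (cS (sU u₀ univ) B : ℝ) = μ := by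
    rw [cS_univ, hμ, hNm]
  have hμK : K * l ^ 3 ≤ μ := by
    refine v1.trans ?_
    calc (n : ℝ) ^ (c₀ / 2) ≤ (n : ℝ) ^ (c₀ - 1 + (1 - c₁)) := by
          apply Real.rpow_le_rpow_of_exponent_le hn1
          linarith
      _ = (n : ℝ) ^ (c₀ - 1) * (n : ℝ) ^ (1 - c₁) := Real.rpow_add hn0 _ _
      _ ≤ p * Nm := by gcongr
      _ = μ := hμ.symm
  have hl3 : l ≤ l ^ 3 := by
    have : l * 1 ≤ l * l ^ 2 := by
      gcongr
      exact one_le_pow₀ hl1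
    calc l = l * 1 := (mul_one l).symm
      _ ≤ l * l ^ 2 := this
      _ = l ^ 3 := by ring
  have hcoef : ∀ y : ℝ, y ≤ K → y * l ^ 3 ≤ μ := by
    intro y hy
    refine le_trans ?_ hμK
    gcongr
  have hcoef1 : ∀ y : ℝ, 0 ≤ y → y ≤ K → y * l ≤ μ := by
    intro y hy0 hy
    refine le_trans ?_ (hcoef y hy)
    gcongr
  have hcoef2 : ∀ y : ℝ, 0 ≤ y → y ≤ K → y ≤ μ := by
    intro y hy0 hy
    refine le_trans ?_ (hcoef1 y hy0 hy)
    nlinarith
  obtain ⟨S, hS⟩ : ∃ S : ℝ, S = Real.sqrt (μ * l) := ⟨_, rfl⟩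
  have hS0 : 0 < S := by
    rw [hS]
    apply Real.sqrt_pos.2
    positivity
  have hSS : S ^ 2 = μ * l := by
    rw [hS]
    exact Real.sq_sqrt (by positivity)
  have hSη : 68 * S ≤ μ * η := by
    have h1 : 4624 / η ^ 2 * l ≤ μ := hcoef1 _ k1 (by linarith)
    have h2 : S ≤ μ * η / 68 := by
      rw [hS]
      apply Real.sqrt_le_iff.2
      refine ⟨by positivity, ?_⟩
      have h3 : μ * l = μ * η ^ 2 / 4624 * (4624 / η ^ 2 * l) := by field_simp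
      rw [h3]
      calc μ * η ^ 2 / 4624 * (4624 / η ^ 2 * l) ≤ μ * η ^ 2 / 4624 * μ := by gcongr
        _ = (μ * η / 68) ^ 2 := by ring
    linarith
  have hSε : 8 * S ≤ ε * μ := by
    have h1 : 64 / ε ^ 2 * l ≤ μ := hcoef1 _ k2 (by linarith)
    have h2 : S ≤ ε * μ / 8 := by
      rw [hS]
      apply Real.sqrt_le_iff.2
      refine ⟨by positivity, ?_⟩
      have h3 : μ * l = μ * ε ^ 2 / 64 * (64 / ε ^ 2 * l) := by field_simp
      rw [h3]
      calc μ * ε ^ 2 / 64 * (64 / ε ^ 2 * l) ≤ μ * ε ^ 2 / 64 * μ := by gcongr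
        _ = (ε * μ / 8) ^ 2 := by ring
    linarith
  have hSε1 : 1 ≤ ε * S := by
    have h1 : 64 / ε ^ 2 ≤ μ := hcoef2 _ k2 (by linarith)
    have h2 : 1 / ε ≤ S := by
      rw [hS]
      apply Real.le_sqrt_of_sq_le
      calc (1 / ε) ^ 2 = 1 / ε ^ 2 := by ring
        _ ≤ 64 / ε ^ 2 := by gcongr; norm_num
        _ ≤ μ := h1
        _ ≤ μ * l := by nlinarith
    calc (1 : ℝ) = ε * (1 / ε) := by field_simp
      _ ≤ ε * S := by gcongr
  have hSμ : 68 * S ≤ μ := by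
    have : μ * η ≤ μ * 1 := by gcongr
    linarith
  -- the parameters of the main estimate
  obtain ⟨u, hu⟩ : ∃ u : ℕ, u = ⌊(n : ℝ) ^ ((19 : ℝ) / 20)⌋₊ := ⟨_, rfl⟩
  have hu1 : (u : ℝ) ≤ (n : ℝ) ^ ((19 : ℝ) / 20) := by
    rw [hu]
    exact Nat.floor_le (by positivity)
  have hun : u ≤ n := by
    have : (n : ℝ) ^ ((19 : ℝ) / 20) ≤ (n : ℝ) ^ (1 : ℝ) := by
      apply Real.rpow_le_rpow_of_exponent_le hn1
      norm_num
    rw [Real.rpow_one] at this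
    exact_mod_cast hu1.trans this
  have hu2 : (n : ℝ) ^ ((19 : ℝ) / 20) / 2 ≤ u := by
    have h1 : (n : ℝ) ^ ((19 : ℝ) / 20) < u + 1 := by
      rw [hu]
      exact Nat.lt_floor_add_one _
    have h2 : (4 : ℝ) ≤ (n : ℝ) ^ ((19 : ℝ) / 20) := by
      have h3 : (n : ℝ) ^ ((1 : ℝ) / 20) ≤ (n : ℝ) ^ ((19 : ℝ) / 20) := by
        apply Real.rpow_le_rpow_of_exponent_le hn1
        norm_num
      have h4 : 4 * 1 ≤ 4 * l ^ 3 := by
        gcongr
        exact one_le_pow₀ hl1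
      linarith
    linarith
  have hub : 2 * Real.log n ≤ u / n * (n : ℝ) ^ ((1 : ℝ) / 10) := by
    rw [← hl]
    have h1 : (n : ℝ) ^ ((1 : ℝ) / 20) * n = (n : ℝ) ^ ((19 : ℝ) / 20) *
        (n : ℝ) ^ ((1 : ℝ) / 10) := by
      rw [← Real.rpow_add hn0]
      nth_rewrite 2 [← Real.rpow_one (n : ℝ)]
      rw [← Real.rpow_add hn0]
      norm_num
    rw [div_mul_eq_mul_div, le_div_iff₀ hn0]
    calc 2 * l * n ≤ 2 * l ^ 3 * n := by gcongr
      _ = (4 * l ^ 3) * n / 2 := by ring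
      _ ≤ (n : ℝ) ^ ((1 : ℝ) / 20) * n / 2 := by gcongr
      _ = (n : ℝ) ^ ((19 : ℝ) / 20) / 2 * (n : ℝ) ^ ((1 : ℝ) / 10) := by
          rw [h1]
          ring
      _ ≤ u * (n : ℝ) ^ ((1 : ℝ) / 10) := by gcongr
  have hu3 : p * u ≤ ε ^ 2 * μ / 16 := by
    have h1 : (16 / ε ^ 2) * (n : ℝ) ^ ((19 : ℝ) / 20) ≤ Nm := by
      calc (16 / ε ^ 2) * (n : ℝ) ^ ((19 : ℝ) / 20) ≤
          (n : ℝ) ^ ((1 : ℝ) / 40) * (n : ℝ) ^ ((19 : ℝ) / 20) := by gcongr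
        _ = (n : ℝ) ^ ((39 : ℝ) / 40) := by
            rw [← Real.rpow_add hn0]
            norm_num
        _ ≤ (n : ℝ) ^ (1 - c₁) := by
            apply Real.rpow_le_rpow_of_exponent_le hn1
            linarith
        _ ≤ Nm := hNm1
    calc p * u ≤ p * (n : ℝ) ^ ((19 : ℝ) / 20) := by gcongr
      _ = p * (ε ^ 2 / 16 * ((16 / ε ^ 2) * (n : ℝ) ^ ((19 : ℝ) / 20))) := by field_simp
      _ ≤ p * (ε ^ 2 / 16 * Nm) := by gcongr
      _ = ε ^ 2 * μ / 16 := by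
          rw [hμ]
          ring
  have hb1 : (1 : ℝ) ≤ (n : ℝ) ^ ((1 : ℝ) / 10) := Real.one_le_rpow hn1 (by norm_num)
  have hbn : (n : ℝ) ^ ((1 : ℝ) / 10) ≤ n := by
    calc (n : ℝ) ^ ((1 : ℝ) / 10) ≤ (n : ℝ) ^ (1 : ℝ) := by
          apply Real.rpow_le_rpow_of_exponent_le hn1
          norm_num
      _ = n := Real.rpow_one _
  have hnear := near_max B p η μ S hp0 hη hpη hμ0 hμv hS0 (by rw [← hl]; exact hSS) ε hε0 hε1 u₀
    hμu ((n : ℝ) ^ ((1 : ℝ) / 10)) _ ((n : ℝ) ^ ((1 : ℝ) / 4)) hb1 (by positivity) hbn rfl hSη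
    hSε1 hSε (by rw [← hl]; exact hl1) u hun hu3 hub
  have hb2 : Real.exp (1360 * 5 * ε / η * Real.log n) * (n : ℝ) ^ ((1 : ℝ) / 10) + 1 =
      (n : ℝ) ^ ((1 : ℝ) / 5) + 1 := by
    have h1 : 1360 * 5 * ε / η = 1 / 10 := by
      rw [hε]
      field_simp
      norm_num
    rw [h1, exp_mul_log n (by omega), ← Real.rpow_add hn0]
    norm_num
  rw [hb2] at hnear
  -- the set of vertices with many neighbours in a small set
  obtain ⟨w, hw⟩ : ∃ w : ℕ, w = ⌈32 * ((n : ℝ) ^ (1 - κ) + 2) / (κ * γ * μ)⌉₊ := ⟨_, rfl⟩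
  have hκγμ : 32 ≤ κ * γ * μ := by
    have h1 : 32 / (κ * γ) ≤ μ := hcoef2 _ k4 (by linarith)
    calc (32 : ℝ) = κ * γ * (32 / (κ * γ)) := by field_simp
      _ ≤ κ * γ * μ := by gcongr
  have hev3 := events3 B p κ γ μ Nm hp0 hp1 hκ0 hγ0 hμ (by rw [← hl]; exact hl1) (by omega) (by
    calc 16 / (κ * γ) * (n : ℝ) ^ (1 - κ / 2) ≤
        (n : ℝ) ^ (3 * κ / 8) * (n : ℝ) ^ (1 - κ / 2) := by gcongr
      _ = (n : ℝ) ^ (1 - κ / 8) := by
          rw [← Real.rpow_add hn0]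
          congr 1
          ring
      _ ≤ (n : ℝ) ^ (1 - c₁) := by
          apply Real.rpow_le_rpow_of_exponent_le hn1
          linarith
      _ ≤ Nm := hNm1) hκγμ w hw
  obtain ⟨m, hm⟩ : ∃ m : ℕ, m = w + ⌈(n : ℝ) ^ ((1 : ℝ) / 4)⌉₊ := ⟨_, rfl⟩
  obtain ⟨A, hA0, hA1, hA2⟩ := exists_A B p κ γ ζ μ Nm κ' c₁ hp0 hp1 hκ0 hκ1 hγ0 hζ hμ
    (by rw [← hl]; exact hl1) hn6 hκ' hc₁1 hc₁2 hNm1 v5 v6 v7
    (hcoef2 _ k5 (by linarith)) w m hw hm
  rw [← hl] at hA1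
  have hup := all_upper (qB B p) hq μ hμ0 (fun v => by rw [qs_qB]; exact hμv v)
    (by rw [← hl]; exact hcoef1 8 (by norm_num) (by linarith)) (by omega)
  have hlow := cS_lower (qB B p) hq (sU u₀ univ) μ (3 * S) hμ0 (by rw [qs_qB, hμu]) (by linarith)
    (by linarith)
  have hlow2 : Real.exp (-((3 * S) ^ 2) / (4 * μ)) ≤ 1 / n := by
    have e1 : -((3 * S) ^ 2) / (4 * μ) = -(9 / 4 * l) := by
      have e2 : -((3 * S) ^ 2) = -(9 * (S ^ 2)) := by ring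
      rw [e2, hSS]
      field_simp
    have e3 : (1 : ℝ) / n = Real.exp (-Real.log n) := by
      rw [Real.exp_neg, Real.exp_log hn0, one_div]
    rw [e1, e3, ← hl]
    apply Real.exp_le_exp.2
    linarith
  -- the events
  have hbad : pb (qB B p) (fun G => ¬ Gd G) ≤ pb (qB B p) (fun G =>
      (∃ v ∈ (univ : Finset (Fin n)), 2 * μ ≤ dg G v) ∨
      ((cS (sU u₀ univ) G : ℝ) ≤ qs (qB B p) (sU u₀ univ) - 3 * S ∨
      (NM ((n : ℝ) ^ ((1 : ℝ) / 4)) (2 * ε * S) G ∨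
      ((∃ T : Finset (Fin n), (T.card : ℝ) ≤ (n : ℝ) ^ (1 - κ) ∧
        w ≤ (univ.filter (fun v => γ * μ / 2 <
          (((nb G v).filter (fun x => x ∈ T)).card : ℝ))).card) ∨
      (¬ ∀ X : Finset (Fin n), X.card ≤ 3 * m → e2 G X ≤ A * X.card))))) := by
    apply pb_mono _ hq
    intro G hG
    by_contra hcon
    apply hG
    rw [not_or, not_or, not_or, not_or, not_not] at hcon
    obtain ⟨g1, g2, g3, g4, g5⟩ := hcon
    intro D hD1 hD2 L hsym hL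
    rw [qs_qB, hμu, cS_univ, not_le] at g2
    have hDlo : μ / 2 ≤ D := by
      have h1 : (dg G u₀ : ℝ) ≤ D := by exact_mod_cast hD1 u₀
      linarith
    have hDhi : (D : ℝ) ≤ 2 * μ := by
      obtain ⟨v, hv⟩ := hD2
      by_contra hcon
      push Not at hcon
      exact g1 ⟨v, mem_univ _, by rw [hv]; exact hcon.le⟩
    have hDn : D ≤ n := by
      obtain ⟨v, hv⟩ := hD2
      rw [← hv]
      unfold dg
      have := card_le_univ (nb G v)
      rwa [Fintype.card_fin] at this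
    have hD0 : (0 : ℝ) < D := by linarith
    have hDl : Real.sqrt (D * l) ≤ 2 * S := by
      apply Real.sqrt_le_iff.2
      refine ⟨by positivity, ?_⟩
      have : (2 * S) ^ 2 = 4 * (μ * l) := by rw [mul_pow, hSS]; norm_num
      rw [this]
      calc (D : ℝ) * l ≤ 2 * μ * l := by gcongr
        _ ≤ 4 * (μ * l) := by nlinarith
    refine hfull n D hDn (by rw [← hl]; exact v8) ?_ ?_ A hA0 ?_ G hD1 m w ?_ ?_ ?_ ?_ L hsym hL
    · rw [← hl]
      apply Real.le_sqrt_of_sq_le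
      have h1 : 2 * X ^ 2 * l ≤ μ := hcoef1 _ k3 (by linarith)
      calc (X * l) ^ 2 = (2 * X ^ 2 * l) / 2 * l := by ring
        _ ≤ μ / 2 * l := by gcongr
        _ ≤ D * l := by gcongr
    · rw [← hl]
      have h1 : 2 * l ^ 3 ≤ μ := hcoef 2 (by linarith)
      have h2 : Real.sqrt (D * l) ≤ D / l := by
        apply Real.sqrt_le_iff.2
        refine ⟨by positivity, ?_⟩
        rw [div_pow, le_div_iff₀ (by positivity)]
        calc (D : ℝ) * l * l ^ 2 = D * l ^ 3 := by ring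
          _ ≤ (D : ℝ) * D := by
              gcongr
              linarith
          _ = (D : ℝ) ^ 2 := by ring
      calc l * Real.sqrt (D * l) ≤ l * (D / l) := by gcongr
        _ = D := by field_simp
    · rw [← hl]
      refine hA1.trans ?_
      gcongr
    · have h1 : 1 ≤ ⌈(n : ℝ) ^ ((1 : ℝ) / 4)⌉₊ := by
        rw [Nat.one_le_ceil_iff]
        positivity
      omega
    · rw [hm, add_comm]
      apply Nat.add_le_add_left
      have h1 : ((univ.filter (fun v => (D : ℝ) - ε * Real.sqrt (D * Real.log n) <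
          dg G v)).card : ℝ) < (n : ℝ) ^ ((1 : ℝ) / 4) := by
        by_contra hcon
        push Not at hcon
        apply g3
        refine ⟨D, hD1, hD2, hcon.trans ?_⟩
        have h2 : (univ.filter (fun v => (D : ℝ) - ε * Real.sqrt (D * Real.log n) <
            dg G v)).card ≤ (univ.filter (fun v => (D : ℝ) - 2 * ε * S < dg G v)).card := by
          apply card_le_card
          intro v hv
          rw [mem_filter] at hv ⊢
          refine ⟨hv.1, lt_of_le_of_lt ?_ hv.2⟩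
          rw [← hl]
          have : ε * Real.sqrt (D * l) ≤ ε * (2 * S) := by gcongr
          linarith
        exact_mod_cast h2
      exact (Nat.lt_ceil.2 h1).le
    · intro T hT
      by_contra hcon
      push Not at hcon
      apply g4
      refine ⟨T, hT, hcon.le.trans ?_⟩
      apply card_le_card
      intro v hv
      rw [mem_filter] at hv ⊢
      refine ⟨hv.1, lt_of_le_of_lt ?_ hv.2⟩
      have : γ * (μ / 2) ≤ γ * D := by gcongr
      linarith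
    · intro X hX
      exact g5 X hX
  have hsum : pb (qB B p) (fun G => ¬ Gd G) ≤ 1 / n + (1 / n +
      ((((n : ℝ) ^ ((1 : ℝ) / 5) + 1) / (n : ℝ) ^ ((1 : ℝ) / 4) + 3 / n) + (1 / n + 1 / n))) := by
    refine hbad.trans ((pb_or_le _ hq _ _).trans (add_le_add hup ?_))
    refine (pb_or_le _ hq _ _).trans (add_le_add (hlow.trans hlow2) ?_)
    refine (pb_or_le _ hq _ _).trans (add_le_add hnear ?_)
    exact (pb_or_le _ hq _ _).trans (add_le_add hev3 hA2)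
  have hfin : 1 / (n : ℝ) + (1 / n +
      ((((n : ℝ) ^ ((1 : ℝ) / 5) + 1) / (n : ℝ) ^ ((1 : ℝ) / 4) + 3 / n) + (1 / n + 1 / n))) ≤
      (n : ℝ) ^ (-(1 / 40) : ℝ) := by
    have e1 : ((n : ℝ) ^ ((1 : ℝ) / 5) + 1) / (n : ℝ) ^ ((1 : ℝ) / 4) ≤
        2 * (n : ℝ) ^ (-(1 / 20) : ℝ) := by
      rw [div_le_iff₀ (by positivity), mul_assoc, ← Real.rpow_add hn0]
      have e2 : (-(1 / 20) + 1 / 4 : ℝ) = 1 / 5 := by norm_num
      rw [e2]
      have e3 : (1 : ℝ) ≤ (n : ℝ) ^ ((1 : ℝ) / 5) := Real.one_le_rpow hn1 (by norm_num)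
      linarith
    have e4 : 1 / (n : ℝ) ≤ (n : ℝ) ^ (-(1 / 20) : ℝ) := by
      rw [one_div, ← Real.rpow_neg_one]
      apply Real.rpow_le_rpow_of_exponent_le hn1
      norm_num
    have e5 : (3 : ℝ) / n = 3 * (1 / n) := by ring
    rw [e5]
    linarith
  rw [pb_not]
  linarith

end Pool.Agent.W2helper87.FR
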