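import Pool.Agent.W2helper87.FR.Cs

/-!
# Random graphs: few vertices with many neighbours in a small set
-/

set_option autoImplicit false

namespace Pool.Agent.W2helper87.FR

open Finset Pool.Agent.H162R2.Sparse Pool.Agent.H162R2.AG Pool.Agent.W2helper87.SR

/-- the number of edges from `W` to `T` -/
noncomputable def eW {n : ℕ} (G : SimpleGraph (Fin n)) (W T : Finset (Fin n)) : ℕ :=
  ∑ v ∈ W, cS (sU v T) G

open Classical in
theorem card_sU {n : ℕ} (v : Fin n) (T : Finset (Fin n)) : (sU v T).card ≤ T.card := by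
  have h1 : (sU v T).card ≤ (T.image (fun w => s(v, w))).card := by
    refine card_le_card_of_injOn (fun e => e.1) ?_ ?_
    · intro e he
      rw [mem_coe, mem_sU] at he
      obtain ⟨w, hw, he⟩ := he
      rw [mem_coe, mem_image]
      exact ⟨w, hw, he.symm⟩
    · intro a _ b _ h
      exact Subtype.ext h
  exact h1.trans card_image_le

open Classical in
theorem card_two {n : ℕ} (W T : Finset (Fin n)) (e : Pr n) :
    (W.filter (fun v => e ∈ sU v T)).card ≤ 2 := by
  obtain ⟨e, he⟩ := e
  induction e using Sym2.ind with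
  | _ a b =>
    have h1 : W.filter (fun v => (⟨s(a, b), he⟩ : Pr n) ∈ sU v T) ⊆ {a, b} := by
      intro v hv
      rw [mem_filter, mem_sU] at hv
      obtain ⟨_, w, _, h⟩ := hv
      have : v ∈ s(a, b) := by
        have h' : s(a, b) = s(v, w) := h
        rw [h']
        exact Sym2.mem_mk_left v w
      rw [mem_insert, mem_singleton]
      exact Sym2.mem_iff.1 this
    exact (card_le_card h1).trans card_le_two

open Classical in
theorem eW_tail {n : ℕ} (q : Sym2 (Fin n) → ℝ) (hq : ∀ e, 0 ≤ q e ∧ q e ≤ 1) (qm : ℝ)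
    (hqm : ∀ e, q e ≤ qm) (hqm0 : 0 ≤ qm) (W T : Finset (Fin n)) (lam a : ℝ) (hlam : 0 ≤ lam) :
    pb q (fun G => a ≤ eW G W T) ≤
      Real.exp (qm * Real.exp (2 * lam) * (W.card * T.card) - lam * a) := by
  let c : Pr n → ℕ := fun e => (W.filter (fun v => e ∈ sU v T)).card
  have hc2 : ∀ e, c e ≤ 2 := fun e => card_two W T e
  have hsum : ∑ e : Pr n, (c e : ℝ) ≤ W.card * T.card := by
    have h1 : ∑ e : Pr n, c e = ∑ v ∈ W, (sU v T).card := by
      simp only [c, card_filter]
      rw [sum_comm]
      apply sum_congr rfl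
      intro v _
      rw [← card_filter]
      congr 1
      ext e
      simp
    have h2 : ∑ v ∈ W, (sU v T).card ≤ W.card * T.card := by
      rw [← smul_eq_mul]
      exact sum_le_card_nsmul W _ _ fun v _ => card_sU v T
    rw [← h1] at h2
    exact_mod_cast h2
  have hE : ∀ G : SimpleGraph (Fin n), (eW G W T : ℝ) =
      ∑ e : Pr n, (if e.1 ∈ G.edgeSet then (c e : ℝ) else 0) := by
    intro G
    unfold eW
    push_cast
    simp_rw [cS_eq]
    rw [sum_comm]
    apply sum_congr rfl
    intro e _
    split_ifs with h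
    · simp only [c]
      rw [sum_boole]
    · simp
  have h1 : pb q (fun G => a ≤ eW G W T) ≤
      pb q (fun G => Real.exp (lam * a) ≤ Real.exp (lam * eW G W T)) := by
    apply pb_mono q hq
    intro G hG
    apply Real.exp_le_exp.2
    exact mul_le_mul_of_nonneg_left hG hlam
  have h2 := markov q hq (fun G => Real.exp (lam * eW G W T)) (fun G => (Real.exp_pos _).le)
    (Real.exp (lam * a)) (Real.exp_pos _)
  have h3 : ex q (fun G => Real.exp (lam * eW G W T)) ≤
      Real.exp (qm * Real.exp (2 * lam) * (W.card * T.card)) := by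
    have e1 : (fun G : SimpleGraph (Fin n) => Real.exp (lam * eW G W T)) =
        (fun G => Real.exp (∑ e : Pr n, if e.1 ∈ G.edgeSet then lam * c e else 0)) := by
      funext G
      rw [hE, mul_sum]
      congr 1
      apply sum_congr rfl
      intro e _
      split_ifs <;> simp
    rw [e1, mgf q (fun e => lam * c e)]
    refine (prod_le_exp q hq _).trans ?_
    apply Real.exp_le_exp.2
    have e2 : ∀ e : Pr n, q e.1 * (Real.exp (lam * c e) - 1) ≤
        qm * Real.exp (2 * lam) * c e := by
      intro e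
      have e3 : Real.exp (lam * c e) - 1 ≤ Real.exp (2 * lam) * c e := by
        have e4 := hc2 e
        have e5 : 1 ≤ Real.exp lam := Real.one_le_exp hlam
        have e6 : Real.exp (2 * lam) = Real.exp lam * Real.exp lam := by
          rw [← Real.exp_add]
          congr 1
          ring
        interval_cases hce : c e
        · simp
        · rw [Nat.cast_one, mul_one, mul_one]
          nlinarith
        · rw [Nat.cast_ofNat, mul_comm lam 2]
          have := Real.exp_pos (2 * lam)
          linarith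
      have e7 : 0 ≤ Real.exp (lam * c e) - 1 := by
        have : 1 ≤ Real.exp (lam * c e) := Real.one_le_exp (by positivity)
        linarith
      calc q e.1 * (Real.exp (lam * c e) - 1) ≤ qm * (Real.exp (lam * c e) - 1) := by
            gcongr
            exact hqm e.1
        _ ≤ qm * (Real.exp (2 * lam) * c e) := by gcongr
        _ = _ := by ring
    refine (sum_le_sum fun e _ => e2 e).trans ?_
    rw [← mul_sum]
    gcongr
  calc pb q (fun G => a ≤ eW G W T) ≤
      ex q (fun G => Real.exp (lam * eW G W T)) / Real.exp (lam * a) := h1.trans h2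
    _ ≤ Real.exp (qm * Real.exp (2 * lam) * (W.card * T.card)) / Real.exp (lam * a) := by gcongr
    _ = _ := by rw [Real.exp_sub]

open Classical in
theorem eW_all {n : ℕ} (q : Sym2 (Fin n) → ℝ) (hq : ∀ e, 0 ≤ q e ∧ q e ≤ 1) (qm : ℝ)
    (hqm : ∀ e, q e ≤ qm) (hqm0 : 0 ≤ qm) (lam t g₀ : ℝ) (w : ℕ) (hlam : 0 ≤ lam) (hn : 3 ≤ n)
    (h1 : qm * Real.exp (2 * lam) * t ≤ lam * g₀ / 2)
    (h2 : (t + w + 2) * Real.log n ≤ lam * g₀ * w / 2) :
    pb q (fun G => ∃ T : Finset (Fin n), (T.card : ℝ) ≤ t ∧
      w ≤ (univ.filter (fun v => g₀ < (((nb G v).filter (fun x => x ∈ T)).card : ℝ))).card) ≤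
      1 / n := by
  have hnr : (3 : ℝ) ≤ n := by exact_mod_cast hn
  have hn0 : (0 : ℝ) < n := by linarith
  have hl0 : 0 ≤ Real.log n := Real.log_natCast_nonneg n
  let I := (univ : Finset (Finset (Fin n))) ×ˢ (powersetCard w (univ : Finset (Fin n)))
  have e1 : pb q (fun G => ∃ T : Finset (Fin n), (T.card : ℝ) ≤ t ∧
      w ≤ (univ.filter (fun v => g₀ < (((nb G v).filter (fun x => x ∈ T)).card : ℝ))).card) ≤
      pb q (fun G => ∃ i ∈ I, ((i.1.card : ℝ) ≤ t ∧ g₀ * w ≤ eW G i.2 i.1)) := by
    apply pb_mono q hq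
    rintro G ⟨T, hT, hw⟩
    obtain ⟨W, hW1, hW2⟩ := exists_subset_card_eq hw
    refine ⟨(T, W), ?_, hT, ?_⟩
    · rw [mem_product, mem_powersetCard]
      exact ⟨mem_univ _, subset_univ _, hW2⟩
    · unfold eW
      push_cast
      calc g₀ * w = ∑ _v ∈ W, g₀ := by rw [sum_const, hW2, nsmul_eq_mul, mul_comm]
        _ ≤ ∑ v ∈ W, (cS (sU v T) G : ℝ) := by
            apply sum_le_sum
            intro v hv
            rw [cS_sU]
            exact (mem_filter.1 (hW1 hv)).2.le
  refine e1.trans ((pb_exists_le q hq _ _).trans ?_)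
  -- each term
  have e2 : ∀ i ∈ I, pb q (fun G => ((i.1.card : ℝ) ≤ t ∧ g₀ * w ≤ eW G i.2 i.1)) ≤
      (Real.exp (t * Real.log n) * (1 / (n : ℝ)) ^ i.1.card) *
        Real.exp (-(lam * g₀ * w / 2)) := by
    intro i hi
    rw [mem_product, mem_powersetCard] at hi
    by_cases hit : (i.1.card : ℝ) ≤ t
    · have e3 : pb q (fun G => ((i.1.card : ℝ) ≤ t ∧ g₀ * w ≤ eW G i.2 i.1)) ≤
          pb q (fun G => g₀ * w ≤ eW G i.2 i.1) := pb_mono q hq fun G h => h.2
      refine e3.trans ((eW_tail q hq qm hqm hqm0 i.2 i.1 lam (g₀ * w) hlam).trans ?_)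
      have e4 : (1 / (n : ℝ)) ^ i.1.card = Real.exp (-(i.1.card * Real.log n)) := by
        rw [Real.exp_neg, Real.exp_nat_mul, Real.exp_log hn0, one_div, inv_pow]
      rw [e4, ← Real.exp_add, ← Real.exp_add]
      apply Real.exp_le_exp.2
      rw [hi.2.2]
      have e5 : qm * Real.exp (2 * lam) * ((w : ℝ) * i.1.card) ≤ lam * g₀ / 2 * w := by
        calc qm * Real.exp (2 * lam) * ((w : ℝ) * i.1.card) ≤
            qm * Real.exp (2 * lam) * ((w : ℝ) * t) := by gcongr
          _ = qm * Real.exp (2 * lam) * t * w := by ring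
          _ ≤ lam * g₀ / 2 * w := by gcongr
      have e6 : 0 ≤ (t - i.1.card) * Real.log n := mul_nonneg (by linarith) hl0
      linarith
    · have e3 : pb q (fun G => ((i.1.card : ℝ) ≤ t ∧ g₀ * w ≤ eW G i.2 i.1)) ≤
          pb q (fun _ => False) := pb_mono q hq fun G h => absurd h.1 hit
      have e4 : pb q (fun _ => False) = 0 := by
        rw [pb_eq]
        simp [ex]
      rw [e4] at e3
      exact e3.trans (by positivity)
  refine (sum_le_sum e2).trans ?_
  have e3 : ∑ i ∈ I, (Real.exp (t * Real.log n) * (1 / (n : ℝ)) ^ i.1.card) *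
        Real.exp (-(lam * g₀ * w / 2)) =
      (∑ T : Finset (Fin n), (1 / (n : ℝ)) ^ T.card) *
        ((powersetCard w (univ : Finset (Fin n))).card *
        (Real.exp (t * Real.log n) * Real.exp (-(lam * g₀ * w / 2)))) := by
    rw [sum_product, sum_mul]
    apply sum_congr rfl
    intro T _
    dsimp only
    rw [sum_const, nsmul_eq_mul]
    ring
  rw [e3]
  have e4 : ∑ T : Finset (Fin n), (1 / (n : ℝ)) ^ T.card ≤ 3 := by
    have h3 := Fintype.sum_pow_mul_eq_add_pow (Fin n) (1 / (n : ℝ)) 1
    have h4 : ∑ T : Finset (Fin n), (1 / (n : ℝ)) ^ T.card = (1 / (n : ℝ) + 1) ^ n := by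
      simpa using h3
    rw [h4]
    have h5 := Real.add_one_le_exp (1 / (n : ℝ))
    calc (1 / (n : ℝ) + 1) ^ n ≤ (Real.exp (1 / n)) ^ n := by gcongr
      _ = Real.exp 1 := by
          rw [← Real.exp_nat_mul]
          congr 1
          field_simp
      _ ≤ 3 := by
          have := Real.exp_one_lt_d9
          linarith
  have e5 : ((powersetCard w (univ : Finset (Fin n))).card : ℝ) ≤ Real.exp (w * Real.log n) := by
    rw [card_powersetCard, card_univ, Fintype.card_fin, Real.exp_nat_mul, Real.exp_log hn0]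
    exact_mod_cast Nat.choose_le_pow n w
  calc (∑ T : Finset (Fin n), (1 / (n : ℝ)) ^ T.card) *
        ((powersetCard w (univ : Finset (Fin n))).card *
        (Real.exp (t * Real.log n) * Real.exp (-(lam * g₀ * w / 2)))) ≤
      3 * (Real.exp (w * Real.log n) *
        (Real.exp (t * Real.log n) * Real.exp (-(lam * g₀ * w / 2)))) := by gcongr
    _ = 3 * Real.exp (w * Real.log n + (t * Real.log n + -(lam * g₀ * w / 2))) := by
        rw [Real.exp_add, Real.exp_add]
    _ ≤ 3 * Real.exp (-(2 * Real.log n)) := by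
        gcongr
        linarith
    _ ≤ 1 / n := by
        have h3 : Real.exp (-(2 * Real.log n)) = 1 / (n : ℝ) ^ 2 := by
          rw [Real.exp_neg, mul_comm, Real.exp_mul, Real.exp_log hn0, one_div]
          norm_num
        rw [h3, mul_one_div, div_le_div_iff₀ (by positivity) hn0]
        nlinarith

end Pool.Agent.W2helper87.FR
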