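import Pool.Agent.W2helper87.FR.Prm

/-!
# The deterministic theorem for pseudo-random graphs
-/

set_option autoImplicit false

namespace Pool.Agent.W2helper87.FR

open Finset Pool.Agent.H162R2.Sparse Pool.Agent.H162R2.AG Pool.Agent.W2helper87.SR

open Classical in
theorem full (ε : ℝ) (hε : 0 < ε) (hε1 : ε ≤ 1) :
    ∃ κ γ ζ X : ℝ, 0 < κ ∧ κ ≤ 1 / 2 ∧ 0 < γ ∧ γ ≤ 1 ∧ 0 < ζ ∧ 1 ≤ X ∧ ∀ n D : ℕ, D ≤ n →
      X ≤ Real.log n → X * Real.log n ≤ Real.sqrt (D * Real.log n) →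
      Real.log n * Real.sqrt (D * Real.log n) ≤ D → ∀ A : ℝ, 0 < A →
      A ≤ ζ * Real.sqrt (D * Real.log n) →
      ∀ G : SimpleGraph (Fin n), (∀ v, dg G v ≤ D) → ∀ m m' : ℕ, 1 ≤ m →
      (univ.filter (fun v => (D : ℝ) - ε * Real.sqrt (D * Real.log n) < dg G v)).card + m' ≤ m →
      (∀ T : Finset (Fin n), (T.card : ℝ) ≤ (n : ℝ) ^ (1 - κ) →
        (univ.filter (fun v => γ * D <
          (((nb G v).filter (fun w => w ∈ T)).card : ℝ))).card ≤ m') →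
      (∀ X : Finset (Fin n), X.card ≤ 3 * m → e2 G X ≤ A * X.card) →
      ∀ L : Fin n → Fin n → Finset ℕ, (∀ a b, L a b = L b a) →
      (∀ a b, G.Adj a b → D ≤ (L a b).card) → LC G L := by
  obtain ⟨C, hC, hout⟩ := outer
  obtain ⟨κ, γ, ζ, X, hκ0, hκ1, hγ0, hγ1, hζ, hX, h⟩ := numbers2 C ε hC hε hε1
  refine ⟨κ, γ, ζ, X, hκ0, hκ1, hγ0, hγ1, hζ, hX, ?_⟩
  intro n D hDn h1 h2 h3 A hA0 hA G hdeg m m' hm hT0 hH1 hsp L hsym hL
  obtain ⟨p, x, s1, sJ, sη, ok, ok2, hpD, hpD', hpg⟩ := h n D hDn h1 h2 h3 A hA0 hA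
  have hl1 : 1 ≤ Real.log n := hX.trans h1
  have hs0 : 0 ≤ Real.sqrt (D * Real.log n) := Real.sqrt_nonneg _
  have hDε : 0 ≤ (D : ℝ) - ε * Real.sqrt (D * Real.log n) := by nlinarith
  refine hout p n ok x s1 sJ sη A _ ok2 G (by rw [hpD]; exact hdeg) m m' hm ?_ ?_ hsp L hsym
    (by rw [hpD]; exact hL)
  · refine le_trans (Nat.add_le_add_right (card_le_card ?_) _) hT0
    intro v hv
    rw [mem_filter] at hv ⊢
    refine ⟨hv.1, ?_⟩
    have := hv.2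
    rw [hpD'] at this
    exact (Nat.floor_lt hDε).1 this
  · intro T hT
    rw [hpg]
    exact hH1 T hT

end Pool.Agent.W2helper87.FR
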