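import Pool.Agent.W2helper87.FR.Bn

/-!
# Random graphs: independence
-/

set_option autoImplicit false

namespace Pool.Agent.W2helper87.FR

open Finset Pool.Agent.H162R2.Sparse Pool.Agent.H162R2.AG Pool.Agent.W2helper87.SR

section

variable {n : ℕ} (q : Sym2 (Fin n) → ℝ)

/-- the weight of an indicator function -/
noncomputable def Wt (ψ : Pr n → Bool) : ℝ := ∏ e : Pr n, (if ψ e = true then q e.1 else 1 - q e.1)

theorem ex_fun (f : SimpleGraph (Fin n) → ℝ) :
    ex q f = ∑ ψ : Pr n → Bool, f ((grEquiv n).symm ψ) * Wt q ψ := by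
  classical
  unfold ex
  refine Fintype.sum_equiv (grEquiv n) _ _ (fun G => ?_)
  rw [Equiv.symm_apply_apply]
  congr 1
  unfold wt Wt
  apply prod_congr rfl
  intro e _
  simp [grEquiv]

theorem mem_symm (ψ : Pr n → Bool) (e : Pr n) :
    e.1 ∈ ((grEquiv n).symm ψ).edgeSet ↔ ψ e = true := by
  classical
  have h := congrFun ((grEquiv n).apply_symm_apply ψ) e
  have h2 : (grEquiv n) ((grEquiv n).symm ψ) e =
      decide (e.1 ∈ ((grEquiv n).symm ψ).edgeSet) := by
    simp [grEquiv]
  rw [h2] at h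
  rw [← h]
  simp

/-- mixing two functions -/
def mix (S : Finset (Pr n)) (ψ ψ' : Pr n → Bool) : Pr n → Bool := by
  classical exact fun e => if e ∈ S then ψ e else ψ' e

theorem mix_in (S : Finset (Pr n)) (ψ ψ' : Pr n → Bool) (e : Pr n) (he : e ∈ S) :
    mix S ψ ψ' e = ψ e := by
  classical
  unfold mix
  simp [he]

theorem mix_out (S : Finset (Pr n)) (ψ ψ' : Pr n → Bool) (e : Pr n) (he : e ∉ S) :
    mix S ψ ψ' e = ψ' e := by
  classical
  unfold mix
  simp [he]

theorem mix_mix (S : Finset (Pr n)) (ψ ψ' : Pr n → Bool) :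
    mix S (mix S ψ ψ') (mix S ψ' ψ) = ψ := by
  funext e
  by_cases he : e ∈ S
  · rw [mix_in S _ _ e he, mix_in S _ _ e he]
  · rw [mix_out S _ _ e he, mix_out S _ _ e he]

theorem Wt_mix (S : Finset (Pr n)) (ψ ψ' : Pr n → Bool) :
    Wt q (mix S ψ ψ') * Wt q (mix S ψ' ψ) = Wt q ψ * Wt q ψ' := by
  unfold Wt
  rw [← prod_mul_distrib, ← prod_mul_distrib]
  apply prod_congr rfl
  intro e _
  by_cases he : e ∈ S
  · rw [mix_in S _ _ e he, mix_in S _ _ e he]
  · rw [mix_out S _ _ e he, mix_out S _ _ e he, mul_comm]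

/-- the swap of the two parts -/
def swp (S : Finset (Pr n)) : ((Pr n → Bool) × (Pr n → Bool)) ≃ ((Pr n → Bool) × (Pr n → Bool)) where
  toFun x := (mix S x.1 x.2, mix S x.2 x.1)
  invFun x := (mix S x.1 x.2, mix S x.2 x.1)
  left_inv x := Prod.ext (mix_mix S x.1 x.2) (mix_mix S x.2 x.1)
  right_inv x := Prod.ext (mix_mix S x.1 x.2) (mix_mix S x.2 x.1)

theorem ex_indep (S : Finset (Pr n)) (f g : SimpleGraph (Fin n) → ℝ)
    (hf : ∀ G G' : SimpleGraph (Fin n), (∀ e ∈ S, (e.1 ∈ G.edgeSet ↔ e.1 ∈ G'.edgeSet)) →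
      f G = f G')
    (hg : ∀ G G' : SimpleGraph (Fin n), (∀ e ∉ S, (e.1 ∈ G.edgeSet ↔ e.1 ∈ G'.edgeSet)) →
      g G = g G') :
    ex q (fun G => f G * g G) = ex q f * ex q g := by
  classical
  have h1 : ex q (fun _ => 1) = 1 := ex_one q
  have h2 : ex q (fun G => f G * g G) = ex q (fun G => f G * g G) * ex q (fun _ => 1) := by
    rw [h1, mul_one]
  rw [h2, ex_fun q (fun G => f G * g G), ex_fun q (fun _ => 1), ex_fun q f, ex_fun q g,
    sum_mul_sum, sum_mul_sum, ← Fintype.sum_prod_type', ← Fintype.sum_prod_type']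
  refine Fintype.sum_equiv (swp S) _ _ (fun x => ?_)
  simp only [swp, Equiv.coe_fn_mk]
  -- the left side is in terms of `x`, the right side in terms of the mixed functions
  have e1 : f ((grEquiv n).symm (mix S x.1 x.2)) = f ((grEquiv n).symm x.1) := by
    apply hf
    intro e he
    rw [mem_symm, mem_symm, mix_in S _ _ e he]
  have e2 : g ((grEquiv n).symm (mix S x.2 x.1)) = g ((grEquiv n).symm x.1) := by
    apply hg
    intro e he
    rw [mem_symm, mem_symm, mix_out S _ _ e he]
  rw [e1, e2]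
  have e3 := Wt_mix q S x.1 x.2
  calc f ((grEquiv n).symm x.1) * g ((grEquiv n).symm x.1) * Wt q x.1 * (1 * Wt q x.2) =
      f ((grEquiv n).symm x.1) * g ((grEquiv n).symm x.1) * (Wt q x.1 * Wt q x.2) := by ring
    _ = f ((grEquiv n).symm x.1) * g ((grEquiv n).symm x.1) *
        (Wt q (mix S x.1 x.2) * Wt q (mix S x.2 x.1)) := by rw [e3]
    _ = _ := by ring

theorem cS_congr (S : Finset (Pr n)) (G G' : SimpleGraph (Fin n))
    (h : ∀ e ∈ S, (e.1 ∈ G.edgeSet ↔ e.1 ∈ G'.edgeSet)) : cS S G = cS S G' := by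
  classical
  unfold cS
  congr 1
  exact filter_congr h

theorem ex_prod (S : Fin n → Finset (Pr n)) (F : Fin n → ℕ → ℝ) (U : Finset (Fin n))
    (hS : ∀ v ∈ U, ∀ w ∈ U, v ≠ w → Disjoint (S v) (S w)) :
    ex q (fun G => ∏ v ∈ U, F v (cS (S v) G)) = ∏ v ∈ U, ex q (fun G => F v (cS (S v) G)) := by
  classical
  induction U using Finset.induction_on with
  | empty =>
    simp only [prod_empty]
    exact ex_one q
  | insert a U ha ih =>
    rw [prod_insert ha, ← ih (fun v hv w hw => hS v (mem_insert_of_mem hv) w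
      (mem_insert_of_mem hw))]
    have h1 : (fun G : SimpleGraph (Fin n) => ∏ v ∈ insert a U, F v (cS (S v) G)) =
        fun G => F a (cS (S a) G) * ∏ v ∈ U, F v (cS (S v) G) := by
      funext G
      rw [prod_insert ha]
    rw [h1]
    refine ex_indep q (S a) (fun G => F a (cS (S a) G)) (fun G => ∏ v ∈ U, F v (cS (S v) G)) ?_ ?_
    · intro G G' h
      rw [cS_congr (S a) G G' h]
    · intro G G' h
      apply prod_congr rfl
      intro v hv
      rw [cS_congr (S v) G G']
      intro e he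
      apply h e
      intro hea
      have hne : v ≠ a := fun h' => ha (h' ▸ hv)
      exact disjoint_left.1 (hS v (mem_insert_of_mem hv) a (mem_insert_self _ _) hne) he hea

/-- some of many independent events occurs -/
theorem pb_none (hq : ∀ e, 0 ≤ q e ∧ q e ≤ 1) (S : Fin n → Finset (Pr n)) (k : Fin n → ℕ)
    (U : Finset (Fin n)) (hS : ∀ v ∈ U, ∀ w ∈ U, v ≠ w → Disjoint (S v) (S w)) :
    pb q (fun G => ∀ v ∈ U, cS (S v) G < k v) ≤ Real.exp (-∑ v ∈ U, TS q (S v) (k v)) := by
  classical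
  have h1 : pb q (fun G => ∀ v ∈ U, cS (S v) G < k v) =
      ex q (fun G => ∏ v ∈ U, (fun c : ℕ => if c < k v then (1 : ℝ) else 0) (cS (S v) G)) := by
    rw [pb_ex]
    congr 1
    funext G
    by_cases h : ∀ v ∈ U, cS (S v) G < k v
    · rw [if_pos h]
      symm
      apply prod_eq_one
      intro v hv
      simp [h v hv]
    · rw [if_neg h]
      push Not at h
      obtain ⟨v, hv, hlt⟩ := h
      symm
      apply prod_eq_zero hv
      simp [hlt]
  rw [h1, ex_prod q S (fun v c => if c < k v then (1 : ℝ) else 0) U hS, ← sum_neg_distrib,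
    Real.exp_sum]
  have h2 : ∀ v, ex q (fun G => if cS (S v) G < k v then (1 : ℝ) else 0) =
      1 - TS q (S v) (k v) := by
    intro v
    have e1 := pb_not q (fun G => cS (S v) G < k v)
    rw [pb_ex] at e1
    rw [e1]
    unfold TS
    simp only [not_lt]
  apply prod_le_prod
  · intro v _
    rw [h2]
    have : TS q (S v) (k v) ≤ 1 := by
      unfold TS
      rw [pb_not]
      have := pb_nonneg q hq (fun G => ¬ k v ≤ cS (S v) G)
      linarith
    linarith
  · intro v _
    rw [h2]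
    have := Real.add_one_le_exp (-TS q (S v) (k v))
    linarith

end

end Pool.Agent.W2helper87.FR
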