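import Pool.Agent.W2helper87.FR.RS

/-!
# Labels and blocks
-/

set_option autoImplicit false

namespace Pool.Agent.W2helper87.FR

open Finset Pool.Agent.H162R2.Sparse Pool.Agent.H162R2.AG

open Classical in
/-- proper labels in `0, …, D - 1` and blocks of at least `y` labels -/
structure Lab {V : Type} [DecidableEq V] (E : Finset (V × V)) (F : V × V → Prop) (D y φ : ℕ)
    (c : V × V → ℕ) (h : ℕ → ℕ) : Prop where
  lt : ∀ e ∈ E, c e < D
  prop : ∀ e ∈ E, ∀ e' ∈ E, e ≠ e' → (e.1 = e'.1 ∨ e.2 = e'.2) → c e ≠ c e'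
  big : ∀ i < D, y ≤ ((range D).filter (fun j => h j = h i)).card
  few1 : ∀ u i, (E.filter (fun e => e.1 = u ∧ F e ∧ h (c e) = i)).card ≤ φ
  few2 : ∀ u i, (E.filter (fun e => e.2 = u ∧ F e ∧ h (c e) = i)).card ≤ φ

open Classical in
theorem lab : ∃ C : ℝ, 1 ≤ C ∧ ∀ n : ℕ, 2 ≤ n → ∀ D : ℕ, 1 ≤ D → D ≤ n →
    ∀ E : Finset (Fin n × Fin n), (∀ u, (E.filter (fun e => e.1 = u)).card ≤ D) →
    (∀ u, (E.filter (fun e => e.2 = u)).card ≤ D) →
    ∀ F : Fin n × Fin n → Prop, ∀ f y φ : ℝ, 0 ≤ y → y ≤ D →
    (∀ u, ((E.filter (fun e => e.1 = u ∧ F e)).card : ℝ) ≤ f) →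
    (∀ u, ((E.filter (fun e => e.2 = u ∧ F e)).card : ℝ) ≤ f) →
    C * (f * (y + Real.log n) / D + Real.log n) ≤ φ →
    ∃ c h, Lab E F D ⌊y⌋₊ ⌊φ⌋₊ c h := by
  obtain ⟨C3, hC3, h3⟩ := K3
  refine ⟨C3, hC3, ?_⟩
  intro n hn D hD hDn E hd1 hd2 F f y φ hy hyD hf1 hf2 hφ
  obtain ⟨c, hc1, hc2⟩ := K1 (Fin n) E D (fun u => by convert hd1 u) (fun u => by convert hd2 u)
  let A : Fin n ⊕ Fin n → Finset ℕ := fun w =>
    match w with
    | Sum.inl u => (E.filter (fun e => e.1 = u ∧ F e)).image c
    | Sum.inr u => (E.filter (fun e => e.2 = u ∧ F e)).image c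
  have hA1 : ∀ w, A w ⊆ range D := by
    intro w x hx
    rw [Finset.mem_range]
    rcases w with u | u
    · obtain ⟨e, he, rfl⟩ := Finset.mem_image.1 (show x ∈ (E.filter _).image c from hx)
      exact hc1 e (Finset.mem_filter.1 he).1
    · obtain ⟨e, he, rfl⟩ := Finset.mem_image.1 (show x ∈ (E.filter _).image c from hx)
      exact hc1 e (Finset.mem_filter.1 he).1
  have hA2 : ∀ w, ((A w).card : ℝ) ≤ f := by
    intro w
    rcases w with u | u
    · refine le_trans ?_ (hf1 u)
      exact_mod_cast Finset.card_image_le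
    · refine le_trans ?_ (hf2 u)
      exact_mod_cast Finset.card_image_le
  obtain ⟨h, hh1, hh2⟩ := h3 n hn D hD hDn f y φ hy hyD hφ A hA1 hA2
  refine ⟨c, h, hc1, hc2, ?_, ?_, ?_⟩
  · intro i hi
    refine Nat.floor_le_of_le ?_
    convert hh1 i hi
  · intro u i
    apply Nat.le_floor
    refine le_trans ?_ (hh2 (Sum.inl u) i)
    norm_cast
    refine Finset.card_le_card_of_injOn c (fun e he => ?_) (fun e he e' he' hee => ?_)
    · rw [Finset.mem_coe, Finset.mem_filter] at he
      rw [Finset.mem_coe, Finset.mem_filter]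
      refine ⟨?_, he.2.2.2⟩
      exact Finset.mem_image_of_mem c (Finset.mem_filter.2 ⟨he.1, he.2.1, he.2.2.1⟩)
    · rw [Finset.mem_coe, Finset.mem_filter] at he he'
      by_contra hne
      exact hc2 e he.1 e' he'.1 hne (Or.inl (he.2.1.trans he'.2.1.symm)) hee
  · intro u i
    apply Nat.le_floor
    refine le_trans ?_ (hh2 (Sum.inr u) i)
    norm_cast
    refine Finset.card_le_card_of_injOn c (fun e he => ?_) (fun e he e' he' hee => ?_)
    · rw [Finset.mem_coe, Finset.mem_filter] at he
      rw [Finset.mem_coe, Finset.mem_filter]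
      refine ⟨?_, he.2.2.2⟩
      exact Finset.mem_image_of_mem c (Finset.mem_filter.2 ⟨he.1, he.2.1, he.2.2.1⟩)
    · rw [Finset.mem_coe, Finset.mem_filter] at he he'
      by_contra hne
      exact hc2 e he.1 e' he'.1 hne (Or.inr (he.2.1.trans he'.2.1.symm)) hee

open Classical in
/-- three groups of labels: the edges at the left vertices in `P` avoid the first group, the edges
at the right vertices in `P` avoid the last group -/
theorem three {V : Type} [Fintype V] [DecidableEq V] (Eb Em Et : Finset (V × V))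
    (F : V × V → Prop) (Db Dm Dt y φ r : ℕ) (cb cm ct : V × V → ℕ) (hb hm ht : ℕ → ℕ)
    (lb : Lab Eb F Db y φ cb hb) (lm : Lab Em F Dm y φ cm hm) (lt : Lab Et F Dt y φ ct ht)
    (hbm : Disjoint Eb Em) (hbt : Disjoint Eb Et) (hmt : Disjoint Em Et)
    (P : V → Prop) (hP1 : ∀ e ∈ Eb, ¬ P e.1) (hP2 : ∀ e ∈ Et, ¬ P e.2) (hrb : r ≤ Db) (hrt : r ≤ Dt)
    (L : V × V → Finset ℕ)
    (hL : ∀ e ∈ Eb ∪ Em ∪ Et, Db + Dm + Dt + 12 * φ ≤ (L e).card + (if P e.1 then r else 0) +
      (if P e.2 then r else 0) + (if F e then y else 0)) :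
    ∃ col : V × V → ℕ, (∀ e ∈ Eb ∪ Em ∪ Et, col e ∈ L e) ∧
      ∀ e ∈ Eb ∪ Em ∪ Et, ∀ e' ∈ Eb ∪ Em ∪ Et, e ≠ e' → (e.1 = e'.1 ∨ e.2 = e'.2) →
        col e ≠ col e' := by
  set E := Eb ∪ Em ∪ Et with hE
  set H1 : ℕ := (range Db).sup hb + 1 with hH1
  set H2 : ℕ := H1 + (range Dm).sup hm + 1 with hH2
  have hb1 : ∀ j < Db, hb j < H1 := fun j hj =>
    Nat.lt_succ_of_le (Finset.le_sup (f := hb) (mem_range.2 hj))
  have hm1 : ∀ j < Dm, H1 + hm j < H2 := fun j hj => by
    have := Finset.le_sup (f := hm) (mem_range.2 hj)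
    omega
  let c : V × V → ℕ := fun e => if e ∈ Eb then cb e else if e ∈ Em then Db + cm e else
    Db + Dm + ct e
  let h : ℕ → ℕ := fun j => if j < Db then hb j else if j < Db + Dm then H1 + hm (j - Db) else
    H2 + ht (j - Db - Dm)
  have hcb : ∀ e ∈ Eb, c e = cb e := fun e he => by simp only [c, if_pos he]
  have hcm : ∀ e ∈ Em, c e = Db + cm e := fun e he => by
    have : e ∉ Eb := fun h' => disjoint_left.1 hbm h' he
    simp only [c, if_neg this, if_pos he]
  have hct : ∀ e ∈ Et, c e = Db + Dm + ct e := fun e he => by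
    have h1 : e ∉ Eb := fun h' => disjoint_left.1 hbt h' he
    have h2 : e ∉ Em := fun h' => disjoint_left.1 hmt h' he
    simp only [c, if_neg h1, if_neg h2]
  have hhb : ∀ j < Db, h j = hb j := fun j hj => by simp only [h, if_pos hj]
  have hhm : ∀ j < Dm, h (Db + j) = H1 + hm j := fun j hj => by
    have e1 : ¬ (Db + j < Db) := by omega
    have e2 : Db + j < Db + Dm := by omega
    simp only [h, if_neg e1, if_pos e2, Nat.add_sub_cancel_left]
  have hht : ∀ j, h (Db + Dm + j) = H2 + ht j := fun j => by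
    have e1 : ¬ (Db + Dm + j < Db) := by omega
    have e2 : ¬ (Db + Dm + j < Db + Dm) := by omega
    have e3 : Db + Dm + j - Db - Dm = j := by omega
    simp only [h, if_neg e1, if_neg e2, e3]
  have hcount : ∀ (Q : V × V → Prop) [DecidablePred Q] (i : ℕ), (E.filter (fun e => Q e ∧ F e ∧ h (c e) = i)).card ≤
      (Eb.filter (fun e => Q e ∧ F e ∧ hb (cb e) = i)).card +
      (Em.filter (fun e => Q e ∧ F e ∧ hm (cm e) = i - H1)).card +
      (Et.filter (fun e => Q e ∧ F e ∧ ht (ct e) = i - H2)).card := by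
    intro Q _ i
    refine le_trans (card_le_card (?_ : _ ⊆ (Eb.filter (fun e => Q e ∧ F e ∧ hb (cb e) = i)) ∪
      (Em.filter (fun e => Q e ∧ F e ∧ hm (cm e) = i - H1)) ∪
      (Et.filter (fun e => Q e ∧ F e ∧ ht (ct e) = i - H2)))) ?_
    · intro e he
      rw [mem_filter, hE, mem_union, mem_union] at he
      obtain ⟨(he | he) | he, h1, h2, h3⟩ := he
      · rw [hcb e he, hhb _ (lb.lt e he)] at h3
        exact mem_union_left _ (mem_union_left _ (mem_filter.2 ⟨he, h1, h2, h3⟩))
      · rw [hcm e he, hhm _ (lm.lt e he)] at h3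
        exact mem_union_left _ (mem_union_right _ (mem_filter.2 ⟨he, h1, h2, by omega⟩))
      · rw [hct e he, hht] at h3
        exact mem_union_right _ (mem_filter.2 ⟨he, h1, h2, by omega⟩)
    · refine (card_union_le _ _).trans ?_
      gcongr
      exact card_union_le _ _
  have hblock : ∀ (D' s H : ℕ) (h' : ℕ → ℕ), (∀ j < D', h (s + j) = H + h' j) →
      s + D' ≤ Db + Dm + Dt → (∀ i < D', y ≤ ((range D').filter (fun j => h' j = h' i)).card) →
      ∀ i < D', y ≤ ((range (Db + Dm + Dt)).filter (fun j => h j = h (s + i))).card := by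
    intro D' s H h' h1 h2 h3 i hi
    refine (h3 i hi).trans ?_
    refine Finset.card_le_card_of_injOn (fun j => s + j) (fun j hj => ?_)
      (fun j _ j' _ hjj => by simpa using hjj)
    rw [Finset.mem_coe, Finset.mem_filter, mem_range] at hj
    rw [Finset.mem_coe, Finset.mem_filter, mem_range]
    refine ⟨?_, ?_⟩
    · change s + j < _
      omega
    · rw [h1 j hj.1, h1 i hi, hj.2]
  refine K2c V E (Db + Dm + Dt) y (3 * φ) r H1 H2 c h F P P L ?_ ?_ ?_ ?_ ?_ ?_ ?_ ?_ ?_ ?_
  · intro e he
    rw [hE, mem_union, mem_union] at he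
    rcases he with (he | he) | he
    · have := lb.lt e he
      rw [hcb e he]
      omega
    · have := lm.lt e he
      rw [hcm e he]
      omega
    · have := lt.lt e he
      rw [hct e he]
      omega
  · intro e he e' he' hne hinc
    rw [hE, mem_union, mem_union] at he he'
    rcases he with (he | he) | he <;> rcases he' with (he' | he') | he'
    · rw [hcb e he, hcb e' he']
      exact lb.prop e he e' he' hne hinc
    · rw [hcb e he, hcm e' he']
      have := lb.lt e he
      omega
    · rw [hcb e he, hct e' he']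
      have := lb.lt e he
      omega
    · rw [hcm e he, hcb e' he']
      have := lb.lt e' he'
      omega
    · rw [hcm e he, hcm e' he']
      have := lm.prop e he e' he' hne hinc
      omega
    · rw [hcm e he, hct e' he']
      have := lm.lt e he
      omega
    · rw [hct e he, hcb e' he']
      have := lb.lt e' he'
      omega
    · rw [hct e he, hcm e' he']
      have := lm.lt e' he'
      omega
    · rw [hct e he, hct e' he']
      have := lt.prop e he e' he' hne hinc
      omega
  · intro i hi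
    by_cases h1 : i < Db
    · have := hblock Db 0 0 hb (fun j hj => by rw [Nat.zero_add, hhb j hj, Nat.zero_add])
        (by omega) lb.big i h1
      simpa only [Nat.zero_add] using this
    · by_cases h2 : i < Db + Dm
      · have := hblock Dm Db H1 hm hhm (by omega) lm.big (i - Db) (by omega)
        rwa [show Db + (i - Db) = i by omega] at this
      · have := hblock Dt (Db + Dm) H2 ht (fun j _ => hht j) (by omega) lt.big (i - (Db + Dm))
          (by omega)
        rwa [show Db + Dm + (i - (Db + Dm)) = i by omega] at this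
  · intro u i
    have := hcount (fun e => e.1 = u) i
    have h1 := lb.few1 u i
    have h2 := lm.few1 u (i - H1)
    have h3 := lt.few1 u (i - H2)
    omega
  · intro u i
    have := hcount (fun e => e.2 = u) i
    have h1 := lb.few2 u i
    have h2 := lm.few2 u (i - H1)
    have h3 := lt.few2 u (i - H2)
    omega
  · intro e he hPe
    rw [hE, mem_union, mem_union] at he
    rcases he with (he | he) | he
    · exact absurd hPe (hP1 e he)
    · rw [hcm e he, hhm _ (lm.lt e he)]
      omega
    · rw [hct e he, hht]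
      omega
  · intro e he hPe
    rw [hE, mem_union, mem_union] at he
    rcases he with (he | he) | he
    · rw [hcb e he, hhb _ (lb.lt e he)]
      have := hb1 _ (lb.lt e he)
      omega
    · rw [hcm e he, hhm _ (lm.lt e he)]
      exact hm1 _ (lm.lt e he)
    · exact absurd hPe (hP2 e he)
  · refine hrb.trans ?_
    have : range Db ⊆ (range (Db + Dm + Dt)).filter (fun j => h j < H1) := by
      intro j hj
      rw [mem_range] at hj
      rw [mem_filter, mem_range]
      refine ⟨by omega, ?_⟩
      rw [hhb j hj]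
      exact hb1 j hj
    have := card_le_card this
    rwa [card_range] at this
  · refine hrt.trans ?_
    have : (range Dt).image (fun j => Db + Dm + j) ⊆
        (range (Db + Dm + Dt)).filter (fun j => H2 ≤ h j) := by
      intro j hj
      rw [mem_image] at hj
      obtain ⟨i, hi, rfl⟩ := hj
      rw [mem_range] at hi
      rw [mem_filter, mem_range]
      refine ⟨by omega, ?_⟩
      rw [hht]
      omega
    have h2 := card_le_card this
    rwa [card_image_of_injective _ (fun a b hab => by simpa using hab), card_range] at h2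
  · intro e he
    have := hL e he
    omega

end Pool.Agent.W2helper87.FR
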