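import Pool.Agent.W2helper87.FR.Seq

/-!
# The edges at one exceptional vertex
-/

set_option autoImplicit false

namespace Pool.Agent.W2helper87.FR

open Finset Pool.Agent.H162R2.Sparse

/-- a function with small fibres -/
theorem fib {ι : Type} [DecidableEq ι] (J : ℕ) (cap : ℕ → ℕ) (s : Finset ι)
    (hs : s.card ≤ ∑ j ∈ range J, cap j) :
    ∃ k : ι → ℕ, (∀ i ∈ s, k i < J) ∧ ∀ j < J, (s.filter (fun i => k i = j)).card ≤ cap j := by
  classical
  induction s using Finset.induction_on with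
  | empty => exact ⟨fun _ => 0, by simp, by simp⟩
  | insert a s ha ih =>
    rw [card_insert_of_notMem ha] at hs
    obtain ⟨k, hk1, hk2⟩ := ih (by omega)
    obtain ⟨j, hj, hjc⟩ : ∃ j < J, (s.filter (fun i => k i = j)).card < cap j := by
      by_contra hcon
      push Not at hcon
      have h1 : ∑ j ∈ range J, cap j ≤ ∑ j ∈ range J, (s.filter (fun i => k i = j)).card :=
        sum_le_sum fun j hj => hcon j (mem_range.1 hj)
      have h2 : ∑ j ∈ range J, (s.filter (fun i => k i = j)).card = s.card :=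
        (card_eq_sum_card_fiberwise (fun i hi => mem_coe.2 (mem_range.2 (hk1 i hi)))).symm
      omega
    refine ⟨fun i => if i = a then j else k i, ?_, ?_⟩
    · intro i hi
      rw [mem_insert] at hi
      by_cases hia : i = a
      · simp only [hia, if_true]
        exact hj
      · simp only [hia, if_false]
        exact hk1 i (hi.resolve_left hia)
    · intro i hi
      have e2 : s.filter (fun x => (if x = a then j else k x) = i) =
          s.filter (fun x => k x = i) := by
        apply filter_congr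
        intro x hx
        have : x ≠ a := fun h => ha (h ▸ hx)
        simp only [this, if_false]
      rw [filter_insert, e2]
      simp only [if_true]
      split_ifs with hji
      · subst hji
        rw [card_insert_of_notMem (fun h => ha (mem_filter.1 h).1)]
        omega
      · exact hk2 i hi

/-- the clustered case -/
theorem clus {n : ℕ} (J h : ℕ) (cls : ℕ → ℕ) (E0 : Finset (Fin n)) (lv : Fin n → ℕ)
    (Lam : Fin n → Finset ℕ) (R cap : ℕ → ℕ)
    (hR : ∀ j < J, R j ≤ (E0.filter (fun v => lv v = j)).card)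
    (hsum : ∑ j ∈ range J, R j ≤ ∑ j ∈ range J, cap j)
    (hbig : ∀ v ∈ E0, ∀ j < J, h + E0.card < ((Lam v).filter (fun c => cls c = j)).card) :
    ∃ E ⊆ E0, (∀ j < J, (E.filter (fun v => lv v = j)).card = R j) ∧
      ∀ Fb : Fin n → Finset ℕ, (∀ v ∈ E, (Fb v).card ≤ h) →
        ∃ z : Fin n → ℕ, (∀ v ∈ E, z v ∈ Lam v ∧ z v ∉ Fb v ∧ cls (z v) < J) ∧
          Set.InjOn z E ∧ ∀ j < J, ((E.image z).filter (fun c => cls c = j)).card ≤ cap j := by
  classical
  have hex : ∀ j, ∃ S ⊆ E0.filter (fun v => lv v = j), j < J → S.card = R j := by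
    intro j
    by_cases hj : j < J
    · obtain ⟨S, hS1, hS2⟩ := exists_subset_card_eq (hR j hj)
      exact ⟨S, hS1, fun _ => hS2⟩
    · exact ⟨∅, empty_subset _, fun h => absurd h hj⟩
  choose S hS1 hS2 using hex
  have hSlv : ∀ j, ∀ v ∈ S j, v ∈ E0 ∧ lv v = j := fun j v hv => mem_filter.1 (hS1 j hv)
  set E := (range J).biUnion S with hE
  have hEsub : E ⊆ E0 := by
    intro v hv
    rw [hE, mem_biUnion] at hv
    obtain ⟨j, _, hv⟩ := hv
    exact (hSlv j v hv).1
  have hEf : ∀ j < J, E.filter (fun v => lv v = j) = S j := by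
    intro j hj
    ext v
    rw [mem_filter, hE, mem_biUnion]
    constructor
    · rintro ⟨⟨i, _, hv⟩, hlv⟩
      have := (hSlv i v hv).2
      rw [this] at hlv
      rwa [← hlv]
    · intro hv
      exact ⟨⟨j, mem_range.2 hj, hv⟩, (hSlv j v hv).2⟩
  have hEc : E.card ≤ ∑ j ∈ range J, R j := by
    refine card_biUnion_le.trans (sum_le_sum fun j hj => ?_)
    exact (hS2 j (mem_range.1 hj)).le
  obtain ⟨k, hk1, hk2⟩ := fib J cap E (hEc.trans hsum)
  refine ⟨E, hEsub, fun j hj => by rw [hEf j hj, hS2 j hj], fun Fb hFb => ?_⟩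
  obtain ⟨z, hz1, hz2, -⟩ := seq (K := Unit) (fun _ => (∅ : Finset ℕ)) 0 le_rfl E
    (fun v => ((Lam v).filter (fun c => cls c = k v)) \ Fb v) (fun _ _ => 0)
    (fun _ _ => le_rfl) (by
      intro v hv
      have h1 := le_card_sdiff (Fb v) ((Lam v).filter (fun c => cls c = k v))
      have h2 := hFb v hv
      have h3 := hbig v (hEsub hv) (k v) (hk1 v hv)
      have h4 := card_le_card hEsub
      omega) (by
      intro v _ _
      simp)
  have hz : ∀ v ∈ E, z v ∈ Lam v ∧ cls (z v) = k v ∧ z v ∉ Fb v := by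
    intro v hv
    have h1 := mem_sdiff.1 (hz1 v hv)
    have h2 := mem_filter.1 h1.1
    exact ⟨h2.1, h2.2, h1.2⟩
  refine ⟨z, fun v hv => ?_, hz2, fun j hj => ?_⟩
  · obtain ⟨h1, h2, h3⟩ := hz v hv
    exact ⟨h1, h3, by rw [h2]; exact hk1 v hv⟩
  · refine le_trans ?_ (hk2 j hj)
    have h1 : (E.image z).filter (fun c => cls c = j) ⊆ (E.filter (fun v => k v = j)).image z := by
      intro c hc
      rw [mem_filter, mem_image] at hc
      obtain ⟨⟨v, hv, rfl⟩, hcj⟩ := hc
      rw [mem_image]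
      refine ⟨v, mem_filter.2 ⟨hv, ?_⟩, rfl⟩
      rw [← (hz v hv).2.1]
      exact hcj
    exact (card_le_card h1).trans card_image_le

/-- the spread case -/
theorem sprd {n : ℕ} {K : Type} [Fintype K] [Nonempty K] (h : ℕ) (E : Finset (Fin n))
    (Lam : Fin n → Finset ℕ) (A : K → Finset ℕ) (lam Den : ℝ) (h0 : 0 ≤ lam) (hDen : 0 < Den)
    (hD : ∀ v ∈ E, Den ≤ (Lam v).card - h - E.card) (Bs : K → ℝ)
    (hB : ∀ k, ∑ v ∈ E, ((Lam v ∩ A k).card : ℝ) ≤ Bs k)
    (Fb : Fin n → Finset ℕ) (hFb : ∀ v ∈ E, (Fb v).card ≤ h) :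
    ∃ z : Fin n → ℕ, (∀ v ∈ E, z v ∈ Lam v ∧ z v ∉ Fb v) ∧ Set.InjOn z E ∧
      ∀ k, lam * (((E.image z) ∩ A k).card : ℝ) ≤
        Real.log (Fintype.card K) + (Real.exp lam - 1) * (Bs k / Den) := by
  classical
  have hel : 0 ≤ Real.exp lam - 1 := by
    have := Real.add_one_le_exp lam
    linarith
  have hcard : ∀ v ∈ E, Den ≤ (((Lam v) \ Fb v).card : ℝ) - E.card := by
    intro v hv
    have h1 := le_card_sdiff (Fb v) (Lam v)
    have h2 := hFb v hv
    have h3 : (Lam v).card ≤ ((Lam v) \ Fb v).card + h := by omega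
    have h4 : ((Lam v).card : ℝ) ≤ ((Lam v) \ Fb v).card + h := by exact_mod_cast h3
    have := hD v hv
    linarith
  obtain ⟨z, hz1, hz2, hz3⟩ := seq A lam h0 E (fun v => (Lam v) \ Fb v)
    (fun v k => ((Lam v ∩ A k).card : ℝ) / Den) (fun v k => by positivity)
    (by
      intro v hv
      have := hcard v hv
      have h1 : ((E.card : ℕ) : ℝ) < ((Lam v) \ Fb v).card := by linarith
      exact_mod_cast h1)
    (by
      intro v hv k
      have h1 := hcard v hv
      have h2 : (((Lam v \ Fb v) ∩ A k).card : ℝ) ≤ (Lam v ∩ A k).card := by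
        exact_mod_cast card_le_card (inter_subset_inter_right sdiff_subset)
      calc (((Lam v \ Fb v) ∩ A k).card : ℝ) ≤ (Lam v ∩ A k).card := h2
        _ = (Lam v ∩ A k).card / Den * Den := by field_simp
        _ ≤ (Lam v ∩ A k).card / Den * (((Lam v) \ Fb v).card - E.card) := by gcongr)
  refine ⟨z, fun v hv => mem_sdiff.1 (hz1 v hv), hz2, fun k => ?_⟩
  have h1 : ((E.image z) ∩ A k).card ≤ (E.filter (fun v => z v ∈ A k)).card := by
    have : (E.image z) ∩ A k ⊆ (E.filter (fun v => z v ∈ A k)).image z := by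
      intro c hc
      rw [mem_inter, mem_image] at hc
      obtain ⟨⟨v, hv, rfl⟩, hcA⟩ := hc
      exact mem_image.2 ⟨v, mem_filter.2 ⟨hv, hcA⟩, rfl⟩
    exact (card_le_card this).trans card_image_le
  have h2 : lam * (((E.image z) ∩ A k).card : ℝ) ≤
      lam * ((E.filter (fun v => z v ∈ A k)).card : ℝ) := by
    have : (((E.image z) ∩ A k).card : ℝ) ≤ (E.filter (fun v => z v ∈ A k)).card := by
      exact_mod_cast h1
    gcongr
  refine h2.trans ((hz3 k).trans ?_)
  have h3 : ∑ v ∈ E, ((Lam v ∩ A k).card : ℝ) / Den ≤ Bs k / Den := by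
    rw [← sum_div]
    gcongr
    exact hB k
  gcongr

end Pool.Agent.W2helper87.FR
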