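import Pool.Agent.W2helper87.FR.LocV

/-!
# The edges at one exceptional vertex: the spread case
-/

set_option autoImplicit false

namespace Pool.Agent.W2helper87.FR

open Finset Pool.Agent.H162R2.Sparse Pool.Agent.H162R2.AG Pool.Agent.W2helper87.SR

section

variable {p : Par} {C : ℝ} {n : ℕ} {H : SimpleGraph (Fin n)} {σ : Fin n → (Fin p.J → Bool)}
  {cls : ℕ → ℕ} {L0 L1 : Fin n → Fin n → Finset ℕ} {P : Finset (Fin n)}

open Classical in
theorem locS (ok : Ok p C n) (cfg : Cfg p H σ cls L0 L1 P) (u : Fin n) (Qu : Finset (Fin n))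
    (q1 : ∀ j < p.J, p.ρ * (((Nl H σ P u).filter (fun v => lvl σ u v = j)).card : ℝ) - p.err ≤
      ((((Nl H σ P u).filter (fun v => v ∈ Qu)).filter (fun v => lvl σ u v = j)).card : ℝ))
    (q2 : (((Nl H σ P u).filter (fun v => v ∈ Qu)).card : ℝ) ≤
      p.ρ * (Nl H σ P u).card + p.err)
    (q3 : ∀ w, p.ρ * (((Nl H σ P u).filter (fun v => p.δ * p.D < (L0 u w \ L0 u v).card)).card : ℝ) -
      p.err ≤ ((((Nl H σ P u).filter (fun v => v ∈ Qu)).filter
        (fun v => p.δ * p.D < (L0 u w \ L0 u v).card)).card : ℝ))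
    (hfar : ∀ w₀ ∈ Nl H σ P u,
      p.b' < (((Nl H σ P u).filter (fun v => p.δ * p.D < (L0 u w₀ \ L0 u v).card)).card : ℝ)) :
    ∃ E ⊆ (Nl H σ P u).filter (fun v => v ∈ Qu),
      (∀ j < p.J, dl σ H u j + p.rj j ≤ (E.filter (fun v => lvl σ u v = j)).card + p.dj j) ∧
      ∃ exc : Finset (Fin n), (exc.card : ℝ) ≤ p.b' ∧
      ∀ Fb : Fin n → Finset ℕ, (∀ v ∈ E, (Fb v).card ≤ p.h) →
        ∃ z : Fin n → ℕ, (∀ v ∈ E, z v ∈ L1 u v ∧ z v ∉ Fb v) ∧ Set.InjOn z E ∧
          Good p H σ cls L0 P u E exc z := by
  set E0 := (Nl H σ P u).filter (fun v => v ∈ Qu) with hE0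
  have hadj : ∀ v ∈ E0, H.Adj u v := fun v hv => ((mem_Nl σ u v).1 (mem_filter.1 hv).1).1
  have hc1 : ∀ v, H.Adj u v → ∀ j < p.J, (p.mj j : ℝ) - p.t1 ≤
      (((L0 u v).filter (fun c => cls c = j)).card : ℝ) ∧
      (((L0 u v).filter (fun c => cls c = j)).card : ℝ) ≤ p.mj j + p.t1 := by
    intro v hv j hj
    have := abs_le.1 (cfg.c1 u v hv j hj)
    constructor <;> linarith [this.1, this.2]
  have hEm : (E0.card : ℝ) ≤ p.Em := by
    have h1 := cardN cfg u
    have h2 : p.ρ * ((Nl H σ P u).card : ℝ) ≤ p.ρ * (((p.D' : ℝ) - p.D' / 2 ^ p.J) + p.tJ) :=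
      mul_le_mul_of_nonneg_left h1 ok.ρ
    have := ok.AE
    linarith
  have hDr : (0 : ℝ) < p.D := by exact_mod_cast ok.hD
  refine ⟨E0, subset_rfl, ?_, ∅, ?_, ?_⟩
  · intro j hj
    have h1 := degOk ok cfg u Qu q1 j hj
    exact_mod_cast h1
  · simpa using ok.b'
  · intro Fb hFb
    have hn0 : 0 < n := by have := ok.hn; omega
    have : Nonempty (Fin p.J) := ⟨⟨0, ok.hJ⟩⟩
    have : Nonempty (Fin n) := ⟨⟨0, hn0⟩⟩
    let K := (Fin n × Fin p.J) ⊕ Fin p.J
    let A : K → Finset ℕ := Sum.elim
      (fun i => if i.1 ∈ Nl H σ P u then (L0 u i.1).filter (fun c => cls c = i.2) else ∅)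
      (fun j => (E0.biUnion (fun v => L0 u v)).filter (fun c => cls c = j))
    let Bs : K → ℝ := Sum.elim
      (fun i => if i.1 ∈ Nl H σ P u then p.Em * (p.mj i.2 + 2 * p.t1) -
        (p.ρ * p.b' - p.err) * (p.δ * p.mj i.2) else 0)
      (fun j => p.Em * (p.mj j + p.t1))
    obtain ⟨z, hz1, hz2, hz3⟩ := sprd (K := K) p.h E0
      (fun v => (L1 u v).filter (fun c => cls c < p.J)) A p.lam p.Den ok.lam.le ok.AD
      (by
        intro v hv
        have h1 := lossf cfg (hadj v hv) (fun c => cls c < p.J)
        have h2 := lowC cfg (hadj v hv)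
        unfold Par.Den
        linarith) Bs
      (by
        rintro (i | j)
        · simp only [A, Bs, Sum.elim_inl]
          by_cases hi : i.1 ∈ Nl H σ P u
          · rw [if_pos hi, if_pos hi]
            have hiN := (mem_Nl σ u i.1).1 hi
            have hj := i.2.isLt
            have hterm : ∀ v ∈ E0, ((((L1 u v).filter (fun c => cls c < p.J)) ∩
                ((L0 u i.1).filter (fun c => cls c = i.2))).card : ℝ) ≤
                (p.mj i.2 + 2 * p.t1) -
                (if p.δ * p.D < (L0 u i.1 \ L0 u v).card then p.δ * p.mj i.2 else 0) := by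
              intro v hv
              have e1 : ((L1 u v).filter (fun c => cls c < p.J)) ∩
                ((L0 u i.1).filter (fun c => cls c = i.2)) ⊆
                (L0 u i.1 ∩ L0 u v).filter (fun c => cls c = i.2) := by
                intro c hc
                rw [mem_inter, mem_filter, mem_filter] at hc
                rw [mem_filter, mem_inter]
                exact ⟨⟨hc.2.1, cfg.sub u v hc.1.1⟩, hc.2.2⟩
              have e2 : ((((L1 u v).filter (fun c => cls c < p.J)) ∩
                ((L0 u i.1).filter (fun c => cls c = i.2))).card : ℝ) ≤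
                ((L0 u i.1 ∩ L0 u v).filter (fun c => cls c = i.2)).card := by
                exact_mod_cast card_le_card e1
              have e3 : ((L0 u i.1).filter (fun c => cls c = i.2)).card =
                  ((L0 u i.1 \ L0 u v).filter (fun c => cls c = i.2)).card +
                  ((L0 u i.1 ∩ L0 u v).filter (fun c => cls c = i.2)).card := by
                rw [← card_union_of_disjoint, ← filter_union, sdiff_union_inter]
                exact disjoint_filter_filter (disjoint_sdiff_inter _ _)
              have e4 : (((L0 u i.1).filter (fun c => cls c = i.2)).card : ℝ) =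
                  ((L0 u i.1 \ L0 u v).filter (fun c => cls c = i.2)).card +
                  ((L0 u i.1 ∩ L0 u v).filter (fun c => cls c = i.2)).card := by
                exact_mod_cast e3
              have e5 := (hc1 i.1 hiN.1 i.2 hj).2
              have ht1 := ok.t1
              split_ifs with hf
              · have e6 := (abs_le.1 (cfg.x1 u v i.1 (hadj v hv) hiN.1 i.2 hj)).1
                have e7 : p.δ * (p.mj i.2 : ℝ) ≤
                    ((L0 u i.1 \ L0 u v).card : ℝ) * (p.mj i.2 / p.D) := by
                  calc p.δ * (p.mj i.2 : ℝ) = p.δ * p.D * (p.mj i.2 / p.D) := by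
                        field_simp
                    _ ≤ _ := by gcongr
                linarith
              · have e6 : (0 : ℝ) ≤ ((L0 u i.1 \ L0 u v).filter (fun c => cls c = i.2)).card :=
                  Nat.cast_nonneg _
                linarith
            refine (sum_le_sum hterm).trans ?_
            rw [sum_sub_distrib, sum_const, nsmul_eq_mul, ← sum_filter, sum_const, nsmul_eq_mul]
            have e1 := q3 i.1
            have e2 := hfar i.1 hi
            have e3 : p.ρ * p.b' ≤ p.ρ * (((Nl H σ P u).filter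
                (fun v => p.δ * p.D < (L0 u i.1 \ L0 u v).card)).card : ℝ) :=
              mul_le_mul_of_nonneg_left e2.le ok.ρ
            have e4 : (p.ρ * p.b' - p.err) * (p.δ * p.mj i.2) ≤
                ((E0.filter (fun v => p.δ * p.D < (L0 u i.1 \ L0 u v).card)).card : ℝ) *
                (p.δ * p.mj i.2) := by
              apply mul_le_mul_of_nonneg_right
              · linarith
              · exact mul_nonneg ok.δ (Nat.cast_nonneg _)
            have e5 : (E0.card : ℝ) * (p.mj i.2 + 2 * p.t1) ≤ p.Em * (p.mj i.2 + 2 * p.t1) := by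
              apply mul_le_mul_of_nonneg_right hEm
              have := ok.t1
              positivity
            linarith
          · rw [if_neg hi, if_neg hi]
            simp
        · simp only [A, Bs, Sum.elim_inr]
          have hj := j.isLt
          have hterm : ∀ v ∈ E0, ((((L1 u v).filter (fun c => cls c < p.J)) ∩
                ((E0.biUnion (fun v => L0 u v)).filter (fun c => cls c = j))).card : ℝ) ≤
                (p.mj j + p.t1) := by
            intro v hv
            refine le_trans ?_ (hc1 v (hadj v hv) j hj).2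
            have e1 : ((L1 u v).filter (fun c => cls c < p.J)) ∩
                ((E0.biUnion (fun v => L0 u v)).filter (fun c => cls c = j)) ⊆
                (L0 u v).filter (fun c => cls c = j) := by
              intro c hc
              rw [mem_inter, mem_filter, mem_filter] at hc
              rw [mem_filter]
              exact ⟨cfg.sub u v hc.1.1, hc.2.2⟩
            exact_mod_cast card_le_card e1
          refine (sum_le_sum hterm).trans ?_
          rw [sum_const, nsmul_eq_mul]
          apply mul_le_mul_of_nonneg_right hEm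
          have := ok.t1
          positivity) Fb hFb
    have hK : Real.log (Fintype.card K) ≤ 2 * Real.log n := by
      have h1 : (Fintype.card K : ℝ) = (n + 1) * p.J := by
        simp only [K, Fintype.card_sum, Fintype.card_prod, Fintype.card_fin]
        push_cast
        ring
      have hJn : (p.J : ℝ) ≤ n - 1 := by
        have : ((p.J + 1 : ℕ) : ℝ) ≤ n := by exact_mod_cast ok.hJn
        push_cast at this
        linarith
      have hJ0 : (1 : ℝ) ≤ p.J := by exact_mod_cast ok.hJ
      have hn0r : (0 : ℝ) < n := by exact_mod_cast hn0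
      have h2 : ((n : ℝ) + 1) * p.J ≤ (n : ℝ) ^ 2 := by nlinarith
      rw [h1]
      calc Real.log ((n + 1) * p.J) ≤ Real.log ((n : ℝ) ^ 2) := by
            apply Real.log_le_log
            · positivity
            · exact h2
        _ = 2 * Real.log n := by
            rw [Real.log_pow]
            norm_num
    have hex0 : 0 ≤ Real.exp p.lam - 1 := by
      have := Real.add_one_le_exp p.lam
      linarith [ok.lam]
    have hlam := ok.lam
    refine ⟨z, fun v hv => ⟨(mem_filter.1 (hz1 v hv).1).1, (hz1 v hv).2⟩, hz2, ?_, ?_, ?_⟩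
    · exact fun v hv => (mem_filter.1 (hz1 v hv).1).2
    · intro j hj
      have h1 := hz3 (Sum.inr ⟨j, hj⟩)
      simp only [A, Bs, Sum.elim_inr] at h1
      have h2 := ok.A9b j hj
      have h3 : (E0.image z).filter (fun c => cls c = j) ⊆
          (E0.image z) ∩ ((E0.biUnion (fun v => L0 u v)).filter (fun c => cls c = j)) := by
        intro c hc
        rw [mem_filter] at hc
        obtain ⟨v, hv, rfl⟩ := mem_image.1 hc.1
        rw [mem_inter, mem_filter, mem_biUnion]
        exact ⟨hc.1, ⟨v, hv, cfg.sub u v (mem_filter.1 (hz1 v hv).1).1⟩, hc.2⟩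
      have h4 : (((E0.image z).filter (fun c => cls c = j)).card : ℝ) ≤
          ((E0.image z) ∩ ((E0.biUnion (fun v => L0 u v)).filter (fun c => cls c = j))).card := by
        exact_mod_cast card_le_card h3
      have h5 : p.lam * (((E0.image z).filter (fun c => cls c = j)).card : ℝ) ≤
          p.lam * p.zm j := by
        calc p.lam * (((E0.image z).filter (fun c => cls c = j)).card : ℝ) ≤
            p.lam * ((E0.image z) ∩
              ((E0.biUnion (fun v => L0 u v)).filter (fun c => cls c = j))).card := by gcongr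
          _ ≤ _ := h1
          _ ≤ _ := by linarith
      exact le_of_mul_le_mul_left h5 hlam
    · intro w huw hwP _ j hj hl
      have hwN : w ∈ Nl H σ P u := (mem_Nl σ u w).2 ⟨huw, hwP, by rw [hl]; exact hj⟩
      have h1 := hz3 (Sum.inl (w, ⟨j, hj⟩))
      simp only [A, Bs, Sum.elim_inl, if_pos hwN] at h1
      have h2 := ok.A9a j hj
      have h3 : ((E0.image z) ∩ (L0 u w)).filter (fun c => cls c = j) =
          (E0.image z) ∩ ((L0 u w).filter (fun c => cls c = j)) := by
        ext c
        simp only [mem_filter, mem_inter]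
        tauto
      have h5 : p.lam * ((((E0.image z) ∩ (L0 u w)).filter (fun c => cls c = j)).card : ℝ) ≤
          p.lam * p.X1 j := by
        rw [h3]
        linarith
      have h6 := le_of_mul_le_mul_left h5 hlam
      have h7 := (hc1 w huw j hj).1
      have h8 := ok.A10 j hj
      linarith

open Classical in
/-- both cases -/
theorem loc (ok : Ok p C n) (cfg : Cfg p H σ cls L0 L1 P) (u : Fin n) (Qu : Finset (Fin n))
    (q1 : ∀ j < p.J, p.ρ * (((Nl H σ P u).filter (fun v => lvl σ u v = j)).card : ℝ) - p.err ≤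
      ((((Nl H σ P u).filter (fun v => v ∈ Qu)).filter (fun v => lvl σ u v = j)).card : ℝ))
    (q2 : (((Nl H σ P u).filter (fun v => v ∈ Qu)).card : ℝ) ≤
      p.ρ * (Nl H σ P u).card + p.err)
    (q3 : ∀ w, p.ρ * (((Nl H σ P u).filter (fun v => p.δ * p.D < (L0 u w \ L0 u v).card)).card : ℝ) -
      p.err ≤ ((((Nl H σ P u).filter (fun v => v ∈ Qu)).filter
        (fun v => p.δ * p.D < (L0 u w \ L0 u v).card)).card : ℝ)) :
    ∃ E ⊆ (Nl H σ P u).filter (fun v => v ∈ Qu),
      (∀ j < p.J, dl σ H u j + p.rj j ≤ (E.filter (fun v => lvl σ u v = j)).card + p.dj j) ∧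
      ∃ exc : Finset (Fin n), (exc.card : ℝ) ≤ p.b' ∧
      ∀ Fb : Fin n → Finset ℕ, (∀ v ∈ E, (Fb v).card ≤ p.h) →
        ∃ z : Fin n → ℕ, (∀ v ∈ E, z v ∈ L1 u v ∧ z v ∉ Fb v) ∧ Set.InjOn z E ∧
          Good p H σ cls L0 P u E exc z := by
  by_cases h : ∃ w₀ ∈ Nl H σ P u,
      (((Nl H σ P u).filter (fun v => p.δ * p.D < (L0 u w₀ \ L0 u v).card)).card : ℝ) ≤ p.b'
  · obtain ⟨w₀, hw₀, h⟩ := h
    exact locC ok cfg u Qu q1 q2 w₀ hw₀ h
  · push Not at h
    exact locS ok cfg u Qu q1 q2 q3 h

end

end Pool.Agent.W2helper87.FR
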