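import Pool.Agent.W2helper87.FR.Lvl
import Pool.Agent.W2helper87.FR.Loc
import Pool.Agent.W2helper87.FR.Cls

/-!
# The edges at one exceptional vertex, in terms of the parameters
-/

set_option autoImplicit false

namespace Pool.Agent.W2helper87.FR

open Finset Pool.Agent.H162R2.Sparse Pool.Agent.H162R2.AG Pool.Agent.W2helper87.SR

open Classical in
/-- the neighbours outside `P` before the last level -/
noncomputable def Nl {n J : ℕ} (H : SimpleGraph (Fin n)) (σ : Fin n → (Fin J → Bool))
    (P : Finset (Fin n)) (u : Fin n) : Finset (Fin n) :=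
  (nb H u).filter (fun v => v ∉ P ∧ lvl σ u v < J)

open Classical in
/-- a good choice of colours at `u` -/
structure Good (p : Par) {n : ℕ} (H : SimpleGraph (Fin n)) (σ : Fin n → (Fin p.J → Bool))
    (cls : ℕ → ℕ) (L0 : Fin n → Fin n → Finset ℕ) (P : Finset (Fin n)) (u : Fin n)
    (E exc : Finset (Fin n)) (z : Fin n → ℕ) : Prop where
  lt : ∀ v ∈ E, cls (z v) < p.J
  cap : ∀ j < p.J, (((E.image z).filter (fun c => cls c = j)).card : ℝ) ≤ p.zm j
  ok : ∀ w, H.Adj u w → w ∉ P → w ∉ exc → ∀ j < p.J, lvl σ u w = j →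
    (p.dj j : ℝ) - p.rj j + p.φ ≤ (((L0 u w).filter (fun c => cls c = j)).card : ℝ) -
      ((((E.image z) ∩ (L0 u w)).filter (fun c => cls c = j)).card : ℝ) - p.a - p.h

section

variable {p : Par} {C : ℝ} {n : ℕ} {H : SimpleGraph (Fin n)} {σ : Fin n → (Fin p.J → Bool)}
  {cls : ℕ → ℕ} {L0 L1 : Fin n → Fin n → Finset ℕ} {P : Finset (Fin n)}

theorem mem_Nl {J : ℕ} (σ : Fin n → (Fin J → Bool)) (u v : Fin n) :
    v ∈ Nl H σ P u ↔ H.Adj u v ∧ v ∉ P ∧ lvl σ u v < J := by
  unfold Nl
  rw [mem_filter, mem_nb]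

open Classical in
theorem dlN (cfg : Cfg p H σ cls L0 L1 P) (u : Fin n) (j : ℕ) (hj : j < p.J) :
    (dl σ H u j : ℝ) ≤ ((Nl H σ P u).filter (fun v => lvl σ u v = j)).card + p.g := by
  have h1 : (nb H u).filter (fun v => lvl σ u v = j) ⊆
      (Nl H σ P u).filter (fun v => lvl σ u v = j) ∪ (nb H u).filter (fun w => w ∈ P) := by
    intro v hv
    rw [mem_filter] at hv
    by_cases hvP : v ∈ P
    · exact mem_union_right _ (mem_filter.2 ⟨hv.1, hvP⟩)
    · apply mem_union_left
      rw [mem_filter, mem_Nl]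
      exact ⟨⟨(mem_nb H u v).1 hv.1, hvP, by rw [hv.2]; exact hj⟩, hv.2⟩
  have h2 := (card_le_card h1).trans (card_union_le _ _)
  have h3 : (dl σ H u j : ℝ) ≤ ((Nl H σ P u).filter (fun v => lvl σ u v = j)).card +
      ((nb H u).filter (fun w => w ∈ P)).card := by
    unfold dl
    exact_mod_cast h2
  have := cfg.pn u
  linarith

theorem cardN (cfg : Cfg p H σ cls L0 L1 P) (u : Fin n) :
    ((Nl H σ P u).card : ℝ) ≤ ((p.D' : ℝ) - p.D' / 2 ^ p.J) + p.tJ := by
  classical
  have h1 : Nl H σ P u ⊆ (nb H u) \ (nb H u).filter (fun v => lvl σ u v = p.J) := by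
    intro v hv
    rw [mem_Nl] at hv
    rw [mem_sdiff, mem_filter, mem_nb]
    refine ⟨hv.1, fun h => ?_⟩
    have := hv.2.2
    omega
  have h2 := card_le_card h1
  have h3 : ((nb H u) \ (nb H u).filter (fun v => lvl σ u v = p.J)).card + dl σ H u p.J =
      dg H u := by
    unfold dl dg
    exact card_sdiff_add_card_eq_card (filter_subset _ _)
  have h4 : ((Nl H σ P u).card : ℝ) + dl σ H u p.J ≤ dg H u := by
    have : (Nl H σ P u).card + dl σ H u p.J ≤ dg H u := by omega
    exact_mod_cast this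
  have h5 := abs_le.1 (cfg.sJ u)
  have h6 : (dg H u : ℝ) ≤ p.D' := by exact_mod_cast cfg.deg u
  have h7 : (dg H u : ℝ) * (1 - 1 / 2 ^ p.J) ≤ p.D' * (1 - 1 / 2 ^ p.J) := by
    apply mul_le_mul_of_nonneg_right h6
    have : (1 : ℝ) / 2 ^ p.J ≤ 1 := by
      rw [div_le_one (by positivity)]
      exact one_le_pow₀ (by norm_num)
    linarith
  have h8 : (dg H u : ℝ) * (1 - 1 / 2 ^ p.J) = dg H u - dg H u / 2 ^ p.J := by ring
  have h9 : (p.D' : ℝ) * (1 - 1 / 2 ^ p.J) = p.D' - p.D' / 2 ^ p.J := by ring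
  rw [h8, h9] at h7
  linarith [h5.1]

theorem lossf (cfg : Cfg p H σ cls L0 L1 P) {a b : Fin n} (hab : H.Adj a b) (Q : ℕ → Prop)
    [DecidablePred Q] :
    (((L0 a b).filter Q).card : ℝ) - p.a ≤ (((L1 a b).filter Q).card : ℝ) := by
  classical
  have h1 : (L0 a b).filter Q ⊆ (L1 a b).filter Q ∪ (L0 a b \ L1 a b) := by
    intro c hc
    rw [mem_filter] at hc
    by_cases h : c ∈ L1 a b
    · exact mem_union_left _ (mem_filter.2 ⟨h, hc.2⟩)
    · exact mem_union_right _ (mem_sdiff.2 ⟨hc.1, h⟩)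
  have h2 := (card_le_card h1).trans (card_union_le _ _)
  have h3 : (((L0 a b).filter Q).card : ℝ) ≤ ((L1 a b).filter Q).card +
      (L0 a b \ L1 a b).card := by exact_mod_cast h2
  have := cfg.loss a b hab
  linarith

theorem lowC (cfg : Cfg p H σ cls L0 L1 P) {a b : Fin n} (hab : H.Adj a b) :
    (p.MJ : ℝ) - p.tJ ≤ (((L0 a b).filter (fun c => cls c < p.J)).card : ℝ) := by
  classical
  have h1 := card_filter_add_card_filter_not (s := L0 a b) (fun c => cls c < p.J)
  rw [cfg.card0 a b hab] at h1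
  have h2 : (L0 a b).filter (fun c => ¬ cls c < p.J) = (L0 a b).filter (fun c => cls c = p.J) := by
    apply filter_congr
    intro c _
    have := cfg.c0 c
    omega
  rw [h2] at h1
  have h3 : (((L0 a b).filter (fun c => cls c < p.J)).card : ℝ) +
      ((L0 a b).filter (fun c => cls c = p.J)).card = p.D := by exact_mod_cast h1
  have h4 := (abs_le.1 (cfg.cJ a b hab)).2
  linarith

theorem sum_cls (cfg : Cfg p H σ cls L0 L1 P) {a b : Fin n} (hab : H.Adj a b)
    : (p.MJ : ℝ) - p.tJ ≤
    ∑ j ∈ range p.J, (((L0 a b).filter (fun c => cls c = j)).card : ℝ) := by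
  classical
  refine (lowC cfg hab).trans (le_of_eq ?_)
  have h1 := card_eq_sum_card_fiberwise (s := (L0 a b).filter (fun c => cls c < p.J))
    (f := cls) (t := range p.J) (fun c hc => mem_coe.2 (mem_range.2 (mem_filter.1 (mem_coe.1 hc)).2))
  rw [h1]
  push_cast
  apply sum_congr rfl
  intro j hj
  rw [mem_range] at hj
  congr 2
  rw [filter_filter]
  apply filter_congr
  intro c _
  constructor
  · rintro ⟨_, h⟩
    exact h
  · intro h
    exact ⟨by omega, h⟩

open Classical in
theorem degOk (ok : Ok p C n) (cfg : Cfg p H σ cls L0 L1 P) (u : Fin n) (Qu : Finset (Fin n))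
    (q1 : ∀ j < p.J, p.ρ * (((Nl H σ P u).filter (fun v => lvl σ u v = j)).card : ℝ) - p.err ≤
      ((((Nl H σ P u).filter (fun v => v ∈ Qu)).filter (fun v => lvl σ u v = j)).card : ℝ))
    (j : ℕ) (hj : j < p.J) :
    (dl σ H u j : ℝ) + p.rj j ≤
      ((((Nl H σ P u).filter (fun v => v ∈ Qu)).filter (fun v => lvl σ u v = j)).card : ℝ) +
      p.dj j := by
  have h1 := q1 j hj
  have h2 := dlN cfg u j hj
  have h3 := ok.A2 j hj
  have h4 := (abs_le.1 (cfg.s1 u j hj)).2
  have h5 : (dg H u : ℝ) / 2 ^ (j + 1) ≤ p.D' / 2 ^ (j + 1) := by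
    have : (dg H u : ℝ) ≤ p.D' := by exact_mod_cast cfg.deg u
    gcongr
  have h6 : (dl σ H u j : ℝ) ≤ p.D' / 2 ^ (j + 1) + p.t1 := by linarith
  have h7 : (1 - p.ρ) * (dl σ H u j : ℝ) ≤ (1 - p.ρ) * (p.D' / 2 ^ (j + 1) + p.t1) := by
    apply mul_le_mul_of_nonneg_left h6
    linarith [ok.ρ1]
  have h8 : p.ρ * (dl σ H u j : ℝ) ≤
      p.ρ * (((Nl H σ P u).filter (fun v => lvl σ u v = j)).card + p.g) :=
    mul_le_mul_of_nonneg_left h2 ok.ρ
  nlinarith

open Classical in
theorem locC (ok : Ok p C n) (cfg : Cfg p H σ cls L0 L1 P) (u : Fin n) (Qu : Finset (Fin n))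
    (q1 : ∀ j < p.J, p.ρ * (((Nl H σ P u).filter (fun v => lvl σ u v = j)).card : ℝ) - p.err ≤
      ((((Nl H σ P u).filter (fun v => v ∈ Qu)).filter (fun v => lvl σ u v = j)).card : ℝ))
    (q2 : (((Nl H σ P u).filter (fun v => v ∈ Qu)).card : ℝ) ≤
      p.ρ * (Nl H σ P u).card + p.err)
    (w₀ : Fin n) (hw₀ : w₀ ∈ Nl H σ P u)
    (hfar : (((Nl H σ P u).filter (fun v => p.δ * p.D < (L0 u w₀ \ L0 u v).card)).card : ℝ) ≤ p.b') :
    ∃ E ⊆ (Nl H σ P u).filter (fun v => v ∈ Qu),
      (∀ j < p.J, dl σ H u j + p.rj j ≤ (E.filter (fun v => lvl σ u v = j)).card + p.dj j) ∧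
      ∃ exc : Finset (Fin n), (exc.card : ℝ) ≤ p.b' ∧
      ∀ Fb : Fin n → Finset ℕ, (∀ v ∈ E, (Fb v).card ≤ p.h) →
        ∃ z : Fin n → ℕ, (∀ v ∈ E, z v ∈ L1 u v ∧ z v ∉ Fb v) ∧ Set.InjOn z E ∧
          Good p H σ cls L0 P u E exc z := by
  set E0 := (Nl H σ P u).filter (fun v => v ∈ Qu) with hE0
  have hadj : ∀ v ∈ E0, H.Adj u v := fun v hv => ((mem_Nl σ u v).1 (mem_filter.1 hv).1).1
  have hw := (mem_Nl σ u w₀).1 hw₀
  let x : ℕ → ℝ := fun j => (((L0 u w₀).filter (fun c => cls c = j)).card : ℝ) - 2 * p.t2 - p.a -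
    ((p.dj j : ℝ) - p.rj j) - p.φ - p.h
  let R : ℕ → ℕ := fun j => dl σ H u j + p.rj j - p.dj j
  let cap : ℕ → ℕ := fun j => ⌊x j⌋₊
  have hc1 : ∀ v, H.Adj u v → ∀ j < p.J, (p.mj j : ℝ) - p.t1 ≤
      (((L0 u v).filter (fun c => cls c = j)).card : ℝ) ∧
      (((L0 u v).filter (fun c => cls c = j)).card : ℝ) ≤ p.mj j + p.t1 := by
    intro v hv j hj
    have := abs_le.1 (cfg.c1 u v hv j hj)
    constructor <;> linarith [this.1, this.2]
  have hx0 : ∀ j < p.J, 0 ≤ x j := by
    intro j hj
    have h1 := (hc1 w₀ hw.1 j hj).1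
    have h2 := ok.A4 j hj
    simp only [x]
    linarith
  have hcap : ∀ j < p.J, (cap j : ℝ) ≤ x j := fun j hj => Nat.floor_le (hx0 j hj)
  have hcap' : ∀ j, x j < cap j + 1 := fun j => Nat.lt_floor_add_one _
  have hdl : ∀ j < p.J, (dl σ H u j : ℝ) ≤ dg H u / 2 ^ (j + 1) + p.t1 := fun j hj => by
    have := (abs_le.1 (cfg.s1 u j hj)).2
    linarith
  have hdl' : ∀ j < p.J, (dg H u : ℝ) / 2 ^ (j + 1) - p.t1 ≤ dl σ H u j := fun j hj => by
    have := (abs_le.1 (cfg.s1 u j hj)).1
    linarith
  have hEm : (E0.card : ℝ) ≤ p.Em := by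
    have h1 := cardN cfg u
    have h2 : p.ρ * ((Nl H σ P u).card : ℝ) ≤ p.ρ * (((p.D' : ℝ) - p.D' / 2 ^ p.J) + p.tJ) :=
      mul_le_mul_of_nonneg_left h1 ok.ρ
    have := ok.AE
    linarith
  obtain ⟨E, hEsub, hEc, hE⟩ := clus p.J p.h cls E0 (fun v => lvl σ u v) (fun v => L1 u v) R cap
    (by
      intro j hj
      have h1 := degOk ok cfg u Qu q1 j hj
      have h2 : dl σ H u j + p.rj j ≤
          (E0.filter (fun v => lvl σ u v = j)).card + p.dj j := by exact_mod_cast h1
      simp only [R]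
      omega)
    (by
      by_cases hcase : (p.D' : ℝ) - p.W ≤ dg H u
      · have hR : ∀ j ∈ range p.J, ((R j : ℕ) : ℝ) = dl σ H u j - ((p.dj j : ℝ) - p.rj j) := by
          intro j hj
          rw [mem_range] at hj
          have h1 := ok.A7 j hj
          have h2 := hdl' j hj
          have h3 : ((p.D' : ℝ) - p.W) / 2 ^ (j + 1) ≤ dg H u / 2 ^ (j + 1) := by gcongr
          have h4 : (p.dj j : ℝ) ≤ dl σ H u j + p.rj j := by linarith
          have h5 : p.dj j ≤ dl σ H u j + p.rj j := by exact_mod_cast h4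
          simp only [R]
          rw [Nat.cast_sub h5]
          push_cast
          ring
        have h1 : ((∑ j ∈ range p.J, R j : ℕ) : ℝ) ≤ ((∑ j ∈ range p.J, cap j : ℕ) : ℝ) := by
          push_cast
          rw [sum_congr rfl hR]
          have h2 : ∑ j ∈ range p.J, (x j - 1) ≤ ∑ j ∈ range p.J, (cap j : ℝ) := by
            apply sum_le_sum
            intro j _
            linarith [hcap' j]
          refine le_trans ?_ h2
          rw [sum_sub_distrib]
          have h3 : ∑ j ∈ range p.J, (x j - 1) =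
              ∑ j ∈ range p.J, (((L0 u w₀).filter (fun c => cls c = j)).card : ℝ) -
              ∑ j ∈ range p.J, ((p.dj j : ℝ) - p.rj j) -
              p.J * (2 * p.t2 + p.a + p.φ + p.h + 1) := by
            rw [← sum_sub_distrib]
            have : (p.J : ℝ) * (2 * p.t2 + p.a + p.φ + p.h + 1) =
                ∑ j ∈ range p.J, (2 * p.t2 + p.a + p.φ + p.h + 1) := by
              rw [sum_const, card_range, nsmul_eq_mul]
            rw [this, ← sum_sub_distrib]
            apply sum_congr rfl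
            intro j _
            simp only [x]
            ring
          rw [h3]
          have h4 := sum_cls cfg hw.1
          have h5 : (∑ j ∈ range p.J, (dl σ H u j : ℝ)) + dl σ H u p.J = dg H u := by
            exact_mod_cast sum_dl σ H u
          have h6 := (abs_le.1 (cfg.sJ u)).1
          have h7 : (dg H u : ℝ) ≤ p.D' := by exact_mod_cast cfg.deg u
          have h8 : (dg H u : ℝ) * (1 - 1 / 2 ^ p.J) ≤ p.D' * (1 - 1 / 2 ^ p.J) := by
            apply mul_le_mul_of_nonneg_right h7
            have : (1 : ℝ) / 2 ^ p.J ≤ 1 := by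
              rw [div_le_one (by positivity)]
              exact one_le_pow₀ (by norm_num)
            linarith
          have h9 : (dg H u : ℝ) * (1 - 1 / 2 ^ p.J) = dg H u - dg H u / 2 ^ p.J := by ring
          have h10 : (p.D' : ℝ) * (1 - 1 / 2 ^ p.J) = p.D' - p.D' / 2 ^ p.J := by ring
          rw [h9, h10] at h8
          have := ok.A5
          linarith
        exact_mod_cast h1
      · apply sum_le_sum
        intro j hj
        rw [mem_range] at hj
        push Not at hcase
        by_cases hz : dl σ H u j + p.rj j ≤ p.dj j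
        · simp only [R]
          omega
        · simp only [R, cap]
          apply Nat.le_floor
          push Not at hz
          rw [Nat.cast_sub hz.le]
          push_cast
          have h1 := hdl j hj
          have h2 := ok.A6 j hj
          have h3 : (dg H u : ℝ) / 2 ^ (j + 1) ≤ ((p.D' : ℝ) - p.W) / 2 ^ (j + 1) := by gcongr
          have h4 := (hc1 w₀ hw.1 j hj).1
          simp only [x]
          linarith)
    (by
      intro v hv j hj
      have h1 := lossf cfg (hadj v hv) (fun c => cls c = j)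
      have h2 := (hc1 v (hadj v hv) j hj).1
      have h3 := ok.A8 j hj
      have h4 : ((p.h + E0.card : ℕ) : ℝ) < (((L1 u v).filter (fun c => cls c = j)).card : ℝ) := by
        push_cast
        linarith
      exact_mod_cast h4)
  refine ⟨E, hEsub, ?_, (Nl H σ P u).filter (fun v => p.δ * p.D < (L0 u w₀ \ L0 u v).card), hfar, ?_⟩
  · intro j hj
    rw [hEc j hj]
    simp only [R]
    omega
  · intro Fb hFb
    obtain ⟨z, hz1, hz2, hz3⟩ := hE Fb hFb
    refine ⟨z, fun v hv => ⟨(hz1 v hv).1, (hz1 v hv).2.1⟩, hz2, ?_, ?_, ?_⟩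
    · exact fun v hv => (hz1 v hv).2.2
    · intro j hj
      have h1 : ((((E.image z).filter (fun c => cls c = j)).card : ℕ) : ℝ) ≤ cap j := by
        exact_mod_cast hz3 j hj
      have h2 := hcap j hj
      have h3 := (hc1 w₀ hw.1 j hj).2
      have h4 := ok.A9c j hj
      simp only [x] at h2
      have := ok.t2
      have := ok.a
      have := ok.φ
      have : (0 : ℝ) ≤ p.h := Nat.cast_nonneg _
      linarith
    · intro w huw hwP hwe j hj hl
      have hwN : w ∈ Nl H σ P u := (mem_Nl σ u w).2 ⟨huw, hwP, by rw [hl]; exact hj⟩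
      have hnf : ((L0 u w₀ \ L0 u w).card : ℝ) ≤ p.δ * p.D := by
        by_contra hcon
        push Not at hcon
        exact hwe (mem_filter.2 ⟨hwN, hcon⟩)
      have h1 : ((((E.image z) ∩ (L0 u w)).filter (fun c => cls c = j)).card : ℝ) ≤ cap j := by
        have : ((((E.image z) ∩ (L0 u w)).filter (fun c => cls c = j)).card : ℝ) ≤
            (((E.image z).filter (fun c => cls c = j)).card : ℝ) := by
          exact_mod_cast card_le_card (filter_subset_filter _ inter_subset_left)
        refine this.trans ?_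
        exact_mod_cast hz3 j hj
      have h2 := hcap j hj
      simp only [x] at h2
      -- the two lists have almost the same number of colours in the class
      have hsd : (L0 u w \ L0 u w₀).card = (L0 u w₀ \ L0 u w).card := by
        have e1 := card_sdiff_add_card_inter (L0 u w) (L0 u w₀)
        have e2 := card_sdiff_add_card_inter (L0 u w₀) (L0 u w)
        rw [inter_comm] at e2
        rw [cfg.card0 u w huw] at e1
        rw [cfg.card0 u w₀ hw.1] at e2
        omega
      have h3 := (abs_le.1 (cfg.x2 u w₀ w hw.1 huw (by rw [hsd]; exact hnf) j hj)).1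
      have h4 := (abs_le.1 (cfg.x2 u w w₀ huw hw.1 hnf j hj)).2
      rw [hsd] at h3
      have h5 : (((L0 u w).filter (fun c => cls c = j)).card : ℝ) +
          ((L0 u w₀ \ L0 u w).filter (fun c => cls c = j)).card =
          ((L0 u w₀).filter (fun c => cls c = j)).card +
          ((L0 u w \ L0 u w₀).filter (fun c => cls c = j)).card := by
        have e1 : ∀ S T : Finset ℕ, (S.filter (fun c => cls c = j)).card =
            ((S \ T).filter (fun c => cls c = j)).card +
            ((S ∩ T).filter (fun c => cls c = j)).card := by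
          intro S T
          rw [← card_union_of_disjoint, ← filter_union, sdiff_union_inter]
          exact disjoint_filter_filter (disjoint_sdiff_inter S T)
        have e2 := e1 (L0 u w) (L0 u w₀)
        have e3 := e1 (L0 u w₀) (L0 u w)
        rw [inter_comm] at e3
        have e4 : ((L0 u w).filter (fun c => cls c = j)).card +
          ((L0 u w₀ \ L0 u w).filter (fun c => cls c = j)).card =
          ((L0 u w₀).filter (fun c => cls c = j)).card +
          ((L0 u w \ L0 u w₀).filter (fun c => cls c = j)).card := by omega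
        exact_mod_cast e4
      linarith

end

end Pool.Agent.W2helper87.FR
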