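import Pool.Agent.W2helper87.SR.Det

/-!
# The level of an edge
-/

set_option autoImplicit false

namespace Pool.Agent.W2helper87.FR

open Finset Pool.Agent.H162R2.Sparse Pool.Agent.H162R2.AG Pool.Agent.W2helper87.SR

section

variable {n J : ℕ} (σ : Fin n → (Fin J → Bool))

theorem lvl_ex (u v : Fin n) : ∃ j, J ≤ j ∨ ∃ h : j < J, σ u ⟨j, h⟩ ≠ σ v ⟨j, h⟩ :=
  ⟨J, Or.inl le_rfl⟩

open Classical in
/-- the first coordinate in which the patterns of `u` and `v` differ -/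
noncomputable def lvl (u v : Fin n) : ℕ := Nat.find (lvl_ex σ u v)

theorem lvl_le (u v : Fin n) : lvl σ u v ≤ J := by
  classical
  unfold lvl
  exact Nat.find_min' _ (Or.inl le_rfl)

theorem lvl_eq_iff (u v : Fin n) (j : Fin J) :
    lvl σ u v = j ↔ (∀ i : Fin J, i < j → σ u i = σ v i) ∧ σ u j ≠ σ v j := by
  classical
  unfold lvl
  rw [Nat.find_eq_iff]
  constructor
  · rintro ⟨h1, h2⟩
    constructor
    · intro i hi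
      by_contra hcon
      exact h2 i hi (Or.inr ⟨i.isLt, hcon⟩)
    · rcases h1 with h1 | ⟨_, h1⟩
      · exact absurd j.isLt (not_lt.2 h1)
      · exact h1
  · rintro ⟨h1, h2⟩
    refine ⟨Or.inr ⟨j.isLt, h2⟩, fun k hk => ?_⟩
    rintro (h3 | ⟨h3, h4⟩)
    · have := j.isLt
      omega
    · exact h4 (h1 ⟨k, h3⟩ hk)

theorem lvl_eq_J (u v : Fin n) : lvl σ u v = J ↔ ∀ i : Fin J, σ u i = σ v i := by
  classical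
  unfold lvl
  rw [Nat.find_eq_iff]
  constructor
  · rintro ⟨_, h2⟩ i
    by_contra hcon
    exact h2 i i.isLt (Or.inr ⟨i.isLt, hcon⟩)
  · intro h
    refine ⟨Or.inl le_rfl, fun k hk => ?_⟩
    rintro (h3 | ⟨h3, h4⟩)
    · omega
    · exact h4 (h ⟨k, h3⟩)

theorem lvl_symm (u v : Fin n) : lvl σ u v = lvl σ v u := by
  rcases lt_or_eq_of_le (lvl_le σ u v) with h | h
  · have h1 := (lvl_eq_iff σ u v ⟨lvl σ u v, h⟩).1 rfl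
    symm
    exact (lvl_eq_iff σ v u ⟨lvl σ u v, h⟩).2 ⟨fun i hi => (h1.1 i hi).symm, h1.2.symm⟩
  · rw [h]
    symm
    rw [lvl_eq_J]
    intro i
    exact ((lvl_eq_J σ u v).1 h i).symm

theorem crs_adj (H : SimpleGraph (Fin n)) (j : Fin J) (u v : Fin n) :
    (crs H σ j).Adj u v ↔ H.Adj u v ∧ lvl σ u v = j := by
  rw [lvl_eq_iff]
  exact Iff.rfl

theorem lev_adj (H : SimpleGraph (Fin n)) (u v : Fin n) :
    (lev H σ J).Adj u v ↔ H.Adj u v ∧ lvl σ u v = J := by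
  rw [lvl_eq_J]
  constructor
  · rintro ⟨h1, h2⟩
    exact ⟨h1, fun i => h2 i i.isLt⟩
  · rintro ⟨h1, h2⟩
    exact ⟨h1, fun i _ => h2 i⟩

/-- the degree of `u` in level `j` -/
noncomputable def dl (H : SimpleGraph (Fin n)) (u : Fin n) (j : ℕ) : ℕ :=
  ((nb H u).filter (fun v => lvl σ u v = j)).card

theorem dg_crs (H : SimpleGraph (Fin n)) (j : Fin J) (u : Fin n) :
    dg (crs H σ j) u = dl σ H u j := by
  unfold dg dl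
  congr 1
  ext v
  rw [mem_nb, mem_filter, mem_nb, crs_adj]

theorem dg_lev (H : SimpleGraph (Fin n)) (u : Fin n) :
    dg (lev H σ J) u = dl σ H u J := by
  unfold dg dl
  congr 1
  ext v
  rw [mem_nb, mem_filter, mem_nb, lev_adj]

theorem sum_dl (H : SimpleGraph (Fin n)) (u : Fin n) :
    ∑ j ∈ range J, dl σ H u j + dl σ H u J = dg H u := by
  rw [← sum_range_succ]
  unfold dl dg
  symm
  exact card_eq_sum_card_fiberwise (fun v _ => mem_coe.2 (mem_range.2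
    (Nat.lt_succ_of_le (lvl_le σ u v))))

end

/-- the parameters -/
structure Par where
  D : ℕ
  D' : ℕ
  J : ℕ
  h : ℕ
  mj : ℕ → ℕ
  dj : ℕ → ℕ
  rj : ℕ → ℕ
  t1 : ℝ
  t2 : ℝ
  tJ : ℝ
  η : ℝ
  a : ℝ
  g : ℝ
  b : ℝ
  b' : ℝ
  δ : ℝ
  ρ : ℝ
  err : ℝ
  φ : ℝ
  y : ℝ
  W : ℝ
  Em : ℝ
  lam : ℝ
  X1 : ℕ → ℝ
  zm : ℕ → ℝ

/-- the number of colours in the classes before the last one -/
def Par.MJ (p : Par) : ℕ := ∑ j ∈ range p.J, p.mj j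

/-- the denominator -/
def Par.Den (p : Par) : ℝ := p.MJ - p.tJ - p.a - p.h - p.Em

/-- the numerical conditions -/
structure Ok (p : Par) (C : ℝ) (n : ℕ) : Prop where
  hn : 2 ≤ n
  hJ : 1 ≤ p.J
  hJn : p.J + 1 ≤ n
  hD : 0 < p.D
  hDD : p.D' ≤ p.D
  hDn : p.D ≤ n
  hMD : p.MJ ≤ p.D
  t1 : 0 ≤ p.t1
  t2 : 0 ≤ p.t2
  tJ : 0 ≤ p.tJ
  η : 0 ≤ p.η
  a : 0 ≤ p.a
  g : 0 ≤ p.g
  b : 0 ≤ p.b
  b' : 0 ≤ p.b'
  δ : 0 ≤ p.δ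
  ρ : 0 ≤ p.ρ
  ρ1 : p.ρ ≤ 1
  φ : 0 ≤ p.φ
  y : 0 ≤ p.y
  A1 : ∀ j < p.J, (p.D' : ℝ) / 2 ^ (j + 1) + p.η ≤ p.dj j
  A2 : ∀ j < p.J, (1 - p.ρ) * ((p.D' : ℝ) / 2 ^ (j + 1) + p.t1) + p.ρ * p.g + p.err ≤
    p.dj j - p.rj j
  A4 : ∀ j < p.J, p.t1 + 2 * p.t2 + p.a + p.φ + p.h ≤ p.rj j + ((p.mj j : ℝ) - p.dj j)
  A5 : ((p.D' : ℝ) - p.D' / 2 ^ p.J) + p.tJ + p.J * (2 * p.t2 + p.a + p.φ + p.h + 1) ≤
    p.MJ - p.tJ
  A6 : ∀ j < p.J, ((p.D' : ℝ) - p.W) / 2 ^ (j + 1) + p.t1 ≤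
    p.mj j - p.t1 - 2 * p.t2 - p.a - p.φ - p.h - 1
  A7 : ∀ j < p.J, (p.dj j : ℝ) - p.rj j ≤ ((p.D' : ℝ) - p.W) / 2 ^ (j + 1) - p.t1
  A8 : ∀ j < p.J, p.h + p.Em < p.mj j - p.t1 - p.a
  AE : p.ρ * (((p.D' : ℝ) - p.D' / 2 ^ p.J) + p.tJ) + p.err ≤ p.Em
  AD : 0 < p.Den
  lam : 0 < p.lam
  A9a : ∀ j < p.J, 2 * Real.log n + (Real.exp p.lam - 1) * ((p.Em * (p.mj j + 2 * p.t1) -
    (p.ρ * p.b' - p.err) * (p.δ * p.mj j)) / p.Den) ≤ p.lam * p.X1 j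
  A9b : ∀ j < p.J, 2 * Real.log n + (Real.exp p.lam - 1) * ((p.Em * (p.mj j + p.t1)) / p.Den) ≤
    p.lam * p.zm j
  A9c : ∀ j < p.J, p.mj j + p.t1 - ((p.dj j : ℝ) - p.rj j) ≤ p.zm j
  A10 : ∀ j < p.J, (p.dj j : ℝ) - p.rj j + p.φ ≤ p.mj j - p.t1 - p.X1 j - p.a - p.h
  B1 : ∀ j < p.J, (p.dj j : ℝ) + p.φ ≤ p.mj j - p.η - p.a - 2 * p.h
  B2 : ∀ j < p.J, (p.dj j : ℝ) + p.φ - p.y ≤ p.mj j - p.t1 - p.a - 2 * p.h
  B3 : ∀ j < p.J, (p.dj j : ℝ) + p.φ - p.rj j - p.y ≤ p.mj j - p.t1 - p.a - p.zm j - p.h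
  B4 : ∀ j < p.J, (p.dj j : ℝ) + p.φ - 2 * p.rj j - p.y ≤ p.mj j - p.t1 - p.a - 2 * p.zm j
  A12 : p.ρ * p.g + p.err ≤ p.h
  A13 : (p.D' : ℝ) / 2 ^ p.J + p.tJ ≤ p.dj p.J
  A13' : (p.dj p.J : ℝ) + (C * Real.sqrt (p.dj p.J * Real.log n) + C * Real.log n) ≤
    p.D - p.MJ - p.tJ - p.a
  A14a : ∀ j < p.J, 4 * p.rj j ≤ p.dj j ∧ p.dj j ≤ n
  A14b : ∀ j < p.J, p.y ≤ p.rj j ∧ p.g ≤ p.dj j / 4 ∧ 8 * p.err ≤ p.rj j
  A14c : ∀ j < p.J, C * Real.sqrt (p.rj j * Real.log n) + C * Real.log n ≤ p.err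
  A14d : ∀ j < p.J, C * (((p.g + p.b + p.b') / p.dj j + p.err / p.rj j) * (p.y + Real.log n) +
    Real.log n + p.err + p.g * p.rj j / p.dj j + (p.rj j : ℝ) ^ 2 / p.dj j) ≤ p.φ
  A15 : C * Real.sqrt (p.ρ * p.D * Real.log n) + C * Real.log n ≤ p.err

open Classical in
/-- the combinatorial conditions -/
structure Cfg (p : Par) {n : ℕ} (H : SimpleGraph (Fin n)) (σ : Fin n → (Fin p.J → Bool))
    (cls : ℕ → ℕ) (L0 L1 : Fin n → Fin n → Finset ℕ) (P : Finset (Fin n)) : Prop where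
  deg : ∀ v, dg H v ≤ p.D'
  s1 : ∀ v, ∀ j < p.J, |(dl σ H v j : ℝ) - dg H v / 2 ^ (j + 1)| ≤ p.t1
  sJ : ∀ v, |(dl σ H v p.J : ℝ) - dg H v / 2 ^ p.J| ≤ p.tJ
  s0 : ∀ v ∉ P, ∀ j < p.J, (dl σ H v j : ℝ) ≤ dg H v / 2 ^ (j + 1) + p.η
  symm0 : ∀ a b, L0 a b = L0 b a
  symm1 : ∀ a b, L1 a b = L1 b a
  card0 : ∀ a b, H.Adj a b → (L0 a b).card = p.D
  sub : ∀ a b, L1 a b ⊆ L0 a b
  loss : ∀ a b, H.Adj a b → ((L0 a b \ L1 a b).card : ℝ) ≤ p.a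
  c0 : ∀ c, cls c ≤ p.J
  c1 : ∀ a b, H.Adj a b → ∀ j < p.J,
    |(((L0 a b).filter (fun c => cls c = j)).card : ℝ) - p.mj j| ≤ p.t1
  cJ : ∀ a b, H.Adj a b →
    |(((L0 a b).filter (fun c => cls c = p.J)).card : ℝ) - (p.D - p.MJ)| ≤ p.tJ
  x1 : ∀ u v w, H.Adj u v → H.Adj u w → ∀ j < p.J,
    |(((L0 u w \ L0 u v).filter (fun c => cls c = j)).card : ℝ) -
      (L0 u w \ L0 u v).card * (p.mj j / p.D)| ≤ p.t1
  x2 : ∀ u v w, H.Adj u v → H.Adj u w → ((L0 u w \ L0 u v).card : ℝ) ≤ p.δ * p.D → ∀ j < p.J,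
    |(((L0 u w \ L0 u v).filter (fun c => cls c = j)).card : ℝ) -
      (L0 u w \ L0 u v).card * (p.mj j / p.D)| ≤ p.t2
  bad : ∀ v ∉ P, (((nb H v).filter (fun w => ∃ j < p.J,
    (((L0 v w).filter (fun c => cls c = j)).card : ℝ) < p.mj j - p.η)).card : ℝ) ≤ p.b
  pn : ∀ v, (((nb H v).filter (fun w => w ∈ P)).card : ℝ) ≤ p.g

end Pool.Agent.W2helper87.FR
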