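import Pool.Agent.W2helper87.FR.Ind

/-!
# Random graphs: vertices of degree close to the maximum degree
-/

set_option autoImplicit false

namespace Pool.Agent.W2helper87.FR

open Finset Pool.Agent.H162R2.Sparse Pool.Agent.H162R2.AG Pool.Agent.W2helper87.SR

/-- the expected number of vertices of degree at least `k` -/
noncomputable def FF {n : ℕ} (q : Sym2 (Fin n) → ℝ) (k : ℕ) : ℝ :=
  ∑ v : Fin n, TS q (sU v univ) k

section

variable {n : ℕ} (q : Sym2 (Fin n) → ℝ)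

theorem pb_false : pb q (fun _ => False) = 0 := by
  rw [pb_eq]
  simp [ex]

theorem TS_anti (hq : ∀ e, 0 ≤ q e ∧ q e ≤ 1) (S : Finset (Pr n)) (k k' : ℕ) (h : k ≤ k') :
    TS q S k' ≤ TS q S k := pb_mono q hq fun _ hG => h.trans hG

theorem TS_le_one (hq : ∀ e, 0 ≤ q e ∧ q e ≤ 1) (S : Finset (Pr n)) (k : ℕ) : TS q S k ≤ 1 := by
  unfold TS
  rw [pb_not]
  have := pb_nonneg q hq (fun G => ¬ k ≤ cS S G)
  linarith

theorem count_markov (hq : ∀ e, 0 ≤ q e ∧ q e ≤ 1) (k : ℕ) (a : ℝ) (ha : 0 < a) :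
    pb q (fun G => a ≤ ((univ.filter (fun v => k ≤ dg G v)).card : ℝ)) ≤ FF q k / a := by
  classical
  have h := markov q hq (fun G => ((univ.filter (fun v => k ≤ dg G v)).card : ℝ))
    (fun G => Nat.cast_nonneg _) a ha
  refine h.trans (le_of_eq ?_)
  congr 1
  unfold FF TS
  simp_rw [pb_ex]
  rw [← ex_sum]
  congr 1
  funext G
  rw [sum_boole]
  simp only [cS_univ]

theorem all_upper (hq : ∀ e, 0 ≤ q e ∧ q e ≤ 1) (μ : ℝ) (hμ : 0 < μ)
    (hv : ∀ v, qs q (sU v univ) ≤ μ) (h8 : 8 * Real.log n ≤ μ) (hn : 1 ≤ n) :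
    pb q (fun G => ∃ v ∈ (univ : Finset (Fin n)), 2 * μ ≤ dg G v) ≤ 1 / n := by
  have hn0 : (0 : ℝ) < n := by exact_mod_cast hn
  refine (pb_exists_le q hq univ (fun v G => 2 * μ ≤ dg G v)).trans ?_
  have h1 : ∀ v ∈ (univ : Finset (Fin n)), pb q (fun G => 2 * μ ≤ dg G v) ≤ 1 / (n : ℝ) ^ 2 := by
    intro v _
    have h2 := cS_upper q hq (sU v univ) μ μ hμ (hv v) hμ.le (by linarith)
    have h3 : pb q (fun G => 2 * μ ≤ dg G v) ≤
        pb q (fun G => qs q (sU v univ) + μ ≤ cS (sU v univ) G) := by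
      apply pb_mono q hq
      intro G hG
      rw [cS_univ]
      have := hv v
      linarith
    refine (h3.trans h2).trans ?_
    have h4 : 1 / (n : ℝ) ^ 2 = Real.exp (-(2 * Real.log n)) := by
      rw [Real.exp_neg, mul_comm, Real.exp_mul, Real.exp_log hn0, one_div]
      norm_num
    rw [h4]
    apply Real.exp_le_exp.2
    have h5 : -(μ ^ 2) / (4 * μ) = -(μ / 4) := by
      field_simp
    rw [h5]
    linarith
  refine (sum_le_sum h1).trans ?_
  rw [sum_const, card_univ, Fintype.card_fin, nsmul_eq_mul]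
  apply le_of_eq
  field_simp

theorem choose_sub {ι : Type} [DecidableEq ι] (f : ι → ℝ) (s : Finset ι) (u : ℕ)
    (hu : u ≤ s.card) : ∃ t ⊆ s, t.card = u ∧ (u : ℝ) * ∑ v ∈ s, f v ≤ s.card * ∑ v ∈ t, f v := by
  obtain ⟨d, hd⟩ : ∃ d, s.card = u + d := ⟨s.card - u, by omega⟩
  induction d generalizing s with
  | zero =>
    refine ⟨s, Subset.rfl, by omega, ?_⟩
    rw [hd]
    simp
  | succ d ih =>
    have hne : s.Nonempty := by
      rw [← card_pos]
      omega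
    obtain ⟨a, ha, hmin⟩ := exists_min_image s f hne
    have hc : (s.erase a).card = u + d := by
      rw [card_erase_of_mem ha]
      omega
    obtain ⟨t, ht, htu, h⟩ := ih (s.erase a) (by omega) hc
    refine ⟨t, ht.trans (erase_subset _ _), htu, ?_⟩
    have h1 : (s.card : ℝ) * f a ≤ ∑ v ∈ s, f v := by
      have := card_nsmul_le_sum s f (f a) hmin
      rwa [nsmul_eq_mul] at this
    have h2 : ∑ v ∈ s, f v = f a + ∑ v ∈ s.erase a, f v := (add_sum_erase s f ha).symm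
    rw [hc] at h
    rw [hd] at h1 ⊢
    push_cast at h h1 ⊢
    have hd0 : (0 : ℝ) ≤ d := Nat.cast_nonneg _
    have hu0 : (0 : ℝ) ≤ u := Nat.cast_nonneg _
    -- `(u + d + 1) f a ≤ f a + R`, so `(u + d) f a ≤ R`
    have h3 : ((u : ℝ) + d) * f a ≤ ∑ v ∈ s.erase a, f v := by
      rw [h2] at h1
      linarith
    rw [h2]
    rcases Nat.eq_zero_or_pos (u + d) with h0 | h0
    · have hu' : u = 0 := by omega
      have hd' : d = 0 := by omega
      subst hu' hd'
      rw [card_eq_zero] at htu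
      subst htu
      simp
    · have h0' : (0 : ℝ) < (u : ℝ) + d := by exact_mod_cast h0
      -- multiply by `u + d`
      have h4 : ((u : ℝ) + d) * (u * (f a + ∑ v ∈ s.erase a, f v)) ≤
          ((u : ℝ) + d) * ((u + (d + 1)) * ∑ v ∈ t, f v) := by
        calc ((u : ℝ) + d) * (u * (f a + ∑ v ∈ s.erase a, f v)) =
            u * (((u : ℝ) + d) * f a) + ((u : ℝ) + d) * (u * ∑ v ∈ s.erase a, f v) := by ring
          _ ≤ u * (∑ v ∈ s.erase a, f v) + ((u : ℝ) + d) * (u * ∑ v ∈ s.erase a, f v) := by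
              gcongr
          _ = ((u : ℝ) + d + 1) * (u * ∑ v ∈ s.erase a, f v) := by ring
          _ ≤ ((u : ℝ) + d + 1) * (((u : ℝ) + d) * ∑ v ∈ t, f v) := by gcongr
          _ = _ := by ring
      exact le_of_mul_le_mul_left h4 h0'

theorem cS_split (v : Fin n) (U : Finset (Fin n)) (G : SimpleGraph (Fin n)) :
    dg G v = cS (sU v U) G + cS (sU v Uᶜ) G := by
  classical
  rw [cS_sU, cS_sU]
  unfold dg
  rw [← card_filter_add_card_filter_not (s := nb G v) (fun w => w ∈ U)]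
  congr 2
  ext w
  simp

theorem sU_disj (U : Finset (Fin n)) :
    ∀ v ∈ U, ∀ w ∈ U, v ≠ w → Disjoint (sU v Uᶜ) (sU w Uᶜ) := by
  classical
  intro v hv w hw hvw
  rw [disjoint_left]
  intro e he he'
  rw [mem_sU] at he he'
  obtain ⟨a, ha, h1⟩ := he
  obtain ⟨b, hb, h2⟩ := he'
  rw [h1] at h2
  rw [mem_compl] at ha hb
  rcases Sym2.eq_iff.1 h2 with h | h
  · exact hvw h.1
  · exact hb (h.1 ▸ hv)

/-- some vertex has a degree close to `k₀`, if the expected number of vertices of degree at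
least `k₀` is large -/
theorem indep_max (hq : ∀ e, 0 ≤ q e ∧ q e ≤ 1) (k₀ : ℕ) (μ' τ : ℝ) (hμ' : 0 < μ') (hτ0 : 0 ≤ τ)
    (hτ : τ ≤ 2 * μ') (u : ℕ) (hu : u ≤ n) (hn : 1 ≤ n)
    (hU : ∀ U : Finset (Fin n), U.card = u → ∀ v, qs q (sU v U) ≤ μ') :
    pb q (fun G => ∀ v, (dg G v : ℝ) < k₀ - 2 * τ) ≤
      Real.exp (-(u / n * FF q k₀ - u * Real.exp (-(τ ^ 2) / (4 * μ')))) +
        u * Real.exp (-(τ ^ 2) / (4 * μ')) := by
  classical
  have hn0 : (0 : ℝ) < n := by exact_mod_cast hn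
  obtain ⟨U, -, hUc, hUs⟩ := choose_sub (fun v : Fin n => TS q (sU v univ) k₀) univ u
    (by rw [card_univ, Fintype.card_fin]; exact hu)
  rw [card_univ, Fintype.card_fin] at hUs
  have hUs' : (u : ℝ) / n * FF q k₀ ≤ ∑ v ∈ U, TS q (sU v univ) k₀ := by
    rw [div_mul_eq_mul_div, div_le_iff₀ hn0]
    unfold FF
    linarith
  set z : Fin n → ℝ := fun v => qs q (sU v U) with hz
  set kk : Fin n → ℕ := fun v => ⌈(k₀ : ℝ) - z v - τ⌉₊ with hkk
  set δ : ℝ := Real.exp (-(τ ^ 2) / (4 * μ')) with hδ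
  -- the event
  have h1 : pb q (fun G => ∀ v, (dg G v : ℝ) < k₀ - 2 * τ) ≤
      pb q (fun G => (∀ v ∈ U, cS (sU v Uᶜ) G < kk v) ∨
        (∃ v ∈ U, (cS (sU v U) G : ℝ) ≤ qs q (sU v U) - τ)) := by
    apply pb_mono q hq
    intro G hG
    by_contra hcon
    push Not at hcon
    obtain ⟨⟨v, hv, h2⟩, h3⟩ := hcon
    have h4 := h3 v hv
    have h5 := hG v
    rw [cS_split v U G] at h5
    have h6 : (k₀ : ℝ) - z v - τ ≤ cS (sU v Uᶜ) G := Nat.ceil_le.1 h2
    push_cast at h5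
    simp only [hz] at h6
    linarith
  have h2 := pb_none q hq (fun v => sU v Uᶜ) kk U (sU_disj U)
  have h3 : pb q (fun G => ∃ v ∈ U, (cS (sU v U) G : ℝ) ≤ qs q (sU v U) - τ) ≤ u * δ := by
    refine (pb_exists_le q hq U (fun v G => (cS (sU v U) G : ℝ) ≤ qs q (sU v U) - τ)).trans ?_
    refine (sum_le_sum (g := fun _ => δ) fun v _ =>
      cS_lower q hq (sU v U) μ' τ hμ' (hU U hUc v) hτ0 hτ).trans ?_
    rw [sum_const, hUc, nsmul_eq_mul]
  have h4 : ∀ v ∈ U, TS q (sU v univ) k₀ - δ ≤ TS q (sU v Uᶜ) (kk v) := by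
    intro v _
    have e1 : TS q (sU v univ) k₀ ≤ pb q (fun G => kk v ≤ cS (sU v Uᶜ) G ∨
        qs q (sU v U) + τ ≤ cS (sU v U) G) := by
      apply pb_mono q hq
      intro G hG
      by_contra hcon
      push Not at hcon
      obtain ⟨h5, h6⟩ := hcon
      rw [cS_univ, cS_split v U G] at hG
      have h7 : (cS (sU v Uᶜ) G : ℝ) < (k₀ : ℝ) - z v - τ := Nat.lt_ceil.1 h5
      have h8 : (k₀ : ℝ) ≤ cS (sU v U) G + cS (sU v Uᶜ) G := by exact_mod_cast hG
      simp only [hz] at h7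
      linarith
    have e2 := pb_or_le q hq (fun G => kk v ≤ cS (sU v Uᶜ) G)
      (fun G => qs q (sU v U) + τ ≤ cS (sU v U) G)
    have e3 := cS_upper q hq (sU v U) μ' τ hμ' (hU U hUc v) hτ0 hτ
    unfold TS at e1 ⊢
    linarith
  have h5 : (u : ℝ) / n * FF q k₀ - u * δ ≤ ∑ v ∈ U, TS q (sU v Uᶜ) (kk v) := by
    have e1 := sum_le_sum h4
    rw [sum_sub_distrib, sum_const, hUc, nsmul_eq_mul] at e1
    linarith
  calc pb q (fun G => ∀ v, (dg G v : ℝ) < k₀ - 2 * τ) ≤ _ := h1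
    _ ≤ pb q (fun G => ∀ v ∈ U, cS (sU v Uᶜ) G < kk v) +
        pb q (fun G => ∃ v ∈ U, (cS (sU v U) G : ℝ) ≤ qs q (sU v U) - τ) := pb_or_le q hq _ _
    _ ≤ Real.exp (-∑ v ∈ U, TS q (sU v Uᶜ) (kk v)) + u * δ := by
        apply add_le_add _ h3
        refine le_trans ?_ h2
        apply pb_mono q hq
        intro G hG
        exact hG
    _ ≤ _ := by
        apply add_le_add _ le_rfl
        apply Real.exp_le_exp.2
        linarith

end

end Pool.Agent.W2helper87.FR
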