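import Pool.Agent.W2helper87.FR.Mx

/-!
# Random graphs: vertices of degree close to the maximum degree, continued
-/

set_option autoImplicit false

namespace Pool.Agent.W2helper87.FR

open Finset Pool.Agent.H162R2.Sparse Pool.Agent.H162R2.AG Pool.Agent.W2helper87.SR

section

variable {n : ℕ} (B : SimpleGraph (Fin n)) (p η μ S : ℝ) (hp0 : 0 < p) (hη0 : 0 < η)
  (hη : p ≤ 1 - η) (hμ0 : 0 < μ) (hμ : ∀ v, p * (cS (sU v univ) B : ℝ) ≤ μ)
  (hS0 : 0 < S) (hSS : S ^ 2 = μ * Real.log n)

include hp0 hη0 hη hμ0 hμ hS0 hSS in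
/-- a vertex has a small probability to exceed the largest expected degree by `4 S` -/
theorem TS_far (v : Fin n) (k : ℕ) (h : p * (cS (sU v univ) B : ℝ) + 4 * S ≤ k)
    (h2 : 2 * S ≤ μ) : TS (qB B p) (sU v univ) k ≤ Real.exp (-(4 * Real.log n)) := by
  have hq := qB_01 B p hp0.le (by linarith)
  have h3 := cS_upper (qB B p) hq (sU v univ) μ (4 * S) hμ0 (by rw [qs_qB]; exact hμ v)
    (by linarith) (by linarith)
  have h4 : TS (qB B p) (sU v univ) k ≤
      pb (qB B p) (fun G => qs (qB B p) (sU v univ) + 4 * S ≤ cS (sU v univ) G) := by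
    apply pb_mono _ hq
    intro G hG
    rw [qs_qB]
    have : (k : ℝ) ≤ cS (sU v univ) G := by exact_mod_cast hG
    linarith
  refine (h4.trans h3).trans (le_of_eq ?_)
  congr 1
  have h5 : -((4 * S) ^ 2) = -(16 * (S ^ 2)) := by ring
  rw [h5, hSS]
  field_simp
  ring

include hp0 hη0 hη hμ0 hμ hS0 hSS in
theorem FF_cmp (k s m : ℕ) (hn : 1 ≤ n) (hηS : 68 * S ≤ μ * η) (hl1 : 1 ≤ Real.log n)
    (hk : μ - 6 * S ≤ k) (hks : ((k + s : ℕ) : ℝ) ≤ μ + 4 * S + 2) (hS2 : 2 ≤ S)
    (hm : m = ⌊μ * η / (68 * S)⌋₊) :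
    1 ≤ m ∧ μ * η / (136 * S) ≤ m ∧
    FF (qB B p) k ≤ Real.exp (2 / m * s) * FF (qB B p) (k + s) + 1 := by
  have hq := qB_01 B p hp0.le (by linarith)
  have hp1 : p < 1 := by linarith
  have hη1 : η < 1 := by linarith
  have hn0 : (0 : ℝ) < n := by exact_mod_cast hn
  have hr1 : 1 ≤ μ * η / (68 * S) := by
    rw [le_div_iff₀ (by positivity)]
    linarith
  have hm1 : 1 ≤ m := by
    rw [hm]
    exact Nat.le_floor (by simpa using hr1)
  have hmr1 : (1 : ℝ) ≤ m := by exact_mod_cast hm1
  have hmle : (m : ℝ) ≤ μ * η / (68 * S) := by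
    rw [hm]
    exact Nat.floor_le (by linarith)
  have hmge : μ * η / (136 * S) ≤ m := by
    have h1 : μ * η / (68 * S) < m + 1 := by
      rw [hm]
      exact Nat.lt_floor_add_one _
    have h2 : μ * η / (136 * S) = μ * η / (68 * S) / 2 := by
      field_simp
      norm_num
    rw [h2]
    linarith
  have hmS : (m : ℝ) ≤ S := by
    refine hmle.trans ?_
    rw [div_le_iff₀ (by positivity)]
    have h1 : μ * η ≤ μ * 1 := by gcongr
    have h2 : μ * 1 ≤ μ * Real.log n := by gcongr
    have h3 : S * (68 * S) = 68 * S ^ 2 := by ring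
    rw [h3, hSS]
    have h4 : 0 ≤ μ * Real.log n := by positivity
    linarith
  have h34 : 34 * S ≤ μ / 2 := by
    have : μ * η ≤ μ * 1 := by gcongr
    linarith
  refine ⟨hm1, hmge, ?_⟩
  -- every vertex
  have key : ∀ v : Fin n, TS (qB B p) (sU v univ) k ≤
      Real.exp (2 / m * s) * TS (qB B p) (sU v univ) (k + s) + Real.exp (-(4 * Real.log n)) := by
    intro v
    have hT0 := TS_nonneg (qB B p) hq (sU v univ) (k + s)
    by_cases hv : μ - 10 * S ≤ p * (cS (sU v univ) B : ℝ)
    · have h1 := TS_cmp B p hp0 hp1 (sU v univ) (16 * S) (34 * S / (μ * η)) (by positivity)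
        (by positivity) m hm1 (by
          calc (m : ℝ) * (34 * S / (μ * η)) ≤ μ * η / (68 * S) * (34 * S / (μ * η)) := by gcongr
            _ = 1 / 2 := by
                field_simp
                norm_num) (by
          have h2 : μ / 2 * η ≤ (cS (sU v univ) B : ℝ) * p * (1 - p) := by
            have h3 : μ / 2 ≤ (cS (sU v univ) B : ℝ) * p := by linarith
            have h4 : η ≤ 1 - p := by linarith
            calc μ / 2 * η ≤ ((cS (sU v univ) B : ℝ) * p) * η := by gcongr
              _ ≤ (cS (sU v univ) B : ℝ) * p * (1 - p) := by gcongr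
          calc 16 * S + 1 ≤ 17 * S := by linarith
            _ = 34 * S / (μ * η) * (μ / 2 * η) := by
                field_simp
                norm_num
            _ ≤ 34 * S / (μ * η) * ((cS (sU v univ) B : ℝ) * p * (1 - p)) := by gcongr)
        k s (by
          push_cast at hks ⊢
          linarith)
      have := Real.exp_pos (-(4 * Real.log n))
      linarith
    · push Not at hv
      have h1 := TS_far B p η μ S hp0 hη0 hη hμ0 hμ hS0 hSS v k (by linarith) (by linarith)
      have h2 : 0 ≤ Real.exp (2 / m * s) * TS (qB B p) (sU v univ) (k + s) := by positivity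
      linarith
  have h1 := sum_le_sum (s := (univ : Finset (Fin n))) fun v _ => key v
  rw [sum_add_distrib, ← mul_sum, sum_const, card_univ, Fintype.card_fin, nsmul_eq_mul] at h1
  have h2 : (n : ℝ) * Real.exp (-(4 * Real.log n)) ≤ 1 := by
    have h3 : (n : ℝ) = Real.exp (Real.log n) := (Real.exp_log hn0).symm
    calc (n : ℝ) * Real.exp (-(4 * Real.log n)) =
        Real.exp (Real.log n) * Real.exp (-(4 * Real.log n)) := by rw [← h3]
      _ = Real.exp (Real.log n + -(4 * Real.log n)) := by rw [Real.exp_add]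
      _ ≤ 1 := by
          rw [Real.exp_le_one_iff]
          linarith
  unfold FF
  linarith

/-- the vertices of degree close to the maximum are few -/
def NM {n : ℕ} (a x : ℝ) (G : SimpleGraph (Fin n)) : Prop := by
  classical exact
  ∃ D : ℕ, (∀ v, dg G v ≤ D) ∧ (∃ v, dg G v = D) ∧
    a ≤ ((univ.filter (fun v => (D : ℝ) - x < dg G v)).card : ℝ)

theorem NM_sub {a x : ℝ} (G : SimpleGraph (Fin n)) (h : NM a x G) (k : ℕ) (y : ℝ) (v : Fin n)
    (hv : y ≤ dg G v) (hk : (k : ℝ) ≤ y - x + 1) :
    a ≤ ((univ.filter (fun v => k ≤ dg G v)).card : ℝ) := by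
  classical
  obtain ⟨D, h1, -, h3⟩ := h
  refine h3.trans ?_
  have : (univ.filter (fun v => (D : ℝ) - x < dg G v)).card ≤
      (univ.filter (fun v => k ≤ dg G v)).card := by
    apply card_le_card
    intro w hw
    rw [mem_filter] at hw ⊢
    refine ⟨hw.1, ?_⟩
    have h4 : (dg G v : ℝ) ≤ D := by exact_mod_cast h1 v
    have h5 : (k : ℝ) < dg G w + 1 := by linarith [hw.2]
    have h6 : k < dg G w + 1 := by exact_mod_cast h5
    omega
  exact_mod_cast this

set_option maxHeartbeats 4000000 in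
include hp0 hη0 hη hμ0 hμ hS0 hSS in
/-- the main estimate on the vertices of degree close to the maximum -/
theorem near_max (ε : ℝ) (hε : 0 < ε) (hε4 : 4 * ε ≤ 1) (v₀ : Fin n)
    (hv₀ : p * (cS (sU v₀ univ) B : ℝ) = μ) (b b2 a : ℝ) (hb : 1 ≤ b) (ha : 0 < a) (hbn : b ≤ n)
    (hb2 : b2 = Real.exp (1360 * 5 * ε / η * Real.log n) * b + 1)
    (hηS : 68 * S ≤ μ * η) (hεS1 : 1 ≤ ε * S) (hεS2 : 8 * S ≤ ε * μ) (hl1 : 1 ≤ Real.log n)
    (u : ℕ) (hu : u ≤ n) (huμ : p * u ≤ ε ^ 2 * μ / 16) (hub : 2 * Real.log n ≤ u / n * b) :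
    pb (qB B p) (NM a (2 * ε * S)) ≤ b2 / a + 3 / n := by
  classical
  have hq := qB_01 B p hp0.le (by linarith)
  have hn : 1 ≤ n := by
    have := v₀.2
    omega
  have hn0 : (0 : ℝ) < n := by exact_mod_cast hn
  have hn1 : (1 : ℝ) ≤ n := by exact_mod_cast hn
  have hη1 : η < 1 := by linarith
  have hS2 : 2 ≤ S := by nlinarith
  have h34 : 34 * S ≤ μ / 2 := by
    have : μ * η ≤ μ * 1 := by gcongr
    linarith
  have hb2b : b + 1 ≤ b2 := by
    rw [hb2]
    have h1 : 1 ≤ Real.exp (1360 * 5 * ε / η * Real.log n) := Real.one_le_exp (by positivity)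
    nlinarith
  -- the threshold
  have hex : ∃ k₀ : ℕ, b ≤ FF (qB B p) k₀ ∧ FF (qB B p) (k₀ + 1) < b := by
    have h0 : b ≤ FF (qB B p) 0 := by
      have : FF (qB B p) 0 = n := by
        unfold FF
        have h1 : ∀ v : Fin n, TS (qB B p) (sU v univ) 0 = 1 := by
          intro v
          unfold TS
          simp only [Nat.zero_le]
          rw [pb_eq]
          simpa using ex_one (qB B p)
        simp [h1]
      rw [this]
      exact hbn
    have h1 : FF (qB B p) (⌈μ + 4 * S⌉₊) < b := by
      have h2 : FF (qB B p) (⌈μ + 4 * S⌉₊) ≤ n * Real.exp (-(4 * Real.log n)) := by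
        unfold FF
        refine (sum_le_sum (g := fun _ => Real.exp (-(4 * Real.log n))) fun v _ =>
          TS_far B p η μ S hp0 hη0 hη hμ0 hμ hS0 hSS v _ (by
            have := Nat.le_ceil (μ + 4 * S)
            have := hμ v
            linarith) (by linarith)).trans ?_
        rw [sum_const, card_univ, Fintype.card_fin, nsmul_eq_mul]
      have h3 : (n : ℝ) * Real.exp (-(4 * Real.log n)) < 1 := by
        calc (n : ℝ) * Real.exp (-(4 * Real.log n)) =
            Real.exp (Real.log n) * Real.exp (-(4 * Real.log n)) := by rw [Real.exp_log hn0]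
          _ = Real.exp (Real.log n + -(4 * Real.log n)) := by rw [Real.exp_add]
          _ < 1 := by
              rw [Real.exp_lt_one_iff]
              linarith
      linarith
    by_contra hcon
    push Not at hcon
    have h4 : ∀ k, b ≤ FF (qB B p) k := by
      intro k
      induction k with
      | zero => exact h0
      | succ k ih => exact hcon k ih
    linarith [h4 (⌈μ + 4 * S⌉₊)]
  obtain ⟨k₀, hk0, hk1⟩ := hex
  have hk₀u : (k₀ : ℝ) ≤ μ + 4 * S := by
    by_contra hcon
    push Not at hcon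
    have h2 : FF (qB B p) k₀ ≤ n * Real.exp (-(4 * Real.log n)) := by
      unfold FF
      refine (sum_le_sum (g := fun _ => Real.exp (-(4 * Real.log n))) fun v _ =>
        TS_far B p η μ S hp0 hη0 hη hμ0 hμ hS0 hSS v _ (by
          have := hμ v
          linarith) (by linarith)).trans ?_
      rw [sum_const, card_univ, Fintype.card_fin, nsmul_eq_mul]
    have h3 : (n : ℝ) * Real.exp (-(4 * Real.log n)) < 1 := by
      calc (n : ℝ) * Real.exp (-(4 * Real.log n)) =
          Real.exp (Real.log n) * Real.exp (-(4 * Real.log n)) := by rw [Real.exp_log hn0]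
        _ = Real.exp (Real.log n + -(4 * Real.log n)) := by rw [Real.exp_add]
        _ < 1 := by
            rw [Real.exp_lt_one_iff]
            linarith
    linarith
  rcases le_or_gt ((k₀ : ℝ) + 1) (μ - 4 * S) with hB | hA
  · -- the maximum degree is larger than `k₀`
    have h1 : pb (qB B p) (NM a (2 * ε * S)) ≤
        pb (qB B p) (fun G => (cS (sU v₀ univ) G : ℝ) ≤ qs (qB B p) (sU v₀ univ) - 3 * S ∨
          a ≤ ((univ.filter (fun v => k₀ + 1 ≤ dg G v)).card : ℝ)) := by
      apply pb_mono _ hq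
      intro G hG
      by_cases h : (cS (sU v₀ univ) G : ℝ) ≤ qs (qB B p) (sU v₀ univ) - 3 * S
      · exact Or.inl h
      · right
        push Not at h
        rw [qs_qB, hv₀, cS_univ] at h
        refine NM_sub G hG (k₀ + 1) (μ - 3 * S) v₀ h.le ?_
        push_cast
        nlinarith
    have h2 := cS_lower (qB B p) hq (sU v₀ univ) μ (3 * S) hμ0 (by rw [qs_qB, hv₀]) (by linarith)
      (by linarith)
    have h3 := count_markov (qB B p) hq (k₀ + 1) a ha
    have h4 : Real.exp (-((3 * S) ^ 2) / (4 * μ)) ≤ 1 / n := by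
      have e1 : -((3 * S) ^ 2) / (4 * μ) = -(9 / 4 * Real.log n) := by
        have e2 : -((3 * S) ^ 2) = -(9 * (S ^ 2)) := by ring
        rw [e2, hSS]
        field_simp
      have e3 : (1 : ℝ) / n = Real.exp (-Real.log n) := by
        rw [Real.exp_neg, Real.exp_log hn0, one_div]
      rw [e1, e3]
      apply Real.exp_le_exp.2
      linarith
    have h5 : FF (qB B p) (k₀ + 1) / a ≤ b2 / a := by
      gcongr
      linarith
    have h6 : (1 : ℝ) / n ≤ 3 / n := by
      gcongr
      norm_num
    calc pb (qB B p) (NM a (2 * ε * S)) ≤ _ := h1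
      _ ≤ _ := pb_or_le _ hq _ _
      _ ≤ b2 / a + 3 / n := by linarith
  · -- the independent events
    set k₁ : ℕ := ⌈(k₀ : ℝ) - 4 * ε * S⌉₊ with hk₁
    have hpos : 0 ≤ (k₀ : ℝ) - 4 * ε * S := by nlinarith
    have hk₁le : k₁ ≤ k₀ := by
      rw [hk₁, Nat.ceil_le]
      have : 0 ≤ 4 * ε * S := by positivity
      linarith
    obtain ⟨s, hs⟩ : ∃ s, k₁ + s = k₀ + 1 := ⟨k₀ + 1 - k₁, by omega⟩
    have hk₁lo : (k₀ : ℝ) - 4 * ε * S ≤ k₁ := Nat.le_ceil _
    have hk₁hi : (k₁ : ℝ) < (k₀ : ℝ) - 4 * ε * S + 1 := Nat.ceil_lt_add_one hpos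
    have hsr : (k₁ : ℝ) + s = k₀ + 1 := by exact_mod_cast hs
    have hεS4 : 4 * ε * S ≤ S := by nlinarith
    obtain ⟨hm1, hmge, hcmp⟩ := FF_cmp B p η μ S hp0 hη0 hη hμ0 hμ hS0 hSS k₁ s
      (⌊μ * η / (68 * S)⌋₊) hn hηS hl1 (by linarith) (by push_cast; linarith) hS2 rfl
    set m := ⌊μ * η / (68 * S)⌋₊ with hm
    have hmr1 : (1 : ℝ) ≤ m := by exact_mod_cast hm1
    rw [hs] at hcmp
    have hsle : (s : ℝ) ≤ 5 * ε * S := by nlinarith
    have hfac : 2 / (m : ℝ) * s ≤ 1360 * 5 * ε / η * Real.log n := by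
      have e1 : 2 / (m : ℝ) ≤ 2 / (μ * η / (136 * S)) := by
        apply div_le_div_of_nonneg_left (by norm_num) (by positivity) hmge
      calc 2 / (m : ℝ) * s ≤ 2 / (μ * η / (136 * S)) * (5 * ε * S) := by gcongr
        _ = 1360 * ε / η * (S ^ 2 / μ) := by
            field_simp
            ring
        _ = 1360 * ε / η * Real.log n := by
            rw [hSS]
            field_simp
        _ ≤ _ := by
            have : 0 ≤ ε / η * Real.log n := by positivity
            have e2 : 1360 * ε / η * Real.log n = 1360 * (ε / η * Real.log n) := by ring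
            have e3 : 1360 * 5 * ε / η * Real.log n = 6800 * (ε / η * Real.log n) := by ring
            rw [e2, e3]
            linarith
    have hFF : FF (qB B p) k₁ ≤ b2 := by
      rw [hb2]
      refine hcmp.trans ?_
      have e1 : Real.exp (2 / m * s) ≤ Real.exp (1360 * 5 * ε / η * Real.log n) :=
        Real.exp_le_exp.2 hfac
      have e2 : 0 ≤ FF (qB B p) (k₀ + 1) := sum_nonneg fun v _ => TS_nonneg _ hq _ _
      have e3 : Real.exp (2 / m * s) * FF (qB B p) (k₀ + 1) ≤
          Real.exp (1360 * 5 * ε / η * Real.log n) * b := by gcongr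
      linarith
    have h1 : pb (qB B p) (NM a (2 * ε * S)) ≤
        pb (qB B p) (fun G => (∀ v, (dg G v : ℝ) < k₀ - 2 * (ε * S)) ∨
          a ≤ ((univ.filter (fun v => k₁ ≤ dg G v)).card : ℝ)) := by
      apply pb_mono _ hq
      intro G hG
      by_cases h : ∀ v, (dg G v : ℝ) < k₀ - 2 * (ε * S)
      · exact Or.inl h
      · right
        push Not at h
        obtain ⟨v, hv⟩ := h
        refine NM_sub G hG k₁ (k₀ - 2 * (ε * S)) v hv ?_
        linarith
    have hτ : ε * S ≤ 2 * (ε ^ 2 * μ / 16) := by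
      calc ε * S = ε * (8 * S) / 8 := by ring
        _ ≤ ε * (ε * μ) / 8 := by gcongr
        _ = 2 * (ε ^ 2 * μ / 16) := by ring
    have h2 := indep_max (qB B p) hq k₀ (ε ^ 2 * μ / 16) (ε * S) (by positivity) (by positivity)
      hτ u hu hn (by
        intro U hU v
        rw [qs_qB]
        refine le_trans ?_ huμ
        apply mul_le_mul_of_nonneg_left _ hp0.le
        rw [← hU]
        exact_mod_cast (cS_le (sU v U) B).trans (by
          have h1 : (sU v U).card ≤ (U.image (fun w => s(v, w))).card := by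
            refine card_le_card_of_injOn (fun e => e.1) ?_ ?_
            · intro e he
              rw [mem_coe, mem_sU] at he
              obtain ⟨w, hw, he⟩ := he
              rw [mem_coe, mem_image]
              exact ⟨w, hw, he.symm⟩
            · intro a _ b _ h
              exact Subtype.ext h
          exact h1.trans card_image_le))
    have h3 := count_markov (qB B p) hq k₁ a ha
    have e1 : -((ε * S) ^ 2) / (4 * (ε ^ 2 * μ / 16)) = -(4 * Real.log n) := by
      have e2 : -((ε * S) ^ 2) = -(ε ^ 2 * (S ^ 2)) := by ring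
      rw [e2, hSS]
      field_simp
      norm_num
    rw [e1] at h2
    have hur : (u : ℝ) ≤ n := by exact_mod_cast hu
    have e3 : (u : ℝ) * Real.exp (-(4 * Real.log n)) ≤ 1 / n := by
      have e4 : Real.exp (-(4 * Real.log n)) ≤ 1 / (n : ℝ) ^ 2 := by
        have e5 : 1 / (n : ℝ) ^ 2 = Real.exp (-(2 * Real.log n)) := by
          rw [Real.exp_neg, mul_comm, Real.exp_mul, Real.exp_log hn0, one_div]
          norm_num
        rw [e5]
        apply Real.exp_le_exp.2
        linarith
      calc (u : ℝ) * Real.exp (-(4 * Real.log n)) ≤ n * (1 / (n : ℝ) ^ 2) := by gcongr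
        _ = 1 / n := by field_simp
    have e6 : Real.exp (-(u / n * FF (qB B p) k₀ - u * Real.exp (-(4 * Real.log n)))) ≤ 2 / n := by
      have e7 : (u : ℝ) / n * b ≤ u / n * FF (qB B p) k₀ := by gcongr
      have e8 : 1 / (n : ℝ) ≤ 1 := by
        rw [div_le_one hn0]
        exact hn1
      have e9 : (1 : ℝ) / n = Real.exp (-Real.log n) := by
        rw [Real.exp_neg, Real.exp_log hn0, one_div]
      calc Real.exp (-(u / n * FF (qB B p) k₀ - u * Real.exp (-(4 * Real.log n)))) ≤
          Real.exp (-Real.log n) := by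
            apply Real.exp_le_exp.2
            linarith
        _ = 1 / n := e9.symm
        _ ≤ 2 / n := by
            gcongr
            norm_num
    have h5 : FF (qB B p) k₁ / a ≤ b2 / a := by gcongr
    have h6 : (2 : ℝ) / n + 1 / n = 3 / n := by ring
    calc pb (qB B p) (NM a (2 * ε * S)) ≤ _ := h1
      _ ≤ _ := pb_or_le _ hq _ _
      _ ≤ b2 / a + 3 / n := by linarith

end

end Pool.Agent.W2helper87.FR
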