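import Mathlib

/-!
# Numerical lemmas
-/

set_option autoImplicit false

namespace Pool.Agent.W2helper87.FR

/-- the constants -/
structure Kst (C ε J N I2 ω δ β Λ γ : ℝ) : Prop where
  C1 : 1 ≤ C
  ε0 : 0 < ε
  ε1 : ε ≤ 1
  J2 : 2 ≤ J
  N4 : 4 ≤ N
  I2p : 0 < I2
  I2N : I2 * I2 = N
  I2e : 64 * (C + 8) ≤ ε * I2
  ω0 : 0 < ω
  ωe : 64 * J * ω = ε
  δ0 : 0 < δ
  δe : 20 * δ = ω ^ 2
  β0 : 0 < β
  βe : 24 * C * N * (64 * N + 25) * β = ω
  Λ0 : 0 < Λ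
  Λe : Λ * (β * δ) = 64 * N
  γ0 : 0 < γ
  γe : 16 * C * Λ * γ = ω

section

variable {C ε J N I2 ω δ β Λ γ : ℝ}

theorem Kst.ω1 (k : Kst C ε J N I2 ω δ β Λ γ) : ω ≤ 1 / 128 := by
  have h1 := k.ωe
  have h2 := k.J2
  have h3 := k.ε1
  have h4 := k.ω0
  nlinarith

theorem Kst.δ1 (k : Kst C ε J N I2 ω δ β Λ γ) : δ ≤ 1 / 20 := by
  have h1 := k.δe
  have h2 := k.ω1
  have h3 := k.ω0
  nlinarith

theorem Kst.β1 (k : Kst C ε J N I2 ω δ β Λ γ) : β * (64 * N + 25) ≤ 1 := by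
  have h1 := k.βe
  have h2 := k.ω1
  have h3 := k.β0
  have h4 := k.C1
  have h5 := k.N4
  have h6 : 1 ≤ 24 * C * N := by nlinarith
  have h7 : 0 ≤ (64 * N + 25) * β := by positivity
  have h8 : 24 * C * N * (64 * N + 25) * β = 24 * C * N * ((64 * N + 25) * β) := by ring
  nlinarith

theorem Kst.β2 (k : Kst C ε J N I2 ω δ β Λ γ) : β ≤ 1 := by
  have h1 := k.β1
  have h2 := k.N4
  have h3 := k.β0
  nlinarith

theorem Kst.βδ (k : Kst C ε J N I2 ω δ β Λ γ) : 20 * (β * δ) * (64 * N + 25) ≤ 1 := by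
  have h1 := k.β1
  have h2 := k.δ1
  have h3 := k.δ0
  have h4 := k.β0
  have h5 := k.N4
  have h6 : 0 ≤ β * (64 * N + 25) := by positivity
  have h7 : 20 * (β * δ) * (64 * N + 25) = (20 * δ) * (β * (64 * N + 25)) := by ring
  rw [h7]
  nlinarith

theorem Kst.βδ1 (k : Kst C ε J N I2 ω δ β Λ γ) : β * δ ≤ 1 / 20 := by
  have h1 := k.βδ
  have h5 := k.N4
  have h6 : 0 < β * δ := mul_pos k.β0 k.δ0
  nlinarith

/-- `Λ` is large -/
theorem Kst.ΛN (k : Kst C ε J N I2 ω δ β Λ γ) : 20 * (64 * N) * (64 * N + 25) ≤ Λ := by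
  have h1 := k.βδ
  have h2 := k.Λe
  have h3 := k.Λ0
  have h4 := k.N4
  calc 20 * (64 * N) * (64 * N + 25) = Λ * (20 * (β * δ) * (64 * N + 25)) := by
        rw [← h2]
        ring
    _ ≤ Λ * 1 := by
        apply mul_le_mul_of_nonneg_left h1 h3.le
    _ = Λ := mul_one _

theorem Kst.γ1 (k : Kst C ε J N I2 ω δ β Λ γ) : γ * Λ ≤ ω / 16 := by
  have h1 := k.γe
  have h2 := k.C1
  have h3 : 0 < γ * Λ := mul_pos k.γ0 k.Λ0
  nlinarith

theorem Kst.γ2 (k : Kst C ε J N I2 ω δ β Λ γ) : γ ≤ β := by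
  -- `γ = ω / (16 C Λ)` and `Λ = 64 N / (β δ)`
  have h1 := k.γ1
  have h2 := k.Λe
  have h3 := k.ω1
  have h4 := k.N4
  have h5 := k.δ1
  have hγ := k.γ0
  have hβ := k.β0
  have hΛ := k.Λ0
  have hδ := k.δ0
  -- γ * (64 N) = γ Λ β δ ≤ β
  have h6 : γ * (64 * N) = (γ * Λ) * (β * δ) := by rw [← h2]; ring
  have h7 : (γ * Λ) * (β * δ) ≤ 1 * (β * δ) := by
    apply mul_le_mul_of_nonneg_right _ (by positivity)
    linarith
  nlinarith

end

/-- the variables -/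
structure Vr (C ε J N I2 ω δ β Λ γ X D D' s l E ρ : ℝ) : Prop extends
    Kst C ε J N I2 ω δ β Λ γ where
  X1 : 1 ≤ X
  lX : X ≤ l
  sX : X * l ≤ s
  DX : X * s ≤ D
  sq : s ^ 2 = D * l
  D1 : D - ε * s - 1 ≤ D'
  D2 : D' ≤ D - ε * s
  Ee : E = C * Real.sqrt (Λ * s * l) + C * l
  ρe : ρ = Λ * s / D

section

variable {C ε J N I2 ω δ β Λ γ X D D' s l E ρ : ℝ}

theorem Vr.l1 (v : Vr C ε J N I2 ω δ β Λ γ X D D' s l E ρ) : 1 ≤ l := v.X1.trans v.lX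

theorem Vr.s1 (v : Vr C ε J N I2 ω δ β Λ γ X D D' s l E ρ) : 1 ≤ s := by
  have h1 := v.X1
  have h2 := v.l1
  have h3 := v.sX
  nlinarith

theorem Vr.D0 (v : Vr C ε J N I2 ω δ β Λ γ X D D' s l E ρ) : 1 ≤ D := by
  have h1 := v.X1
  have h2 := v.s1
  have h3 := v.DX
  nlinarith

/-- constants times `l` are small -/
theorem Vr.cl (v : Vr C ε J N I2 ω δ β Λ γ X D D' s l E ρ) (c : ℝ) (hc : c ≤ X) : c * l ≤ s := by
  have h1 := v.sX
  have h2 := v.l1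
  nlinarith

/-- constants times `s` are small -/
theorem Vr.cs (v : Vr C ε J N I2 ω δ β Λ γ X D D' s l E ρ) (c : ℝ) (hc : c ≤ X) : c * s ≤ D := by
  have h1 := v.DX
  have h2 := v.s1
  nlinarith

/-- constants are small -/
theorem Vr.c1 (v : Vr C ε J N I2 ω δ β Λ γ X D D' s l E ρ) (c : ℝ) (hc : c ≤ X) : c ≤ s := by
  have h1 := v.sX
  have h2 := v.l1
  have h3 := v.X1
  nlinarith

theorem Vr.ρs (v : Vr C ε J N I2 ω δ β Λ γ X D D' s l E ρ) : ρ * s = Λ * l := by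
  have h1 := v.D0
  have h2 := v.sq
  rw [v.ρe]
  have h3 : D ≠ 0 := by positivity
  field_simp
  rw [h2]
  ring

theorem Vr.ρD (v : Vr C ε J N I2 ω δ β Λ γ X D D' s l E ρ) : ρ * D = Λ * s := by
  have h1 := v.D0
  rw [v.ρe]
  have h3 : D ≠ 0 := by positivity
  field_simp

theorem Vr.ρ0 (v : Vr C ε J N I2 ω δ β Λ γ X D D' s l E ρ) : 0 ≤ ρ := by
  rw [v.ρe]
  have h1 := v.D0
  have h2 := v.s1
  have h3 := v.Λ0
  positivity

theorem Vr.ρl (v : Vr C ε J N I2 ω δ β Λ γ X D D' s l E ρ) : ρ ≤ Λ * l := by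
  have h1 := v.ρs
  have h2 := v.s1
  have h3 := v.ρ0
  nlinarith

/-- bounds for `ρ D'` -/
theorem Vr.ρD' (v : Vr C ε J N I2 ω δ β Λ γ X D D' s l E ρ) :
    Λ * s - 2 * Λ * l ≤ ρ * D' ∧ ρ * D' ≤ Λ * s := by
  have h1 := v.ρs
  have h2 := v.ρD
  have h3 := v.ρ0
  have h4 := v.ρl
  have h5 := v.D1
  have h6 := v.D2
  have h7 := v.s1
  have h8 := v.ε0
  have h9 := v.ε1
  have h10 := v.l1
  have hΛ := v.Λ0
  constructor
  · have e1 : ρ * (D - ε * s - 1) ≤ ρ * D' := mul_le_mul_of_nonneg_left h5 h3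
    have e2 : ρ * (D - ε * s - 1) = Λ * s - ε * (Λ * l) - ρ := by
      calc ρ * (D - ε * s - 1) = ρ * D - ε * (ρ * s) - ρ := by ring
        _ = _ := by rw [h1, h2]
    have e3 : ε * (Λ * l) ≤ 1 * (Λ * l) := by
      apply mul_le_mul_of_nonneg_right h9
      positivity
    linarith
  · have e1 : ρ * D' ≤ ρ * D := by
      apply mul_le_mul_of_nonneg_left _ h3
      nlinarith
    linarith

theorem Vr.D'b (v : Vr C ε J N I2 ω δ β Λ γ X D D' s l E ρ) (hX : 4 ≤ X) :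
    D / 2 ≤ D' ∧ D' ≤ D ∧ D - 2 * s ≤ D' := by
  have h1 := v.cs 4 hX
  have h5 := v.D1
  have h6 := v.D2
  have h7 := v.s1
  have h8 := v.ε0
  have h9 := v.ε1
  refine ⟨?_, ?_, ?_⟩ <;> nlinarith

/-- the error term is small -/
theorem Vr.Es (v : Vr C ε J N I2 ω δ β Λ γ X D D' s l E ρ) (θ : ℝ) (hθ : 0 < θ)
    (h1 : 4 * C ^ 2 * Λ ≤ θ ^ 2 * X) (h2 : 2 * C ≤ θ * X) : 0 ≤ E ∧ E ≤ θ * s := by
  have hC := v.C1
  have hl := v.l1
  have hs := v.s1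
  have hΛ := v.Λ0
  have hsX := v.sX
  have hX := v.X1
  constructor
  · rw [v.Ee]
    positivity
  · rw [v.Ee]
    have e1 : C * l ≤ θ / 2 * s := by
      have : θ * (X * l) ≤ θ * s := mul_le_mul_of_nonneg_left hsX hθ.le
      nlinarith
    have e2 : Real.sqrt (Λ * s * l) ≤ θ / (2 * C) * s := by
      apply Real.sqrt_le_iff.2
      refine ⟨by positivity, ?_⟩
      have e3 : 4 * C ^ 2 * Λ * l ≤ θ ^ 2 * s := by
        calc 4 * C ^ 2 * Λ * l ≤ θ ^ 2 * X * l := by gcongr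
          _ = θ ^ 2 * (X * l) := by ring
          _ ≤ θ ^ 2 * s := by gcongr
      have e4 : Λ * s * l = (4 * C ^ 2 * Λ * l) * s / (4 * C ^ 2) := by
        field_simp
      rw [e4, div_le_iff₀ (by positivity)]
      calc 4 * C ^ 2 * Λ * l * s ≤ θ ^ 2 * s * s := by gcongr
        _ = (θ / (2 * C) * s) ^ 2 * (4 * C ^ 2) := by
            field_simp
            ring
    have e5 : C * Real.sqrt (Λ * s * l) ≤ θ / 2 * s := by
      calc C * Real.sqrt (Λ * s * l) ≤ C * (θ / (2 * C) * s) := by gcongr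
        _ = θ / 2 * s := by
            field_simp
    linarith

end

end Pool.Agent.W2helper87.FR
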