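import Pool.Agent.W2helper87.FR.Num
import Pool.Agent.W2helper87.SR.Tail

/-!
# Numerical lemmas, continued
-/

set_option autoImplicit false

namespace Pool.Agent.W2helper87.FR

/-- the variables at a level -/
structure Vj (C ε J N I2 ω δ β Λ γ X D D' s l E ρ q d m r h a : ℝ) : Prop extends
    Vr C ε J N I2 ω δ β Λ γ X D D' s l E ρ where
  E0 : 0 ≤ E
  E1 : 18 * E ≤ s
  E2 : 16 * C * E ≤ ω * s
  X4 : 100 ≤ X
  XΛ : 64 * (Λ + 10) * N ≤ X
  Xω : 16 * C * (Λ ^ 2 + 1) ≤ ω * X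
  XJ : 16 * J ≤ ε * X
  Xc : 8 / (β * δ) + 16 * (Λ ^ 2 + 27 * Λ) + 4 * Λ ≤ X
  q1 : 1 ≤ N * q
  q2 : q ≤ 1 / 2
  d1 : D' * q + ω * s ≤ d
  d2 : d ≤ D' * q + ω * s + 1
  m1 : D' * q + 32 * ω * s - 1 ≤ m
  m2 : m ≤ D' * q + 32 * ω * s
  r1 : Λ * s * q * (1 - β * δ / 2) - 1 ≤ r
  r2 : r ≤ Λ * s * q * (1 - β * δ / 2)
  h1 : ω * s - 1 ≤ h
  h2 : h ≤ ω * s
  a0 : 0 ≤ a
  a1 : a ≤ ω * s / 2

section

variable {C ε J N I2 ω δ β Λ γ X D D' s l E ρ q d m r h a : ℝ}

theorem Vj.ωs (v : Vj C ε J N I2 ω δ β Λ γ X D D' s l E ρ q d m r h a) : 16 * C ≤ ω * s := by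
  have h1 := v.Xω
  have h2 := v.c1 X le_rfl
  have h3 := v.ω0
  have h4 := v.C1
  have h5 : ω * X ≤ ω * s := by gcongr
  have h6 : 0 ≤ 16 * C * Λ ^ 2 := by positivity
  linarith

theorem Vj.q0 (v : Vj C ε J N I2 ω δ β Λ γ X D D' s l E ρ q d m r h a) : 0 < q := by
  have h1 := v.q1
  have h2 := v.N4
  by_contra hcon
  push Not at hcon
  nlinarith

theorem Vj.Λl (v : Vj C ε J N I2 ω δ β Λ γ X D D' s l E ρ q d m r h a) : 100 * (Λ * l) ≤ s := by
  have h1 := v.XΛ
  have h2 := v.Λ0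
  have h3 := v.N4
  have h4 := v.cl (100 * Λ) (by nlinarith)
  linarith

/-- `r` is large -/
theorem Vj.R1 (v : Vj C ε J N I2 ω δ β Λ γ X D D' s l E ρ q d m r h a) :
    (640 * (64 * N + 25)) * s - 1 ≤ r := by
  have h1 := v.r1
  have h2 := v.ΛN
  have h3 := v.βδ1
  have h4 := v.q1
  have h5 := v.s1
  have h6 := v.q0
  have h7 := v.N4
  have e1 : 20 * (64 * N) * (64 * N + 25) * (s * q * (1 - β * δ / 2)) ≤
      Λ * (s * q * (1 - β * δ / 2)) := by
    apply mul_le_mul_of_nonneg_right h2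
    apply mul_nonneg (by positivity)
    linarith
  have e2 : (1 : ℝ) / 2 ≤ 1 - β * δ / 2 := by linarith
  have e3 : 20 * 64 * (64 * N + 25) * s * (1 / 2) ≤
      20 * 64 * (64 * N + 25) * s * ((N * q) * (1 - β * δ / 2)) := by
    apply mul_le_mul_of_nonneg_left _ (by positivity)
    nlinarith
  linarith

theorem Vj.A2 (v : Vj C ε J N I2 ω δ β Λ γ X D D' s l E ρ q d m r h a) :
    (1 - ρ) * (D' * q + 6 * s) + ρ * (γ * D) + E ≤ d - r := by
  have h1 := v.ρD
  have h2 := v.ρD'.1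
  have h3 := v.q0
  have h4 := v.q2
  have h5 := v.ρ0
  have h6 := v.s1
  have h7 := v.γ1
  have h8 := v.Λl
  have h9 := v.E1
  have h10 := v.d1
  have h11 := v.r2
  have h12 := v.Λe
  have h13 := v.q1
  have h14 := v.l1
  have h15 := v.ω1
  have hΛ := v.Λ0
  have hω := v.ω0
  have e1 : (1 - ρ) * (D' * q + 6 * s) = D' * q - (ρ * D') * q + 6 * s - 6 * (ρ * s) := by ring
  have e2 : (Λ * s - 2 * Λ * l) * q ≤ (ρ * D') * q := mul_le_mul_of_nonneg_right h2 h3.le
  have e3 : ρ * (γ * D) = (γ * Λ) * s := by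
    calc ρ * (γ * D) = γ * (ρ * D) := by ring
      _ = γ * (Λ * s) := by rw [h1]
      _ = _ := by ring
  have e4 : (γ * Λ) * s ≤ ω / 16 * s := mul_le_mul_of_nonneg_right h7 (by linarith)
  have e5 : Λ * s * q * (1 - β * δ / 2) = Λ * s * q - (Λ * (β * δ)) * s * q / 2 := by ring
  rw [h12] at e5
  have e6 : 32 * s ≤ 64 * N * s * q / 2 := by nlinarith
  have e7 : 2 * Λ * l * q ≤ Λ * l := by
    have : 0 ≤ Λ * l := by positivity
    nlinarith
  have e8 : 0 ≤ ρ * s := by positivity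
  have e9 : (Λ * s - 2 * Λ * l) * q = Λ * s * q - 2 * Λ * l * q := by ring
  have e10 : 0 ≤ Λ * l := by positivity
  rw [e1, e3]
  have e11 : ω * s ≤ 1 / 128 * s := by gcongr
  have e12 : 0 ≤ ω * s := by positivity
  linarith

theorem Vj.md (v : Vj C ε J N I2 ω δ β Λ γ X D D' s l E ρ q d m r h a) :
    31 * (ω * s) - 2 ≤ m - d ∧ m - d ≤ 31 * (ω * s) := by
  have h1 := v.d1
  have h2 := v.d2
  have h3 := v.m1
  have h4 := v.m2
  constructor <;> linarith

theorem Vj.sω (v : Vj C ε J N I2 ω δ β Λ γ X D D' s l E ρ q d m r h a) :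
    0 ≤ ω * s ∧ 128 * (ω * s) ≤ s ∧ 16 ≤ ω * s ∧ 2048 ≤ s := by
  have h1 := v.ω0
  have h2 := v.ω1
  have h3 := v.s1
  have h4 := v.ωs
  have h5 := v.C1
  have h6 : ω * s ≤ 1 / 128 * s := by gcongr
  refine ⟨by positivity, ?_, ?_, ?_⟩ <;> linarith

theorem Vj.A4 (v : Vj C ε J N I2 ω δ β Λ γ X D D' s l E ρ q d m r h a) :
    6 * s + 2 * (ω * s) + a + ω * s + h ≤ r + (m - d) := by
  obtain ⟨g1, g2, g3, g4⟩ := v.sω
  have h1 := v.R1
  have h2 := v.md.1
  have h3 := v.h2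
  have h4 := v.a1
  have h5 := v.N4
  have h6 : 640 * (64 * 4 + 25) * s ≤ 640 * (64 * N + 25) * s := by
    have := v.s1
    gcongr
  linarith

theorem Vj.A6 (v : Vj C ε J N I2 ω δ β Λ γ X D D' s l E ρ q d m r h a) :
    (D' - 16 * N * s) * q + 6 * s ≤ m - 6 * s - 2 * (ω * s) - a - ω * s - h - 1 := by
  obtain ⟨g1, g2, g3, g4⟩ := v.sω
  have h1 := v.m1
  have h3 := v.h2
  have h4 := v.a1
  have h5 := v.q1
  have h6 : 16 * s * 1 ≤ 16 * s * (N * q) := by
    apply mul_le_mul_of_nonneg_left h5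
    linarith
  have h7 : (D' - 16 * N * s) * q = D' * q - 16 * s * (N * q) := by ring
  rw [h7]
  linarith

theorem Vj.A7 (v : Vj C ε J N I2 ω δ β Λ γ X D D' s l E ρ q d m r h a) :
    d - r ≤ (D' - 16 * N * s) * q - 6 * s := by
  obtain ⟨g1, g2, g3, g4⟩ := v.sω
  have h1 := v.R1
  have h2 := v.d2
  have h3 := v.q2
  have h5 := v.N4
  have h6 : 16 * N * s * q ≤ 16 * N * s * (1 / 2) := by
    apply mul_le_mul_of_nonneg_left h3
    have := v.s1
    positivity
  have h7 : (D' - 16 * N * s) * q = D' * q - 16 * N * s * q := by ring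
  rw [h7]
  nlinarith

theorem Vj.m3 (v : Vj C ε J N I2 ω δ β Λ γ X D D' s l E ρ q d m r h a) :
    32 * (Λ + 10) * s ≤ D' * q := by
  have h1 := (v.D'b (by linarith [v.X4])).1
  have h2 := v.cs (64 * (Λ + 10) * N) v.XΛ
  have h3 := v.q1
  have h4 := v.q0
  have h5 : D / 2 * q ≤ D' * q := mul_le_mul_of_nonneg_right h1 h4.le
  have h6 : 64 * (Λ + 10) * N * s * q ≤ D * q := mul_le_mul_of_nonneg_right h2 h4.le
  have h7 : 64 * (Λ + 10) * s * 1 ≤ 64 * (Λ + 10) * s * (N * q) := by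
    apply mul_le_mul_of_nonneg_left h3
    have := v.s1
    have := v.Λ0
    positivity
  linarith

theorem Vj.A14a (v : Vj C ε J N I2 ω δ β Λ γ X D D' s l E ρ q d m r h a) :
    4 * r ≤ d := by
  obtain ⟨g1, g2, g3, g4⟩ := v.sω
  have h1 := v.m3
  have h2 := v.d1
  have h3 := v.r2
  have h4 := v.q2
  have h5 := v.q0
  have h6 := v.s1
  have h7 := v.Λ0
  have h8 := mul_pos v.β0 v.δ0
  have h9 : Λ * s * q * (1 - β * δ / 2) ≤ Λ * s := by
    calc Λ * s * q * (1 - β * δ / 2) ≤ Λ * s * 1 * 1 := by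
          gcongr
          · linarith [v.βδ1]
          · linarith
          · linarith
      _ = Λ * s := by ring
  nlinarith [mul_pos h7 (by linarith : (0 : ℝ) < s)]

theorem Vj.B (v : Vj C ε J N I2 ω δ β Λ γ X D D' s l E ρ q d m r h a) :
    d + ω * s ≤ m - ω * s - a - 2 * h ∧
    d + ω * s - (64 * N + 24) * s ≤ m - 6 * s - a - 2 * h ∧
    d + ω * s - r - (64 * N + 24) * s ≤ m - 6 * s - a - (r + (32 * N + 8) * s) - h ∧
    d + ω * s - 2 * r - (64 * N + 24) * s ≤ m - 6 * s - a - 2 * (r + (32 * N + 8) * s) := by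
  obtain ⟨g1, g2, g3, g4⟩ := v.sω
  have h2 := v.md.1
  have h3 := v.h2
  have h4 := v.a1
  have h5 := v.N4
  have h6 : 4 * s ≤ N * s := by
    have := v.s1
    gcongr
  refine ⟨?_, ?_, ?_, ?_⟩ <;> nlinarith

theorem Vj.A12 (v : Vj C ε J N I2 ω δ β Λ γ X D D' s l E ρ q d m r h a) :
    ρ * (γ * D) + E ≤ h := by
  obtain ⟨g1, g2, g3, g4⟩ := v.sω
  have h1 := v.ρD
  have h7 := v.γ1
  have h2 := v.E2
  have h3 := v.h1
  have h4 := v.C1
  have h5 := v.E0
  have h6 := v.s1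
  have e3 : ρ * (γ * D) = (γ * Λ) * s := by
    calc ρ * (γ * D) = γ * (ρ * D) := by ring
      _ = γ * (Λ * s) := by rw [h1]
      _ = _ := by ring
  have e4 : (γ * Λ) * s ≤ ω / 16 * s := mul_le_mul_of_nonneg_right h7 (by linarith)
  have e5 : 16 * 1 * E ≤ 16 * C * E := by gcongr
  rw [e3]
  linarith

theorem Vj.A14d (v : Vj C ε J N I2 ω δ β Λ γ X D D' s l E ρ q d m r h a) :
    C * (((γ * D + β * D + β * D) / d + E / r) * ((64 * N + 24) * s + l) +
    l + E + γ * D * r / d + r ^ 2 / d) ≤ ω * s := by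
  obtain ⟨g1, g2, g3, g4⟩ := v.sω
  have hC := v.C1
  have hs := v.s1
  have hl := v.l1
  have hD := v.D0
  have hN := v.N4
  have hq := v.q0
  have hω := v.ω0
  have hβ := v.β0
  have hδ := v.δ0
  have hΛ := v.Λ0
  have hγ := v.γ0
  have hE := v.E0
  have hR := v.R1
  have hr0 : 0 < r := by nlinarith
  have hD' := (v.D'b (by linarith [v.X4])).1
  -- `D / (2 N) ≤ d`
  have hd1 : D ≤ 2 * N * d := by
    have e1 : D / 2 * q ≤ D' * q := mul_le_mul_of_nonneg_right hD' hq.le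
    have e2 := v.d1
    have e3 := v.q1
    have e4 : D * 1 ≤ D * (N * q) := by
      apply mul_le_mul_of_nonneg_left e3
      linarith
    have e5 : N * (D / 2 * q) ≤ N * d := by
      apply mul_le_mul_of_nonneg_left _ (by linarith)
      linarith
    nlinarith
  have hd0 : 0 < d := by nlinarith
  -- first quotient
  have k1 : (γ * D + β * D + β * D) / d ≤ 6 * (β * N) := by
    rw [div_le_iff₀ hd0]
    have e1 : γ * D ≤ β * D := by
      apply mul_le_mul_of_nonneg_right v.γ2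
      linarith
    have e2 : β * D ≤ β * (2 * N * d) := by gcongr
    linarith
  -- second quotient
  have k2 : E / r ≤ β * N := by
    rw [div_le_iff₀ hr0]
    -- `r ≥ 31 s / (β δ)`, `E ≤ s / 18`
    have e1 := v.r1
    have e2 := v.Λe
    have e3 := v.βδ1
    have e4 : (β * N) * (Λ * s * q * (1 - β * δ / 2)) ≥ (β * Λ) * s * (1 / 2) := by
      have e5 : (1 : ℝ) / 2 ≤ 1 - β * δ / 2 := by linarith
      have e6 : (β * N) * (Λ * s * q * (1 - β * δ / 2)) =
          (β * Λ) * s * ((N * q) * (1 - β * δ / 2)) := by ring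
      rw [e6]
      apply mul_le_mul_of_nonneg_left _ (by positivity)
      nlinarith [v.q1]
    have e7 : 64 * N ≤ β * Λ := by
      have : (β * Λ) * δ = 64 * N := by rw [← e2]; ring
      have e8 : 0 < β * Λ := by positivity
      have := v.δ1
      nlinarith
    have e9 : (β * N) * (Λ * s * q * (1 - β * δ / 2) - 1) ≤ β * N * r := by
      apply mul_le_mul_of_nonneg_left e1
      positivity
    have e10 : β * N ≤ 1 := by
      have := v.β1
      nlinarith
    have e11 : 64 * N * s * (1 / 2) ≤ (β * Λ) * s * (1 / 2) := by gcongr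
    have e12 : 4 * s ≤ N * s := by gcongr
    have := v.E1
    linarith
  have k3 : (64 * N + 24) * s + l ≤ (64 * N + 25) * s := by
    have := v.cl 1 v.X1
    linarith
  have k4 : 0 ≤ (64 * N + 24) * s + l := by positivity
  have k5 : ((γ * D + β * D + β * D) / d + E / r) * ((64 * N + 24) * s + l) ≤
      (7 * (β * N)) * ((64 * N + 25) * s) := by
    apply mul_le_mul _ k3 k4 (by positivity)
    linarith
  have k6 : C * ((7 * (β * N)) * ((64 * N + 25) * s)) = 7 / 24 * (ω * s) := by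
    rw [← v.βe]
    ring
  -- `r / d`
  have k7 : r * D ≤ 2 * Λ * s * d := by
    have e1 := v.r2
    have e2 : Λ * s * q * (1 - β * δ / 2) ≤ Λ * s * q := by
      have : 0 ≤ Λ * s * q := by positivity
      have : 0 < β * δ := by positivity
      nlinarith
    have e3 : r * D ≤ Λ * s * q * D := by
      apply mul_le_mul_of_nonneg_right (by linarith)
      linarith
    have e4 : D / 2 * q ≤ D' * q := mul_le_mul_of_nonneg_right hD' hq.le
    have e5 := v.d1
    have e6 : Λ * s * (D * q) ≤ Λ * s * (2 * d) := by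
      apply mul_le_mul_of_nonneg_left _ (by positivity)
      linarith
    linarith
  have k8 : γ * D * r / d ≤ 2 * (γ * Λ) * s := by
    rw [div_le_iff₀ hd0]
    calc γ * D * r = γ * (r * D) := by ring
      _ ≤ γ * (2 * Λ * s * d) := by gcongr
      _ = 2 * (γ * Λ) * s * d := by ring
  have k9 : C * (2 * (γ * Λ) * s) = ω * s / 8 := by
    rw [← v.γe]
    ring
  have k10 : r ^ 2 / d ≤ 2 * Λ ^ 2 * l := by
    rw [div_le_iff₀ hd0]
    have e1 := v.r2
    have e2 : Λ * s * q * (1 - β * δ / 2) ≤ Λ * s := by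
      calc Λ * s * q * (1 - β * δ / 2) ≤ Λ * s * 1 * 1 := by
            gcongr
            · linarith [v.βδ1]
            · linarith [v.q2]
            · linarith [mul_pos hβ hδ]
        _ = Λ * s := by ring
    have e3 : r * (r * D) ≤ (Λ * s) * (2 * Λ * s * d) := by
      apply mul_le_mul (by linarith) k7 (by positivity) (by positivity)
    have e4 : (Λ * s) * (2 * Λ * s * d) = 2 * Λ ^ 2 * (s ^ 2) * d := by ring
    rw [e4, v.sq] at e3
    have e5 : D * (r ^ 2) ≤ D * (2 * Λ ^ 2 * l * d) := by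
      calc D * r ^ 2 = r * (r * D) := by ring
        _ ≤ 2 * Λ ^ 2 * (D * l) * d := e3
        _ = D * (2 * Λ ^ 2 * l * d) := by ring
    exact le_of_mul_le_mul_left e5 (by linarith)
  have k11 : 16 * C * (Λ ^ 2 + 1) * l ≤ ω * s := by
    calc 16 * C * (Λ ^ 2 + 1) * l ≤ (ω * X) * l := by
          apply mul_le_mul_of_nonneg_right v.Xω
          linarith
      _ = ω * (X * l) := by ring
      _ ≤ ω * s := by
          have := v.sX
          gcongr
  have k12 := v.E2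
  have k13 : C * (((γ * D + β * D + β * D) / d + E / r) * ((64 * N + 24) * s + l) +
    l + E + γ * D * r / d + r ^ 2 / d) ≤
    C * ((7 * (β * N)) * ((64 * N + 25) * s) + l + E + 2 * (γ * Λ) * s + 2 * Λ ^ 2 * l) := by
    gcongr
  refine k13.trans ?_
  have k14 : C * ((7 * (β * N)) * ((64 * N + 25) * s) + l + E + 2 * (γ * Λ) * s + 2 * Λ ^ 2 * l) =
      C * ((7 * (β * N)) * ((64 * N + 25) * s)) + C * l + C * E + C * (2 * (γ * Λ) * s) +
      2 * (C * Λ ^ 2 * l) := by ring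
  rw [k14, k6, k9]
  have k15 : 0 ≤ C * Λ ^ 2 * l := by positivity
  have k16 : 0 ≤ C * l := by positivity
  have k17 : 16 * C * (Λ ^ 2 + 1) * l = 16 * (C * Λ ^ 2 * l) + 16 * (C * l) := by ring
  rw [k17] at k11
  linarith

end

end Pool.Agent.W2helper87.FR
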