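import Pool.Agent.W2helper87.FR.Num2

/-!
# Numerical lemmas, the spread case
-/

set_option autoImplicit false

namespace Pool.Agent.W2helper87.FR

/-- the variables together with the global ones -/
structure Vg (C ε J N I2 ω δ β Λ γ X D D' s l E ρ h a Em MJ Den : ℝ) : Prop extends
    Vr C ε J N I2 ω δ β Λ γ X D D' s l E ρ where
  E0 : 0 ≤ E
  E1 : 18 * E ≤ s
  X4 : 100 ≤ X
  XΛ : 64 * (Λ + 10) * N ≤ X
  Xω : 16 * C * (Λ ^ 2 + 1) ≤ ω * X
  XJ : 16 * J ≤ ε * X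
  h0 : 0 ≤ h
  h2 : h ≤ ω * s
  a0 : 0 ≤ a
  a1 : a ≤ ω * s / 2
  Eme : Em = ρ * ((D' - D' / N) + 8 * s / I2) + E
  M1 : D' - D' / N + ε / 2 * s - J ≤ MJ
  M2 : MJ ≤ D' - D' / N + ε / 2 * s
  Dene : Den = MJ - 8 * s / I2 - a - h - Em

section

variable {C ε J N I2 ω δ β Λ γ X D D' s l E ρ h a Em MJ Den : ℝ}

theorem Vg.I2b (v : Vg C ε J N I2 ω δ β Λ γ X D D' s l E ρ h a Em MJ Den) :
    (C + 8) * s / I2 ≤ ε / 64 * s ∧ 0 ≤ s / I2 ∧ 8 * s / I2 ≤ s := by
  have h1 := v.I2e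
  have h2 := v.I2p
  have h3 := v.s1
  have h4 := v.C1
  have h5 := v.ε1
  have h6 := v.ε0
  refine ⟨?_, by positivity, ?_⟩
  · rw [div_le_iff₀ h2]
    have : 64 * (C + 8) * s ≤ ε * I2 * s := by gcongr
    linarith
  · rw [div_le_iff₀ h2]
    have e1 : 576 ≤ I2 := by nlinarith
    nlinarith

theorem Vg.Jb (v : Vg C ε J N I2 ω δ β Λ γ X D D' s l E ρ h a Em MJ Den) :
    16 * J ≤ ε * s := by
  have h1 := v.XJ
  have h2 := v.c1 X le_rfl
  have h3 := v.ε0
  have : ε * X ≤ ε * s := by gcongr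
  linarith

theorem Vg.sω (v : Vg C ε J N I2 ω δ β Λ γ X D D' s l E ρ h a Em MJ Den) :
    0 ≤ ω * s ∧ 128 * (ω * s) ≤ s ∧ 16 ≤ ω * s ∧ 2048 ≤ s := by
  have h1 := v.ω0
  have h2 := v.ω1
  have h3 := v.s1
  have h5 := v.C1
  have h4 := v.Xω
  have h7 := v.c1 X le_rfl
  have h8 : ω * X ≤ ω * s := by gcongr
  have h6 : ω * s ≤ 1 / 128 * s := by gcongr
  have h9 : 0 ≤ 16 * C * Λ ^ 2 := by positivity
  refine ⟨by positivity, ?_, ?_, ?_⟩ <;> linarith

theorem Vg.A5 (v : Vg C ε J N I2 ω δ β Λ γ X D D' s l E ρ h a Em MJ Den) :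
    (D' - D' / N) + 8 * s / I2 + J * (2 * (ω * s) + a + ω * s + h + 1) ≤ MJ - 8 * s / I2 := by
  obtain ⟨i1, i2, i3⟩ := v.I2b
  have h1 := v.M1
  have h2 := v.Jb
  have h3 := v.ωe
  have h4 := v.h2
  have h5 := v.a1
  have h6 := v.J2
  have h7 := v.C1
  have h8 := v.s1
  have h9 := v.ε0
  have e1 : J * (2 * (ω * s) + a + ω * s + h + 1) ≤ J * (9 / 2 * (ω * s) + 1) := by
    gcongr
    linarith
  have e2 : J * (9 / 2 * (ω * s) + 1) = 9 / 128 * (ε * s) + J := by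
    rw [← h3]
    ring
  have e3 : 9 * (8 * s / I2) ≤ 8 * ((C + 8) * s / I2) := by
    have e4 : 8 * ((C + 8) * s / I2) = (8 * C + 64) * (s / I2) := by ring
    have e5 : 9 * (8 * s / I2) = 72 * (s / I2) := by ring
    rw [e4, e5]
    gcongr
    linarith
  have e6 : 0 < ε * s := by positivity
  linarith

theorem Vg.A13 (v : Vg C ε J N I2 ω δ β Λ γ X D D' s l E ρ h a Em MJ Den) (dJ : ℝ)
    (hd : dJ ≤ D' / N + 8 * s / I2 + 1) :
    dJ + (C * Real.sqrt (dJ * l) + C * l) ≤ D - MJ - 8 * s / I2 - a := by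
  obtain ⟨i1, i2, i3⟩ := v.I2b
  obtain ⟨g1, g2, g3, g4⟩ := v.sω
  have h1 := v.M2
  have h2 := v.D2
  have hN := v.N4
  have hC := v.C1
  have hs := v.s1
  have hl := v.l1
  have hI := v.I2p
  have hε := v.ε0
  have hΛ := v.Λ0
  have hD := v.D0
  have hDD := (v.D'b (by linarith [v.X4])).2.1
  have e1 : dJ * N ≤ 4 * D := by
    have e2 : dJ * N ≤ (D' / N + 8 * s / I2 + 1) * N := by gcongr
    have e3 : (D' / N + 8 * s / I2 + 1) * N = D' + (8 * s / I2 + 1) * N := by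
      field_simp
      ring
    have e4 : (8 * s / I2 + 1) * N ≤ (2 * s) * N := by
      gcongr
      linarith
    have e5 := v.cs (64 * (Λ + 10) * N) v.XΛ
    have e6 : 2 * s * N ≤ 64 * (Λ + 10) * N * s := by
      have : 0 < N * s := by positivity
      nlinarith
    linarith
  have e2 : Real.sqrt (dJ * l) ≤ 2 * s / I2 := by
    apply Real.sqrt_le_iff.2
    refine ⟨by positivity, ?_⟩
    rw [div_pow, le_div_iff₀ (by positivity)]
    calc dJ * l * I2 ^ 2 = (dJ * N) * l := by rw [← v.I2N]; ring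
      _ ≤ 4 * D * l := by gcongr
      _ = (2 * s) ^ 2 := by rw [mul_pow, v.sq]; ring
  have e3 : C * Real.sqrt (dJ * l) ≤ 2 * C * (s / I2) := by
    calc C * Real.sqrt (dJ * l) ≤ C * (2 * s / I2) := by gcongr
      _ = _ := by ring
  have e4 : 16 * (C * l) ≤ ω * s := by
    have e5 : 16 * C * (Λ ^ 2 + 1) * l ≤ (ω * X) * l := by
      apply mul_le_mul_of_nonneg_right v.Xω
      linarith
    have e6 : ω * (X * l) ≤ ω * s := by
      have := v.sX
      have := v.ω0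
      gcongr
    have e7 : 0 ≤ 16 * C * Λ ^ 2 * l := by positivity
    linarith
  have e5 : 8 * s / I2 = 8 * (s / I2) := by ring
  have e6 : (C + 8) * s / I2 = (C + 8) * (s / I2) := by ring
  have e7 := v.a1
  have e8 := v.ωe
  have e9 := v.J2
  have e10 : 128 * (ω * s) ≤ ε * s := by
    rw [← e8]
    have : 0 ≤ ω * s := g1
    nlinarith
  rw [e5] at hd ⊢
  rw [e6] at i1
  have e11 : 16 ≤ 16 * C := by linarith
  nlinarith

theorem Vg.Em1 (v : Vg C ε J N I2 ω δ β Λ γ X D D' s l E ρ h a Em MJ Den) :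
    0 ≤ Em ∧ Em ≤ (Λ + 1) * s ∧ 100 * (Λ * l) ≤ s := by
  obtain ⟨i1, i2, i3⟩ := v.I2b
  have h1 := v.ρs
  have h2 := v.ρD'.2
  have h3 := v.ρ0
  have h4 := v.E0
  have h5 := v.E1
  have hN := v.N4
  have hs := v.s1
  have hD' : 0 ≤ D' := by
    have := (v.D'b (by linarith [v.X4])).1
    have := v.D0
    linarith
  have e0 : 100 * (Λ * l) ≤ s := by
    have h1 := v.XΛ
    have h2 := v.Λ0
    have h4 := v.cl (100 * Λ) (by nlinarith)
    linarith
  have e1 : D' / N ≤ D' := div_le_self hD' (by linarith)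
  have e2 : 0 ≤ D' / N := by positivity
  rw [v.Eme]
  refine ⟨?_, ?_, e0⟩
  · have : 0 ≤ (D' - D' / N) + 8 * s / I2 := by
      have e3 : 8 * s / I2 = 8 * (s / I2) := by ring
      rw [e3]
      linarith
    positivity
  · have e3 : ρ * ((D' - D' / N) + 8 * s / I2) ≤ ρ * (D' + s) := by
      apply mul_le_mul_of_nonneg_left _ h3
      linarith
    have e4 : ρ * (D' + s) = ρ * D' + ρ * s := by ring
    rw [e4, h1] at e3
    linarith

theorem Vg.Den1 (v : Vg C ε J N I2 ω δ β Λ γ X D D' s l E ρ h a Em MJ Den) :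
    D' - D' / N - (Λ + 5) * s ≤ Den ∧ D / 8 ≤ D' - D' / N - (Λ + 5) * s ∧ Den ≤ D ∧
      MJ < D := by
  obtain ⟨i1, i2, i3⟩ := v.I2b
  obtain ⟨g1, g2, g3, g4⟩ := v.sω
  obtain ⟨m1, m2, m3⟩ := v.Em1
  have h1 := v.M1
  have h2 := v.M2
  have h3 := v.Jb
  have h4 := v.ε1
  have h5 := v.ε0
  have h6 := v.a1
  have h7 := v.h2
  have h8 := v.Dene
  have h9 := v.D2
  have hs := v.s1
  have hN := v.N4
  have hD := v.D'b (by linarith [v.X4])
  have hD0 := v.D0
  have e1 : ε * s ≤ s := by nlinarith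
  have e2 : D' / N ≤ D' / 4 := by
    apply div_le_div_of_nonneg_left _ (by norm_num) hN
    linarith [hD.1]
  have e3 : 0 ≤ D' / N := by
    have : 0 ≤ D' := by linarith [hD.1]
    positivity
  have e4 := v.cs (64 * (Λ + 10) * N) v.XΛ
  have e5 : 64 * (Λ + 10) * 4 * s ≤ 64 * (Λ + 10) * N * s := by
    have := v.Λ0
    gcongr
  have e6 : 8 * s / I2 = 8 * (s / I2) := by ring
  have hΛ := v.Λ0
  have e7 : 0 < Λ * s := by positivity
  have e8 : 0 < ε * s := by positivity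
  have e9 := v.h0
  have e10 := v.a0
  refine ⟨?_, ?_, ?_, ?_⟩
  · rw [h8]
    linarith
  · linarith [hD.1]
  · rw [h8, e6]
    linarith
  · linarith

theorem Vg.Ns (v : Vg C ε J N I2 ω δ β Λ γ X D D' s l E ρ h a Em MJ Den) :
    640 * (N * s) ≤ D := by
  have h1 := v.cs (64 * (Λ + 10) * N) v.XΛ
  have h2 := v.Λ0
  have h3 := v.N4
  have h4 := v.s1
  have h5 : 0 ≤ Λ * (N * s) := by positivity
  linarith

theorem Vg.misc (v : Vg C ε J N I2 ω δ β Λ γ X D D' s l E ρ h a Em MJ Den) :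
    7 * s / I2 ≤ 7 * s ∧ 8 * s ≤ D' / N ∧ (D - MJ) * N ≤ 49 / 20 * D ∧ 7 * s ≤ 2 * (D / N) := by
  have h1 := v.Ns
  have h2 := v.N4
  have h3 := v.s1
  have h4 := (v.D'b (by linarith [v.X4])).1
  have h5 := (v.D'b (by linarith [v.X4])).2.1
  have hI : 1 ≤ I2 := by
    have h6 := v.I2e
    have h7 := v.C1
    have h8 := v.ε1
    have h9 := v.I2p
    nlinarith
  have hN0 : 0 < N := by linarith
  refine ⟨div_le_self (by positivity) hI, ?_, ?_, ?_⟩
  · rw [le_div_iff₀ hN0]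
    linarith
  · have e1 := v.D1
    have e2 := v.Jb
    have e0 := v.M1
    have e3 : D - MJ ≤ D' / N + 2 * s := by
      have h8 := v.ε1
      have : ε * s ≤ 1 * s := by gcongr
      linarith
    have e4 : (D - MJ) * N ≤ (D' / N + 2 * s) * N := by gcongr
    have e5 : (D' / N + 2 * s) * N = D' + 2 * (N * s) := by
      field_simp
    linarith
  · rw [mul_div_assoc', le_div_iff₀ hN0]
    linarith

end

section

variable {C ε J N I2 ω δ β Λ γ X D D' s l E ρ q d m r h a Em MJ Den : ℝ}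

theorem A8 (g : Vg C ε J N I2 ω δ β Λ γ X D D' s l E ρ h a Em MJ Den)
    (v : Vj C ε J N I2 ω δ β Λ γ X D D' s l E ρ q d m r h a) :
    h + Em < m - 6 * s - a := by
  obtain ⟨g1, g2, g3, g4⟩ := v.sω
  obtain ⟨m1, m2, m3⟩ := g.Em1
  have h1 := v.m3
  have h2 := v.m1
  have h3 := v.h2
  have h4 := v.a1
  have h5 := v.Λ0
  have h6 : 0 < Λ * s := mul_pos h5 (by linarith [v.s1])
  linarith

/-- the first estimate -/
theorem T1 (g : Vg C ε J N I2 ω δ β Λ γ X D D' s l E ρ h a Em MJ Den)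
    (v : Vj C ε J N I2 ω δ β Λ γ X D D' s l E ρ q d m r h a) :
    Em * (m + 12 * s) ≤ (Λ * s * q + 8 * (Λ ^ 2 + 26 * Λ) * l + 8 * E) * Den := by
  obtain ⟨w1, w2, w3, w4⟩ := v.sω
  obtain ⟨m1, m2, m3⟩ := g.Em1
  obtain ⟨n1, n2, n3, n4⟩ := g.Den1
  obtain ⟨i1, i2, i3⟩ := g.I2b
  have hs := v.s1
  have hl := v.l1
  have hq := v.q0
  have hq2 := v.q2
  have hΛ := v.Λ0
  have hE := v.E0
  have hN := v.N4
  have hD0 := v.D0
  have hD' := v.D'b (by linarith [v.X4])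
  have hρ := v.ρ0
  have hρs := v.ρs
  have hρD' := v.ρD'.2
  have hsD := v.cs 100 v.X4
  have hD'0 : 0 ≤ D' := by linarith [hD'.1]
  obtain ⟨Y, hY⟩ : ∃ Y, Y = D' - D' / N := ⟨_, rfl⟩
  have hY0 : 0 ≤ Y := by
    have : (Λ + 5) * s ≥ 0 := by positivity
    rw [hY]
    linarith
  have hYD : Y ≤ D' := by
    have : 0 ≤ D' / N := by positivity
    rw [hY]
    linarith
  have hEm : Em ≤ ρ * (Y + 8 * s) + E := by
    rw [g.Eme, hY]
    have : ρ * ((D' - D' / N) + 8 * s / I2) ≤ ρ * ((D' - D' / N) + 8 * s) := by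
      apply mul_le_mul_of_nonneg_left _ hρ
      linarith
    linarith
  have hm : m + 12 * s ≤ D' * q + 13 * s := by
    have := v.m2
    linarith
  have hm0 : 0 ≤ m + 12 * s := by
    have := v.m1
    have : 0 ≤ D' * q := by positivity
    linarith
  have hDq : D' * q ≤ D / 2 := by nlinarith [hD'.2.1]
  have e1 : Em * (m + 12 * s) ≤ (ρ * (Y + 8 * s) + E) * (D' * q + 13 * s) := by
    apply mul_le_mul hEm hm hm0
    positivity
  have e2 : (ρ * (Y + 8 * s) + E) * (D' * q + 13 * s) =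
      (ρ * D') * (q * Y) + 13 * (ρ * s) * Y + 8 * (ρ * s) * (D' * q + 13 * s) +
      E * (D' * q + 13 * s) := by ring
  rw [e2, hρs] at e1
  have e3 : (ρ * D') * (q * Y) ≤ (Λ * s) * (q * Y) := by gcongr
  have e4 : 13 * (Λ * l) * Y ≤ 13 * (Λ * l) * D := by
    gcongr
    linarith [hD'.2.1]
  have e5 : 8 * (Λ * l) * (D' * q + 13 * s) ≤ 8 * (Λ * l) * D := by
    gcongr
    linarith
  have e6 : E * (D' * q + 13 * s) ≤ E * D := by
    gcongr
    linarith
  -- the right hand side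
  have e7 : (Λ * s * q + 8 * (Λ ^ 2 + 26 * Λ) * l + 8 * E) * (Y - (Λ + 5) * s) ≤
      (Λ * s * q + 8 * (Λ ^ 2 + 26 * Λ) * l + 8 * E) * Den := by
    apply mul_le_mul_of_nonneg_left
    · rw [hY]
      exact n1
    · positivity
  have e8 : (8 * (Λ ^ 2 + 26 * Λ) * l + 8 * E) * (D / 8) ≤
      (8 * (Λ ^ 2 + 26 * Λ) * l + 8 * E) * (Y - (Λ + 5) * s) := by
    apply mul_le_mul_of_nonneg_left
    · rw [hY]
      exact n2
    · positivity
  have e9 : Λ * s * q * ((Λ + 5) * s) ≤ Λ * (Λ + 5) * l * D := by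
    calc Λ * s * q * ((Λ + 5) * s) = Λ * (Λ + 5) * (s ^ 2) * q := by ring
      _ = Λ * (Λ + 5) * (D * l) * q := by rw [v.sq]
      _ ≤ Λ * (Λ + 5) * (D * l) * 1 := by
          gcongr
          linarith
      _ = _ := by ring
  have e10 : (Λ * s * q + 8 * (Λ ^ 2 + 26 * Λ) * l + 8 * E) * (Y - (Λ + 5) * s) =
      (Λ * s) * (q * Y) - Λ * s * q * ((Λ + 5) * s) +
      (8 * (Λ ^ 2 + 26 * Λ) * l + 8 * E) * (Y - (Λ + 5) * s) := by ring
  have e11 : (8 * (Λ ^ 2 + 26 * Λ) * l + 8 * E) * (D / 8) =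
      Λ * (Λ + 5) * l * D + 21 * (Λ * l) * D + E * D := by ring
  linarith

/-- the second estimate -/
theorem T2 (g : Vg C ε J N I2 ω δ β Λ γ X D D' s l E ρ h a Em MJ Den)
    (v : Vj C ε J N I2 ω δ β Λ γ X D D' s l E ρ q d m r h a) :
    0 ≤ Λ * (β * δ) * s * q - 2 * Λ * l - E ∧
    (Λ * (β * δ) * s * q - 2 * Λ * l - E) * Den ≤ (ρ * (β * D) - E) * (δ * m) := by
  obtain ⟨w1, w2, w3, w4⟩ := v.sω
  obtain ⟨m1, m2, m3⟩ := g.Em1
  obtain ⟨n1, n2, n3, n4⟩ := g.Den1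
  have hs := v.s1
  have hl := v.l1
  have hq := v.q0
  have hq2 := v.q2
  have hΛ := v.Λ0
  have hE := v.E0
  have hE1 := v.E1
  have hN := v.N4
  have hD0 := v.D0
  have hβ := v.β0
  have hδ := v.δ0
  have hβδ := v.βδ1
  have hΛe := v.Λe
  have hρD := v.ρD
  have hD' := v.D'b (by linarith [v.X4])
  have k0 : 0 ≤ Λ * (β * δ) * s * q - 2 * Λ * l - E := by
    rw [hΛe]
    have e1 : 64 * N * s * q = 64 * s * (N * q) := by ring
    have e2 : 64 * s * 1 ≤ 64 * s * (N * q) := by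
      apply mul_le_mul_of_nonneg_left v.q1
      positivity
    rw [e1]
    linarith
  refine ⟨k0, ?_⟩
  have e1 : (Λ * (β * δ) * s * q - 2 * Λ * l - E) * Den ≤
      (Λ * (β * δ) * s * q - 2 * Λ * l - E) * D := mul_le_mul_of_nonneg_left n3 k0
  have e2 : (ρ * (β * D) - E) * (δ * m) = (Λ * (β * δ)) * s * m - E * (δ * m) := by
    calc (ρ * (β * D) - E) * (δ * m) = (ρ * D) * β * (δ * m) - E * (δ * m) := by ring
      _ = (Λ * s) * β * (δ * m) - E * (δ * m) := by rw [hρD]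
      _ = _ := by ring
  rw [e2]
  have hm1 := v.m1
  have hm2 := v.m2
  have hDq : D' * q ≤ D / 2 := by nlinarith [hD'.2.1]
  have e3 : δ * m ≤ D := by
    have : m ≤ D := by
      have := v.cs 100 v.X4
      linarith
    have := v.δ1
    have hm0 : 0 ≤ m := by
      have : 0 ≤ D' * q := by
        have : 0 ≤ D' := by linarith [hD'.1]
        positivity
      linarith
    nlinarith
  have e4 : E * (δ * m) ≤ E * D := mul_le_mul_of_nonneg_left e3 hE
  have e5 : D * q - 2 * s * q ≤ m := by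
    have : (D - 2 * s) * q ≤ D' * q := mul_le_mul_of_nonneg_right hD'.2.2 hq.le
    linarith
  have e6 : (Λ * (β * δ)) * s * (D * q - 2 * s * q) ≤ (Λ * (β * δ)) * s * m := by
    apply mul_le_mul_of_nonneg_left e5
    positivity
  have e7 : (Λ * (β * δ)) * s * (D * q - 2 * s * q) =
      Λ * (β * δ) * s * q * D - 2 * (Λ * (β * δ)) * (s ^ 2) * q := by ring
  have e8 : 2 * (Λ * (β * δ)) * (s ^ 2) * q ≤ 2 * Λ * l * D := by
    rw [v.sq]
    calc 2 * (Λ * (β * δ)) * (D * l) * q = 2 * Λ * l * D * ((β * δ) * q) := by ring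
      _ ≤ 2 * Λ * l * D * 1 := by
          apply mul_le_mul_of_nonneg_left _ (by positivity)
          have : 0 < β * δ := by positivity
          nlinarith
      _ = _ := by ring
  linarith

theorem exp_bd (x : ℝ) (h0 : 0 < x) (h1 : x ≤ 1) : (Real.exp x - 1) ≤ x * (1 + x) := by
  have := Pool.Agent.W2helper87.SR.exp_le_quad (x := x) (by rw [abs_of_pos h0]; exact h1)
  linarith

/-- the number of colours used near a list in the spread case -/
theorem A10 (g : Vg C ε J N I2 ω δ β Λ γ X D D' s l E ρ h a Em MJ Den)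
    (v : Vj C ε J N I2 ω δ β Λ γ X D D' s l E ρ q d m r h a) (x1 : ℝ)
    (hx : (β * δ / 4) * x1 = 2 * l + (Real.exp (β * δ / 4) - 1) *
      ((Em * (m + 2 * (6 * s)) - (ρ * (β * D) - E) * (δ * m)) / Den)) :
    d - r + ω * s ≤ m - 6 * s - x1 - a - h := by
  obtain ⟨w1, w2, w3, w4⟩ := v.sω
  obtain ⟨n1, n2, n3, n4⟩ := g.Den1
  have hs := v.s1
  have hl := v.l1
  have hq := v.q0
  have hΛ := v.Λ0
  have hE := v.E0
  have hE1 := v.E1
  have hD0 := v.D0
  have hβδ := v.βδ1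
  have hβδ0 : 0 < β * δ := mul_pos v.β0 v.δ0
  have hDen : 0 < Den := by linarith
  have hT1 := T1 g v
  obtain ⟨hT0, hT2⟩ := T2 g v
  set T := Λ * s * q * (1 - β * δ) + 8 * (Λ ^ 2 + 27 * Λ) * l + 9 * E with hT
  have hT' : 0 ≤ T := by
    have : 0 ≤ 1 - β * δ := by linarith
    positivity
  have e1 : (Em * (m + 2 * (6 * s)) - (ρ * (β * D) - E) * (δ * m)) / Den ≤ T := by
    rw [div_le_iff₀ hDen]
    have e2 : (2 * Λ * l) * Den ≤ (8 * Λ * l) * Den := by
      apply mul_le_mul_of_nonneg_right _ hDen.le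
      have : 0 < Λ * l := by positivity
      linarith
    rw [hT]
    nlinarith
  have e3 := exp_bd (β * δ / 4) (by positivity) (by linarith)
  have e4 : 0 ≤ Real.exp (β * δ / 4) - 1 := by
    have := Real.add_one_le_exp (β * δ / 4)
    linarith
  have e5 : (Real.exp (β * δ / 4) - 1) *
      ((Em * (m + 2 * (6 * s)) - (ρ * (β * D) - E) * (δ * m)) / Den) ≤
      (β * δ / 4) * ((1 + β * δ / 4) * T) := by
    calc (Real.exp (β * δ / 4) - 1) *
      ((Em * (m + 2 * (6 * s)) - (ρ * (β * D) - E) * (δ * m)) / Den) ≤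
        (Real.exp (β * δ / 4) - 1) * T := mul_le_mul_of_nonneg_left e1 e4
      _ ≤ (β * δ / 4 * (1 + β * δ / 4)) * T := mul_le_mul_of_nonneg_right e3 hT'
      _ = _ := by ring
  have e6 : 2 * l = (β * δ / 4) * (8 / (β * δ) * l) := by
    have hb := v.β0.ne'
    have hd := v.δ0.ne'
    field_simp
    ring
  have e7 : x1 ≤ 8 / (β * δ) * l + (1 + β * δ / 4) * T := by
    have : (β * δ / 4) * x1 ≤ (β * δ / 4) * (8 / (β * δ) * l + (1 + β * δ / 4) * T) := by
      have e7 : (β * δ / 4) * (8 / (β * δ) * l + (1 + β * δ / 4) * T) =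
          (β * δ / 4) * (8 / (β * δ) * l) + (β * δ / 4) * ((1 + β * δ / 4) * T) := by ring
      rw [hx, e7, ← e6]
      linarith
    exact le_of_mul_le_mul_left this (by positivity)
  have e8 : (1 + β * δ / 4) * T ≤ Λ * s * q * (1 - 3 * (β * δ) / 4) +
      16 * (Λ ^ 2 + 27 * Λ) * l + 18 * E := by
    have e9 : (1 + β * δ / 4) * (Λ * s * q * (1 - β * δ)) ≤
        Λ * s * q * (1 - 3 * (β * δ) / 4) := by
      have e10 : (1 + β * δ / 4) * (1 - β * δ) ≤ 1 - 3 * (β * δ) / 4 := by nlinarith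
      calc (1 + β * δ / 4) * (Λ * s * q * (1 - β * δ)) =
          (Λ * s * q) * ((1 + β * δ / 4) * (1 - β * δ)) := by ring
        _ ≤ (Λ * s * q) * (1 - 3 * (β * δ) / 4) := by
            apply mul_le_mul_of_nonneg_left e10
            positivity
        _ = _ := by ring
    have e11 : (1 + β * δ / 4) * (8 * (Λ ^ 2 + 27 * Λ) * l + 9 * E) ≤
        2 * (8 * (Λ ^ 2 + 27 * Λ) * l + 9 * E) := by
      apply mul_le_mul_of_nonneg_right _ (by positivity)
      linarith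
    calc (1 + β * δ / 4) * T = (1 + β * δ / 4) * (Λ * s * q * (1 - β * δ)) +
        (1 + β * δ / 4) * (8 * (Λ ^ 2 + 27 * Λ) * l + 9 * E) := by rw [hT]; ring
      _ ≤ Λ * s * q * (1 - 3 * (β * δ) / 4) + 2 * (8 * (Λ ^ 2 + 27 * Λ) * l + 9 * E) := by
          linarith
      _ = _ := by ring
  have e12 := v.r1
  have e13 : Λ * s * q * (1 - β * δ / 2) - Λ * s * q * (1 - 3 * (β * δ) / 4) =
      (Λ * (β * δ)) * s * q / 4 := by ring
  rw [v.Λe] at e13
  have e14 : 64 * N * s * q / 4 = 16 * s * (N * q) := by ring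
  have e15 : 16 * s * 1 ≤ 16 * s * (N * q) := by
    apply mul_le_mul_of_nonneg_left v.q1
    positivity
  have e16 : (8 / (β * δ) + 16 * (Λ ^ 2 + 27 * Λ)) * l ≤ s := by
    apply v.cl
    have := v.Xc
    linarith
  have e17 := v.h2
  have e18 := v.a1
  have e19 := v.md.1
  linarith

/-- the number of colours used in a class in the spread case -/
theorem A9b (g : Vg C ε J N I2 ω δ β Λ γ X D D' s l E ρ h a Em MJ Den)
    (v : Vj C ε J N I2 ω δ β Λ γ X D D' s l E ρ q d m r h a) :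
    2 * l + (Real.exp (β * δ / 4) - 1) * ((Em * (m + 6 * s)) / Den) ≤
      (β * δ / 4) * (r + (32 * N + 8) * s) := by
  obtain ⟨w1, w2, w3, w4⟩ := v.sω
  obtain ⟨n1, n2, n3, n4⟩ := g.Den1
  obtain ⟨m1, m2, m3⟩ := g.Em1
  have hs := v.s1
  have hl := v.l1
  have hq := v.q0
  have hq2 := v.q2
  have hN := v.N4
  have hΛ := v.Λ0
  have hE := v.E0
  have hE1 := v.E1
  have hD0 := v.D0
  have hβδ := v.βδ1
  have hβδ0 : 0 < β * δ := mul_pos v.β0 v.δ0
  have hDen : 0 < Den := by linarith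
  have hT1 := T1 g v
  set T := Λ * s * q + 8 * (Λ ^ 2 + 26 * Λ) * l + 8 * E with hT
  have hT' : 0 ≤ T := by positivity
  have e1 : (Em * (m + 6 * s)) / Den ≤ T := by
    rw [div_le_iff₀ hDen]
    have e2 : Em * (m + 6 * s) ≤ Em * (m + 12 * s) := by
      apply mul_le_mul_of_nonneg_left _ m1
      linarith
    linarith
  have e3 := exp_bd (β * δ / 4) (by positivity) (by linarith)
  have e4 : 0 ≤ Real.exp (β * δ / 4) - 1 := by
    have := Real.add_one_le_exp (β * δ / 4)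
    linarith
  have e5 : (Real.exp (β * δ / 4) - 1) * ((Em * (m + 6 * s)) / Den) ≤
      (β * δ / 4) * ((1 + β * δ / 4) * T) := by
    calc (Real.exp (β * δ / 4) - 1) * ((Em * (m + 6 * s)) / Den) ≤
        (Real.exp (β * δ / 4) - 1) * T := mul_le_mul_of_nonneg_left e1 e4
      _ ≤ (β * δ / 4 * (1 + β * δ / 4)) * T := mul_le_mul_of_nonneg_right e3 hT'
      _ = _ := by ring
  have e6 : 2 * l = (β * δ / 4) * (8 / (β * δ) * l) := by
    have hb := v.β0.ne'
    have hd := v.δ0.ne'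
    field_simp
    ring
  have e8 : (1 + β * δ / 4) * T ≤ Λ * s * q * (1 + β * δ / 4) +
      16 * (Λ ^ 2 + 26 * Λ) * l + 16 * E := by
    have e11 : (1 + β * δ / 4) * (8 * (Λ ^ 2 + 26 * Λ) * l + 8 * E) ≤
        2 * (8 * (Λ ^ 2 + 26 * Λ) * l + 8 * E) := by
      apply mul_le_mul_of_nonneg_right _ (by positivity)
      linarith
    calc (1 + β * δ / 4) * T = Λ * s * q * (1 + β * δ / 4) +
        (1 + β * δ / 4) * (8 * (Λ ^ 2 + 26 * Λ) * l + 8 * E) := by rw [hT]; ring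
      _ ≤ Λ * s * q * (1 + β * δ / 4) + 2 * (8 * (Λ ^ 2 + 26 * Λ) * l + 8 * E) := by
          linarith
      _ = _ := by ring
  have e12 := v.r1
  have e13 : Λ * s * q * (1 + β * δ / 4) - Λ * s * q * (1 - β * δ / 2) =
      (Λ * (β * δ)) * s * q * (3 / 4) := by ring
  rw [v.Λe] at e13
  have e14 : 64 * N * s * q * (3 / 4) = 48 * N * s * q := by ring
  have e15 : 48 * N * s * q ≤ 48 * N * s * (1 / 2) := by
    apply mul_le_mul_of_nonneg_left hq2
    positivity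
  have e16 : (8 / (β * δ) + 16 * (Λ ^ 2 + 27 * Λ)) * l ≤ s := by
    apply v.cl
    have := v.Xc
    linarith
  have e17 : 8 / (β * δ) * l + (1 + β * δ / 4) * T ≤ r + (32 * N + 8) * s := by
    have : 0 < Λ * l := by positivity
    have : 0 < N * s := by positivity
    linarith
  calc 2 * l + (Real.exp (β * δ / 4) - 1) * ((Em * (m + 6 * s)) / Den) ≤
      (β * δ / 4) * (8 / (β * δ) * l) + (β * δ / 4) * ((1 + β * δ / 4) * T) := by
        rw [← e6]
        linarith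
    _ = (β * δ / 4) * (8 / (β * δ) * l + (1 + β * δ / 4) * T) := by ring
    _ ≤ _ := by
        apply mul_le_mul_of_nonneg_left e17
        positivity

end

end Pool.Agent.W2helper87.FR
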