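import Pool.Agent.W2helper87.FR.Core

/-!
# The deterministic theorem
-/

set_option autoImplicit false

namespace Pool.Agent.W2helper87.FR

open Finset Pool.Agent.H162R2.Sparse Pool.Agent.H162R2.AG Pool.Agent.W2helper87.SR

/-- the numerical conditions for the splittings -/
structure Ok2 (p : Par) (n : ℕ) (x s1 sJ sη A τ : ℝ) : Prop where
  hMD : p.MJ < p.D
  ha : p.a = 2 * A
  hA : 0 < A
  ht1 : s1 + A ≤ p.t1
  htJ : sJ + A ≤ p.tJ
  hη : sη + A ≤ p.η
  hb : 0 < p.b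
  hδ : 0 < p.δ
  hs1 : 0 ≤ s1 ∧ s1 ≤ 2 * p.D
  hs1' : 4 * p.D * x ≤ s1 ^ 2
  hsJ : 0 ≤ sJ ∧ sJ ≤ 2 * ((p.D : ℝ) / 2 ^ p.J)
  hsJ' : 4 * ((p.D : ℝ) / 2 ^ p.J) * x ≤ sJ ^ 2
  hcJ : sJ ≤ 2 * ((p.D : ℝ) - p.MJ)
  hcJ' : 4 * ((p.D : ℝ) - p.MJ) * x ≤ sJ ^ 2
  hsη : 0 ≤ sη ∧ sη ≤ 2 * p.D
  ht2 : p.t2 ≤ 2 * (p.δ * p.D)
  ht2' : 4 * (p.δ * p.D) * x ≤ p.t2 ^ 2
  hx1 : 4 * ((n : ℝ) * 2 ^ (2 ^ p.J) + n * 2 ^ p.J) * Real.exp (-x) < 1
  hx2 : 4 * ((n : ℝ) ^ 2 * (p.J + 1) + 2 * (n ^ 3 * p.J)) * Real.exp (-x) < 1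
  hτ : 4 * Real.exp (-(sη ^ 2) / (4 * p.D)) * (n * 2 ^ (2 ^ p.J)) +
    4 * Real.exp (-(sη ^ 2) / (4 * p.D)) * (n * p.D * p.J) / p.b ≤ τ
  hsp : 34 * (2 * A) * (1 + Real.log p.D) ≤ p.D

open Classical in
theorem dl_blk {n J : ℕ} (σ : Fin n → (Fin J → Bool)) (G : SimpleGraph (Fin n)) (v : Fin n)
    (j : Fin J) : dl σ G v j = ((nb G v).filter (fun w => σ w ∈ blk (σ v) j)).card := by
  unfold dl
  congr 1
  apply filter_congr
  intro w _
  rw [lvl_eq_iff]
  unfold blk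
  rw [mem_filter]
  constructor
  · rintro ⟨h1, h2⟩
    exact ⟨mem_univ _, fun i hi => (h1 i hi).symm, h2.symm⟩
  · rintro ⟨_, h1, h2⟩
    exact ⟨fun i hi => (h1 i hi).symm, h2.symm⟩

theorem dl_last {n J : ℕ} (σ : Fin n → (Fin J → Bool)) (G : SimpleGraph (Fin n)) (v : Fin n) :
    dl σ G v J = ((nb G v).filter (fun w => σ w = σ v)).card := by
  unfold dl
  congr 1
  apply filter_congr
  intro w _
  rw [lvl_eq_J]
  constructor
  · intro h
    funext i
    exact (h i).symm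
  · intro h i
    rw [h]

theorem outer : ∃ C : ℝ, 1 ≤ C ∧ ∀ (p : Par) (n : ℕ), Ok p C n →
    ∀ x s1 sJ sη A τ : ℝ, Ok2 p n x s1 sJ sη A τ → ∀ (G : SimpleGraph (Fin n)),
    (∀ v, dg G v ≤ p.D) → ∀ m m' : ℕ, 1 ≤ m →
    (univ.filter (fun v => p.D' < dg G v)).card + m' ≤ m →
    (∀ T : Finset (Fin n), (T.card : ℝ) ≤ τ →
      (univ.filter (fun v => p.g < (((nb G v).filter (fun w => w ∈ T)).card : ℝ))).card ≤ m') →
    (∀ X : Finset (Fin n), X.card ≤ 3 * m → e2 G X ≤ A * X.card) →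
    ∀ L : Fin n → Fin n → Finset ℕ, (∀ a b, L a b = L b a) →
    (∀ a b, G.Adj a b → p.D ≤ (L a b).card) → LC G L := by
  classical
  obtain ⟨C, hC, hcore⟩ := core
  refine ⟨C, hC, ?_⟩
  intro p n ok x s1 sJ sη A τ ok2 G hdeg m m' hm hT0 hH1 hsp L hsym hL
  have hDr : (0 : ℝ) < p.D := by exact_mod_cast ok.hD
  -- lists of size `D`
  set L0 : Fin n → Fin n → Finset ℕ := fun a b => trim p.D (L a b) with hL0
  have hsym0 : ∀ a b, L0 a b = L0 b a := by
    intro a b
    simp only [hL0]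
    rw [hsym]
  have hcard0 : ∀ a b, G.Adj a b → (L0 a b).card = p.D :=
    fun a b hab => trim_card p.D _ (hL a b hab)
  refine LC_mono (fun a b _ => trim_subset p.D (L a b)) ?_
  change LC G L0
  obtain ⟨σ, T1, hT1, hσ1, hσJ, hσ0⟩ := sigma2 p.J G p.D ok.hD hdeg x s1 sJ sη ok2.hs1 ok2.hs1' ok2.hsJ
    ok2.hsJ' ok2.hsη ok2.hx1
  obtain ⟨cls, T2, hc0, hT2, hc1, hcJ, hx1, hx2, hbad⟩ := cls2 G p.D ok.hD hdeg p.J p.mj ok2.hMD L0
    hcard0 x s1 p.t2 sJ sη p.δ p.b
    (by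
      intro j hj
      have : p.mj j ≤ p.MJ := by
        unfold Par.MJ
        exact single_le_sum (f := p.mj) (fun _ _ => Nat.zero_le _) (mem_range.2 hj)
      exact this.trans ok.hMD)
    ok2.hs1 ok2.hs1' ok2.hδ ⟨ok.t2, ok2.ht2⟩ ok2.ht2' ⟨ok2.hsJ.1, ok2.hcJ⟩ ok2.hcJ' ok2.hsη ok2.hx2
  set P := T1 ∪ T2 with hP
  have hPc : (P.card : ℝ) ≤ τ := by
    have h1 : (P.card : ℝ) ≤ T1.card + T2.card := by exact_mod_cast card_union_le _ _
    have h2 : (T2.card : ℝ) ≤
        4 * Real.exp (-(sη ^ 2) / (4 * p.D)) * (n * p.D * p.J) / p.b := by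
      rw [le_div_iff₀ ok2.hb]
      linarith
    have h3 := ok2.hτ
    linarith
  -- the exceptional vertices
  set T0 : Finset (Fin n) := univ.filter (fun v => p.D' < dg G v) with hT0d
  set T3 : Finset (Fin n) :=
    univ.filter (fun v => p.g < (((nb G v).filter (fun w => w ∈ P)).card : ℝ)) with hT3
  have hT3c := hH1 P hPc
  rw [← hT3] at hT3c
  have hTm : (T0 ∪ T3).card ≤ m := (card_union_le _ _).trans ((Nat.add_le_add_left hT3c _).trans hT0)
  obtain ⟨T, hsub, hcard, hout⟩ := closure G (T0 ∪ T3) m A ok2.hA hm hTm hsp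
  have hT0n : ∀ v ∉ T, dg G v ≤ p.D' := by
    intro v hv
    by_contra hcon
    exact hv (hsub (mem_union_left _ (by
      rw [hT0d, mem_filter]
      exact ⟨mem_univ _, not_le.1 hcon⟩)))
  have hT3n : ∀ v ∉ T, (((nb G v).filter (fun w => w ∈ P)).card : ℝ) ≤ p.g := by
    intro v hv
    by_contra hcon
    exact hv (hsub (mem_union_right _ (by
      rw [hT3, mem_filter]
      exact ⟨mem_univ _, not_le.1 hcon⟩)))
  -- the edges at the exceptional vertices
  have hdens : Dens (A_meetX G T) (2 * A) := by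
    refine Pool.Agent.H892.LEC.dens_meet G T (2 * A) ?_ ?_
    · intro X hX
      have h2 := hsp X (by
        have := card_le_card hX
        omega)
      unfold e2 at h2
      have h3 : A * (X.card : ℝ) ≤ 2 * A * X.card := by
        nlinarith [Nat.cast_nonneg (α := ℝ) X.card, ok2.hA]
      linarith
    · intro v hv
      have := hout v hv
      linarith
  obtain ⟨f₁, k1, k2, k3⟩ := main_edge p.D (2 * A) ok2.hsp L0 hsym0 (pr (A_meetX G T)).card
    (A_meetX G T) rfl (fun v => (dg_mono (G := G) (H := A_meetX G T)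
      (fun x y hxy => ((A_meetX_adj G T x y).1 hxy).1) v).trans (hdeg v)) hdens
    (fun u v huv => (hcard0 u v huv.1).ge)
  refine A_comb G T L0 f₁ k1 k2 k3 ?_
  set H := cutX G T with hH
  set U : Fin n → Finset ℕ := fun a => ((nb G a).filter (fun w => w ∈ T)).image (f₁ a) with hU
  set L1 : Fin n → Fin n → Finset ℕ := fun a b => L0 a b \ (U a ∪ U b) with hL1
  have hUc : ∀ a, a ∉ T → ((U a).card : ℝ) ≤ A := by
    intro a haT
    refine le_trans ?_ (hout a haT)
    exact_mod_cast card_image_le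
  have hHG : ∀ a b, H.Adj a b → G.Adj a b ∧ a ∉ T ∧ b ∉ T := fun a b h => (cutX_adj G T a b).1 h
  have hnbT : ∀ v ∈ T, nb H v = ∅ := by
    intro v hv
    rw [eq_empty_iff_forall_notMem]
    intro w hw
    rw [mem_nb] at hw
    exact (hHG v w hw).2.1 hv
  have hnbs : ∀ v, nb H v ⊆ nb G v := by
    intro v w hw
    rw [mem_nb] at hw ⊢
    exact (hHG v w hw).1
  have hnbd : ∀ v ∉ T, nb G v \ nb H v = (nb G v).filter (fun w => w ∈ T) := by
    intro v hv
    ext w
    rw [mem_sdiff, mem_filter, mem_nb, mem_nb]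
    constructor
    · rintro ⟨h1, h2⟩
      refine ⟨h1, ?_⟩
      by_contra hw
      exact h2 ((cutX_adj G T v w).2 ⟨h1, hv, hw⟩)
    · rintro ⟨h1, h2⟩
      exact ⟨h1, fun h3 => (hHG v w h3).2.2 h2⟩
  -- removing few neighbours
  have hrem : ∀ v ∉ T, ∀ (Q : Fin n → Prop) [DecidablePred Q], ∀ (c t : ℝ), 0 ≤ c → c ≤ 1 →
      |(((nb G v).filter Q).card : ℝ) - dg G v * c| ≤ t →
      |(((nb H v).filter Q).card : ℝ) - dg H v * c| ≤ t + A := by
    intro v hv Q _ c t hc0 hc1 h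
    have h1 : ((nb H v).filter Q).card + ((nb G v \ nb H v).filter Q).card =
        ((nb G v).filter Q).card := by
      rw [← card_union_of_disjoint (disjoint_filter_filter disjoint_sdiff), ← filter_union,
        union_sdiff_of_subset (hnbs v)]
    have h2 : (((nb H v).filter Q).card : ℝ) + ((nb G v \ nb H v).filter Q).card =
        ((nb G v).filter Q).card := by exact_mod_cast h1
    have h3 : (((nb G v \ nb H v).filter Q).card : ℝ) ≤ (nb G v \ nb H v).card := by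
      exact_mod_cast card_le_card (filter_subset _ _)
    have h4 : ((nb G v \ nb H v).card : ℝ) ≤ A := by
      rw [hnbd v hv]
      exact hout v hv
    have h5 : (dg H v : ℝ) + (nb G v \ nb H v).card = dg G v := by
      have : (nb G v \ nb H v).card + (nb H v).card = (nb G v).card :=
        card_sdiff_add_card_eq_card (hnbs v)
      unfold dg
      have h6 : ((nb G v \ nb H v).card : ℝ) + (nb H v).card = (nb G v).card := by exact_mod_cast this
      linarith
    have h6 : (0 : ℝ) ≤ ((nb G v \ nb H v).filter Q).card := Nat.cast_nonneg _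
    have h7 : (0 : ℝ) ≤ (nb G v \ nb H v).card := Nat.cast_nonneg _
    have h8 := abs_le.1 h
    rw [abs_le, ← sub_eq_iff_eq_add.2 h5.symm]
    rw [← sub_eq_iff_eq_add.2 h2.symm]
    constructor <;> nlinarith [h8.1, h8.2]
  have hpow : ∀ k : ℕ, (0 : ℝ) ≤ 1 / 2 ^ k ∧ (1 : ℝ) / 2 ^ k ≤ 1 := by
    intro k
    refine ⟨by positivity, ?_⟩
    rw [div_le_one (by positivity)]
    exact one_le_pow₀ (by norm_num)
  have hblkc : ∀ (v : Fin n) (j : Fin p.J), ((blk (σ v) j).card : ℝ) / 2 ^ p.J =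
      1 / 2 ^ ((j : ℕ) + 1) := fun v j => card_blk (σ v) j
  have hdl0 : ∀ v ∈ T, ∀ j, dl σ H v j = 0 := by
    intro v hv j
    unfold dl
    rw [hnbT v hv, filter_empty, card_empty]
  have hdg0 : ∀ v ∈ T, dg H v = 0 := by
    intro v hv
    unfold dg
    rw [hnbT v hv, card_empty]
  refine hcore p n ok H σ cls L0 L1 P ⟨?_, ?_, ?_, ?_, hsym0, ?_, ?_, ?_, ?_, hc0, ?_, ?_, ?_, ?_,
    ?_, ?_⟩
  · intro v
    by_cases hv : v ∈ T
    · rw [hdg0 v hv]
      exact Nat.zero_le _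
    · exact (card_le_card (hnbs v)).trans (hT0n v hv)
  · intro v j hj
    by_cases hv : v ∈ T
    · rw [hdl0 v hv, hdg0 v hv]
      simpa using ok.t1
    · have h1 := hσ1 v (blk (σ v) ⟨j, hj⟩)
      rw [hblkc v ⟨j, hj⟩] at h1
      have h2 := hrem v hv (fun w => σ w ∈ blk (σ v) ⟨j, hj⟩) (1 / 2 ^ (j + 1)) s1
        (hpow _).1 (hpow _).2 h1
      rw [← dl_blk σ H v ⟨j, hj⟩, mul_one_div] at h2
      exact h2.trans ok2.ht1
  · intro v
    by_cases hv : v ∈ T
    · rw [hdl0 v hv, hdg0 v hv]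
      simpa using ok.tJ
    · have h1 := hσJ v
      rw [← mul_one_div] at h1
      have h2 := hrem v hv (fun w => σ w = σ v) (1 / 2 ^ p.J) sJ (hpow _).1 (hpow _).2 h1
      rw [← dl_last σ H v, mul_one_div] at h2
      exact h2.trans ok2.htJ
  · intro v hvP j hj
    by_cases hv : v ∈ T
    · rw [hdl0 v hv, hdg0 v hv]
      simpa using ok.η
    · have hvT1 : v ∉ T1 := fun h => hvP (mem_union_left _ h)
      have h1 := hσ0 v hvT1 (blk (σ v) ⟨j, hj⟩)
      rw [hblkc v ⟨j, hj⟩] at h1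
      have h2 := hrem v hv (fun w => σ w ∈ blk (σ v) ⟨j, hj⟩) (1 / 2 ^ (j + 1)) sη
        (hpow _).1 (hpow _).2 h1
      rw [← dl_blk σ H v ⟨j, hj⟩, mul_one_div] at h2
      have h3 := (abs_le.1 h2).2
      have h4 := ok2.hη
      simp only at h3
      linarith
  · intro a b
    simp only [hL1]
    rw [hsym0 a b, union_comm]
  · intro a b hab
    exact hcard0 a b (hHG a b hab).1
  · intro a b
    exact sdiff_subset
  · intro a b hab
    obtain ⟨_, haT, hbT⟩ := hHG a b hab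
    have h1 : L0 a b \ L1 a b ⊆ U a ∪ U b := by
      intro c hc
      rw [mem_sdiff, hL1, mem_sdiff] at hc
      by_contra hcon
      exact hc.2 ⟨hc.1, hcon⟩
    have h2 : ((L0 a b \ L1 a b).card : ℝ) ≤ (U a).card + (U b).card := by
      exact_mod_cast (card_le_card h1).trans (card_union_le _ _)
    have := hUc a haT
    have := hUc b hbT
    rw [ok2.ha]
    linarith
  · intro a b hab j hj
    have := hc1 a b (hHG a b hab).1 j hj
    have h2 := ok2.ht1
    have h3 := ok2.hA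
    linarith
  · intro a b hab
    have := hcJ a b (hHG a b hab).1
    have h2 := ok2.htJ
    have h3 := ok2.hA
    have h4 : ((∑ j ∈ range p.J, p.mj j : ℕ) : ℝ) = p.MJ := rfl
    rw [h4] at this
    linarith
  · intro u v w huv huw j hj
    have := hx1 u v w (hHG u v huv).1 (hHG u w huw).1 j hj
    have h2 := ok2.ht1
    have h3 := ok2.hA
    linarith
  · intro u v w huv huw hX j hj
    exact hx2 u v w (hHG u v huv).1 (hHG u w huw).1 hX j hj
  · intro v hvP
    have hvT2 : v ∉ T2 := fun h => hvP (mem_union_right _ h)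
    have h1 := hbad v hvT2
    have hbb : p.η ≥ sη := by
      have := ok2.hη
      have := ok2.hA
      linarith
    refine le_trans ?_ h1
    have h2 : (nb H v).filter (fun w => ∃ j < p.J,
        (((L0 v w).filter (fun c => cls c = j)).card : ℝ) < p.mj j - p.η) ⊆
        (nb G v).filter (fun w => ∃ j < p.J,
        (((L0 v w).filter (fun c => cls c = j)).card : ℝ) < p.mj j - sη) := by
      intro w hw
      rw [mem_filter] at hw ⊢
      obtain ⟨h3, j, hj, h4⟩ := hw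
      exact ⟨hnbs v h3, j, hj, by linarith⟩
    exact_mod_cast card_le_card h2
  · intro v
    by_cases hv : v ∈ T
    · rw [hnbT v hv, filter_empty, card_empty, Nat.cast_zero]
      exact ok.g
    · refine le_trans ?_ (hT3n v hv)
      exact_mod_cast card_le_card (filter_subset_filter _ (hnbs v))

end Pool.Agent.W2helper87.FR
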