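import Pool.Agent.W2helper87.FR.Num3
import Pool.Agent.W2helper87.FR.Outer
import Pool.Agent.W2helper87.SR.Asym

/-!
# The choice of the parameters
-/

set_option autoImplicit false

namespace Pool.Agent.W2helper87.FR

open Finset Pool.Agent.W2helper87.SR

/-- the constants exist -/
theorem exKst (C ε : ℝ) (hC : 1 ≤ C) (hε : 0 < ε) (hε1 : ε ≤ 1) :
    ∃ i J : ℕ, ∃ N I2 ω δ β Λ γ : ℝ, 1 ≤ i ∧ J = 2 * i ∧ N = 2 ^ J ∧ I2 = 2 ^ i ∧
      Kst C ε J N I2 ω δ β Λ γ := by
  obtain ⟨i, hi⟩ := pow_unbounded_of_one_lt (64 * (C + 8) / ε) (by norm_num : (1 : ℝ) < 2)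
  have hi1 : 1 ≤ i := by
    by_contra hcon
    have : i = 0 := by omega
    subst this
    rw [pow_zero, div_lt_one hε] at hi
    linarith
  have hi2 : 64 * (C + 8) ≤ ε * 2 ^ i := by
    rw [div_lt_iff₀ hε] at hi
    linarith
  obtain ⟨J, hJ⟩ : ∃ J : ℕ, J = 2 * i := ⟨_, rfl⟩
  have hir : (2 : ℝ) ≤ J := by
    rw [hJ]
    exact_mod_cast (by omega : 2 ≤ 2 * i)
  obtain ⟨N, hN⟩ : ∃ N : ℝ, N = 2 ^ J := ⟨_, rfl⟩
  have hN4 : 4 ≤ N := by
    rw [hN]
    calc (4 : ℝ) = 2 ^ 2 := by norm_num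
      _ ≤ 2 ^ J := pow_le_pow_right₀ (by norm_num) (by omega)
  have hJ0 : (0 : ℝ) < 64 * (J : ℝ) := by linarith
  obtain ⟨ω, hω⟩ : ∃ ω : ℝ, ω = ε / (64 * (J : ℝ)) := ⟨_, rfl⟩
  have hω0 : 0 < ω := by rw [hω]; positivity
  obtain ⟨δ, hδ⟩ : ∃ δ : ℝ, δ = ω ^ 2 / 20 := ⟨_, rfl⟩
  have hδ0 : 0 < δ := by rw [hδ]; positivity
  obtain ⟨β, hβ⟩ : ∃ β : ℝ, β = ω / (24 * C * N * (64 * N + 25)) := ⟨_, rfl⟩
  have hβ0 : 0 < β := by rw [hβ]; positivity
  obtain ⟨Λ, hΛ⟩ : ∃ Λ : ℝ, Λ = 64 * N / (β * δ) := ⟨_, rfl⟩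
  have hΛ0 : 0 < Λ := by rw [hΛ]; positivity
  obtain ⟨γ, hγ⟩ : ∃ γ : ℝ, γ = ω / (16 * C * Λ) := ⟨_, rfl⟩
  have hγ0 : 0 < γ := by rw [hγ]; positivity
  have hI : (0 : ℝ) < 2 ^ i := by positivity
  refine ⟨i, J, N, 2 ^ i, ω, δ, β, Λ, γ, hi1, hJ, hN, rfl, hC, hε, hε1, hir, hN4, hI, ?_, hi2,
    hω0, ?_, hδ0, ?_, hβ0, ?_, hΛ0, ?_, hγ0, ?_⟩
  · rw [hN, hJ, ← pow_add]
    congr 1
    omega
  · rw [hω]
    field_simp
  · rw [hδ]
    ring
  · rw [hβ]
    field_simp
  · rw [hΛ]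
    field_simp
  · rw [hγ]
    field_simp

/-- the size of `X` -/
structure KX (C ε : ℝ) (J : ℕ) (N ω δ β Λ θ B X : ℝ) : Prop where
  X1 : 3400 ≤ X
  XΛ : 64 * (Λ + 10) * N ≤ X
  Xω : 16 * C * (Λ ^ 2 + 1) ≤ ω * X
  XJ : 16 * (J : ℝ) ≤ ε * X
  Xc : 8 / (β * δ) + 16 * (Λ ^ 2 + 27 * Λ) + 4 * Λ ≤ X
  Xθ1 : 4 * C ^ 2 * Λ ≤ θ ^ 2 * X
  Xθ2 : 2 * C ≤ θ * X
  XB : 8 * 2 ^ (2 ^ J) ≤ X
  Xκ : 32 / ω ^ 2 * |Real.log B| ≤ X
  Xδ : 10 ≤ δ * X
  XJ' : (J : ℝ) + 1 ≤ X

theorem exX (C ε : ℝ) (J : ℕ) (N ω δ β Λ θ B : ℝ) (hC : 1 ≤ C) (hε : 0 < ε) (hN : 0 < N)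
    (hω : 0 < ω) (hδ : 0 < δ) (hβ : 0 < β) (hΛ : 0 < Λ) (hθ : 0 < θ) :
    ∃ X, KX C ε J N ω δ β Λ θ B X := by
  have t1 : 0 ≤ 64 * (Λ + 10) * N := by positivity
  have t2 : 0 ≤ 16 * C * (Λ ^ 2 + 1) / ω := by positivity
  have t3 : 0 ≤ 16 * (J : ℝ) / ε := by positivity
  have t4 : 0 ≤ 8 / (β * δ) + 16 * (Λ ^ 2 + 27 * Λ) + 4 * Λ := by positivity
  have t5 : 0 ≤ 4 * C ^ 2 * Λ / θ ^ 2 := by positivity
  have t6 : 0 ≤ 2 * C / θ := by positivity
  have t7 : (0 : ℝ) ≤ 8 * 2 ^ (2 ^ J) := by positivity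
  have t8 : 0 ≤ 32 / ω ^ 2 * |Real.log B| := by positivity
  have t9 : 0 ≤ 10 / δ := by positivity
  have t10 : (0 : ℝ) ≤ J := Nat.cast_nonneg _
  refine ⟨3400 + 64 * (Λ + 10) * N + 16 * C * (Λ ^ 2 + 1) / ω + 16 * J / ε +
    (8 / (β * δ) + 16 * (Λ ^ 2 + 27 * Λ) + 4 * Λ) + 4 * C ^ 2 * Λ / θ ^ 2 + 2 * C / θ +
    8 * 2 ^ (2 ^ J) + 32 / ω ^ 2 * |Real.log B| + 10 / δ + J, ?_, ?_, ?_, ?_, ?_, ?_, ?_, ?_, ?_,
    ?_, ?_⟩
  · linarith
  · linarith
  · rw [← div_le_iff₀' hω]
    linarith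
  · rw [← div_le_iff₀' hε]
    linarith
  · linarith
  · rw [← div_le_iff₀' (by positivity)]
    linarith
  · rw [← div_le_iff₀' hθ]
    linarith
  · linarith
  · linarith
  · rw [← div_le_iff₀' hδ]
    linarith
  · linarith

set_option maxHeartbeats 4000000 in
theorem mkp (C ε : ℝ) (i J : ℕ) (N I2 ω δ β Λ γ θ B X : ℝ) (hi1 : 1 ≤ i) (hJ : J = 2 * i)
    (hNJ : N = 2 ^ J) (k : Kst C ε J N I2 ω δ β Λ γ) (hθ : θ = ω / (18 * C))
    (hB : B = 4 * (2 ^ (2 ^ J) + J / β)) (kx : KX C ε J N ω δ β Λ θ B X)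
    (n D : ℕ) (hDn : D ≤ n) (l s : ℝ) (hld : l = Real.log n) (hl : X ≤ l) (hs0 : 0 ≤ s)
    (hsq : s ^ 2 = D * l) (hs : X * l ≤ s) (hls : l * s ≤ D) (A : ℝ) (hA0 : 0 < A)
    (hAs1 : A ≤ ω / 4 * s) (hAs2 : A ≤ s / I2) (D' : ℕ) (hD1' : (D : ℝ) - ε * s - 1 ≤ D')
    (hD2' : (D' : ℝ) ≤ D - ε * s) :
    ∃ (p : Par) (x s1 sJ sη : ℝ), Ok p C n ∧ Ok2 p n x s1 sJ sη A ((n : ℝ) ^ (1 - ω ^ 2 / 32)) ∧
        p.D = D ∧ p.D' = D' ∧ p.g = γ * D := by
  have hC := k.C1
  have hε := k.ε0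
  have hε1 := k.ε1
  have hω0 := k.ω0
  have hω1 := k.ω1
  have hδ0 := k.δ0
  have hβ0 := k.β0
  have hΛ0 := k.Λ0
  have hN4 := k.N4
  have hI2 := k.I2p
  have hβδ0 : 0 < β * δ := by positivity
  have hθ0 : 0 < θ := by rw [hθ]; positivity
  have hB0 : 0 < B := by rw [hB]; positivity
  have hX3400 := kx.X1
  have hX1 : 1 ≤ X := by linarith
  have hl1 : 1 ≤ l := hX1.trans hl
  have hDl : 0 ≤ (D : ℝ) * l := by positivity
  have hs1 : 1 ≤ s := by nlinarith
  have hDX : X * s ≤ D := by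
    have h1 : X * l * s ≤ D * l := by rw [← hsq, sq]; gcongr
    have h2 : (X * s) * l ≤ D * l := by linarith
    exact le_of_mul_le_mul_right h2 (by linarith)
  have hD1 : (1 : ℝ) ≤ D := by nlinarith
  have hD0 : 0 < D := by
    have : (0 : ℝ) < D := by linarith
    exact_mod_cast this
  have hnr : (D : ℝ) ≤ n := by exact_mod_cast hDn
  have hn0 : (0 : ℝ) < n := by linarith
  have hXn1 : X + 1 ≤ n := by
    have h1 := Real.add_one_le_exp l
    rw [hld, Real.exp_log hn0] at h1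
    linarith
  have hXn : X ≤ n := by linarith
  -- the variables
  obtain ⟨E, hE⟩ : ∃ E, E = C * Real.sqrt (Λ * s * l) + C * l := ⟨_, rfl⟩
  obtain ⟨ρ, hρ⟩ : ∃ ρ, ρ = Λ * s / D := ⟨_, rfl⟩
  have v : Vr C ε J N I2 ω δ β Λ γ X D D' s l E ρ :=
    { toKst := k
      X1 := hX1
      lX := hl
      sX := hs
      DX := hDX
      sq := hsq
      D1 := hD1'
      D2 := hD2'
      Ee := hE
      ρe := hρ }
  obtain ⟨hE0, hE1⟩ := v.Es θ hθ0 kx.Xθ1 kx.Xθ2
  have hE2 : 18 * E ≤ s := by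
    have h1 : 18 * C * θ = ω := by rw [hθ]; field_simp
    have : 18 * θ ≤ 1 := by nlinarith
    nlinarith
  have hE3 : 16 * C * E ≤ ω * s := by
    have h1 : 18 * C * θ = ω := by rw [hθ]; field_simp
    have h2 : 18 * C * E ≤ 18 * C * (θ * s) := by gcongr
    have h3 : 18 * C * (θ * s) = ω * s := by rw [← mul_assoc, h1]
    have h4 : 16 * C * E ≤ 18 * C * E := by
      gcongr
      norm_num
    linarith
  obtain ⟨h, hh⟩ : ∃ h : ℕ, h = ⌊ω * s⌋₊ := ⟨_, rfl⟩
  have hωs0 : 0 ≤ ω * s := by positivity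
  have hh1 : ω * s - 1 ≤ h := by
    have := Nat.lt_floor_add_one (ω * s)
    rw [hh]
    linarith
  have hh2 : (h : ℝ) ≤ ω * s := by rw [hh]; exact Nat.floor_le hωs0
  have ha1 : 2 * A ≤ ω * s / 2 := by linarith
  obtain ⟨mj, hmj⟩ : ∃ mj : ℕ → ℕ, ∀ j, mj j = ⌊(D' : ℝ) / 2 ^ (j + 1) + 32 * ω * s⌋₊ :=
    ⟨fun j => _, fun _ => rfl⟩
  obtain ⟨dj, hdjj, hdJ⟩ : ∃ dj : ℕ → ℕ, (∀ j < J, dj j = ⌈(D' : ℝ) / 2 ^ (j + 1) + ω * s⌉₊) ∧
      dj J = ⌈(D' : ℝ) / 2 ^ J + 8 * s / I2⌉₊ :=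
    ⟨fun j => if j < J then ⌈(D' : ℝ) / 2 ^ (j + 1) + ω * s⌉₊ else
      ⌈(D' : ℝ) / 2 ^ J + 8 * s / I2⌉₊, fun j hj => by simp only [if_pos hj],
      by simp only [lt_irrefl, if_false]⟩
  obtain ⟨rj, hrj⟩ : ∃ rj : ℕ → ℕ, ∀ j,
      rj j = ⌊Λ * s * (1 / 2 ^ (j + 1)) * (1 - β * δ / 2)⌋₊ := ⟨fun j => _, fun _ => rfl⟩
  have hD'0 : (0 : ℝ) ≤ D' := Nat.cast_nonneg _
  have hβδ1 := v.βδ1
  have vj : ∀ j < J, Vj C ε J N I2 ω δ β Λ γ X D D' s l E ρ (1 / 2 ^ (j + 1)) (dj j) (mj j) (rj j)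
      h (2 * A) := by
    intro j hj
    have e1 : (D' : ℝ) * (1 / 2 ^ (j + 1)) = D' / 2 ^ (j + 1) := mul_one_div _ _
    have e2 : 0 ≤ (D' : ℝ) / 2 ^ (j + 1) := by positivity
    exact
    { toVr := v
      E0 := hE0
      E1 := hE2
      E2 := hE3
      X4 := by linarith
      XΛ := kx.XΛ
      Xω := kx.Xω
      XJ := kx.XJ
      Xc := kx.Xc
      q1 := by
        rw [hNJ, mul_one_div, le_div_iff₀ (by positivity), one_mul]
        exact pow_le_pow_right₀ (by norm_num) (by omega)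
      q2 := by
        apply div_le_div_of_nonneg_left (by norm_num) (by norm_num)
        calc (2 : ℝ) = 2 ^ 1 := by norm_num
          _ ≤ 2 ^ (j + 1) := pow_le_pow_right₀ (by norm_num) (by omega)
      d1 := by
        rw [e1, hdjj j hj]
        exact Nat.le_ceil _
      d2 := by
        rw [e1, hdjj j hj]
        exact (Nat.ceil_lt_add_one (by positivity)).le
      m1 := by
        rw [e1, hmj]
        have := Nat.lt_floor_add_one ((D' : ℝ) / 2 ^ (j + 1) + 32 * ω * s)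
        linarith
      m2 := by
        rw [e1, hmj]
        exact Nat.floor_le (by positivity)
      r1 := by
        rw [hrj]
        have := Nat.lt_floor_add_one (Λ * s * (1 / 2 ^ (j + 1)) * (1 - β * δ / 2))
        linarith
      r2 := by
        rw [hrj]
        apply Nat.floor_le
        have : 0 ≤ 1 - β * δ / 2 := by linarith
        positivity
      h1 := hh1
      h2 := hh2
      a0 := by linarith
      a1 := ha1 }
  obtain ⟨Em, hEm⟩ : ∃ Em, Em = ρ * (((D' : ℝ) - D' / N) + 8 * s / I2) + E := ⟨_, rfl⟩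
  obtain ⟨MJ, hMJ⟩ : ∃ MJ : ℕ, MJ = ∑ j ∈ range J, mj j := ⟨_, rfl⟩
  obtain ⟨Den, hDen⟩ : ∃ Den : ℝ, Den = MJ - 8 * s / I2 - 2 * A - h - Em := ⟨_, rfl⟩
  have hsum1 : ∑ j ∈ range J, ((D' : ℝ) / 2 ^ (j + 1) + 32 * ω * s) =
      D' - D' / N + ε / 2 * s := by
    rw [sum_add_distrib, sum_half, sum_const, card_range, nsmul_eq_mul, hNJ]
    have := k.ωe
    have e1 : (J : ℝ) * (32 * ω * s) = (64 * J * ω) * s / 2 := by ring
    rw [e1, this]
    ring
  have gg : Vg C ε J N I2 ω δ β Λ γ X D D' s l E ρ h (2 * A) Em MJ Den :=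
    { toVr := v
      E0 := hE0
      E1 := hE2
      X4 := by linarith
      XΛ := kx.XΛ
      Xω := kx.Xω
      XJ := kx.XJ
      h0 := Nat.cast_nonneg _
      h2 := hh2
      a0 := by linarith
      a1 := ha1
      Eme := hEm
      M1 := by
        rw [← hsum1, hMJ]
        push_cast
        have : (∑ j ∈ range J, ((D' : ℝ) / 2 ^ (j + 1) + 32 * ω * s)) - J =
            ∑ j ∈ range J, ((D' : ℝ) / 2 ^ (j + 1) + 32 * ω * s - 1) := by
          rw [sum_sub_distrib, sum_const, card_range, nsmul_eq_mul, mul_one]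
        rw [this]
        apply sum_le_sum
        intro j _
        rw [hmj]
        have := Nat.lt_floor_add_one ((D' : ℝ) / 2 ^ (j + 1) + 32 * ω * s)
        linarith
      M2 := by
        rw [← hsum1, hMJ]
        push_cast
        apply sum_le_sum
        intro j _
        rw [hmj]
        exact Nat.floor_le (by positivity)
      Dene := hDen }
  obtain ⟨n1, n2, n3, n4⟩ := gg.Den1
  obtain ⟨i1, i2, i3⟩ := gg.I2b
  obtain ⟨w1, w2, w3, w4⟩ := gg.sω
  have hMD : MJ < D := by exact_mod_cast n4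
  have hlam : 0 < β * δ / 4 := by positivity
  obtain ⟨X1, hX1e⟩ : ∃ X1 : ℕ → ℝ, ∀ j, β * δ / 4 * X1 j =
      2 * l + (Real.exp (β * δ / 4) - 1) *
        ((Em * (mj j + 2 * (6 * s)) - (ρ * (β * D) - E) * (δ * mj j)) / Den) :=
    ⟨fun j => (2 * l + (Real.exp (β * δ / 4) - 1) *
        ((Em * (mj j + 2 * (6 * s)) - (ρ * (β * D) - E) * (δ * mj j)) / Den)) / (β * δ / 4),
      fun j => mul_div_cancel₀ _ hlam.ne'⟩
  let p : Par :=
    { D := D
      D' := D'
      J := J
      h := h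
      mj := mj
      dj := dj
      rj := rj
      t1 := 6 * s
      t2 := ω * s
      tJ := 8 * s / I2
      η := ω * s
      a := 2 * A
      g := γ * D
      b := β * D
      b' := β * D
      δ := δ
      ρ := ρ
      err := E
      φ := ω * s
      y := (64 * N + 24) * s
      W := 16 * N * s
      Em := Em
      lam := β * δ / 4
      X1 := X1
      zm := fun j => rj j + (32 * N + 8) * s }
  have hpM : p.MJ = MJ := hMJ.symm
  have hpD : p.Den = Den := by
    unfold Par.Den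
    rw [hpM, hDen]
  have hJn : J + 1 ≤ n := by
    have : ((J + 1 : ℕ) : ℝ) ≤ n := by
      push_cast
      linarith [kx.XJ']
    exact_mod_cast this
  have hJ1 : 1 ≤ J := by omega
  have hγβ := k.γ2
  have hok : Ok p C n :=
    { hn := by omega
      hJ := hJ1
      hJn := hJn
      hD := hD0
      hDD := by
        have : (D' : ℝ) ≤ D := (v.D'b (by linarith)).2.1
        exact_mod_cast this
      hDn := hDn
      hMD := by
        rw [hpM]
        exact hMD.le
      t1 := by show 0 ≤ 6 * s; positivity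
      t2 := hωs0
      tJ := by show 0 ≤ 8 * s / I2; positivity
      η := hωs0
      a := by show 0 ≤ 2 * A; positivity
      g := by show 0 ≤ γ * D; have := k.γ0; positivity
      b := by show 0 ≤ β * D; positivity
      b' := by show 0 ≤ β * D; positivity
      δ := hδ0.le
      ρ := v.ρ0
      ρ1 := by
        show ρ ≤ 1
        rw [hρ, div_le_one (by linarith)]
        apply v.cs Λ
        have := kx.XΛ
        nlinarith
      φ := hωs0
      y := by show 0 ≤ (64 * N + 24) * s; positivity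
      A1 := by
        intro j hj
        have := (vj j hj).d1
        rw [mul_one_div] at this
        exact this
      A2 := by
        intro j hj
        have := (vj j hj).A2
        rw [mul_one_div] at this
        exact this
      A4 := by
        intro j hj
        exact (vj j hj).A4
      A5 := by
        have := gg.A5
        rw [hNJ] at this
        rw [hpM]
        exact this
      A6 := by
        intro j hj
        have := (vj j hj).A6
        rw [mul_one_div] at this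
        exact this
      A7 := by
        intro j hj
        have := (vj j hj).A7
        rw [mul_one_div] at this
        exact this
      A8 := fun j hj => A8 gg (vj j hj)
      AE := by
        show ρ * (((D' : ℝ) - D' / 2 ^ J) + 8 * s / I2) + E ≤ Em
        rw [hEm, hNJ]
      AD := by
        rw [hpD]
        linarith
      lam := hlam
      A9a := by
        intro j hj
        rw [hpD]
        show 2 * Real.log n + (Real.exp (β * δ / 4) - 1) *
          ((Em * (mj j + 2 * (6 * s)) - (ρ * (β * D) - E) * (δ * mj j)) / Den) ≤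
          β * δ / 4 * X1 j
        rw [hX1e, hld]
      A9b := by
        intro j hj
        rw [hpD]
        have := A9b gg (vj j hj)
        rw [hld] at this
        exact this
      A9c := by
        intro j hj
        show (mj j : ℝ) + 6 * s - ((dj j : ℝ) - rj j) ≤ rj j + (32 * N + 8) * s
        have := (vj j hj).md.2
        have : 0 ≤ N * s := by positivity
        linarith
      A10 := fun j hj => A10 gg (vj j hj) (X1 j) (hX1e j)
      B1 := fun j hj => (vj j hj).B.1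
      B2 := fun j hj => (vj j hj).B.2.1
      B3 := fun j hj => (vj j hj).B.2.2.1
      B4 := fun j hj => (vj j hj).B.2.2.2
      A12 := (vj 0 hJ1).A12
      A13 := by
        show (D' : ℝ) / 2 ^ J + 8 * s / I2 ≤ dj J
        rw [hdJ]
        exact Nat.le_ceil _
      A13' := by
        have := gg.A13 (dj J) (by
          rw [hdJ, hNJ]
          exact (Nat.ceil_lt_add_one (by positivity)).le)
        rw [hpM, ← hld]
        exact this
      A14a := by
        intro j hj
        refine ⟨?_, ?_⟩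
        · have := (vj j hj).A14a
          show 4 * rj j ≤ dj j
          exact_mod_cast this
        · show dj j ≤ n
          have h1 := (vj j hj).d2
          have h2 := (vj j hj).q2
          have h3 := (v.D'b (by linarith)).2.1
          have h4 : (D' : ℝ) * (1 / 2 ^ (j + 1)) ≤ D * (1 / 2) := by gcongr
          have h6 := v.cs 100 (by linarith)
          have h5 : (dj j : ℝ) ≤ n := by linarith
          exact_mod_cast h5
      A14b := by
        intro j hj
        have hR := (vj j hj).R1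
        refine ⟨?_, ?_, ?_⟩
        · show (64 * N + 24) * s ≤ rj j
          have : 0 ≤ N * s := by positivity
          linarith
        · show γ * D ≤ (dj j : ℝ) / 4
          have h1 := (vj j hj).d1
          have h2 := (vj j hj).q1
          have h3 := (v.D'b (by linarith)).1
          have h4 := v.β1
          have h5 : (D : ℝ) / 2 * (1 / 2 ^ (j + 1)) ≤ D' * (1 / 2 ^ (j + 1)) := by gcongr
          have h6 : (D : ℝ) * 1 ≤ D * (N * (1 / 2 ^ (j + 1))) := by gcongr
          have h7 : γ * D ≤ β * D := by gcongr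
          have h8 : (64 * N) * (γ * D) ≤ D := by
            calc (64 * N) * (γ * D) ≤ (64 * N) * (β * D) := by gcongr
              _ = (β * (64 * N)) * D := by ring
              _ ≤ 1 * D := by
                  gcongr
                  linarith
              _ = D := one_mul _
          have h9 : (64 * N) * (γ * D) ≤ (64 * N) * ((dj j : ℝ) / 4) := by
            have : N * ((D : ℝ) / 2 * (1 / 2 ^ (j + 1))) ≤ N * dj j := by
              gcongr
              linarith
            linarith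
          exact le_of_mul_le_mul_left h9 (by positivity)
        · show 8 * E ≤ rj j
          have : 0 ≤ N * s := by positivity
          linarith
      A14c := by
        intro j hj
        show C * Real.sqrt (rj j * Real.log n) + C * Real.log n ≤ E
        rw [hE, ← hld]
        have h1 := (vj j hj).r2
        have h2 : Λ * s * (1 / 2 ^ (j + 1)) * (1 - β * δ / 2) ≤ Λ * s := by
          have h3 := (vj j hj).q2
          calc Λ * s * (1 / 2 ^ (j + 1)) * (1 - β * δ / 2) ≤ Λ * s * 1 * 1 := by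
                gcongr
                · linarith
                · linarith
                · linarith
            _ = Λ * s := by ring
        have h3 : Real.sqrt (rj j * l) ≤ Real.sqrt (Λ * s * l) := by
          apply Real.sqrt_le_sqrt
          gcongr
          linarith
        gcongr
      A14d := by
        intro j hj
        have := (vj j hj).A14d
        rw [hld] at this
        exact this
      A15 := by
        show C * Real.sqrt (ρ * D * Real.log n) + C * Real.log n ≤ E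
        rw [v.ρD, ← hld, hE] }
  have hexp5 : Real.exp (-(5 * l)) = 1 / (n : ℝ) ^ 5 := by
    rw [Real.exp_neg, mul_comm, Real.exp_mul, hld, Real.exp_log hn0, one_div]
    norm_cast
  have hn1 : (1 : ℝ) ≤ n := by linarith
  have hn5 : (0 : ℝ) < (n : ℝ) ^ 5 := by positivity
  have hexpη : Real.exp (-((ω / 2 * s) ^ 2) / (4 * D)) = (n : ℝ) ^ (-(ω ^ 2 / 16)) := by
    rw [Real.rpow_def_of_pos hn0, ← hld]
    congr 1
    rw [mul_pow, hsq]
    field_simp
    ring
  have hnκ : B ≤ (n : ℝ) ^ (ω ^ 2 / 32) := by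
    rw [Real.rpow_def_of_pos hn0, ← hld]
    have h1 : Real.log B ≤ l * (ω ^ 2 / 32) := by
      have h2 : 32 / ω ^ 2 * |Real.log B| ≤ l := kx.Xκ.trans hl
      have h3 : |Real.log B| = (32 / ω ^ 2 * |Real.log B|) * (ω ^ 2 / 32) := by
        field_simp
      calc Real.log B ≤ |Real.log B| := le_abs_self _
        _ = (32 / ω ^ 2 * |Real.log B|) * (ω ^ 2 / 32) := h3
        _ ≤ l * (ω ^ 2 / 32) := by gcongr
    calc B = Real.exp (Real.log B) := (Real.exp_log hB0).symm
      _ ≤ _ := Real.exp_le_exp.2 h1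
  refine ⟨p, 5 * l, 5 * s, 7 * s / I2, ω / 2 * s, hok, ?_, rfl, rfl, rfl⟩
  exact
    { hMD := by
        rw [hpM]
        exact hMD
      ha := rfl
      hA := hA0
      ht1 := by
        show 5 * s + A ≤ 6 * s
        linarith
      htJ := by
        show 7 * s / I2 + A ≤ 8 * s / I2
        have : 8 * s / I2 = 7 * s / I2 + s / I2 := by ring
        linarith
      hη := by
        show ω / 2 * s + A ≤ ω * s
        linarith
      hb := by show 0 < β * D; positivity
      hδ := hδ0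
      hs1 := by
        show 0 ≤ 5 * s ∧ 5 * s ≤ 2 * (D : ℝ)
        have h6 := v.cs 100 (by linarith)
        constructor <;> linarith
      hs1' := by
        show 4 * (D : ℝ) * (5 * l) ≤ (5 * s) ^ 2
        rw [mul_pow, hsq]
        linarith
      hsJ := by
        show 0 ≤ 7 * s / I2 ∧ 7 * s / I2 ≤ 2 * ((D : ℝ) / 2 ^ J)
        refine ⟨by positivity, ?_⟩
        rw [← hNJ]
        exact gg.misc.1.trans gg.misc.2.2.2
      hsJ' := by
        show 4 * ((D : ℝ) / 2 ^ J) * (5 * l) ≤ (7 * s / I2) ^ 2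
        rw [← hNJ, div_pow, mul_pow, hsq, sq I2, v.I2N]
        rw [le_div_iff₀ (by linarith)]
        have : 4 * ((D : ℝ) / N) * (5 * l) * N = 20 * (D * l) := by
          field_simp
          ring
        rw [this]
        linarith
      hcJ := by
        rw [hpM]
        show 7 * s / I2 ≤ 2 * ((D : ℝ) - MJ)
        have h1 := gg.misc.1
        have h2 := gg.M2
        have h3 := gg.misc.2.1
        have h4 := v.D2
        have h5 : 0 ≤ ε * s := by positivity
        linarith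
      hcJ' := by
        rw [hpM]
        show 4 * ((D : ℝ) - MJ) * (5 * l) ≤ (7 * s / I2) ^ 2
        rw [div_pow, mul_pow, hsq, sq I2, v.I2N, le_div_iff₀ (by linarith)]
        have h3 := gg.misc.2.2.1
        calc 4 * ((D : ℝ) - MJ) * (5 * l) * N = 20 * l * (((D : ℝ) - MJ) * N) := by ring
          _ ≤ 20 * l * (49 / 20 * D) := by gcongr
          _ = 7 ^ 2 * (D * l) := by ring
      hsη := by
        show 0 ≤ ω / 2 * s ∧ ω / 2 * s ≤ 2 * (D : ℝ)
        have h6 := v.cs 100 (by linarith)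
        constructor
        · positivity
        · linarith
      ht2 := by
        show ω * s ≤ 2 * (δ * D)
        have h1 := kx.Xδ
        have h2 : δ * (X * s) ≤ δ * D := by gcongr
        have h3 : 10 * s ≤ (δ * X) * s := by gcongr
        have h4 : (δ * X) * s = δ * (X * s) := by ring
        linarith
      ht2' := by
        show 4 * (δ * D) * (5 * l) ≤ (ω * s) ^ 2
        have := v.δe
        calc 4 * (δ * D) * (5 * l) = (20 * δ) * (D * l) := by ring
          _ = ω ^ 2 * s ^ 2 := by rw [this, hsq]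
          _ = (ω * s) ^ 2 := by ring
          _ ≤ _ := le_rfl
      hx1 := by
        show 4 * ((n : ℝ) * 2 ^ (2 ^ J) + n * 2 ^ J) * Real.exp (-(5 * l)) < 1
        rw [hexp5, mul_one_div, div_lt_one hn5]
        have h1 : (2 : ℝ) ^ J ≤ 2 ^ (2 ^ J) :=
          pow_le_pow_right₀ (by norm_num) Nat.lt_two_pow_self.le
        obtain ⟨T, hT⟩ : ∃ T : ℝ, T = 2 ^ (2 ^ J) := ⟨_, rfl⟩
        rw [← hT] at h1 ⊢
        have h0 : 0 < T := by rw [hT]; positivity
        have h2 : 4 * ((n : ℝ) * T + n * 2 ^ J) ≤ n * (8 * T) := by nlinarith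
        have h3 : 8 * T < n := by
          have h4 := kx.XB
          rw [← hT] at h4
          linarith
        calc 4 * ((n : ℝ) * T + n * 2 ^ J) ≤ n * (8 * T) := h2
          _ < n * n := by
              apply mul_lt_mul_of_pos_left h3
              linarith
          _ = (n : ℝ) ^ 2 := by ring
          _ ≤ (n : ℝ) ^ 5 := pow_le_pow_right₀ hn1 (by norm_num)
      hx2 := by
        show 4 * ((n : ℝ) ^ 2 * ((J : ℕ) + 1) + 2 * (n ^ 3 * (J : ℕ))) * Real.exp (-(5 * l)) < 1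
        rw [hexp5, mul_one_div, div_lt_one hn5]
        have h1 : ((J : ℕ) : ℝ) + 1 ≤ n := by
          exact_mod_cast hJn
        have h2 : (12 : ℝ) < n := by linarith
        calc 4 * ((n : ℝ) ^ 2 * ((J : ℕ) + 1) + 2 * (n ^ 3 * (J : ℕ))) ≤
            4 * ((n : ℝ) ^ 2 * n + 2 * (n ^ 3 * n)) := by
              gcongr
              linarith
          _ ≤ 12 * (n : ℝ) ^ 4 := by
              have : (n : ℝ) ^ 3 ≤ n ^ 4 := pow_le_pow_right₀ hn1 (by norm_num)
              nlinarith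
          _ < n * n ^ 4 := by
              apply mul_lt_mul_of_pos_right h2
              positivity
          _ = (n : ℝ) ^ 5 := by ring
      hτ := by
        show 4 * Real.exp (-((ω / 2 * s) ^ 2) / (4 * D)) * (n * 2 ^ (2 ^ J)) +
          4 * Real.exp (-((ω / 2 * s) ^ 2) / (4 * D)) * (n * D * J) / (β * D) ≤
          (n : ℝ) ^ (1 - ω ^ 2 / 32)
        rw [hexpη]
        have h1 : 4 * (n : ℝ) ^ (-(ω ^ 2 / 16)) * (n * 2 ^ (2 ^ J)) +
          4 * (n : ℝ) ^ (-(ω ^ 2 / 16)) * (n * D * J) / (β * D) =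
          B * ((n : ℝ) * (n : ℝ) ^ (-(ω ^ 2 / 16))) := by
          rw [hB]
          field_simp
        rw [h1]
        calc B * ((n : ℝ) * (n : ℝ) ^ (-(ω ^ 2 / 16))) ≤
            (n : ℝ) ^ (ω ^ 2 / 32) * ((n : ℝ) * (n : ℝ) ^ (-(ω ^ 2 / 16))) := by gcongr
          _ = (n : ℝ) ^ (1 - ω ^ 2 / 32) := by
              have h2 : (n : ℝ) * (n : ℝ) ^ (-(ω ^ 2 / 16)) =
                  (n : ℝ) ^ (1 + -(ω ^ 2 / 16)) := by
                rw [Real.rpow_add hn0, Real.rpow_one]
              rw [h2, ← Real.rpow_add hn0]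
              congr 1
              ring
      hsp := by
        show 34 * (2 * A) * (1 + Real.log D) ≤ D
        have h1 : Real.log D ≤ l := by
          rw [hld]
          exact Real.log_le_log (by linarith) hnr
        have h0 : 0 ≤ Real.log D := Real.log_nonneg hD1
        have h2 : 34 * (2 * A) * (1 + Real.log D) ≤ 34 * (ω * s / 2) * (2 * l) := by
          gcongr
          linarith
        have h3 : 34 * (ω * s / 2) * (2 * l) = 34 * ω * (l * s) := by ring
        have h7 : 34 * ω * (l * s) ≤ 34 * (1 / 128) * (l * s) := by gcongr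
        have h8 : 0 ≤ l * s := by positivity
        linarith }

theorem numbers2 (C ε : ℝ) (hC : 1 ≤ C) (hε : 0 < ε) (hε1 : ε ≤ 1) :
    ∃ κ γ ζ X : ℝ, 0 < κ ∧ κ ≤ 1 / 2 ∧ 0 < γ ∧ γ ≤ 1 ∧ 0 < ζ ∧ 1 ≤ X ∧ ∀ n D : ℕ, D ≤ n →
      X ≤ Real.log n → X * Real.log n ≤ Real.sqrt (D * Real.log n) →
      Real.log n * Real.sqrt (D * Real.log n) ≤ D → ∀ A : ℝ, 0 < A →
      A ≤ ζ * Real.sqrt (D * Real.log n) →
      ∃ (p : Par) (x s1 sJ sη : ℝ), Ok p C n ∧ Ok2 p n x s1 sJ sη A ((n : ℝ) ^ (1 - κ)) ∧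
        p.D = D ∧ p.D' = ⌊(D : ℝ) - ε * Real.sqrt (D * Real.log n)⌋₊ ∧ p.g = γ * D := by
  obtain ⟨i, J, N, I2, ω, δ, β, Λ, γ, hi1, hJ, hNJ, hI2e, k⟩ := exKst C ε hC hε hε1
  have hω0 := k.ω0
  have hω1 := k.ω1
  have hI2 := k.I2p
  obtain ⟨X, kx⟩ := exX C ε J N ω δ β Λ (ω / (18 * C)) (4 * (2 ^ (2 ^ J) + J / β)) hC hε
    (by linarith [k.N4]) k.ω0 k.δ0 k.β0 k.Λ0 (by positivity)
  have hX := kx.X1
  refine ⟨ω ^ 2 / 32, γ, min (ω / 4) (1 / I2), X, by positivity, by nlinarith, k.γ0,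
    k.γ2.trans k.β2, by positivity, by linarith, ?_⟩
  intro n D hDn hl hs hls A hA0 hA
  have hl1 : 1 ≤ Real.log n := by linarith
  have hDl : 0 ≤ (D : ℝ) * Real.log n := by positivity
  have hs0 : 0 ≤ Real.sqrt (D * Real.log n) := Real.sqrt_nonneg _
  have hAs1 : A ≤ ω / 4 * Real.sqrt (D * Real.log n) := hA.trans (by
    apply mul_le_mul_of_nonneg_right (min_le_left _ _) hs0)
  have hAs2 : A ≤ Real.sqrt (D * Real.log n) / I2 := hA.trans (by
    have h1 : Real.sqrt (D * Real.log n) / I2 = 1 / I2 * Real.sqrt (D * Real.log n) := by ring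
    rw [h1]
    exact mul_le_mul_of_nonneg_right (min_le_right _ _) hs0)
  have hDε : 0 ≤ (D : ℝ) - ε * Real.sqrt (D * Real.log n) := by nlinarith
  refine mkp C ε i J N I2 ω δ β Λ γ _ _ X hi1 hJ hNJ k rfl rfl kx n D hDn (Real.log n)
    (Real.sqrt (D * Real.log n)) rfl hl hs0 (Real.sq_sqrt hDl) hs hls A hA0 hAs1 hAs2 _ ?_ ?_
  · have := Nat.lt_floor_add_one ((D : ℝ) - ε * Real.sqrt (D * Real.log n))
    linarith
  · exact Nat.floor_le hDε

end Pool.Agent.W2helper87.FR
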