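import Pool.Agent.W2helper87.FR.K2c
import Pool.Agent.H162R2.AG.All

/-!
# Random subsets for a family of sets
-/

set_option autoImplicit false

namespace Pool.Agent.W2helper87.FR

open Finset Pool.Agent.H162R2.Sparse Pool.Agent.H162R2.AG

theorem rsub : ∃ C : ℝ, 1 ≤ C ∧ ∀ n : ℕ, 2 ≤ n → ∀ p : ℝ, 0 ≤ p → p ≤ 1 →
    ∀ (α : Type) [Fintype α] [DecidableEq α] (I : Type) [Fintype I], Fintype.card I ≤ n ^ 4 →
    ∀ A : I → Finset α, ∃ R : Finset α, ∀ i,
      |((A i ∩ R).card : ℝ) - p * (A i).card| ≤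
        C * Real.sqrt (p * (A i).card * Real.log n) + C * Real.log n := by
  classical
  obtain ⟨C, hC, h⟩ := Pool.Agent.H162R2.AG.R
  refine ⟨2 * C, by linarith, ?_⟩
  intro n hn p hp0 hp1 α _ _ I _ hI A
  have hn2 : 2 ≤ n ^ 2 := by nlinarith
  have hcard : Fintype.card I ≤ Fintype.card (Fin (n ^ 2) × Fin (n ^ 2)) := by
    rw [Fintype.card_prod, Fintype.card_fin]
    calc Fintype.card I ≤ n ^ 4 := hI
      _ = n ^ 2 * n ^ 2 := by ring
  obtain ⟨e⟩ := Function.Embedding.nonempty_of_card_le hcard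
  let code : α → ℕ := fun a => ((Fintype.equivFin α) a : ℕ)
  have hcode : Function.Injective code := fun a b hab =>
    (Fintype.equivFin α).injective (Fin.ext hab)
  let L : Fin (n ^ 2) → Fin (n ^ 2) → Finset ℕ := fun v w =>
    if h : ∃ i, e i = (v, w) then (A h.choose).image code else ∅
  obtain ⟨R, hR⟩ := h (n ^ 2) hn2 p hp0 hp1 L
  refine ⟨univ.filter (fun a => code a ∈ R), fun i => ?_⟩
  have h1 := hR (e i).1 (e i).2
  have hex : ∃ j, e j = ((e i).1, (e i).2) := ⟨i, rfl⟩
  have hi : hex.choose = i := e.injective hex.choose_spec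
  have hL : L (e i).1 (e i).2 = (A i).image code := by
    simp only [L]
    rw [dif_pos hex, hi]
  rw [hL, card_image_of_injective _ hcode] at h1
  have h2 : ((A i).image code ∩ R).card = (A i ∩ univ.filter (fun a => code a ∈ R)).card := by
    rw [← card_image_of_injective (A i ∩ univ.filter (fun a => code a ∈ R)) hcode]
    congr 1
    ext x
    simp only [mem_inter, mem_image, mem_filter, mem_univ, true_and]
    constructor
    · rintro ⟨⟨a, ha, rfl⟩, hx⟩
      exact ⟨a, ⟨ha, hx⟩, rfl⟩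
    · rintro ⟨a, ⟨ha, hx⟩, rfl⟩
      exact ⟨⟨a, ha, rfl⟩, hx⟩
  rw [h2] at h1
  refine h1.trans ?_
  have hlog : 0 ≤ Real.log n := Real.log_natCast_nonneg n
  have h3 : Real.log ((n ^ 2 : ℕ) : ℝ) = 2 * Real.log n := by
    push_cast
    rw [Real.log_pow]
    norm_num
  rw [h3]
  have h4 : 0 ≤ p * (A i).card * Real.log n := by positivity
  have h5 : Real.sqrt (p * (A i).card * (2 * Real.log n)) ≤
      2 * Real.sqrt (p * (A i).card * Real.log n) := by
    apply Real.sqrt_le_iff.2
    refine ⟨by positivity, ?_⟩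
    rw [mul_pow, Real.sq_sqrt h4]
    linarith
  have hC0 : 0 ≤ C := by linarith
  calc C * Real.sqrt (p * (A i).card * (2 * Real.log n)) + C * (2 * Real.log n)
      ≤ C * (2 * Real.sqrt (p * (A i).card * Real.log n)) + C * (2 * Real.log n) := by gcongr
    _ = 2 * C * Real.sqrt (p * (A i).card * Real.log n) + 2 * C * Real.log n := by ring

end Pool.Agent.W2helper87.FR
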