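import Pool.Agent.W2helper87.FR.Mx2
import Pool.Agent.W2helper87.FR.Ew
import Pool.Agent.W2helper87.FR.Full
import Pool.Agent.W2helper87.SR.Fin

/-!
# Random graphs: the events
-/

set_option autoImplicit false

namespace Pool.Agent.W2helper87.FR

open Finset Pool.Agent.H162R2.Sparse Pool.Agent.H162R2.AG Pool.Agent.W2helper87.SR

theorem e2_le_sq {n : ℕ} (G : SimpleGraph (Fin n)) (X : Finset (Fin n)) :
    e2 G X ≤ (X.card : ℝ) ^ 2 := by
  classical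
  unfold e2
  have h1 : (pr G).filter (fun e => e.1 ∈ X ∧ e.2 ∈ X) ⊆ X ×ˢ X := by
    intro e he
    rw [mem_filter] at he
    rw [mem_product]
    exact he.2
  have h2 := card_le_card h1
  rw [card_product] at h2
  have h3 : (((pr G).filter (fun e => e.1 ∈ X ∧ e.2 ∈ X)).card : ℝ) ≤
      X.card * X.card := by exact_mod_cast h2
  nlinarith

theorem exp_mul_log (n : ℕ) (hn : 0 < n) (x : ℝ) : Real.exp (x * Real.log n) = (n : ℝ) ^ x := by
  have h := exp_log_rpow n hn (-x)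
  rw [neg_neg] at h
  rw [← h]
  congr 1
  ring

open Classical in
theorem events3 {n : ℕ} (B : SimpleGraph (Fin n)) (p κ γ μ Nm : ℝ) (hp0 : 0 < p) (hp1 : p ≤ 1)
    (hκ0 : 0 < κ) (hγ0 : 0 < γ) (hμ : μ = p * Nm) (hl1 : 1 ≤ Real.log n) (hn : 3 ≤ n)
    (h1 : 16 / (κ * γ) * (n : ℝ) ^ (1 - κ / 2) ≤ Nm) (h2 : 32 ≤ κ * γ * μ) (w : ℕ)
    (hw : w = ⌈32 * ((n : ℝ) ^ (1 - κ) + 2) / (κ * γ * μ)⌉₊) :
    pb (qB B p) (fun G => ∃ T : Finset (Fin n), (T.card : ℝ) ≤ (n : ℝ) ^ (1 - κ) ∧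
      w ≤ (univ.filter (fun v => γ * μ / 2 <
        (((nb G v).filter (fun x => x ∈ T)).card : ℝ))).card) ≤ 1 / n := by
  have hn0 : (0 : ℝ) < n := by
    have : (3 : ℝ) ≤ n := by exact_mod_cast hn
    linarith
  have hκγμ : 0 < κ * γ * μ := by linarith
  have hκγ : 0 < κ * γ := by positivity
  apply eW_all (qB B p) (qB_01 B p hp0.le hp1) p (qB_le B p hp0.le) hp0.le (κ / 4 * Real.log n)
    ((n : ℝ) ^ (1 - κ)) (γ * μ / 2) w (by positivity) hn
  · have e1 : Real.exp (2 * (κ / 4 * Real.log n)) = (n : ℝ) ^ (κ / 2) := by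
      rw [← exp_mul_log n (by omega)]
      congr 1
      ring
    rw [e1]
    have e2 : (n : ℝ) ^ (κ / 2) * (n : ℝ) ^ (1 - κ) = (n : ℝ) ^ (1 - κ / 2) := by
      rw [← Real.rpow_add hn0]
      congr 1
      ring
    rw [mul_assoc, e2]
    have e3 : (n : ℝ) ^ (1 - κ / 2) ≤ κ * γ / 16 * Nm := by
      calc (n : ℝ) ^ (1 - κ / 2) = κ * γ / 16 * (16 / (κ * γ) * (n : ℝ) ^ (1 - κ / 2)) := by
            field_simp
        _ ≤ κ * γ / 16 * Nm := by gcongr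
    calc p * (n : ℝ) ^ (1 - κ / 2) ≤ p * (κ * γ / 16 * Nm) := by gcongr
      _ = κ * γ * μ / 16 * 1 := by
          rw [hμ]
          ring
      _ ≤ κ * γ * μ / 16 * Real.log n := by gcongr
      _ = _ := by ring
  · have e1 : 32 * ((n : ℝ) ^ (1 - κ) + 2) / (κ * γ * μ) ≤ w := by
      rw [hw]
      exact Nat.le_ceil _
    rw [div_le_iff₀ hκγμ] at e1
    have hw0 : (0 : ℝ) ≤ w := Nat.cast_nonneg _
    have e2 : (w : ℝ) * 32 ≤ w * (κ * γ * μ) := by gcongr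
    have e3 : (n : ℝ) ^ (1 - κ) + w + 2 ≤ w * (κ * γ * μ) / 16 := by linarith
    calc ((n : ℝ) ^ (1 - κ) + w + 2) * Real.log n ≤ (w * (κ * γ * μ) / 16) * Real.log n := by
          gcongr
      _ = _ := by ring

set_option maxHeartbeats 1000000 in
theorem exists_A {n : ℕ} (B : SimpleGraph (Fin n)) (p κ γ ζ μ Nm κ' c₁ : ℝ) (hp0 : 0 < p)
    (hp1 : p ≤ 1) (hκ0 : 0 < κ) (hκ1 : κ ≤ 1 / 2) (hγ0 : 0 < γ) (hζ : 0 < ζ) (hμ : μ = p * Nm)
    (hl1 : 1 ≤ Real.log n) (hn : 6 ≤ n) (hκ' : κ' = min (κ / 2) (1 / 20))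
    (hc₁1 : c₁ ≤ 1 / 40) (hc₁κ : c₁ ≤ κ / 8)
    (hNm : (n : ℝ) ^ (1 - c₁) ≤ Nm)
    (v5 : (288 / (κ * γ) + 9) / 2 ≤ (n : ℝ) ^ (κ' / 2))
    (v6 : 96 / (κ * γ) ≤ (n : ℝ) ^ (κ / 2))
    (v7 : 288 / ζ ^ 2 ≤ (n : ℝ) ^ ((3 : ℝ) / 40))
    (v8 : 2 * (12 / (κ' * ζ)) ^ 2 ≤ μ)
    (w m : ℕ) (hw : w = ⌈32 * ((n : ℝ) ^ (1 - κ) + 2) / (κ * γ * μ)⌉₊)
    (hm : m = w + ⌈(n : ℝ) ^ ((1 : ℝ) / 4)⌉₊) :
    ∃ A : ℝ, 0 < A ∧ A ≤ ζ * Real.sqrt (μ / 2 * Real.log n) ∧
      pb (qB B p) (fun G => ¬ ∀ X : Finset (Fin n), X.card ≤ 3 * m → e2 G X ≤ A * X.card) ≤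
        1 / n := by
  have hnr : (6 : ℝ) ≤ n := by exact_mod_cast hn
  have hn0 : (0 : ℝ) < n := by linarith
  have hn1 : (1 : ℝ) ≤ n := by linarith
  have hκ'0 : 0 < κ' := by
    rw [hκ']
    apply lt_min <;> [linarith; norm_num]
  have hκ'1 : κ' ≤ κ / 2 := by rw [hκ']; exact min_le_left _ _
  have hκ'2 : κ' ≤ 1 / 20 := by rw [hκ']; exact min_le_right _ _
  have hNm0 : 0 < Nm := lt_of_lt_of_le (by positivity) hNm
  have hμ0 : 0 < μ := by rw [hμ]; positivity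
  have hκγ : 0 < κ * γ := by positivity
  have hq := qB_01 B p hp0.le hp1
  -- the size of `w`
  have ht1 : (1 : ℝ) ≤ (n : ℝ) ^ (1 - κ) := Real.one_le_rpow hn1 (by linarith)
  have hw1 : (w : ℝ) ≤ 96 / (κ * γ) * (n : ℝ) ^ (1 - κ) / μ + 1 := by
    have h1 : (w : ℝ) < 32 * ((n : ℝ) ^ (1 - κ) + 2) / (κ * γ * μ) + 1 := by
      rw [hw]
      exact Nat.ceil_lt_add_one (by positivity)
    have h2 : 32 * ((n : ℝ) ^ (1 - κ) + 2) / (κ * γ * μ) ≤
        96 / (κ * γ) * (n : ℝ) ^ (1 - κ) / μ := by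
      calc 32 * ((n : ℝ) ^ (1 - κ) + 2) / (κ * γ * μ) ≤
          96 * (n : ℝ) ^ (1 - κ) / (κ * γ * μ) := by
            apply div_le_div_of_nonneg_right _ (by positivity)
            linarith
        _ = _ := by field_simp
    linarith
  have hpw : p * (w : ℝ) ≤ 96 / (κ * γ) * (n : ℝ) ^ (c₁ - κ) + p := by
    have h1 : (n : ℝ) ^ (1 - κ) / Nm ≤ (n : ℝ) ^ (c₁ - κ) := by
      rw [div_le_iff₀ hNm0]
      calc (n : ℝ) ^ (1 - κ) = (n : ℝ) ^ (c₁ - κ) * (n : ℝ) ^ (1 - c₁) := by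
            rw [← Real.rpow_add hn0]
            congr 1
            ring
        _ ≤ _ := by gcongr
    calc p * (w : ℝ) ≤ p * (96 / (κ * γ) * (n : ℝ) ^ (1 - κ) / μ + 1) := by gcongr
      _ = 96 / (κ * γ) * ((n : ℝ) ^ (1 - κ) / Nm) + p := by
          rw [hμ]
          field_simp
      _ ≤ _ := by gcongr
  have h14 : ((⌈(n : ℝ) ^ ((1 : ℝ) / 4)⌉₊ : ℕ) : ℝ) ≤ (n : ℝ) ^ ((1 : ℝ) / 4) + 1 :=
    (Nat.ceil_lt_add_one (by positivity)).le
  have h14' : (1 : ℝ) ≤ (n : ℝ) ^ ((1 : ℝ) / 4) := Real.one_le_rpow hn1 (by norm_num)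
  rcases le_or_gt p ((n : ℝ) ^ (-(3 / 10) : ℝ)) with hp | hp
  · -- sparse case
    refine ⟨12 / κ', by positivity, ?_, ?_⟩
    · have h1 : (12 / (κ' * ζ)) ^ 2 ≤ μ / 2 * Real.log n := by nlinarith
      have h2 : 12 / (κ' * ζ) ≤ Real.sqrt (μ / 2 * Real.log n) := Real.le_sqrt_of_sq_le h1
      calc 12 / κ' = ζ * (12 / (κ' * ζ)) := by field_simp
        _ ≤ _ := by gcongr
    · have h1 := sparse_all (qB B p) hq p (qB_le B p hp0.le) (12 / κ') (κ' / 4 * Real.log n)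
        (3 * m) (by positivity) hn (by
          have e1 : Real.exp (2 * (κ' / 4 * Real.log n)) = (n : ℝ) ^ (κ' / 2) := by
            rw [← exp_mul_log n (by omega)]
            congr 1
            ring
          rw [e1]
          have e2 : p * ((⌈(n : ℝ) ^ ((1 : ℝ) / 4)⌉₊ : ℕ) : ℝ) ≤ 2 * (n : ℝ) ^ (-κ') := by
            calc p * ((⌈(n : ℝ) ^ ((1 : ℝ) / 4)⌉₊ : ℕ) : ℝ) ≤
                (n : ℝ) ^ (-(3 / 10) : ℝ) * (2 * (n : ℝ) ^ ((1 : ℝ) / 4)) := by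
                  gcongr
                  linarith
              _ = 2 * ((n : ℝ) ^ (-(3 / 10) : ℝ) * (n : ℝ) ^ ((1 : ℝ) / 4)) := by ring
              _ = 2 * (n : ℝ) ^ (-(3 / 10) + 1 / 4 : ℝ) := by rw [Real.rpow_add hn0]
              _ ≤ 2 * (n : ℝ) ^ (-κ') := by
                  gcongr 2 * ?_
                  apply Real.rpow_le_rpow_of_exponent_le hn1
                  linarith
          have e3 : (n : ℝ) ^ (c₁ - κ) ≤ (n : ℝ) ^ (-κ') := by
            apply Real.rpow_le_rpow_of_exponent_le hn1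
            linarith
          have e4 : p ≤ (n : ℝ) ^ (-κ') := by
            refine hp.trans ?_
            apply Real.rpow_le_rpow_of_exponent_le hn1
            linarith
          have e5 : p * (m : ℝ) ≤ (96 / (κ * γ) + 3) * (n : ℝ) ^ (-κ') := by
            have e6 : 96 / (κ * γ) * (n : ℝ) ^ (c₁ - κ) ≤ 96 / (κ * γ) * (n : ℝ) ^ (-κ') := by
              gcongr
            have e7 : p * (m : ℝ) = p * w + p * ((⌈(n : ℝ) ^ ((1 : ℝ) / 4)⌉₊ : ℕ) : ℝ) := by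
              rw [hm]
              push_cast
              ring
            rw [e7]
            linarith
          calc p * (n : ℝ) ^ (κ' / 2) * (3 * m) / 2 =
              (p * m) * (3 / 2 * (n : ℝ) ^ (κ' / 2)) := by ring
            _ ≤ ((96 / (κ * γ) + 3) * (n : ℝ) ^ (-κ')) * (3 / 2 * (n : ℝ) ^ (κ' / 2)) := by gcongr
            _ = (288 / (κ * γ) + 9) / 2 * ((n : ℝ) ^ (-κ') * (n : ℝ) ^ (κ' / 2)) := by ring
            _ ≤ (n : ℝ) ^ (κ' / 2) * ((n : ℝ) ^ (-κ') * (n : ℝ) ^ (κ' / 2)) := by gcongr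
            _ = 1 := by
                rw [← Real.rpow_add hn0, ← Real.rpow_add hn0]
                have : κ' / 2 + (-κ' + κ' / 2) = 0 := by ring
                rw [this, Real.rpow_zero]) (by
          apply le_of_eq
          field_simp
          norm_num)
      refine le_trans (pb_mono _ hq ?_) h1
      intro G hG hcon
      apply hG
      intro X hX
      exact hcon X (by exact_mod_cast hX)
  · -- dense case
    have hμbig : (n : ℝ) ^ ((27 : ℝ) / 40) ≤ μ := by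
      rw [hμ]
      calc (n : ℝ) ^ ((27 : ℝ) / 40) = (n : ℝ) ^ (-(3 / 10) : ℝ) * (n : ℝ) ^ ((39 : ℝ) / 40) := by
            rw [← Real.rpow_add hn0]
            congr 1
            norm_num
        _ ≤ (n : ℝ) ^ (-(3 / 10) : ℝ) * (n : ℝ) ^ (1 - c₁) := by
            gcongr (n : ℝ) ^ (-(3 / 10) : ℝ) * ?_
            apply Real.rpow_le_rpow_of_exponent_le hn1
            linarith
        _ ≤ p * Nm := by gcongr
    have hw2 : (w : ℝ) ≤ (n : ℝ) ^ ((3 : ℝ) / 10) + 1 := by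
      refine hw1.trans ?_
      gcongr
      rw [div_le_iff₀ hμ0]
      have e1 : (n : ℝ) ^ (1 - c₁ - 3 / 10) ≤ μ := by
        rw [hμ]
        calc (n : ℝ) ^ (1 - c₁ - 3 / 10) = (n : ℝ) ^ (-(3 / 10) : ℝ) * (n : ℝ) ^ (1 - c₁) := by
              rw [← Real.rpow_add hn0]
              congr 1
              ring
          _ ≤ p * Nm := by gcongr
      calc 96 / (κ * γ) * (n : ℝ) ^ (1 - κ) ≤ (n : ℝ) ^ (κ / 2) * (n : ℝ) ^ (1 - κ) := by gcongr
        _ = (n : ℝ) ^ (1 - κ / 2) := by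
            rw [← Real.rpow_add hn0]
            congr 1
            ring
        _ ≤ (n : ℝ) ^ (1 - c₁) := by
            apply Real.rpow_le_rpow_of_exponent_le hn1
            linarith
        _ = (n : ℝ) ^ ((3 : ℝ) / 10) * (n : ℝ) ^ (1 - c₁ - 3 / 10) := by
            rw [← Real.rpow_add hn0]
            congr 1
            ring
        _ ≤ _ := by gcongr
    have h310 : (n : ℝ) ^ ((1 : ℝ) / 4) ≤ (n : ℝ) ^ ((3 : ℝ) / 10) := by
      apply Real.rpow_le_rpow_of_exponent_le hn1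
      norm_num
    have hm4 : (m : ℝ) ≤ 4 * (n : ℝ) ^ ((3 : ℝ) / 10) := by
      rw [hm]
      push_cast
      linarith
    have hm1 : (1 : ℝ) ≤ m := by
      have h1 : 1 ≤ ⌈(n : ℝ) ^ ((1 : ℝ) / 4)⌉₊ := by
        rw [Nat.one_le_ceil_iff]
        positivity
      rw [hm]
      exact_mod_cast (by omega : 1 ≤ w + ⌈(n : ℝ) ^ ((1 : ℝ) / 4)⌉₊)
    refine ⟨3 * m, by positivity, ?_, ?_⟩
    · have e1 : ((3 * m : ℝ) / ζ) ^ 2 ≤ μ / 2 * Real.log n := by
        calc ((3 * m : ℝ) / ζ) ^ 2 ≤ ((3 * (4 * (n : ℝ) ^ ((3 : ℝ) / 10))) / ζ) ^ 2 := by gcongr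
          _ = 288 / ζ ^ 2 * ((n : ℝ) ^ ((3 : ℝ) / 10) * (n : ℝ) ^ ((3 : ℝ) / 10)) / 2 := by
              field_simp
              ring
          _ ≤ (n : ℝ) ^ ((3 : ℝ) / 40) * ((n : ℝ) ^ ((3 : ℝ) / 10) *
              (n : ℝ) ^ ((3 : ℝ) / 10)) / 2 := by gcongr
          _ = (n : ℝ) ^ ((27 : ℝ) / 40) / 2 := by
              rw [← Real.rpow_add hn0, ← Real.rpow_add hn0]
              congr 2
              norm_num
          _ ≤ μ / 2 * 1 := by linarith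
          _ ≤ μ / 2 * Real.log n := by gcongr
      have e2 : (3 * m : ℝ) / ζ ≤ Real.sqrt (μ / 2 * Real.log n) := Real.le_sqrt_of_sq_le e1
      calc (3 * m : ℝ) = ζ * ((3 * m : ℝ) / ζ) := by field_simp
        _ ≤ _ := by gcongr
    · have e1 : pb (qB B p) (fun G => ¬ ∀ X : Finset (Fin n), X.card ≤ 3 * m →
          e2 G X ≤ 3 * m * X.card) ≤ pb (qB B p) (fun _ => False) := by
        apply pb_mono _ hq
        intro G hG
        apply hG
        intro X hX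
        refine (e2_le_sq G X).trans ?_
        have : (X.card : ℝ) ≤ 3 * m := by exact_mod_cast hX
        nlinarith
      rw [pb_false] at e1
      exact e1.trans (by positivity)

end Pool.Agent.W2helper87.FR
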