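import Pool.Agent.H162R2.Sparse.Main

/-!
# Choosing colours one after the other
-/

set_option autoImplicit false

namespace Pool.Agent.W2helper87.FR

open Finset Pool.Agent.H162R2.Sparse

/-- choosing distinct colours from lists such that no set `A k` is hit too often -/
theorem seq {ι K : Type} [Fintype K] [Nonempty K] [DecidableEq ι] (A : K → Finset ℕ) (lam : ℝ)
    (h0 : 0 ≤ lam) (s : Finset ι) (Lam : ι → Finset ℕ) (q : ι → K → ℝ)
    (hq0 : ∀ i k, 0 ≤ q i k) (hbig : ∀ i ∈ s, s.card < (Lam i).card)
    (hq : ∀ i ∈ s, ∀ k, ((Lam i ∩ A k).card : ℝ) ≤ q i k * ((Lam i).card - s.card)) :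
    ∃ z : ι → ℕ, (∀ i ∈ s, z i ∈ Lam i) ∧ Set.InjOn z s ∧
      ∀ k, lam * ((s.filter (fun i => z i ∈ A k)).card : ℝ) ≤
        Real.log (Fintype.card K) + (Real.exp lam - 1) * ∑ i ∈ s, q i k := by
  classical
  have hel : 0 ≤ Real.exp lam - 1 := by
    have := Real.add_one_le_exp lam
    linarith
  have key : ∀ s' : Finset ι, s' ⊆ s → ∃ z : ι → ℕ, (∀ i ∈ s', z i ∈ Lam i) ∧ Set.InjOn z s' ∧
      ∑ k, Real.exp (lam * ((s'.filter (fun i => z i ∈ A k)).card : ℝ) -
        (Real.exp lam - 1) * ∑ i ∈ s', q i k) ≤ Fintype.card K := by
    intro s'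
    induction s' using Finset.induction_on with
    | empty =>
      intro _
      refine ⟨fun _ => 0, by simp, by simp, ?_⟩
      simp
    | insert i s' hi ih =>
      intro hsub
      have his : i ∈ s := hsub (mem_insert_self _ _)
      have hs's : s' ⊆ s := (subset_insert _ _).trans hsub
      obtain ⟨z, hz1, hz2, hz3⟩ := ih hs's
      set av := Lam i \ s'.image z with hav
      have hcard : s'.card + 1 ≤ s.card := by
        have := card_le_card hsub
        rwa [card_insert_of_notMem hi] at this
      have hav1 : (Lam i).card - s.card ≤ av.card := by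
        have e1 := le_card_sdiff (s'.image z) (Lam i)
        have e2 : (s'.image z).card ≤ s'.card := card_image_le
        rw [hav]
        omega
      have hb := hbig i his
      have hav0 : 0 < av.card := by omega
      have hav1r : ((Lam i).card : ℝ) - s.card ≤ av.card := by
        have : (((Lam i).card - s.card : ℕ) : ℝ) ≤ av.card := by exact_mod_cast hav1
        rwa [Nat.cast_sub hb.le] at this
      have hav0r : (0 : ℝ) < av.card := by exact_mod_cast hav0
      let w : K → ℝ := fun k => Real.exp (lam * ((s'.filter (fun i => z i ∈ A k)).card : ℝ) -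
        (Real.exp lam - 1) * ∑ i ∈ s', q i k)
      have hw0 : ∀ k, 0 ≤ w k := fun k => (Real.exp_pos _).le
      -- the average over the available colours
      have havg : ∑ c ∈ av, ∑ k, w k * Real.exp (lam * (if c ∈ A k then 1 else 0) -
          (Real.exp lam - 1) * q i k) ≤ ∑ _c ∈ av, ∑ k, w k := by
        rw [sum_comm, sum_comm (s := av)]
        apply sum_le_sum
        intro k _
        rw [← mul_sum, sum_const, nsmul_eq_mul, mul_comm (av.card : ℝ)]
        apply mul_le_mul_of_nonneg_left _ (hw0 k)
        have e1 : ∀ c ∈ av, Real.exp (lam * (if c ∈ A k then 1 else 0) -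
            (Real.exp lam - 1) * q i k) = Real.exp (-((Real.exp lam - 1) * q i k)) *
            (1 + (Real.exp lam - 1) * (if c ∈ A k then 1 else 0)) := by
          intro c _
          rw [sub_eq_add_neg, Real.exp_add, mul_comm]
          congr 1
          split_ifs <;> simp
        rw [sum_congr rfl e1, ← mul_sum, sum_add_distrib, ← mul_sum, sum_const, nsmul_eq_mul,
          mul_one, sum_boole]
        have e2 : (((av.filter (fun c => c ∈ A k)).card : ℕ) : ℝ) ≤ q i k * av.card := by
          have e3 : av.filter (fun c => c ∈ A k) ⊆ Lam i ∩ A k := by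
            intro c hc
            rw [mem_filter, hav, mem_sdiff] at hc
            exact mem_inter.2 ⟨hc.1.1, hc.2⟩
          have e4 : ((av.filter (fun c => c ∈ A k)).card : ℝ) ≤ (Lam i ∩ A k).card := by
            exact_mod_cast card_le_card e3
          have e5 := hq i his k
          have e6 : q i k * ((Lam i).card - s.card) ≤ q i k * av.card := by
            have := hq0 i k
            gcongr
          linarith
        have e7 : (av.card : ℝ) + (Real.exp lam - 1) * (av.filter (fun c => c ∈ A k)).card ≤
            av.card * Real.exp ((Real.exp lam - 1) * q i k) := by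
          have e8 := Real.add_one_le_exp ((Real.exp lam - 1) * q i k)
          have e9 : (Real.exp lam - 1) * ((av.filter (fun c => c ∈ A k)).card : ℝ) ≤
              (Real.exp lam - 1) * (q i k * av.card) := by gcongr
          nlinarith
        calc Real.exp (-((Real.exp lam - 1) * q i k)) *
            ((av.card : ℝ) + (Real.exp lam - 1) * (av.filter (fun c => c ∈ A k)).card)
            ≤ Real.exp (-((Real.exp lam - 1) * q i k)) *
              (av.card * Real.exp ((Real.exp lam - 1) * q i k)) := by
              gcongr
          _ = av.card := by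
              rw [mul_left_comm, ← Real.exp_add]
              simp
      obtain ⟨c, hc, hcle⟩ := exists_le_of_sum_le (card_pos.1 hav0) havg
      refine ⟨fun j => if j = i then c else z j, ?_, ?_, ?_⟩
      · intro j hj
        rw [mem_insert] at hj
        by_cases hji : j = i
        · simp only [hji, if_true]
          rw [hav, mem_sdiff] at hc
          exact hc.1
        · simp only [hji, if_false]
          exact hz1 j (hj.resolve_left hji)
      · intro a ha b hb hab
        rw [coe_insert, Set.mem_insert_iff] at ha hb
        rw [hav, mem_sdiff, mem_image, not_exists] at hc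
        by_cases hai : a = i <;> by_cases hbi : b = i
        · rw [hai, hbi]
        · exfalso
          simp only [hai, hbi, if_true, if_false] at hab
          exact hc.2 b ⟨mem_coe.1 (hb.resolve_left hbi), hab.symm⟩
        · exfalso
          simp only [hai, hbi, if_true, if_false] at hab
          exact hc.2 a ⟨mem_coe.1 (ha.resolve_left hai), hab⟩
        · simp only [hai, hbi, if_false] at hab
          exact hz2 (ha.resolve_left hai) (hb.resolve_left hbi) hab
      · refine le_trans (le_of_eq ?_) (hcle.trans hz3)
        apply sum_congr rfl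
        intro k _
        simp only [w]
        rw [← Real.exp_add]
        congr 1
        have e1 : (insert i s').filter (fun j => (if j = i then c else z j) ∈ A k) =
            if c ∈ A k then insert i (s'.filter (fun j => z j ∈ A k))
              else s'.filter (fun j => z j ∈ A k) := by
          have e2 : s'.filter (fun j => (if j = i then c else z j) ∈ A k) =
              s'.filter (fun j => z j ∈ A k) := by
            apply filter_congr
            intro j hj
            have : j ≠ i := fun h => hi (h ▸ hj)
            simp only [this, if_false]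
          rw [filter_insert, e2]
          simp only [if_true]
        rw [e1, sum_insert hi]
        split_ifs with hcA
        · rw [card_insert_of_notMem (fun h => hi (mem_filter.1 h).1)]
          push_cast
          ring
        · ring
  obtain ⟨z, hz1, hz2, hz3⟩ := key s subset_rfl
  refine ⟨z, hz1, hz2, fun k => ?_⟩
  have h1 := (single_le_sum (f := fun k => Real.exp (lam * ((s.filter
    (fun i => z i ∈ A k)).card : ℝ) - (Real.exp lam - 1) * ∑ i ∈ s, q i k))
    (fun k _ => (Real.exp_pos _).le) (mem_univ k)).trans hz3
  have hK : (0 : ℝ) < Fintype.card K := by exact_mod_cast Fintype.card_pos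
  have h2 := (Real.le_log_iff_exp_le hK).2 h1
  linarith

/-- processing the vertices of `P` one after the other -/
theorem pre {n : ℕ} (P : Finset (Fin n)) (Eu : Fin n → Finset (Fin n))
    (L : Fin n → Fin n → Finset ℕ) (h : ℕ) (Good : Fin n → (Fin n → ℕ) → Prop)
    (hh : ∀ v, (P.filter (fun u => v ∈ Eu u)).card ≤ h)
    (hloc : ∀ u ∈ P, ∀ Fb : Fin n → Finset ℕ, (∀ v ∈ Eu u, (Fb v).card ≤ h) →
      ∃ z : Fin n → ℕ, (∀ v ∈ Eu u, z v ∈ L u v ∧ z v ∉ Fb v) ∧ Set.InjOn z (Eu u) ∧ Good u z) :
    ∃ g : Fin n → Fin n → ℕ, ∀ u ∈ P, (∀ v ∈ Eu u, g u v ∈ L u v) ∧ Set.InjOn (g u) (Eu u) ∧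
      Good u (g u) ∧ ∀ u' ∈ P, u' ≠ u → ∀ v ∈ Eu u, v ∈ Eu u' → g u v ≠ g u' v := by
  classical
  have key : ∀ P' : Finset (Fin n), P' ⊆ P → ∃ g : Fin n → Fin n → ℕ, ∀ u ∈ P',
      (∀ v ∈ Eu u, g u v ∈ L u v) ∧ Set.InjOn (g u) (Eu u) ∧
      Good u (g u) ∧ ∀ u' ∈ P', u' ≠ u → ∀ v ∈ Eu u, v ∈ Eu u' → g u v ≠ g u' v := by
    intro P'
    induction P' using Finset.induction_on with
    | empty =>
      intro _
      exact ⟨fun _ _ => 0, by simp⟩
    | insert a P' ha ih =>
      intro hsub
      obtain ⟨g, hg⟩ := ih ((subset_insert _ _).trans hsub)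
      obtain ⟨z, hz1, hz2, hz3⟩ := hloc a (hsub (mem_insert_self _ _))
        (fun v => (P'.filter (fun u => v ∈ Eu u)).image (fun u => g u v)) (by
          intro v _
          refine card_image_le.trans ((card_le_card ?_).trans (hh v))
          exact filter_subset_filter _ ((subset_insert _ _).trans hsub))
      refine ⟨fun u => if u = a then z else g u, fun u hu => ?_⟩
      have hza : ∀ u ∈ P', ∀ v ∈ Eu a, v ∈ Eu u → z v ≠ g u v := by
        intro u hu v hva hvu heq
        apply (hz1 v hva).2
        rw [mem_image]
        exact ⟨u, mem_filter.2 ⟨hu, hvu⟩, heq.symm⟩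
      rw [mem_insert] at hu
      by_cases hua : u = a
      · subst hua
        simp only [if_true]
        refine ⟨fun v hv => (hz1 v hv).1, hz2, hz3, ?_⟩
        intro u' hu' hne v hv hv'
        rw [mem_insert] at hu'
        simp only [hne, if_false]
        exact hza u' (hu'.resolve_left hne) v hv hv'
      · have huP := hu.resolve_left hua
        obtain ⟨g1, g2, g3, g4⟩ := hg u huP
        simp only [hua, if_false]
        refine ⟨g1, g2, g3, ?_⟩
        intro u' hu' hne v hv hv'
        rw [mem_insert] at hu'
        by_cases hu'a : u' = a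
        · subst hu'a
          simp only [if_true]
          exact (hza u huP v hv' hv).symm
        · simp only [hu'a, if_false]
          exact g4 u' (hu'.resolve_left hu'a) hne v hv hv'
  exact key P subset_rfl

/-- some edges are coloured first -/
theorem lc_ext {V : Type} (G G₁ G₂ : SimpleGraph V) (L : V → V → Finset ℕ)
    (f : V → V → ℕ) (U : V → Finset ℕ)
    (hG : ∀ a b, G.Adj a b → G₁.Adj a b ∨ G₂.Adj a b)
    (hf1 : ∀ a b, G₁.Adj a b → f a b = f b a) (hf2 : ∀ a b, G₁.Adj a b → f a b ∈ L a b)
    (hf3 : ∀ a b c, G₁.Adj a b → G₁.Adj a c → b ≠ c → f a b ≠ f a c)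
    (hU : ∀ a b, G₁.Adj a b → f a b ∈ U a)
    (h2 : LC G₂ (fun a b => L a b \ (U a ∪ U b))) : LC G L := by
  classical
  obtain ⟨g, k1, k2, k3⟩ := h2
  have hd : ∀ a b, G.Adj a b → ¬ G₁.Adj a b → G₂.Adj a b := fun a b h h' => (hG a b h).resolve_left h'
  refine ⟨fun a b => if G₁.Adj a b then f a b else g a b, ?_, ?_, ?_⟩
  · intro a b hab
    by_cases h : G₁.Adj a b
    · simp only [h, h.symm, if_true]
      exact hf1 a b h
    · have h' : ¬ G₁.Adj b a := fun h' => h h'.symm
      simp only [h, h', if_false]
      exact k1 a b (hd a b hab h)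
  · intro a b hab
    by_cases h : G₁.Adj a b
    · simp only [h, if_true]
      exact hf2 a b h
    · simp only [h, if_false]
      exact (mem_sdiff.1 (k2 a b (hd a b hab h))).1
  · intro a b c hab hac hbc
    by_cases h : G₁.Adj a b <;> by_cases h' : G₁.Adj a c
    · simp only [h, h', if_true]
      exact hf3 a b c h h' hbc
    · simp only [h, h', if_true, if_false]
      intro heq
      have h3 := (mem_sdiff.1 (k2 a c (hd a c hac h'))).2
      exact h3 (mem_union_left _ (heq ▸ hU a b h))
    · simp only [h, h', if_true, if_false]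
      intro heq
      have h3 := (mem_sdiff.1 (k2 a b (hd a b hab h))).2
      exact h3 (mem_union_left _ (heq ▸ hU a c h'))
    · simp only [h, h', if_false]
      exact k3 a b c (hd a b hab h) (hd a c hac h') hbc

end Pool.Agent.W2helper87.FR
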