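import Pool.Agent.W2helper87.FR.Tl
import Pool.Agent.W2helper87.SR.Det

/-!
# Two-sided splittings of the vertices and of the colours
-/

set_option autoImplicit false

namespace Pool.Agent.W2helper87.FR

open Finset Pool.Agent.H162R2.Sparse Pool.Agent.H162R2.AG Pool.Agent.W2helper87.SR

/-- splitting the vertices -/
theorem sigma2 {n : ℕ} (J : ℕ) (G : SimpleGraph (Fin n)) (D : ℕ) (hD : 0 < D)
    (hdeg : ∀ v, dg G v ≤ D) (x t1 tJ η : ℝ) (h1 : 0 ≤ t1 ∧ t1 ≤ 2 * D) (h1' : 4 * D * x ≤ t1 ^ 2)
    (hJ : 0 ≤ tJ ∧ tJ ≤ 2 * (D / 2 ^ J)) (hJ' : 4 * ((D : ℝ) / 2 ^ J) * x ≤ tJ ^ 2)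
    (hη : 0 ≤ η ∧ η ≤ 2 * D)
    (hx : 4 * ((n : ℝ) * 2 ^ (2 ^ J) + n * 2 ^ J) * Real.exp (-x) < 1) :
    ∃ σ : Fin n → (Fin J → Bool), ∃ T : Finset (Fin n),
      (T.card : ℝ) ≤ 4 * Real.exp (-(η ^ 2) / (4 * D)) * (n * 2 ^ (2 ^ J)) ∧
      (∀ v, ∀ B : Finset (Fin J → Bool),
        |(((nb G v).filter (fun w => σ w ∈ B)).card : ℝ) - dg G v * ((B.card : ℝ) / 2 ^ J)| ≤ t1) ∧
      (∀ v, |(((nb G v).filter (fun w => σ w = σ v)).card : ℝ) - dg G v / 2 ^ J| ≤ tJ) ∧
      (∀ v ∉ T, ∀ B : Finset (Fin J → Bool),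
        |(((nb G v).filter (fun w => σ w ∈ B)).card : ℝ) - dg G v * ((B.card : ℝ) / 2 ^ J)| ≤ η) := by
  classical
  have hκ : 0 < Fintype.card (Fin J → Bool) := Fintype.card_pos
  have hcard : (Fintype.card (Fin J → Bool) : ℝ) = 2 ^ J := by simp
  have hDr : (0 : ℝ) < D := by exact_mod_cast hD
  have hdr : ∀ v, ((nb G v).card : ℝ) ≤ D := fun v => by exact_mod_cast hdeg v
  have hB1 : ∀ B : Finset (Fin J → Bool), (B.card : ℝ) / 2 ^ J ≤ 1 := by
    intro B
    rw [div_le_one (by positivity), ← hcard]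
    exact_mod_cast card_le_univ B
  let I := (Fin n × Finset (Fin J → Bool)) ⊕ (Fin n × (Fin J → Bool))
  obtain ⟨σ, hσ1, hσ2⟩ := rfun (ι := Fin n) (κ := Fin J → Bool) (I := I)
    (K := Fin n × Finset (Fin J → Bool)) hκ
    (Sum.elim (fun i => nb G i.1) (fun i => nb G i.1))
    (Sum.elim (fun i => i.2) (fun i => {i.2}))
    (Sum.elim (fun _ => (D : ℝ)) (fun _ => (D : ℝ) / 2 ^ J))
    (Sum.elim (fun _ => t1) (fun _ => tJ)) x
    (by
      rintro (i | i)
      · exact hDr
      · simp only [Sum.elim_inr]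
        positivity)
    (by
      rintro (i | i)
      · simp only [Sum.elim_inl]
        rw [hcard]
        calc ((nb G i.1).card : ℝ) * ((i.2.card : ℝ) / 2 ^ J) ≤ D * 1 := by
              gcongr
              · exact hdeg i.1
              · exact hB1 i.2
          _ = D := mul_one _
      · simp only [Sum.elim_inr]
        rw [hcard, card_singleton, Nat.cast_one, mul_one_div]
        gcongr
        exact hdeg i.1)
    (by
      rintro (i | i)
      · exact h1
      · exact hJ)
    (by
      rintro (i | i)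
      · exact h1'
      · exact hJ')
    (by
      rw [Fintype.card_sum, Fintype.card_prod, Fintype.card_prod, Fintype.card_finset,
        Fintype.card_fin]
      push_cast
      rw [hcard]
      simpa using hx)
    (fun i => nb G i.1) (fun i => i.2) D η hDr
    (by
      intro i
      rw [hcard]
      calc ((nb G i.1).card : ℝ) * ((i.2.card : ℝ) / 2 ^ J) ≤ D * 1 := by
            gcongr
            · exact hdeg i.1
            · exact hB1 i.2
        _ = D := mul_one _) hη
  refine ⟨σ, (univ.filter (fun i : Fin n × Finset (Fin J → Bool) =>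
    η < |(((nb G i.1).filter (fun a => σ a ∈ i.2)).card : ℝ) -
        (nb G i.1).card * ((i.2).card / Fintype.card (Fin J → Bool))|)).image Prod.fst,
    ?_, ?_, ?_, ?_⟩
  · have h2 : (((univ.filter (fun i : Fin n × Finset (Fin J → Bool) =>
      η < |(((nb G i.1).filter (fun a => σ a ∈ i.2)).card : ℝ) -
        (nb G i.1).card * ((i.2).card / Fintype.card (Fin J → Bool))|)).image Prod.fst).card : ℝ) ≤
        ((univ.filter (fun i : Fin n × Finset (Fin J → Bool) =>
      η < |(((nb G i.1).filter (fun a => σ a ∈ i.2)).card : ℝ) -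
        (nb G i.1).card * ((i.2).card / Fintype.card (Fin J → Bool))|)).card : ℝ) := by
      exact_mod_cast card_image_le
    refine h2.trans (hσ2.trans (le_of_eq ?_))
    rw [Fintype.card_prod, Fintype.card_finset, Fintype.card_fin]
    push_cast
    simp
  · intro v B
    have := hσ1 (Sum.inl (v, B))
    simp only [Sum.elim_inl] at this
    rw [hcard] at this
    exact this
  · intro v
    have := hσ1 (Sum.inr (v, σ v))
    simp only [Sum.elim_inr, mem_singleton] at this
    rw [hcard, card_singleton, Nat.cast_one, mul_one_div] at this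
    exact this
  · intro v hv B
    by_contra hcon
    push Not at hcon
    apply hv
    rw [mem_image]
    refine ⟨(v, B), ?_, rfl⟩
    rw [mem_filter]
    refine ⟨mem_univ _, ?_⟩
    simp only
    rw [hcard]
    exact hcon

/-- the index of the block -/
def bi (J : ℕ) (M : ℕ → ℕ) (x : ℕ) : ℕ := ((range J).filter (fun i => M (i + 1) ≤ x)).card

theorem bi_le (J : ℕ) (M : ℕ → ℕ) (x : ℕ) : bi J M x ≤ J := by
  unfold bi
  refine (card_filter_le _ _).trans ?_
  rw [card_range]

theorem bi_eq (J : ℕ) (M : ℕ → ℕ) (hM : Monotone M) (hM0 : M 0 = 0) (x j : ℕ) (hj : j < J) :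
    bi J M x = j ↔ M j ≤ x ∧ x < M (j + 1) := by
  unfold bi
  constructor
  · intro h
    constructor
    · by_contra hcon
      push Not at hcon
      have hj0 : j ≠ 0 := by
        rintro rfl
        omega
      have h1 : (range J).filter (fun i => M (i + 1) ≤ x) ⊆ range (j - 1) := by
        intro i hi
        rw [mem_filter] at hi
        rw [mem_range]
        by_contra hc
        have : M j ≤ M (i + 1) := hM (by omega)
        omega
      have h2 := card_le_card h1
      rw [card_range] at h2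
      omega
    · by_contra hcon
      push Not at hcon
      have h1 : range (j + 1) ⊆ (range J).filter (fun i => M (i + 1) ≤ x) := by
        intro i hi
        rw [mem_range] at hi
        rw [mem_filter, mem_range]
        have : M (i + 1) ≤ M (j + 1) := hM (by omega)
        exact ⟨by omega, by omega⟩
      have h2 := card_le_card h1
      rw [card_range] at h2
      omega
  · rintro ⟨h1, h2⟩
    have : (range J).filter (fun i => M (i + 1) ≤ x) = range j := by
      ext i
      rw [mem_filter, mem_range, mem_range]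
      constructor
      · rintro ⟨_, h4⟩
        by_contra hc
        have : M (j + 1) ≤ M (i + 1) := hM (by omega)
        omega
      · intro h3
        have : M (i + 1) ≤ M j := hM (by omega)
        exact ⟨by omega, by omega⟩
    rw [this, card_range]

theorem bi_last (J : ℕ) (M : ℕ → ℕ) (hM : Monotone M) (hM0 : M 0 = 0) (x : ℕ) :
    bi J M x = J ↔ M J ≤ x := by
  unfold bi
  constructor
  · intro h
    rcases Nat.eq_zero_or_pos J with h0 | h0
    · subst h0
      rw [hM0]
      exact Nat.zero_le _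
    · by_contra hcon
      push Not at hcon
      have h1 : (range J).filter (fun i => M (i + 1) ≤ x) ⊆ range (J - 1) := by
        intro i hi
        rw [mem_filter] at hi
        rw [mem_range]
        by_contra hc
        have : M J ≤ M (i + 1) := hM (by omega)
        omega
      have h2 := card_le_card h1
      rw [card_range] at h2
      omega
  · intro h
    have : (range J).filter (fun i => M (i + 1) ≤ x) = range J := by
      apply filter_true_of_mem
      intro i hi
      rw [mem_range] at hi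
      have : M (i + 1) ≤ M J := hM (by omega)
      omega
    rw [this, card_range]

/-- the size of a colour class -/
def sz (D J : ℕ) (mj : ℕ → ℕ) (j : ℕ) : ℕ := if j < J then mj j else D - ∑ i ∈ range J, mj i

/-- splitting the colours -/
theorem cfun (D : ℕ) (hD : 0 < D) (J : ℕ) (mj : ℕ → ℕ) (hM : ∑ j ∈ range J, mj j ≤ D)
    {I K : Type} [Fintype I] [Fintype K] (A : I → Finset ℕ) (j : I → ℕ) (hj : ∀ i, j i ≤ J)
    (v t : I → ℝ) (x : ℝ) (hv : ∀ i, 0 < v i)
    (hA : ∀ i, ((A i).card : ℝ) * (sz D J mj (j i) / D) ≤ v i)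
    (ht : ∀ i, 0 ≤ t i ∧ t i ≤ 2 * v i) (hx : ∀ i, 4 * v i * x ≤ (t i) ^ 2)
    (hI : 4 * (Fintype.card I : ℝ) * Real.exp (-x) < 1)
    (A' : K → Finset ℕ) (j' : K → ℕ) (hj' : ∀ i, j' i ≤ J) (v' t' : ℝ)
    (hv' : 0 < v') (hA' : ∀ i, ((A' i).card : ℝ) * (sz D J mj (j' i) / D) ≤ v')
    (ht' : 0 ≤ t' ∧ t' ≤ 2 * v') :
    ∃ cls : ℕ → ℕ, (∀ c, cls c ≤ J) ∧
      (∀ i, |(((A i).filter (fun c => cls c = j i)).card : ℝ) -
        (A i).card * (sz D J mj (j i) / D)| ≤ t i) ∧
      ((univ.filter (fun i : K => t' < |(((A' i).filter (fun c => cls c = j' i)).card : ℝ) -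
        (A' i).card * (sz D J mj (j' i) / D)|)).card : ℝ) ≤
        4 * Real.exp (-(t' ^ 2) / (4 * v')) * Fintype.card K := by
  classical
  have : NeZero D := ⟨hD.ne'⟩
  let Mx : ℕ := (univ.sup fun i : I => (A i).sup id) + (univ.sup fun i : K => (A' i).sup id) + 1
  have hM1 : ∀ i, ∀ c ∈ A i, c < Mx := by
    intro i c hc
    have e1 : c ≤ (A i).sup id := Finset.le_sup (f := id) hc
    have e2 : (A i).sup id ≤ univ.sup fun i : I => (A i).sup id :=
      Finset.le_sup (f := fun i : I => (A i).sup id) (mem_univ i)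
    simp only [Mx]
    omega
  have hM2 : ∀ i, ∀ c ∈ A' i, c < Mx := by
    intro i c hc
    have e1 : c ≤ (A' i).sup id := Finset.le_sup (f := id) hc
    have e2 : (A' i).sup id ≤ univ.sup fun i : K => (A' i).sup id :=
      Finset.le_sup (f := fun i : K => (A' i).sup id) (mem_univ i)
    simp only [Mx]
    omega
  let M : ℕ → ℕ := fun j => ∑ i ∈ range j, mj i
  have hMs : ∀ j, M (j + 1) = M j + mj j := fun j => Finset.sum_range_succ _ _
  have hMmono : Monotone M := monotone_nat_of_le_succ fun j => by rw [hMs]; omega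
  have hM0 : M 0 = 0 := rfl
  let Bl : ℕ → Finset (Fin D) := fun j => univ.filter (fun y : Fin D => bi J M y = j)
  have hBl : ∀ j ≤ J, (Bl j).card = sz D J mj j := by
    intro j hj
    unfold sz
    split_ifs with h
    · have h1 : Bl j = univ.filter (fun y : Fin D => M j ≤ (y : ℕ) ∧ (y : ℕ) < M (j + 1)) := by
        apply filter_congr
        intro y _
        exact bi_eq J M hMmono hM0 y j h
      rw [h1, card_Ico_fin D (M j) (M (j + 1)) ((hMmono (by omega : j + 1 ≤ J)).trans hM), hMs]
      omega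
    · have hjJ : j = J := by omega
      subst hjJ
      have h1 : Bl j = univ.filter (fun y : Fin D => M j ≤ (y : ℕ) ∧ (y : ℕ) < D) := by
        apply filter_congr
        intro y _
        rw [bi_last j M hMmono hM0 y]
        exact ⟨fun h => ⟨h, y.isLt⟩, fun h => h.1⟩
      rw [h1, card_Ico_fin D (M j) D le_rfl]
  let hat : Finset ℕ → Finset (Fin Mx) := fun S => univ.filter (fun i : Fin Mx => (i : ℕ) ∈ S)
  have hhat : ∀ S : Finset ℕ, (∀ c ∈ S, c < Mx) → (hat S).card = S.card := by
    intro S hS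
    rw [← card_image_of_injective (hat S) Fin.val_injective]
    congr 1
    ext c
    rw [mem_image]
    constructor
    · rintro ⟨i, hi, rfl⟩
      exact (mem_filter.1 hi).2
    · intro hc
      exact ⟨⟨c, hS c hc⟩, mem_filter.2 ⟨mem_univ _, hc⟩, rfl⟩
  have hcD : (Fintype.card (Fin D) : ℝ) = D := by simp
  obtain ⟨ψ, hψ1, hψ2⟩ := rfun (ι := Fin Mx) (κ := Fin D) (I := I) (K := K) (by simpa using hD)
    (fun i => hat (A i)) (fun i => Bl (j i)) v t x hv (by
      intro i
      rw [hhat _ (hM1 i), hBl _ (hj i), hcD]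
      exact hA i) ht hx hI (fun i => hat (A' i)) (fun i => Bl (j' i)) v' t' hv' (by
      intro i
      rw [hhat _ (hM2 i), hBl _ (hj' i), hcD]
      exact hA' i) ht'
  let cls : ℕ → ℕ := fun c => if h : c < Mx then bi J M (ψ ⟨c, h⟩) else J
  have hcl : ∀ (S : Finset ℕ) (k : ℕ), (∀ c ∈ S, c < Mx) →
      ((hat S).filter (fun i => ψ i ∈ Bl k)).card = (S.filter (fun c => cls c = k)).card := by
    intro S k hS
    rw [← card_image_of_injective ((hat S).filter (fun i => ψ i ∈ Bl k)) Fin.val_injective]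
    congr 1
    ext c
    rw [mem_image, mem_filter]
    constructor
    · rintro ⟨i, hi, rfl⟩
      rw [mem_filter, mem_filter] at hi
      refine ⟨hi.1.2, ?_⟩
      simp only [cls]
      rw [dif_pos i.isLt]
      exact (mem_filter.1 hi.2).2
    · rintro ⟨hc, hc2⟩
      have hcM := hS c hc
      simp only [cls] at hc2
      rw [dif_pos hcM] at hc2
      refine ⟨⟨c, hcM⟩, mem_filter.2 ⟨mem_filter.2 ⟨mem_univ _, hc⟩, ?_⟩, rfl⟩
      exact mem_filter.2 ⟨mem_univ _, hc2⟩
  refine ⟨cls, ?_, ?_, ?_⟩
  · intro c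
    simp only [cls]
    split_ifs
    · exact bi_le J M _
    · exact le_rfl
  · intro i
    have := hψ1 i
    rwa [hcl _ _ (hM1 i), hhat _ (hM1 i), hBl _ (hj i), hcD] at this
  · have h1 : (univ.filter (fun i : K => t' < |(((A' i).filter (fun c => cls c = j' i)).card : ℝ) -
        (A' i).card * (sz D J mj (j' i) / D)|)) =
        (univ.filter (fun i : K => t' < |((((hat (A' i))).filter (fun a => ψ a ∈ Bl (j' i))).card : ℝ) -
        (hat (A' i)).card * ((Bl (j' i)).card / Fintype.card (Fin D))|)) := by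
      apply filter_congr
      intro i _
      rw [hcl _ _ (hM2 i), hhat _ (hM2 i), hBl _ (hj' i), hcD]
    rw [h1]
    exact hψ2

end Pool.Agent.W2helper87.FR
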