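import Pool.Agent.W2helper87.SR.Tail

/-!
# Random functions: two-sided tails depending on the variance
-/

set_option autoImplicit false

namespace Pool.Agent.W2helper87.FR

open Finset Pool.Agent.W2helper87.SR

/-- the exponential moment of a centred indicator -/
theorem mgf2 {κ : Type} [Fintype κ] [DecidableEq κ] (B : Finset κ)
    (hκ : 0 < Fintype.card κ) (lam : ℝ) (h1 : |lam| ≤ 1) :
    ∑ x : κ, Real.exp (lam * ((if x ∈ B then (1 : ℝ) else 0) - (B.card : ℝ) / Fintype.card κ)) ≤
      Fintype.card κ * Real.exp (lam ^ 2 * ((B.card : ℝ) / Fintype.card κ)) := by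
  classical
  set p : ℝ := (B.card : ℝ) / Fintype.card κ with hp
  have hκ' : (0 : ℝ) < Fintype.card κ := by exact_mod_cast hκ
  have hp0 : 0 ≤ p := by positivity
  have hp1 : p ≤ 1 := by
    rw [hp, div_le_one hκ']
    exact_mod_cast Finset.card_le_univ B
  have hterm : ∀ x : κ, Real.exp (lam * ((if x ∈ B then (1 : ℝ) else 0) - p)) ≤
      1 + lam * ((if x ∈ B then (1 : ℝ) else 0) - p) +
        (lam * ((if x ∈ B then (1 : ℝ) else 0) - p)) ^ 2 := by
    intro x
    apply exp_le_quad
    rw [abs_mul]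
    have : |(if x ∈ B then (1 : ℝ) else 0) - p| ≤ 1 := by
      rw [abs_le]
      split_ifs <;> constructor <;> linarith
    calc |lam| * |(if x ∈ B then (1 : ℝ) else 0) - p| ≤ 1 * 1 := by
          apply mul_le_mul h1 this (abs_nonneg _) zero_le_one
      _ = 1 := by ring
  have hsum : ∑ x : κ, (if x ∈ B then (1 : ℝ) else 0) = B.card := by
    rw [Finset.sum_boole]
    congr 2
    ext x
    simp
  have hsq : ∀ x : κ, ((if x ∈ B then (1 : ℝ) else 0) - p) ^ 2 =
      (1 - 2 * p) * (if x ∈ B then (1 : ℝ) else 0) + p ^ 2 := by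
    intro x
    split_ifs <;> ring
  have hB : (B.card : ℝ) = p * Fintype.card κ := by
    rw [hp]
    field_simp
  have h2 : ∑ x : κ, (1 + lam * ((if x ∈ B then (1 : ℝ) else 0) - p) +
        (lam * ((if x ∈ B then (1 : ℝ) else 0) - p)) ^ 2) =
      Fintype.card κ * (1 + lam ^ 2 * (p * (1 - p))) := by
    have e1 : ∀ x : κ, (1 + lam * ((if x ∈ B then (1 : ℝ) else 0) - p) +
        (lam * ((if x ∈ B then (1 : ℝ) else 0) - p)) ^ 2) =
        (lam + lam ^ 2 * (1 - 2 * p)) * (if x ∈ B then (1 : ℝ) else 0) +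
          (1 - lam * p + lam ^ 2 * p ^ 2) := by
      intro x
      rw [mul_pow, hsq]
      ring
    rw [Finset.sum_congr rfl (fun x _ => e1 x), Finset.sum_add_distrib, ← Finset.mul_sum, hsum,
      Finset.sum_const, nsmul_eq_mul, Finset.card_univ, hB]
    ring
  refine (Finset.sum_le_sum fun x _ => hterm x).trans ?_
  rw [h2]
  apply mul_le_mul_of_nonneg_left _ hκ'.le
  have h3 : p * (1 - p) ≤ p := by nlinarith [mul_nonneg hp0 hp0]
  have h4 := Real.add_one_le_exp (lam ^ 2 * p)
  have h5 : lam ^ 2 * (p * (1 - p)) ≤ lam ^ 2 * p := by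
    apply mul_le_mul_of_nonneg_left h3
    positivity
  linarith

/-- one tail -/
theorem tail1 {ι κ : Type} [Fintype ι] [DecidableEq ι] [Fintype κ] [DecidableEq κ]
    (S : Finset ι) (B : Finset κ) (hκ : 0 < Fintype.card κ) (v t sg : ℝ) (hv : 0 < v)
    (hS : (S.card : ℝ) * ((B.card : ℝ) / Fintype.card κ) ≤ v) (ht : 0 ≤ t) (ht2 : t ≤ 2 * v)
    (hsg : sg = 1 ∨ sg = -1) :
    ((univ.filter (fun ψ : ι → κ => t ≤ sg * (((S.filter (fun i => ψ i ∈ B)).card : ℝ) -
      (S.card : ℝ) * (B.card / Fintype.card κ)))).card : ℝ) ≤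
      Real.exp (-(t ^ 2) / (4 * v)) * (Fintype.card (ι → κ) : ℝ) := by
  classical
  set p : ℝ := (B.card : ℝ) / Fintype.card κ with hp
  set lam : ℝ := t / (2 * v) with hlam
  have hl0 : 0 ≤ lam := by positivity
  have hl1 : lam ≤ 1 := by
    rw [hlam, div_le_one (by positivity)]
    linarith
  have hsq : sg ^ 2 = 1 := by rcases hsg with h | h <;> rw [h] <;> norm_num
  have hla : |lam * sg| ≤ 1 := by
    rw [abs_mul, abs_of_nonneg hl0]
    rcases hsg with h | h <;> rw [h] <;> simp [hl1]
  have hκ' : (0 : ℝ) < Fintype.card κ := by exact_mod_cast hκ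
  have h1 : ((univ.filter (fun ψ : ι → κ => t ≤ sg * (((S.filter (fun i => ψ i ∈ B)).card : ℝ) -
      (S.card : ℝ) * p))).card : ℝ) ≤
      ∑ ψ : ι → κ, Real.exp (lam * (sg * (((S.filter (fun i => ψ i ∈ B)).card : ℝ) -
        S.card * p) - t)) := by
    rw [← Finset.sum_boole]
    apply Finset.sum_le_sum
    intro ψ _
    split_ifs with h
    · rw [← Real.exp_zero]
      apply Real.exp_le_exp.2
      apply mul_nonneg hl0
      linarith
    · positivity
  refine h1.trans ?_
  have h2 : ∀ ψ : ι → κ, Real.exp (lam * (sg * (((S.filter (fun i => ψ i ∈ B)).card : ℝ) -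
        S.card * p) - t)) = Real.exp (-(lam * t)) *
      ∏ i, (if i ∈ S then Real.exp (lam * sg * ((if ψ i ∈ B then (1 : ℝ) else 0) - p)) else 1) := by
    intro ψ
    rw [Finset.prod_ite_mem, Finset.univ_inter, ← Real.exp_sum, ← Real.exp_add]
    congr 1
    rw [← Finset.mul_sum, Finset.sum_sub_distrib, Finset.sum_const, nsmul_eq_mul, Finset.sum_boole]
    ring
  rw [Finset.sum_congr rfl (fun ψ _ => h2 ψ), ← Finset.mul_sum,
    sum_fun_prod (fun i x => if i ∈ S then Real.exp (lam * sg * ((if x ∈ B then (1 : ℝ) else 0) - p))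
      else 1)]
  have h3 : ∏ i : ι, ∑ x : κ, (if i ∈ S then
        Real.exp (lam * sg * ((if x ∈ B then (1 : ℝ) else 0) - p)) else 1) ≤
      ∏ i : ι, ((Fintype.card κ : ℝ) * (if i ∈ S then Real.exp (lam ^ 2 * p) else 1)) := by
    apply Finset.prod_le_prod
    · intro i _
      apply Finset.sum_nonneg
      intro x _
      split_ifs <;> positivity
    · intro i _
      by_cases hi : i ∈ S
      · simp only [hi, if_true]
        have := mgf2 B hκ (lam * sg) hla
        rwa [mul_pow, hsq, mul_one] at this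
      · simp [hi]
  have h4 : ∏ i : ι, ((Fintype.card κ : ℝ) * (if i ∈ S then Real.exp (lam ^ 2 * p) else 1)) =
      (Fintype.card (ι → κ) : ℝ) * Real.exp (S.card * (lam ^ 2 * p)) := by
    rw [Finset.prod_mul_distrib, Finset.prod_const, Finset.card_univ, Finset.prod_ite_mem,
      Finset.univ_inter, Finset.prod_const, ← Real.exp_nat_mul, Fintype.card_fun]
    push_cast
    ring
  calc Real.exp (-(lam * t)) * ∏ i : ι, ∑ x : κ, (if i ∈ S then
        Real.exp (lam * sg * ((if x ∈ B then (1 : ℝ) else 0) - p)) else 1)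
      ≤ Real.exp (-(lam * t)) * ((Fintype.card (ι → κ) : ℝ) *
          Real.exp (S.card * (lam ^ 2 * p))) := by
        rw [← h4]
        exact mul_le_mul_of_nonneg_left h3 (Real.exp_pos _).le
    _ = Real.exp (-(lam * t) + S.card * (lam ^ 2 * p)) * (Fintype.card (ι → κ) : ℝ) := by
        rw [Real.exp_add]
        ring
    _ ≤ Real.exp (-(t ^ 2) / (4 * v)) * (Fintype.card (ι → κ) : ℝ) := by
        apply mul_le_mul_of_nonneg_right _ (by positivity)
        apply Real.exp_le_exp.2
        have h5 : (S.card : ℝ) * (lam ^ 2 * p) ≤ lam ^ 2 * v := by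
          calc (S.card : ℝ) * (lam ^ 2 * p) = lam ^ 2 * (S.card * p) := by ring
            _ ≤ lam ^ 2 * v := by gcongr
        have h6 : -(lam * t) + lam ^ 2 * v = -(t ^ 2) / (4 * v) := by
          rw [hlam]
          field_simp
          ring
        linarith

/-- both tails -/
theorem tail2 {ι κ : Type} [Fintype ι] [DecidableEq ι] [Fintype κ] [DecidableEq κ]
    (S : Finset ι) (B : Finset κ) (hκ : 0 < Fintype.card κ) (v t : ℝ) (hv : 0 < v)
    (hS : (S.card : ℝ) * ((B.card : ℝ) / Fintype.card κ) ≤ v) (ht : 0 ≤ t) (ht2 : t ≤ 2 * v) :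
    ((univ.filter (fun ψ : ι → κ => t ≤ |((S.filter (fun i => ψ i ∈ B)).card : ℝ) -
      (S.card : ℝ) * (B.card / Fintype.card κ)|)).card : ℝ) ≤
      2 * Real.exp (-(t ^ 2) / (4 * v)) * (Fintype.card (ι → κ) : ℝ) := by
  classical
  have h1 := tail1 S B hκ v t 1 hv hS ht ht2 (Or.inl rfl)
  have h2 := tail1 S B hκ v t (-1) hv hS ht ht2 (Or.inr rfl)
  have h3 : (univ.filter (fun ψ : ι → κ => t ≤ |((S.filter (fun i => ψ i ∈ B)).card : ℝ) -
      (S.card : ℝ) * (B.card / Fintype.card κ)|)) ⊆
      (univ.filter (fun ψ : ι → κ => t ≤ 1 * (((S.filter (fun i => ψ i ∈ B)).card : ℝ) -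
      (S.card : ℝ) * (B.card / Fintype.card κ)))) ∪
      (univ.filter (fun ψ : ι → κ => t ≤ -1 * (((S.filter (fun i => ψ i ∈ B)).card : ℝ) -
      (S.card : ℝ) * (B.card / Fintype.card κ)))) := by
    intro ψ hψ
    rw [mem_filter] at hψ
    rw [mem_union, mem_filter, mem_filter]
    rcases le_abs'.1 hψ.2 with h | h
    · right
      refine ⟨mem_univ _, ?_⟩
      linarith
    · left
      refine ⟨mem_univ _, ?_⟩
      linarith
  have h4 := (card_le_card h3).trans (card_union_le _ _)
  have h5 : ((univ.filter (fun ψ : ι → κ => t ≤ |((S.filter (fun i => ψ i ∈ B)).card : ℝ) -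
      (S.card : ℝ) * (B.card / Fintype.card κ)|)).card : ℝ) ≤
      ((univ.filter (fun ψ : ι → κ => t ≤ 1 * (((S.filter (fun i => ψ i ∈ B)).card : ℝ) -
      (S.card : ℝ) * (B.card / Fintype.card κ)))).card : ℝ) +
      ((univ.filter (fun ψ : ι → κ => t ≤ -1 * (((S.filter (fun i => ψ i ∈ B)).card : ℝ) -
      (S.card : ℝ) * (B.card / Fintype.card κ)))).card : ℝ) := by
    exact_mod_cast h4
  linarith

/-- a random function: no violation in the first family, few in the second family -/
theorem rfun {ι κ I K : Type} [Fintype ι] [DecidableEq ι] [Fintype κ] [DecidableEq κ]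
    [Fintype I] [Fintype K] (hκ : 0 < Fintype.card κ)
    (A : I → Finset ι) (B : I → Finset κ) (v t : I → ℝ) (x : ℝ)
    (hv : ∀ i, 0 < v i) (hA : ∀ i, ((A i).card : ℝ) * ((B i).card / Fintype.card κ) ≤ v i)
    (ht : ∀ i, 0 ≤ t i ∧ t i ≤ 2 * v i) (hx : ∀ i, 4 * v i * x ≤ (t i) ^ 2)
    (hI : 4 * (Fintype.card I : ℝ) * Real.exp (-x) < 1)
    (A' : K → Finset ι) (B' : K → Finset κ) (v' t' : ℝ)
    (hv' : 0 < v') (hA' : ∀ i, ((A' i).card : ℝ) * ((B' i).card / Fintype.card κ) ≤ v')
    (ht' : 0 ≤ t' ∧ t' ≤ 2 * v') :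
    ∃ ψ : ι → κ, (∀ i, |(((A i).filter (fun a => ψ a ∈ B i)).card : ℝ) -
        (A i).card * ((B i).card / Fintype.card κ)| ≤ t i) ∧
      ((univ.filter (fun i : K => t' < |(((A' i).filter (fun a => ψ a ∈ B' i)).card : ℝ) -
        (A' i).card * ((B' i).card / Fintype.card κ)|)).card : ℝ) ≤
        4 * Real.exp (-(t' ^ 2) / (4 * v')) * Fintype.card K := by
  classical
  have hne : Nonempty κ := Fintype.card_pos_iff.1 hκ
  set Ω := (ι → κ) with hΩ
  have hΩ0 : (0 : ℝ) < Fintype.card Ω := by
    have : 0 < Fintype.card Ω := Fintype.card_pos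
    exact_mod_cast this
  let bad1 : I → Ω → Prop := fun i ψ => t i ≤ |(((A i).filter (fun a => ψ a ∈ B i)).card : ℝ) -
        (A i).card * ((B i).card / Fintype.card κ)|
  let bad2 : K → Ω → Prop := fun i ψ => t' ≤ |(((A' i).filter (fun a => ψ a ∈ B' i)).card : ℝ) -
        (A' i).card * ((B' i).card / Fintype.card κ)|
  set δ : ℝ := Real.exp (-(t' ^ 2) / (4 * v')) with hδ
  have hδ0 : 0 < δ := Real.exp_pos _
  have h1 : ∀ i, ((univ.filter (fun ψ : Ω => bad1 i ψ)).card : ℝ) ≤
      2 * Real.exp (-x) * Fintype.card Ω := by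
    intro i
    refine (tail2 (A i) (B i) hκ (v i) (t i) (hv i) (hA i) (ht i).1 (ht i).2).trans ?_
    gcongr
    rw [neg_div, neg_le_neg_iff, le_div_iff₀ (by have := hv i; positivity)]
    have := hx i
    linarith
  have h2 : ∀ i, ((univ.filter (fun ψ : Ω => bad2 i ψ)).card : ℝ) ≤
      2 * δ * Fintype.card Ω := fun i => tail2 (A' i) (B' i) hκ v' t' hv' (hA' i) ht'.1 ht'.2
  by_contra hcon
  push Not at hcon
  -- every outcome is bad
  have h3 : ∀ ψ : Ω, 0 < Fintype.card K → (4 * δ * Fintype.card K : ℝ) ≤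
      ∑ i : I, (if bad1 i ψ then 4 * δ * Fintype.card K else 0) +
      ∑ i : K, (if bad2 i ψ then (1 : ℝ) else 0) := by
    intro ψ _
    by_cases hb : ∃ i, bad1 i ψ
    · obtain ⟨i, hi⟩ := hb
      have e1 : (4 * δ * Fintype.card K : ℝ) ≤
          ∑ i : I, (if bad1 i ψ then 4 * δ * Fintype.card K else 0) := by
        have := single_le_sum (f := fun i => if bad1 i ψ then (4 * δ * Fintype.card K : ℝ) else 0)
          (fun j _ => by split_ifs <;> positivity) (mem_univ i)
        simpa only [if_pos hi] using this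
      have e2 : (0 : ℝ) ≤ ∑ i : K, (if bad2 i ψ then (1 : ℝ) else 0) :=
        sum_nonneg fun j _ => by split_ifs <;> norm_num
      linarith
    · push Not at hb
      have h4 := hcon ψ (fun i => by
        have := hb i
        simp only [bad1, not_le] at this
        exact this.le)
      have e1 : ∑ i : I, (if bad1 i ψ then (4 * δ * Fintype.card K : ℝ) else 0) = 0 := by
        apply sum_eq_zero
        intro i _
        rw [if_neg (hb i)]
      rw [e1, zero_add, sum_boole]
      refine h4.le.trans ?_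
      have : (univ.filter (fun i : K => t' < |(((A' i).filter (fun a => ψ a ∈ B' i)).card : ℝ) -
        (A' i).card * ((B' i).card / Fintype.card κ)|)) ⊆ univ.filter (fun i => bad2 i ψ) := by
        intro i hi
        rw [mem_filter] at hi ⊢
        exact ⟨hi.1, hi.2.le⟩
      exact_mod_cast card_le_card this
  rcases Nat.eq_zero_or_pos (Fintype.card K) with hK | hK
  · -- no second family
    have h3' : ∀ ψ : Ω, (1 : ℝ) ≤ ∑ i : I, (if bad1 i ψ then (1 : ℝ) else 0) := by
      intro ψ
      by_cases hb : ∃ i, bad1 i ψ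
      · obtain ⟨i, hi⟩ := hb
        have := single_le_sum (f := fun i => if bad1 i ψ then (1 : ℝ) else 0)
          (fun j _ => by split_ifs <;> positivity) (mem_univ i)
        simpa only [if_pos hi] using this
      · push Not at hb
        have h4 := hcon ψ (fun i => by
          have := hb i
          simp only [bad1, not_le] at this
          exact this.le)
        rw [hK, Nat.cast_zero, mul_zero] at h4
        exfalso
        have h5 : (univ.filter (fun i : K => t' < |(((A' i).filter (fun a => ψ a ∈ B' i)).card : ℝ) -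
          (A' i).card * ((B' i).card / Fintype.card κ)|)).card ≤ Fintype.card K := card_le_univ _
        rw [hK] at h5
        have h6 : (((univ.filter (fun i : K => t' < |(((A' i).filter (fun a => ψ a ∈ B' i)).card : ℝ) -
          (A' i).card * ((B' i).card / Fintype.card κ)|)).card : ℕ) : ℝ) ≤ 0 := by exact_mod_cast h5
        linarith
    have h4 : (Fintype.card Ω : ℝ) ≤ ∑ ψ : Ω, ∑ i : I, (if bad1 i ψ then (1 : ℝ) else 0) := by
      calc (Fintype.card Ω : ℝ) = ∑ _ψ : Ω, (1 : ℝ) := by simp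
        _ ≤ _ := sum_le_sum fun ψ _ => h3' ψ
    rw [sum_comm] at h4
    have h5 : ∑ i : I, ∑ ψ : Ω, (if bad1 i ψ then (1 : ℝ) else 0) ≤
        ∑ _i : I, 2 * Real.exp (-x) * Fintype.card Ω := by
      apply sum_le_sum
      intro i _
      rw [sum_boole]
      exact h1 i
    rw [sum_const, nsmul_eq_mul, card_univ] at h5
    have h6 : (Fintype.card I : ℝ) * (2 * Real.exp (-x) * Fintype.card Ω) =
        (4 * (Fintype.card I : ℝ) * Real.exp (-x)) * (Fintype.card Ω / 2) := by ring
    rw [h6] at h5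
    have h7 : (4 * (Fintype.card I : ℝ) * Real.exp (-x)) * (Fintype.card Ω / 2) <
        1 * (Fintype.card Ω / 2 : ℝ) := by
      apply mul_lt_mul_of_pos_right hI
      positivity
    linarith
  · have hKr : (0 : ℝ) < Fintype.card K := by exact_mod_cast hK
    have h4 : (Fintype.card Ω : ℝ) * (4 * δ * Fintype.card K) ≤
        ∑ ψ : Ω, (∑ i : I, (if bad1 i ψ then 4 * δ * Fintype.card K else 0) +
      ∑ i : K, (if bad2 i ψ then (1 : ℝ) else 0)) := by
      calc (Fintype.card Ω : ℝ) * (4 * δ * Fintype.card K) =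
          ∑ _ψ : Ω, (4 * δ * Fintype.card K : ℝ) := by simp
        _ ≤ _ := sum_le_sum fun ψ _ => h3 ψ hK
    rw [sum_add_distrib, sum_comm, sum_comm (s := (univ : Finset Ω)) (t := (univ : Finset K))] at h4
    have h5 : ∑ i : I, ∑ ψ : Ω, (if bad1 i ψ then 4 * δ * Fintype.card K else 0) ≤
        ∑ _i : I, (2 * Real.exp (-x) * Fintype.card Ω) * (4 * δ * Fintype.card K) := by
      apply sum_le_sum
      intro i _
      have : ∑ ψ : Ω, (if bad1 i ψ then 4 * δ * Fintype.card K else 0) =
          (∑ ψ : Ω, (if bad1 i ψ then (1 : ℝ) else 0)) * (4 * δ * Fintype.card K) := by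
        rw [sum_mul]
        apply sum_congr rfl
        intro ψ _
        split_ifs <;> simp
      rw [this, sum_boole]
      exact mul_le_mul_of_nonneg_right (h1 i) (by positivity)
    have h6 : ∑ i : K, ∑ ψ : Ω, (if bad2 i ψ then (1 : ℝ) else 0) ≤
        ∑ _i : K, 2 * δ * Fintype.card Ω := by
      apply sum_le_sum
      intro i _
      rw [sum_boole]
      exact h2 i
    rw [sum_const, nsmul_eq_mul, card_univ] at h5 h6
    have h7 : (Fintype.card I : ℝ) * ((2 * Real.exp (-x) * Fintype.card Ω) *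
        (4 * δ * Fintype.card K)) =
        (4 * (Fintype.card I : ℝ) * Real.exp (-x)) * (Fintype.card Ω * (2 * δ * Fintype.card K)) := by
      ring
    rw [h7] at h5
    have h8 : (4 * (Fintype.card I : ℝ) * Real.exp (-x)) *
        (Fintype.card Ω * (2 * δ * Fintype.card K)) <
        1 * (Fintype.card Ω * (2 * δ * Fintype.card K) : ℝ) := by
      apply mul_lt_mul_of_pos_right hI
      positivity
    linarith

end Pool.Agent.W2helper87.FR
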